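import Mathlib
import Pool.Graph.R_seed8.H13R3.EM.Defs

set_option autoImplicit false

/-!
# Q2 of MP_dafbe7_nt and MP_2a1a00_nt: statements of the tasks
-/

open Finset

namespace Pool.Agent.H472.Q2

open Pool.Agent.H469R10.HO Pool.Agent.H13R3.EM

/-- the parameter `lam`; the degree is `2 lam = 4 m + 4` -/
noncomputable def lamQ (m : ℕ) : ℝ := 2 * m + 2

/-- the normalizing exponent `(2m+1)/(2m+2) = 1/2 + m / lam` -/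
noncomputable def kapQ (m : ℕ) : ℝ := (2 * m + 1) / (2 * m + 2)

/-- TASK BOL: the boundary relation with a polynomial gives the theta relation. -/
def TaskBol : Prop := ∀ (m : ℕ), 1 ≤ m → ∀ (α u q : ℕ → ℝ), Summable (fun n => |α n|) → (∀ n, 0 ≤ u n) →
  (∀ x : ℝ, 0 < x → (∑' n, α n * Real.cos (u n * x)) - ∑ i ∈ range (m + 1), q i * x ^ (2 * i) =
    x ^ (2 * m) * ((∑' n, α n * Real.cos (u n * x⁻¹)) - ∑ i ∈ range (m + 1), q i * x⁻¹ ^ (2 * i))) →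
  ∀ t : ℝ, 0 < t → ∑' n, α n * u n ^ (2 * m + 1) * Real.exp (-(u n / t)) =
    (-1) ^ (m + 1) * t ^ (2 * m + 2) * ∑' n, α n * u n ^ (2 * m + 1) * Real.exp (-(u n * t))

/-- TASK SM: the second moment of the summatory function. -/
def TaskSM : Prop := ∀ (m : ℕ) (c M : ℝ) (α : ℕ → ℝ), 1 ≤ m → 0 < c → α 1 ≠ 0 → Summable (fun n => |α n|) →
  (∀ S : Finset ℕ, ∑ y ∈ S.image (fun n => ⌊uu c (lamQ m) n⌋₊), (1 + (y : ℝ)) ^ (2 * (m : ℝ) - 1 / 4) *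
    (∑ n ∈ S.filter (fun n => ⌊uu c (lamQ m) n⌋₊ = y), |α n|) ^ 2 ≤ M) →
  (∀ t : ℝ, 0 < t → ∑' n, α n * uu c (lamQ m) n ^ (2 * m + 1) * Real.exp (-(uu c (lamQ m) n / t)) =
    (-1) ^ (m + 1) * t ^ (2 * m + 2) * ∑' n, α n * uu c (lamQ m) n ^ (2 * m + 1) * Real.exp (-(uu c (lamQ m) n * t))) →
  ∃ C δ K : ℝ, 0 < C ∧ 0 < δ ∧ ∀ T : ℝ, 1 ≤ T →
    |(∫ x in (1:ℝ)..T, (EE (fun n => α n * (n : ℝ) ^ kapQ m) x) ^ 2) - C * T ^ (2 - 1 / (4 * (m : ℝ) + 4))| ≤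
      K * T ^ (2 - 1 / (4 * (m : ℝ) + 4) - δ)

end Pool.Agent.H472.Q2
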