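import Mathlib
import Pool.Agent.H472.Q2.Stmts
import Pool.Graph.R_pool_sql_team_seeded_64922ed1.X88.BesselB

set_option autoImplicit false

/-!
# The second moment theorem `TaskSM`, split in two independent halves

Notation: `u_n = uu c (lamQ m) n = c n^(1/(2m+2))`, `A_n = α_n u_n^(2m+1)`,
`A ν t = ∑_k (-t)^k / (k! Γ(k+ν+1))` (library, `Pool.Agent.X88.Bessel`, with derivative, recursion
and the bound `|A ν t| ≤ A ν 0`).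
-/

open Finset

namespace Pool.Agent.H472.Q2

open Pool.Agent.H469R10.HO Pool.Agent.H13R3.EM

/-- `G(u) = ∑_{0 < u_n ≤ u} A_n` -/
noncomputable def GG (m : ℕ) (c : ℝ) (α : ℕ → ℝ) (u : ℝ) : ℝ :=
  ∑ n ∈ Icc 1 ⌊(u / c) ^ (lamQ m)⌋₊, α n * uu c (lamQ m) n ^ (2 * m + 1)

/-- `BB m w u = u^(2m+2) A_{2m+2}(w u) = ∑_k (-w)^k u^(2m+2+k) / (k! (2m+2+k)!)`; its Laplace transform
is `z^(-(2m+3)) exp(-w/z)` -/
noncomputable def BB (m : ℕ) (w u : ℝ) : ℝ := u ^ (2 * m + 2) * Pool.Agent.X88.Bessel.A (2 * m + 2) (w * u)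

/-- the dual sum up to `u_n ≤ Y` -/
noncomputable def MS (m : ℕ) (c : ℝ) (α : ℕ → ℝ) (Y u : ℝ) : ℝ :=
  ∑ n ∈ Icc 1 ⌊(Y / c) ^ (lamQ m)⌋₊, α n * uu c (lamQ m) n ^ (2 * m + 1) * BB m (uu c (lamQ m) n) u

/-- the hypotheses of `TaskSM` -/
structure DataSM (m : ℕ) (c M : ℝ) (α : ℕ → ℝ) : Prop where
  hm : 1 ≤ m
  hc : 0 < c
  h1 : α 1 ≠ 0
  hs : Summable (fun n => |α n|)
  hM : ∀ S : Finset ℕ, ∑ y ∈ S.image (fun n => ⌊uu c (lamQ m) n⌋₊), (1 + (y : ℝ)) ^ (2 * (m : ℝ) - 1 / 4) *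
    (∑ n ∈ S.filter (fun n => ⌊uu c (lamQ m) n⌋₊ = y), |α n|) ^ 2 ≤ M
  hθ : ∀ t : ℝ, 0 < t → ∑' n, α n * uu c (lamQ m) n ^ (2 * m + 1) * Real.exp (-(uu c (lamQ m) n / t)) =
    (-1) ^ (m + 1) * t ^ (2 * m + 2) * ∑' n, α n * uu c (lamQ m) n ^ (2 * m + 1) * Real.exp (-(uu c (lamQ m) n * t))

/-- conclusion of the first half: in mean square over `[U, 2U]`, `G` is the smoothed dual sum up to
`U^(7/8)`, smoothed over an interval of length `U^(1/10)`. -/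
def ConcSM1 (m : ℕ) (c : ℝ) (α : ℕ → ℝ) : Prop :=
  ∃ (ψ : ℝ → ℝ) (K U₀ : ℝ), Continuous ψ ∧ (∀ v, 0 ≤ ψ v) ∧ ∫ v in (0:ℝ)..1, ψ v = 1 ∧ 1 ≤ U₀ ∧
    ∀ U : ℝ, U₀ ≤ U → ∫ u in U..(2 * U), (GG m c α u -
      (-1) ^ (m + 1) * ∫ v in (0:ℝ)..1, ψ v * MS m c α (U ^ (7 / 8 : ℝ)) (u - U ^ (1 / 10 : ℝ) * v)) ^ 2 ≤
      K * U ^ (2 * (m : ℝ) + 5 / 2 - 1 / 20)

/-- TASK SM1 (Laplace transform, Plancherel). -/
def TaskSM1 : Prop := ∀ (m : ℕ) (c M : ℝ) (α : ℕ → ℝ), DataSM m c M α → ConcSM1 m c α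

/-- TASK SM2 (Bessel asymptotics, mean square of the dual sum, dyadic summation). -/
def TaskSM2 : Prop := ∀ (m : ℕ) (c M : ℝ) (α : ℕ → ℝ), DataSM m c M α → ConcSM1 m c α →
  ∃ C δ K : ℝ, 0 < C ∧ 0 < δ ∧ ∀ T : ℝ, 1 ≤ T →
    |(∫ x in (1:ℝ)..T, (EE (fun n => α n * (n : ℝ) ^ kapQ m) x) ^ 2) - C * T ^ (2 - 1 / (4 * (m : ℝ) + 4))| ≤
      K * T ^ (2 - 1 / (4 * (m : ℝ) + 4) - δ)

theorem taskSM_of (h1 : TaskSM1) (h2 : TaskSM2) : TaskSM := by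
  intro m c M α hm hc hα hs hM hθ
  have hD : DataSM m c M α := ⟨hm, hc, hα, hs, hM, hθ⟩
  exact h2 m c M α hD (h1 m c M α hD)

end Pool.Agent.H472.Q2
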