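import Mathlib
import Pool.Agent.H472.Q2.StmtsSM
import Pool.Graph.R_seed8.H469R10.HO.Stmts7

set_option autoImplicit false

/-!
# Q2 of MP_dafbe7_nt and MP_2a1a00_nt: statements of all tasks

Notation of the library (namespace `Pool.Agent.H469R10.HO`): `uu c lam n = c n^(1/lam)`, `xx j = π j / 2`,
`cell`, `jj`, `PP f j` = `j`-th cosine coefficient of `f` on `[0,2]`, `QQ w S cl β = ∑_y w y (∑_{cl i = y} |β i|)^2`,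
`WW c j = (1+j) log^4((1+j)/c)`, `bet`, `alp`.
-/

open Finset MeasureTheory

namespace Pool.Agent.H472.Q2

open Pool.Agent.H469R10.HO Pool.Agent.H13R3.EM

/-! ## The machine -/

/-- weights: `WS m c j = (1+j)^(2m-1/4) c^(-(2m-5/4)) log^4((1+j)/c)` -/
noncomputable def WS (m : ℕ) (c : ℝ) (j : ℕ) : ℝ := WW c j * ((1 + j) / c) ^ (2 * (m : ℝ) - 5 / 4)

/-- window: `1` for `x ≤ 3/2`, `0` for `x ≥ 7/4` -/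
noncomputable def win (x : ℝ) : ℝ := Real.smoothTransition (7 - 4 * x)

/-- cutoff: `1` for `x ≤ 2/3`, `0` for `x ≥ 3/4` -/
noncomputable def chi2 (x : ℝ) : ℝ := Real.smoothTransition (9 - 12 * x)

/-- dual operator, scale `R` -/
noncomputable def DR (m R : ℕ) (f : ℝ → ℝ) (x : ℝ) : ℝ :=
  chi2 ((R : ℝ) ^ 2 * x) * ((R : ℝ) * x) ^ (2 * m) * f ((R : ℝ) ^ 2 * x)⁻¹

/-- Taylor polynomial of `cos`, degree `2m-2` -/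
noncomputable def tay (m : ℕ) (y : ℝ) : ℝ := ∑ i ∈ range m, (-1) ^ i * y ^ (2 * i) / (2 * i).factorial

noncomputable def s0Q (m : ℕ) (c x : ℝ) : ℝ := Real.cos (c * x) - tay m (c * x)

/-- source -/
noncomputable def ssQ (m R : ℕ) (c : ℝ) (j : ℕ) : ℝ := - PP (fun x => win x * s0Q m c x) j + PP (DR m R (s0Q m c)) j

/-- columns -/
noncomputable def TQ (c lam : ℝ) (m R n j : ℕ) : ℝ :=
  if n = 0 ∨ n.Prime then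
    - PP (fun t => win t * (Real.cos (uu c lam n * t) - Real.cos (xx (jj c lam n) * t))) j
      + PP (DR m R (fun y => Real.cos (uu c lam n * y))) j
  else if Squarefree n ∧ 2 ≤ n.primeFactors.card then
    - PP (fun t => win t * Real.cos (uu c lam n * t)) j + PP (DR m R (fun y => Real.cos (uu c lam n * y))) j
  else 0

/-- TASK JQ (interpolation between the weights `1` and `(1+j)^(2m)`; library model: `H82R3/Task469J.lean`). -/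
def TaskJQ : Prop := ∀ m : ℕ, 1 ≤ m → ∃ C c₀ : ℝ, 0 < C ∧ 0 < c₀ ∧ ∀ c : ℝ, 0 < c → c ≤ c₀ →
  ∀ (cl : ℕ → ℕ) (T : ℕ → ℕ → ℝ) (κ : ℝ), 0 ≤ κ →
  (∀ (S : Finset ℕ) (β : ℕ → ℝ) (J : ℕ), ∑ j ∈ range J, (∑ n ∈ S, β n * T n j) ^ 2 ≤
    κ * ∑ y ∈ S.image cl, (∑ n ∈ S.filter (fun n => cl n = y), |β n|) ^ 2) →
  (∀ (S : Finset ℕ) (β : ℕ → ℝ) (J : ℕ), ∑ j ∈ range J, (1 + (j : ℝ)) ^ (2 * m) * (∑ n ∈ S, β n * T n j) ^ 2 ≤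
    κ * ∑ y ∈ S.image cl, (1 + (y : ℝ)) ^ (2 * m) * (∑ n ∈ S.filter (fun n => cl n = y), |β n|) ^ 2) →
  ∀ (S : Finset ℕ) (β : ℕ → ℝ) (J : ℕ), ∑ j ∈ range J, WS m c j * (∑ n ∈ S, β n * T n j) ^ 2 ≤
    C * κ * ∑ y ∈ S.image cl, WS m c y * (∑ n ∈ S.filter (fun n => cl n = y), |β n|) ^ 2

/-- TASK HQ (nonlinear estimate in the weight `WS`, from the library's `TaskH` by twisting). -/
def TaskHQ : Prop := ∀ (m : ℕ) (η : ℝ), 3 ≤ m → 0 < η → ∃ C c₀ : ℝ, 0 < C ∧ 0 < c₀ ∧ ∀ c : ℝ, 0 < c → c ≤ c₀ →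
  ∀ B : ℕ → Finset ℕ, (∀ j, ∀ p ∈ B j, 1 ≤ j ∧ p.Prime ∧ |uu c (lamQ m) p - xx j| ≤ 1 / 2) →
    (∀ j, 1 ≤ j → (B j).Nonempty ∧ ∀ p ∈ B j, η * p ≤ (B j).card * xx j * Real.log p) →
  ∀ b β : ℕ → ℝ, (∀ j, 0 ≤ b j) → (∀ j, ∀ p ∈ B j, β p = b j / (B j).card) →
    (∀ p, (∀ j, p ∉ B j) → β p = 0) →
  ∀ E : ℝ, 4 ^ m * E ≤ 1 → (∀ J, ∑ j ∈ range J, WS m c j * b j ^ 2 ≤ E) →
  ∀ (S : Finset ℕ), (∀ n ∈ S, Squarefree n ∧ 2 ≤ n.primeFactors.card) → ∀ Y : ℕ,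
    ∑ y ∈ range Y, WS m c y * (∑ n ∈ S.filter (fun n => cell (uu c (lamQ m) n) = y), ∏ p ∈ n.primeFactors, β p) ^ 2 ≤ C * E ^ 2

/-- TASK MQ (bounds for the dual operator; library model: `H99R3/Task469M.lean`). -/
def TaskMQ : Prop := ∀ m : ℕ, 2 ≤ m → Even m → ∃ C : ℝ, 0 < C ∧ ∀ R : ℕ, 2 ≤ R →
  ∀ (S : Finset ℕ) (cl : ℕ → ℕ) (ω β : ℕ → ℝ), (∀ i ∈ S, |ω i - xx (cl i)| ≤ 1) →
  (∀ J : ℕ, ∑ j ∈ range J, (PP (DR m R (fun y => ∑ i ∈ S, β i * Real.cos (ω i * y))) j) ^ 2 ≤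
      C / (R : ℝ) ^ 2 * QQ (fun _ => 1) S cl β) ∧
  (∀ J : ℕ, ∑ j ∈ range J, (1 + (j : ℝ)) ^ (2 * m) * (PP (DR m R (fun y => ∑ i ∈ S, β i * Real.cos (ω i * y))) j) ^ 2 ≤
      C / (R : ℝ) ^ 2 * QQ (fun y => (1 + (y : ℝ)) ^ (2 * m)) S cl β)

/-- TASK WIN (windowed columns: fast decay of the kernel and Schur's test, in every slowly varying weight). -/
def TaskWin : Prop := ∀ m : ℕ, ∃ C : ℝ, 0 < C ∧ ∀ (W : ℕ → ℝ) (A : ℝ), 0 < A → (∀ j, 0 < W j) →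
  (∀ i j : ℕ, W i ≤ A * (1 + |(i : ℝ) - j|) ^ (2 * m + 1) * W j) →
  ∀ (S : Finset ℕ) (cl : ℕ → ℕ) (ω β : ℕ → ℝ) (e : ℝ), 0 ≤ e → e ≤ 1 → (∀ i ∈ S, |ω i - xx (cl i)| ≤ e) → ∀ J : ℕ,
  (∑ j ∈ range J, W j * (∑ i ∈ S, β i * PP (fun t => win t * Real.cos (ω i * t)) j) ^ 2 ≤ C * A * QQ W S cl β) ∧
  (∑ j ∈ range J, W j * (∑ i ∈ S, β i * PP (fun t => win t * (Real.cos (ω i * t) - Real.cos (xx (cl i) * t))) j) ^ 2 ≤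
    C * A * e ^ 2 * QQ W S cl β)

/-- TASK NQ (size of the source `ssQ`). -/
def TaskNQ : Prop := ∀ m : ℕ, 2 ≤ m → Even m → ∀ R : ℕ, 2 ≤ R → ∀ ρ : ℝ, 0 < ρ → ∃ c₀ : ℝ, 0 < c₀ ∧
  ∀ c : ℝ, 0 < c → c ≤ c₀ → ∀ J : ℕ, ∑ j ∈ range J, WS m c j * (ssQ m R c j) ^ 2 ≤ ρ

/-- TASK RELQ (a fixed point gives the boundary relation; library model: `H13R3/EM/Rel.lean`). -/
def TaskRelQ : Prop := ∀ (c lam : ℝ) (m R : ℕ) (B : ℕ → Finset ℕ) (b : ℕ → ℝ) (r : ℝ → ℝ), 0 < c → 1 ≤ lam → 2 ≤ m →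
  2 ≤ R → Continuous r → (∀ x, 0 ≤ x → x ≤ 3 / (4 * (R : ℝ) ^ 2) → r x = 0) → (∀ x, 4 / 3 ≤ x → r x = 0) →
  (∀ x, 0 < x → r x = ((R : ℝ) * x) ^ (2 * m) * r ((R : ℝ) ^ 2 * x)⁻¹) →
  (∀ j, ∀ p ∈ B j, 1 ≤ j ∧ p.Prime ∧ |uu c lam p - xx j| ≤ 1 / 2) → (∀ j, 1 ≤ j → (B j).Nonempty) →
  Summable (fun n => |alp c lam B b n|) →
  (∀ j, b j = (ssQ m R c j + PP r j) + ∑' n, alp c lam B b n * TQ c lam m R n j) →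
  ∀ x : ℝ, 0 < x → (∑' n, alp c lam B b n * Real.cos (uu c lam n * x)) - tay m (c * x) =
    ((R : ℝ) * x) ^ (2 * m) * ((∑' n, alp c lam B b n * Real.cos (uu c lam n * ((R : ℝ) ^ 2 * x)⁻¹)) -
      tay m (c * ((R : ℝ) ^ 2 * x)⁻¹))

/-- TASK WRAPQ (from the theta relation to an element of the Selberg class; library model: `H13R3/EM/Wrap.lean`
with `1/4` replaced by `0`; `TaskF` of the library is proved). -/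
def TaskWrapQ : Prop := ∀ (m : ℕ) (c : ℝ) (β α : ℕ → ℝ), 1 ≤ m → 0 < c →
  (∀ p : ℕ, p.Prime → |β p| ≤ (p : ℝ) ^ (-kapQ m)) →
  (∀ n : ℕ, 1 ≤ n → α n = if Squarefree n then ∏ p ∈ n.primeFactors, β p else 0) →
  Summable (fun n => |α n|) →
  (∀ t : ℝ, 0 < t → ∑' n, α n * uu c (lamQ m) n ^ (2 * m + 1) * Real.exp (-(uu c (lamQ m) n / t)) =
    (-1) ^ (m + 1) * t ^ (2 * m + 2) * ∑' n, α n * uu c (lamQ m) n ^ (2 * m + 1) * Real.exp (-(uu c (lamQ m) n * t))) →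
  ∃ F : Sel, F.m0 = 0 ∧ F.deg = 4 * m + 4 ∧ ∀ n, 1 ≤ n → F.a n = ((α n * (n : ℝ) ^ kapQ m : ℝ) : ℂ)

/-- TASK PQ (size of the prime coefficients; library model: `primeH` in `H13R3/EM/Core.lean`). -/
def TaskPQ : Prop := ∀ (m : ℕ), 1 ≤ m → ∀ η : ℝ, 0 < η → ∃ c₀ : ℝ, 0 < c₀ ∧ ∀ c : ℝ, 0 < c → c ≤ c₀ →
  ∀ (B : ℕ → Finset ℕ), (∀ j, ∀ p ∈ B j, 1 ≤ j ∧ p.Prime ∧ |uu c (lamQ m) p - xx j| ≤ 1 / 2) →
    (∀ j, 1 ≤ j → (B j).Nonempty ∧ ∀ p ∈ B j, η * p ≤ (B j).card * xx j * Real.log p) →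
  ∀ b : ℕ → ℝ, (∀ j, WS m c j * b j ^ 2 ≤ 1) → ∀ p : ℕ, p.Prime →
    |bet c (lamQ m) B b p| ≤ (p : ℝ) ^ (-kapQ m)

/-! ### wave packet sources -/

/-- bump: supported in `[1/2, 1]`, `1` on `[5/8, 7/8]` -/
noncomputable def phi (x : ℝ) : ℝ := Real.smoothTransition (8 * x - 4) * Real.smoothTransition (8 - 8 * x)

/-- symmetric wave packet -/
noncomputable def rQ (m R J : ℕ) (x : ℝ) : ℝ :=
  phi x * Real.cos (xx J * x) + ((R : ℝ) * x) ^ (2 * m) * (phi ((R : ℝ) ^ 2 * x)⁻¹ * Real.cos (xx J * ((R : ℝ) ^ 2 * x)⁻¹))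

/-- TASK SRCQ (size of the wave packets in the weight `WS`, and a lower bound for their main coefficient). -/
def TaskSrcQ : Prop := ∀ m : ℕ, 2 ≤ m → Even m → ∃ (C c₀ : ℝ) (J₀ : ℕ), 0 < C ∧ 0 < c₀ ∧ ∀ R : ℕ, 4 ≤ R →
  (∀ c : ℝ, 0 < c → c ≤ c₀ → ∀ J I : ℕ, ∑ j ∈ range I, WS m c j * (PP (rQ m R J) j) ^ 2 ≤ C * WS m c J) ∧
  (∀ J : ℕ, J₀ ≤ J → 1 / 20 ≤ PP (rQ m R J) J)

/-! ### output of the machine -/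

/-- a family of elements with prescribed jumps; `c` is the scale of the nodes, `c'` the scale of the theta relation -/
structure FamQ (m : ℕ) (c e c₁ c' : ℝ) (J : ℕ → ℕ) (α : (ℕ → Bool) → ℕ → ℝ) : Prop where
  cont : ∀ n, Continuous fun s => α s n
  sel : ∀ s, ∃ F : Sel, F.m0 = 0 ∧ F.deg = 4 * m + 4 ∧ ∀ n, 1 ≤ n → F.a n = ((α s n * (n : ℝ) ^ kapQ m : ℝ) : ℂ)
  data : ∀ s, ∃ M : ℝ, DataSM m c' M (α s)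
  jump : ∀ (s s' : ℕ → Bool) (k : ℕ), (∀ i, i ≠ k → s i = s' i) → s k ≠ s' k → ∀ xa xb : ℝ,
    ((xx (J k - 1) + e) / c) ^ lamQ m ≤ xa → xa ≤ ((xx (J k) - e) / c) ^ lamQ m →
    ((xx (J k) + e) / c) ^ lamQ m ≤ xb → xb ≤ ((xx (J k + 1) - e) / c) ^ lamQ m →
    c₁ * (1 / 2) ^ k * (J k : ℝ) ^ ((m : ℝ) + 1 + 1 / 16) ≤
      |(EE (fun n => α s n * (n : ℝ) ^ kapQ m) xb - EE (fun n => α s' n * (n : ℝ) ^ kapQ m) xb) -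
       (EE (fun n => α s n * (n : ℝ) ^ kapQ m) xa - EE (fun n => α s' n * (n : ℝ) ^ kapQ m) xa)|

/-- TASK OUT (output of the machine). The sequence `J` is arbitrary (`≥ J₀`), the constants do not depend on it. -/
def TaskOut : Prop := ∃ m₀ : ℕ, ∀ m : ℕ, m₀ ≤ m → Even m → ∃ (c e c₁ c' : ℝ) (J₀ : ℕ), 0 < c ∧ 0 < e ∧ e ≤ 1 / 4 ∧ 0 < c₁ ∧
  0 < c' ∧ ∀ J : ℕ → ℕ, (∀ k, J₀ ≤ J k) → ∃ α : (ℕ → Bool) → ℕ → ℝ, FamQ m c e c₁ c' J α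

/-! ## The second moment theorem, smaller pieces -/

/-- TASK LAP: Laplace transform of `BB`. -/
def TaskLap : Prop := ∀ (m : ℕ) (w : ℝ) (z : ℂ), 0 ≤ w → 0 < z.re →
  IntegrableOn (fun u : ℝ => (BB m w u : ℂ) * Complex.exp (-(z * u))) (Set.Ioi 0) ∧
  ∫ u in Set.Ioi (0:ℝ), (BB m w u : ℂ) * Complex.exp (-(z * u)) = z⁻¹ ^ (2 * m + 3) * Complex.exp (-(w / z))

/-- TASK THZ: the theta relation for complex argument (identity theorem). -/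
def TaskThZ : Prop := ∀ (m : ℕ) (c M : ℝ) (α : ℕ → ℝ), DataSM m c M α → ∀ z : ℂ, 0 < z.re →
  ∑' n, ((α n * uu c (lamQ m) n ^ (2 * m + 1) : ℝ) : ℂ) * Complex.exp (-((uu c (lamQ m) n : ℝ) / z)) =
    (-1) ^ (m + 1) * z ^ (2 * m + 2) *
      ∑' n, ((α n * uu c (lamQ m) n ^ (2 * m + 1) : ℝ) : ℂ) * Complex.exp (-((uu c (lamQ m) n : ℝ) * z))

/-- TASK BES: asymptotics of the Bessel function. -/
def TaskBes : Prop := ∀ μ : ℝ, 1 / 2 ≤ μ → ∃ a b C : ℝ, (a ≠ 0 ∨ b ≠ 0) ∧ ∀ t : ℝ, 1 ≤ t →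
  |t ^ μ * Pool.Agent.X88.Bessel.A μ t - t ^ (μ / 2 - 1 / 4) * (a * Real.cos (2 * √t) + b * Real.sin (2 * √t))| ≤
    C * t ^ (μ / 2 - 3 / 4)

/-- TASK LS: mean square of a sum with frequencies `2 sqrt (u n)`. -/
def TaskLS : Prop := ∃ C : ℝ, 0 < C ∧ ∀ (S : Finset ℕ) (u a b : ℕ → ℝ) (Y V : ℝ), 1 ≤ Y → Y ^ (4 / 7 : ℝ) ≤ V →
  (∀ n ∈ S, 0 < u n ∧ u n ≤ Y) →
  ∫ v in V..(2 * V), (∑ n ∈ S, (a n * Real.cos (2 * √(u n) * v) + b n * Real.sin (2 * √(u n) * v))) ^ 2 ≤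
    C * V * ∑ y ∈ S.image (fun n => ⌊u n⌋₊), (∑ n ∈ S.filter (fun n => ⌊u n⌋₊ = y), (|a n| + |b n|)) ^ 2

/-! ## Final assembly -/

/-- exponent `σ = ∑ ℓ_j (d_j - 1) / (2 d_j)` -/
noncomputable def sigQ {k : ℕ} (d ℓ : Fin k → ℕ) : ℝ := ∑ j, (ℓ j : ℝ) * ((d j : ℝ) - 1) / (2 * (d j : ℝ))

/-- `F` (of degree `d`) has an `ℓ`-th moment asymptotic -/
def HasMoment (F : Sel) (d ℓ : ℕ) : Prop := ∃ C : ℂ, C ≠ 0 ∧ ∃ δ : ℝ, 0 < δ ∧ ∀ ε : ℝ, 0 < ε → ∃ K : ℝ, ∀ T : ℝ, 1 ≤ T →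
  ‖(∫ x in (1:ℝ)..T, F.err x ^ ℓ) - C * ((T ^ (1 + (ℓ : ℝ) * ((d : ℝ) - 1) / (2 * d)) : ℝ) : ℂ)‖ ≤
    K * T ^ (1 + (ℓ : ℝ) * ((d : ℝ) - 1) / (2 * d) - δ + ε)

/-- TASK FIN: the construction. For every weight `w ≥ 0` with a mean value (for instance `w = 1`, or
`w x = |L(1/2 + i x)|^2`) there are two entire elements of the Selberg class, of integer degrees `d₁ < d₂`, both with a
second moment asymptotic, such that the weighted mixed moment is not `O(T^(1+σ+ε₀))`. -/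
def TaskFin : Prop := TaskOut → TaskSM → ∀ (w : ℝ → ℝ) (P : Polynomial ℝ) (η : ℝ), 0 < η → (∀ x, 0 ≤ w x) →
  (∀ T : ℝ, 1 ≤ T → IntervalIntegrable w volume 1 T) → P ≠ 0 →
  (∃ C : ℝ, ∀ T : ℝ, 1 ≤ T → |(∫ x in (1:ℝ)..T, w x) - T * P.eval (Real.log T)| ≤ C * T ^ (1 - η)) →
  ∃ (F₁ F₂ : Sel) (d₁ d₂ : ℕ) (ε₀ : ℝ), 2 ≤ d₁ ∧ d₁ < d₂ ∧ F₁.deg = d₁ ∧ F₂.deg = d₂ ∧ F₁.m0 = 0 ∧ F₂.m0 = 0 ∧ 0 < ε₀ ∧
    HasMoment F₁ d₁ 2 ∧ HasMoment F₂ d₂ 2 ∧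
    ∀ K : ℝ, ∃ T : ℝ, 1 ≤ T ∧ K * T ^ (1 + sigQ ![d₁, d₂] ![2, 2] + ε₀) <
      ‖∫ x in (1:ℝ)..T, F₁.err x ^ 2 * F₂.err x ^ 2 * (w x : ℂ)‖

end Pool.Agent.H472.Q2
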