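import Mathlib
import Pool.Agent.H472.Q2.Tasks

set_option autoImplicit false

/-!
# Consequences of the construction: negations of Q2 of MP_dafbe7_nt and MP_2a1a00_nt
-/

open Finset MeasureTheory

namespace Pool.Agent.H472.Q2

open Pool.Agent.H469R10.HO Pool.Agent.H13R3.EM

/-- the output of the construction, for a weight `w` -/
def Spikes (w : ℝ → ℝ) : Prop := ∃ (F₁ F₂ : Sel) (d₁ d₂ : ℕ) (ε₀ : ℝ), 2 ≤ d₁ ∧ d₁ < d₂ ∧ F₁.deg = d₁ ∧ F₂.deg = d₂ ∧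
    F₁.m0 = 0 ∧ F₂.m0 = 0 ∧ 0 < ε₀ ∧ HasMoment F₁ d₁ 2 ∧ HasMoment F₂ d₂ 2 ∧
    ∀ K : ℝ, ∃ T : ℝ, 1 ≤ T ∧ K * T ^ (1 + sigQ ![d₁, d₂] ![2, 2] + ε₀) <
      ‖∫ x in (1:ℝ)..T, F₁.err x ^ 2 * F₂.err x ^ 2 * (w x : ℂ)‖

lemma poly_log_le (Q : Polynomial ℂ) {ε : ℝ} (hε : 0 < ε) : ∃ C : ℝ, 0 ≤ C ∧ ∀ T : ℝ, 1 ≤ T →
    ‖Q.eval ((Real.log T : ℝ) : ℂ)‖ ≤ C * T ^ ε := by
  set n := Q.natDegree with hn
  set δ : ℝ := ε / (n + 1) with hδ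
  have hn0 : (0:ℝ) < (n:ℝ) + 1 := by positivity
  have hδ0 : 0 < δ := by positivity
  refine ⟨∑ i ∈ range (n + 1), ‖Q.coeff i‖ * (1 / δ) ^ i, sum_nonneg fun i _ => by positivity, fun T hT => ?_⟩
  have hT0 : 0 < T := by linarith
  have hlog0 : 0 ≤ Real.log T := Real.log_nonneg hT
  have hlog : Real.log T ≤ T ^ δ / δ := Real.log_le_rpow_div hT0.le hδ0
  rw [Polynomial.eval_eq_sum_range, sum_mul]
  refine (norm_sum_le _ _).trans (sum_le_sum fun i hi => ?_)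
  rw [norm_mul, norm_pow, Complex.norm_real, Real.norm_of_nonneg hlog0, mul_assoc]
  apply mul_le_mul_of_nonneg_left _ (norm_nonneg _)
  have hi' : (i:ℝ) ≤ n + 1 := by
    have := mem_range.1 hi
    exact_mod_cast this.le
  calc Real.log T ^ i ≤ (T ^ δ / δ) ^ i := pow_le_pow_left₀ hlog0 hlog i
    _ = (1 / δ) ^ i * (T ^ δ) ^ i := by rw [div_eq_mul_one_div, mul_pow, mul_comm]
    _ ≤ (1 / δ) ^ i * T ^ ε := by
        apply mul_le_mul_of_nonneg_left _ (by positivity)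
        rw [← Real.rpow_natCast, ← Real.rpow_mul hT0.le]
        apply Real.rpow_le_rpow_of_exponent_le hT
        calc δ * i ≤ δ * (n + 1) := mul_le_mul_of_nonneg_left hi' hδ0.le
          _ = ε := by rw [hδ]; field_simp

/-- no main term of size `T^(1+σ)` times a polynomial in `log T` is possible -/
theorem no_main_term {w : ℝ → ℝ} (h : Spikes w) :
    ∃ (F : Fin 2 → Sel) (d : Fin 2 → ℕ), StrictMono d ∧ (∀ j, 2 ≤ d j) ∧ (∀ j, (F j).deg = (d j : ℝ)) ∧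
      (∀ j, (F j).m0 = 0) ∧ (∀ j, HasMoment (F j) (d j) 2) ∧
      (∃ ε₀ : ℝ, 0 < ε₀ ∧ ∀ K : ℝ, ∃ T : ℝ, 1 ≤ T ∧ K * T ^ (1 + sigQ d (fun _ => 2) + ε₀) <
        ‖∫ x in (1:ℝ)..T, (∏ j, (F j).err x ^ 2) * (w x : ℂ)‖) ∧
      ∀ Q : Polynomial ℂ, ¬ ∃ δ : ℝ, 0 < δ ∧ ∀ ε : ℝ, 0 < ε → ∃ K : ℝ, ∀ T : ℝ, 1 ≤ T →
        ‖(∫ x in (1:ℝ)..T, (∏ j, (F j).err x ^ 2) * (w x : ℂ)) -
          ((T ^ (1 + sigQ d (fun _ => 2)) : ℝ) : ℂ) * Q.eval ((Real.log T : ℝ) : ℂ)‖ ≤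
          K * T ^ (1 + sigQ d (fun _ => 2) - δ + ε) := by
  obtain ⟨F₁, F₂, d₁, d₂, ε₀, hd1, hd12, hF1, hF2, h10, h20, hε₀, hm1, hm2, hbig⟩ := h
  have hℓ : (![2, 2] : Fin 2 → ℕ) = fun _ => 2 := by
    funext j; fin_cases j <;> rfl
  rw [hℓ] at hbig
  have hbig' : ∀ K : ℝ, ∃ T : ℝ, 1 ≤ T ∧ K * T ^ (1 + sigQ ![d₁, d₂] (fun _ => 2) + ε₀) <
        ‖∫ x in (1:ℝ)..T, (∏ j, ((![F₁, F₂] : Fin 2 → Sel) j).err x ^ 2) * (w x : ℂ)‖ := by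
    intro K
    obtain ⟨T, hT, hK⟩ := hbig K
    refine ⟨T, hT, ?_⟩
    simp_rw [Fin.prod_univ_two]
    simpa using hK
  refine ⟨![F₁, F₂], ![d₁, d₂], ?_, ?_, ?_, ?_, ?_, ⟨ε₀, hε₀, hbig'⟩, ?_⟩
  · intro i j hij
    fin_cases i <;> fin_cases j
    · exact absurd hij (lt_irrefl _)
    · exact hd12
    · exact absurd hij (by decide)
    · exact absurd hij (lt_irrefl _)
  · intro j; fin_cases j; exacts [hd1, by simp; omega]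
  · intro j; fin_cases j; exacts [hF1, hF2]
  · intro j; fin_cases j; exacts [h10, h20]
  · intro j; fin_cases j; exacts [hm1, hm2]
  · rintro Q ⟨δ, hδ, hε⟩
    obtain ⟨K, hK⟩ := hε δ hδ
    obtain ⟨C, hC0, hC⟩ := poly_log_le Q hε₀
    obtain ⟨T, hT, hTK⟩ := hbig' (|K| + C)
    have hT0 : 0 < T := by linarith
    set σ := sigQ ![d₁, d₂] (fun _ => 2) with hσ
    have h1 := hK T hT
    set I := ∫ x in (1:ℝ)..T, (∏ j, ((![F₁, F₂] : Fin 2 → Sel) j).err x ^ 2) * (w x : ℂ) with hI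
    have h2 : ‖((T ^ (1 + σ) : ℝ) : ℂ) * Q.eval ((Real.log T : ℝ) : ℂ)‖ ≤ C * T ^ (1 + σ + ε₀) := by
      rw [norm_mul, Complex.norm_real, Real.norm_of_nonneg (by positivity), Real.rpow_add hT0 (1 + σ) ε₀]
      have := hC T hT
      calc T ^ (1 + σ) * ‖Q.eval ((Real.log T : ℝ) : ℂ)‖ ≤ T ^ (1 + σ) * (C * T ^ ε₀) :=
            mul_le_mul_of_nonneg_left this (by positivity)
        _ = _ := by ring
    have h3 : K * T ^ (1 + σ - δ + δ) ≤ |K| * T ^ (1 + σ + ε₀) := by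
      have e1 : 1 + σ - δ + δ = 1 + σ := by ring
      rw [e1]
      have e2 : T ^ (1 + σ) ≤ T ^ (1 + σ + ε₀) := Real.rpow_le_rpow_of_exponent_le hT (by linarith)
      have e3 : 0 ≤ T ^ (1 + σ) := by positivity
      calc K * T ^ (1 + σ) ≤ |K| * T ^ (1 + σ) := mul_le_mul_of_nonneg_right (le_abs_self K) e3
        _ ≤ _ := mul_le_mul_of_nonneg_left e2 (abs_nonneg K)
    have h4 : ‖I‖ ≤ ‖I - ((T ^ (1 + σ) : ℝ) : ℂ) * Q.eval ((Real.log T : ℝ) : ℂ)‖ +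
        ‖((T ^ (1 + σ) : ℝ) : ℂ) * Q.eval ((Real.log T : ℝ) : ℂ)‖ := by
      have := norm_add_le (I - ((T ^ (1 + σ) : ℝ) : ℂ) * Q.eval ((Real.log T : ℝ) : ℂ))
        (((T ^ (1 + σ) : ℝ) : ℂ) * Q.eval ((Real.log T : ℝ) : ℂ))
      rwa [sub_add_cancel] at this
    have h5 : (|K| + C) * T ^ (1 + σ + ε₀) = |K| * T ^ (1 + σ + ε₀) + C * T ^ (1 + σ + ε₀) := by ring
    linarith

end Pool.Agent.H472.Q2
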