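import Mathlib
import Pool.Agent.H472.Q2.Tasks
import Pool.Graph.R_seed8.H469R10.HO.N6
import Pool.Graph.R_seed8.H180R3.Task469Q
import Pool.Graph.R_seed8.H853R3.Task469RS

set_option autoImplicit false

/-!
# The fixed point machine with a general weight and general columns
(adapted from the library files `H469R10/HO/N5.lean`, `N6.lean`)
-/

open Finset MeasureTheory

namespace Pool.Agent.H472.Q2

open Pool.Agent.H469R10.HO Pool.Agent.H13R3.EM

section

variable (c lam : ℝ) (B : ℕ → Finset ℕ) (T : ℕ → ℕ → ℝ)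

/-- columns of `0` and of the primes in the blocks -/
noncomputable def T1Q (n j : ℕ) : ℝ := by
  classical
  exact if n = 0 ∨ n ∈ B (jj c lam n) then T n j else 0

/-- columns of the composite squarefree numbers -/
noncomputable def T2Q (n j : ℕ) : ℝ := by
  classical
  exact if ¬ (n = 0 ∨ n.Prime) ∧ (Squarefree n ∧ 2 ≤ n.primeFactors.card) then T n j else 0

end

/-- all hypotheses -/
structure MQ (c lam e CH K1 K2 CU E0 : ℝ) (B : ℕ → Finset ℕ) (W : ℕ → ℝ) (T : ℕ → ℕ → ℝ) : Prop where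
  hc : 0 < c
  hlam : 1 ≤ lam
  he : e ≤ 1 / 2
  hCH : 0 ≤ CH
  hK1 : 0 ≤ K1
  hK2 : 0 ≤ K2
  hB : ∀ j, ∀ p ∈ B j, 1 ≤ j ∧ p.Prime ∧ |uu c lam p - xx j| ≤ e
  hBne : ∀ j, 1 ≤ j → (B j).Nonempty
  hW : ∀ j, 0 < W j
  hR : ∀ F : Finset ℕ, ∑ y ∈ F, 1 / W y ≤ 2
  hH : ∀ b β : ℕ → ℝ, (∀ j, 0 ≤ b j) → (∀ j, ∀ p ∈ B j, β p = b j / (B j).card) →
    (∀ p, (∀ j, p ∉ B j) → β p = 0) →
    ∀ E : ℝ, E ≤ E0 → (∀ J, ∑ j ∈ range J, W j * b j ^ 2 ≤ E) →
    ∀ (S : Finset ℕ), (∀ n ∈ S, Squarefree n ∧ 2 ≤ n.primeFactors.card) → ∀ Y : ℕ,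
      ∑ y ∈ range Y, W y * (∑ n ∈ S.filter (fun n => cell (uu c lam n) = y), ∏ p ∈ n.primeFactors, β p) ^ 2 ≤ CH * E ^ 2
  hT1 : ∀ (S : Finset ℕ) (β : ℕ → ℝ) (J : ℕ),
    ∑ j ∈ range J, W j * (∑ n ∈ S, β n * T1Q c lam B T n j) ^ 2 ≤ K1 * QQ W S (jj c lam) β
  hT2 : ∀ (S : Finset ℕ) (β : ℕ → ℝ) (J : ℕ),
    ∑ j ∈ range J, W j * (∑ n ∈ S, β n * T2Q T n j) ^ 2 ≤ K2 * QQ W S (jj c lam) β
  hU : ∀ n j, |T n j| ≤ CU
  hT0 : ∀ n j, ¬ (n = 0 ∨ n.Prime) → ¬ (Squarefree n ∧ 2 ≤ n.primeFactors.card) → T n j = 0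

variable {c lam e CH K1 K2 CU E0 : ℝ} {B : ℕ → Finset ℕ} {W : ℕ → ℝ} {T : ℕ → ℕ → ℝ}

namespace MQ

variable (h : MQ c lam e CH K1 K2 CU E0 B W T)
include h

lemma jj_mem {j p : ℕ} (hp : p ∈ B j) : jj c lam p = j :=
  cell_eq ((h.hB j p hp).2.2.trans h.he)

lemma bet_mem (b : ℕ → ℝ) {j p : ℕ} (hp : p ∈ B j) : bet c lam B b p = b j / (B j).card := by
  unfold bet
  rw [h.jj_mem hp, if_pos hp]

omit h in
lemma bet_not (b : ℕ → ℝ) {p : ℕ} (hp : ∀ j, p ∉ B j) : bet c lam B b p = 0 := by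
  unfold bet
  rw [if_neg (hp _)]

omit h in
lemma alp_prime (b : ℕ → ℝ) {p : ℕ} (hp : p.Prime) : alp c lam B b p = bet c lam B b p := by
  unfold alp
  rw [if_neg hp.ne_zero, if_pos hp.prime.squarefree, hp.primeFactors, prod_singleton]

/-- `alp = T1 part + T2 part` -/
lemma split (b : ℕ → ℝ) (n j : ℕ) :
    alp c lam B b n * T n j = alp c lam B b n * T1Q c lam B T n j + alp c lam B b n * T2Q T n j := by
  classical
  unfold T1Q T2Q
  by_cases h0 : n = 0
  · subst h0; simp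
  by_cases hp : n.Prime
  · by_cases hB : n ∈ B (jj c lam n)
    · simp [hp, hB]
    · have : alp c lam B b n = 0 := by
        rw [alp_prime b hp]; unfold bet; rw [if_neg hB]
      rw [this]; simp
  · have hnB : ¬ (n = 0 ∨ n ∈ B (jj c lam n)) := by
      rintro (h1 | h1)
      · exact h0 h1
      · exact hp (h.hB _ n h1).2.1
    rw [if_neg hnB, mul_zero, zero_add]
    by_cases hs : Squarefree n ∧ 2 ≤ n.primeFactors.card
    · rw [if_pos ⟨by tauto, hs⟩]
    · rw [if_neg (by tauto)]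
      rw [h.hT0 n j (by tauto) hs, mul_zero]

/-- linear part of a difference -/
noncomputable def gg (c lam : ℝ) (B : ℕ → Finset ℕ) (b b' : ℕ → ℝ) (n : ℕ) : ℝ :=
  if n = 0 ∨ n ∈ B (jj c lam n) then alp c lam B b n - alp c lam B b' n else 0

/-- composite part of a difference -/
noncomputable def hh (c lam : ℝ) (B : ℕ → Finset ℕ) (b b' : ℕ → ℝ) (n : ℕ) : ℝ :=
  if ¬ (n = 0 ∨ n.Prime) ∧ (Squarefree n ∧ 2 ≤ n.primeFactors.card) then alp c lam B b n - alp c lam B b' n else 0

lemma QQ_gg {b b' : ℕ → ℝ} {D : ℝ} (hD : ∀ J : ℕ, ∑ j ∈ range J, W j * (b j - b' j) ^ 2 ≤ D ^ 2) (S : Finset ℕ) :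
    QQ (W) S (jj c lam) (gg c lam B b b') ≤ D ^ 2 := by
  classical
  have hW := h.hW
  have hin : ∀ y, ∑ n ∈ S.filter (fun n => jj c lam n = y), |gg c lam B b b' n| ≤ |b y - b' y| := by
    intro y
    by_cases hy : y = 0
    · subst hy
      calc ∑ n ∈ S.filter (fun n => jj c lam n = 0), |gg c lam B b b' n|
          ≤ ∑ n ∈ S.filter (fun n => jj c lam n = 0), (if n = 0 then |b 0 - b' 0| else 0) := by
            apply sum_le_sum
            intro n hn
            rw [mem_filter] at hn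
            unfold gg
            by_cases h0 : n = 0
            · subst h0
              simp [alp]
            · have : ¬ (n = 0 ∨ n ∈ B (jj c lam n)) := by
                rintro (h1 | h1)
                · exact h0 h1
                · have := (h.hB _ n h1).1
                  omega
              rw [if_neg this, if_neg h0]; simp
        _ ≤ |b 0 - b' 0| := by
            rw [sum_ite_eq']
            split_ifs
            · exact le_rfl
            · exact abs_nonneg _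
    · have hne := h.hBne y (by omega)
      have hcard : (0:ℝ) < (B y).card := by exact_mod_cast hne.card_pos
      calc ∑ n ∈ S.filter (fun n => jj c lam n = y), |gg c lam B b b' n|
          ≤ ∑ n ∈ S.filter (fun n => jj c lam n = y), (if n ∈ B y then |b y - b' y| / (B y).card else 0) := by
            apply sum_le_sum
            intro n hn
            rw [mem_filter] at hn
            unfold gg
            rw [hn.2]
            by_cases h0 : n = 0
            · subst h0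
              rw [jj_zero h.hlam] at hn
              exact absurd hn.2.symm hy
            by_cases h1 : n ∈ B y
            · have hpr := (h.hB y n h1).2.1
              rw [if_pos (Or.inr h1), if_pos h1, alp_prime b hpr, alp_prime b' hpr, h.bet_mem b h1, h.bet_mem b' h1,
                ← sub_div, abs_div, abs_of_pos hcard]
            · rw [if_neg (by tauto), if_neg h1]; simp
        _ ≤ ∑ n ∈ B y, |b y - b' y| / (B y).card := by
            rw [← sum_filter]
            apply sum_le_sum_of_subset_of_nonneg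
            · intro n hn
              simp only [mem_filter] at hn
              exact hn.2
            · intro n _ _; positivity
        _ = |b y - b' y| := by
            rw [sum_const, nsmul_eq_mul]; field_simp
  calc QQ (W) S (jj c lam) (gg c lam B b b') ≤ ∑ y ∈ S.image (jj c lam), W y * (b y - b' y) ^ 2 := by
        unfold QQ
        apply sum_le_sum
        intro y _
        apply mul_le_mul_of_nonneg_left _ (hW y).le
        rw [← sq_abs (b y - b' y)]
        exact pow_le_pow_left₀ (sum_nonneg fun i _ => abs_nonneg _) (hin y) 2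
    _ ≤ ∑ y ∈ range ((S.image (jj c lam)).sup id + 1), W y * (b y - b' y) ^ 2 := by
        apply sum_le_sum_of_subset_of_nonneg
        · intro y hy
          rw [mem_range]
          have : id y ≤ (S.image (jj c lam)).sup id := le_sup hy
          simp only [id] at this
          omega
        · intro y _ _
          exact mul_nonneg (hW y).le (sq_nonneg _)
    _ ≤ _ := hD _

lemma hh_le {b b' : ℕ → ℝ} {τ : ℝ} (hτ : 0 < τ) (n : ℕ) :
    τ * |hh c lam B b b' n| ≤
      if ¬ (n = 0 ∨ n.Prime) ∧ (Squarefree n ∧ 2 ≤ n.primeFactors.card) then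
        ∏ p ∈ n.primeFactors, bet c lam B (fun j => |b j| + |b' j| + τ * |b j - b' j|) p else 0 := by
  unfold hh
  split_ifs with hn
  · have e1 : alp c lam B b n = ∏ p ∈ n.primeFactors, bet c lam B b p := by
      unfold alp; rw [if_neg (by tauto), if_pos hn.2.1]
    have e2 : alp c lam B b' n = ∏ p ∈ n.primeFactors, bet c lam B b' p := by
      unfold alp; rw [if_neg (by tauto), if_pos hn.2.1]
    rw [e1, e2]
    have habs : ∀ (x : ℕ → ℝ) p, |bet c lam B x p| = bet c lam B (fun j => |x j|) p := by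
      intro x p
      unfold bet
      split_ifs
      · rw [abs_div, Nat.abs_cast]
      · simp
    have hadd : ∀ p, bet c lam B (fun j => |b j| + |b' j| + τ * |b j - b' j|) p =
        (|bet c lam B b p| + |bet c lam B b' p|) + τ * |bet c lam B b p - bet c lam B b' p| := by
      intro p
      have e3 : bet c lam B b p - bet c lam B b' p = bet c lam B (fun j => b j - b' j) p := by
        unfold bet; split_ifs <;> ring
      rw [e3, habs, habs, habs]
      unfold bet
      split_ifs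
      · ring
      · ring
    simp_rw [hadd]
    exact Pool.Agent.H853R3.RS.taskS' n.primeFactors (bet c lam B b) (bet c lam B b') (fun p => |bet c lam B b p| + |bet c lam B b' p|)
      (fun p => |bet c lam B b p - bet c lam B b' p|) τ hτ (fun i _ => le_add_of_nonneg_right (abs_nonneg _))
      (fun i _ => le_add_of_nonneg_left (abs_nonneg _)) (fun i _ => le_rfl)
  · simp

lemma QQ_hh {b b' : ℕ → ℝ} {ρ D τ : ℝ} (hτ : 0 < τ) (hD0 : 0 ≤ D) (hτD : τ * D ≤ ρ) (hρ : 9 * ρ ^ 2 ≤ E0)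
    (hb : ∀ J : ℕ, ∑ j ∈ range J, W j * b j ^ 2 ≤ ρ ^ 2) (hb' : ∀ J : ℕ, ∑ j ∈ range J, W j * b' j ^ 2 ≤ ρ ^ 2)
    (hD : ∀ J : ℕ, ∑ j ∈ range J, W j * (b j - b' j) ^ 2 ≤ D ^ 2) (S : Finset ℕ) :
    τ ^ 2 * QQ (W) S (jj c lam) (hh c lam B b b') ≤ CH * (9 * ρ ^ 2) ^ 2 := by
  classical
  have hW := h.hW
  set bt : ℕ → ℝ := fun j => |b j| + |b' j| + τ * |b j - b' j| with hbt
  have hbt0 : ∀ j, 0 ≤ bt j := fun j => by rw [hbt]; positivity
  have hE : ∀ J, ∑ j ∈ range J, W j * bt j ^ 2 ≤ 9 * ρ ^ 2 := by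
    intro J
    have h1 : ∀ j, W j * bt j ^ 2 ≤ 3 * (W j * b j ^ 2) + 3 * (W j * b' j ^ 2) + 3 * τ ^ 2 * (W j * (b j - b' j) ^ 2) := by
      intro j
      have hw := (hW j).le
      have : bt j ^ 2 ≤ 3 * b j ^ 2 + 3 * b' j ^ 2 + 3 * τ ^ 2 * (b j - b' j) ^ 2 := by
        rw [hbt, ← sq_abs (b j), ← sq_abs (b' j), ← sq_abs (b j - b' j)]
        simp only
        nlinarith [sq_nonneg (|b j| - |b' j|), sq_nonneg (|b j| - τ * |b j - b' j|), sq_nonneg (|b' j| - τ * |b j - b' j|)]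
      calc W j * bt j ^ 2 ≤ W j * (3 * b j ^ 2 + 3 * b' j ^ 2 + 3 * τ ^ 2 * (b j - b' j) ^ 2) :=
            mul_le_mul_of_nonneg_left this hw
        _ = _ := by ring
    refine (sum_le_sum fun j _ => h1 j).trans ?_
    rw [sum_add_distrib, sum_add_distrib, ← mul_sum, ← mul_sum, ← mul_sum]
    have a1 := hb J
    have a2 := hb' J
    have a3 := hD J
    have a4 : τ ^ 2 * D ^ 2 ≤ ρ ^ 2 := by
      rw [← mul_pow]
      exact pow_le_pow_left₀ (by positivity) hτD 2
    have a5 : 3 * τ ^ 2 * ∑ j ∈ range J, W j * (b j - b' j) ^ 2 ≤ 3 * τ ^ 2 * D ^ 2 :=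
      mul_le_mul_of_nonneg_left a3 (by positivity)
    nlinarith
  set S' := S.filter (fun n => Squarefree n ∧ 2 ≤ n.primeFactors.card) with hS'
  have hkey := h.hH bt (bet c lam B bt) hbt0 (fun j p hp => h.bet_mem bt hp) (fun p hp => bet_not bt hp)
    (9 * ρ ^ 2) hρ hE S' (fun n hn => (mem_filter.1 hn).2)
  have hbet0 : ∀ p, 0 ≤ bet c lam B bt p := by
    intro p
    unfold bet
    split_ifs
    · exact div_nonneg (hbt0 _) (Nat.cast_nonneg _)
    · exact le_rfl
  have hin : ∀ y, τ * ∑ n ∈ S.filter (fun n => jj c lam n = y), |hh c lam B b b' n| ≤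
      ∑ n ∈ S'.filter (fun n => cell (uu c lam n) = y), ∏ p ∈ n.primeFactors, bet c lam B bt p := by
    intro y
    rw [mul_sum]
    calc ∑ n ∈ S.filter (fun n => jj c lam n = y), τ * |hh c lam B b b' n|
        ≤ ∑ n ∈ S.filter (fun n => jj c lam n = y), (if Squarefree n ∧ 2 ≤ n.primeFactors.card then
            ∏ p ∈ n.primeFactors, bet c lam B bt p else 0) := by
          apply sum_le_sum
          intro n _
          refine (h.hh_le hτ n).trans ?_
          by_cases hs : Squarefree n ∧ 2 ≤ n.primeFactors.card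
          · rw [if_pos hs]
            split_ifs
            · exact le_rfl
            · exact prod_nonneg fun p _ => hbet0 p
          · rw [if_neg hs, if_neg (by tauto)]
      _ = ∑ n ∈ S'.filter (fun n => cell (uu c lam n) = y), ∏ p ∈ n.primeFactors, bet c lam B bt p := by
          rw [← sum_filter, hS']
          apply sum_congr _ (fun _ _ => rfl)
          change _ = (S.filter (fun n => Squarefree n ∧ 2 ≤ n.primeFactors.card)).filter (fun n => jj c lam n = y)
          ext n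
          simp only [mem_filter]
          tauto
  calc τ ^ 2 * QQ (W) S (jj c lam) (hh c lam B b b')
      = ∑ y ∈ S.image (jj c lam), W y * (τ * ∑ n ∈ S.filter (fun n => jj c lam n = y), |hh c lam B b b' n|) ^ 2 := by
        unfold QQ
        rw [mul_sum]
        exact sum_congr rfl fun y _ => by ring
    _ ≤ ∑ y ∈ S.image (jj c lam), W y * (∑ n ∈ S'.filter (fun n => cell (uu c lam n) = y), ∏ p ∈ n.primeFactors, bet c lam B bt p) ^ 2 := by
        apply sum_le_sum
        intro y _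
        apply mul_le_mul_of_nonneg_left _ (hW y).le
        exact pow_le_pow_left₀ (mul_nonneg hτ.le (sum_nonneg fun i _ => abs_nonneg _)) (hin y) 2
    _ ≤ ∑ y ∈ range ((S.image (jj c lam)).sup id + 1), W y * (∑ n ∈ S'.filter (fun n => cell (uu c lam n) = y), ∏ p ∈ n.primeFactors, bet c lam B bt p) ^ 2 := by
        apply sum_le_sum_of_subset_of_nonneg
        · intro y hy
          rw [mem_range]
          have : id y ≤ (S.image (jj c lam)).sup id := le_sup hy
          simp only [id] at this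
          omega
        · intro y _ _
          exact mul_nonneg (hW y).le (sq_nonneg _)
    _ ≤ _ := hkey _

lemma fin_split (b b' : ℕ → ℝ) (S : Finset ℕ) (j : ℕ) :
    ∑ n ∈ S, (alp c lam B b n - alp c lam B b' n) * T n j =
      ∑ n ∈ S, gg c lam B b b' n * T1Q c lam B T n j + ∑ n ∈ S, hh c lam B b b' n * T2Q T n j := by
  classical
  rw [← sum_add_distrib]
  apply sum_congr rfl
  intro n _
  have h1 := h.split b n j
  have h2 := h.split b' n j
  have h3 : gg c lam B b b' n * T1Q c lam B T n j = (alp c lam B b n - alp c lam B b' n) * T1Q c lam B T n j := by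
    unfold gg T1Q
    split_ifs <;> ring
  have h4 : hh c lam B b b' n * T2Q T n j = (alp c lam B b n - alp c lam B b' n) * T2Q T n j := by
    unfold hh T2Q
    split_ifs <;> ring
  rw [h3, h4, sub_mul, h1, h2]
  ring

lemma fin_lip {b b' : ℕ → ℝ} {ρ D : ℝ} (hρ0 : 0 < ρ) (hD0 : 0 ≤ D) (hρ : 9 * ρ ^ 2 ≤ E0)
    (hb : ∀ J : ℕ, ∑ j ∈ range J, W j * b j ^ 2 ≤ ρ ^ 2) (hb' : ∀ J : ℕ, ∑ j ∈ range J, W j * b' j ^ 2 ≤ ρ ^ 2)
    (hD : ∀ J : ℕ, ∑ j ∈ range J, W j * (b j - b' j) ^ 2 ≤ D ^ 2) (S : Finset ℕ) (J : ℕ) :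
    ∑ j ∈ range J, W j * (∑ n ∈ S, (alp c lam B b n - alp c lam B b' n) * T n j) ^ 2 ≤
      (2 * K1 + 2 * K2 * (CH * 81 * ρ ^ 2)) * D ^ 2 := by
  have hW := h.hW
  have hK1 := h.hK1
  have hK2 := h.hK2
  have hCH := h.hCH
  rcases hD0.eq_or_lt with hD00 | hDpos
  · have hbb : b = b' := by
      funext j
      have h1 := hD (j + 1)
      rw [← hD00] at h1
      have h2 : W j * (b j - b' j) ^ 2 ≤ ∑ i ∈ range (j + 1), W i * (b i - b' i) ^ 2 :=
        single_le_sum (f := fun i => W i * (b i - b' i) ^ 2) (fun i _ => mul_nonneg (hW i).le (sq_nonneg _))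
          (mem_range.2 (Nat.lt_succ_self j))
      have h3 : (b j - b' j) ^ 2 ≤ 0 := by
        have := hW j
        nlinarith
      have h4 : b j - b' j = 0 := by nlinarith
      linarith
    subst hbb
    simp
    positivity
  · set τ := ρ / D with hτ
    have hτ0 : 0 < τ := by positivity
    have hτD : τ * D = ρ := by rw [hτ]; field_simp
    have hh1 := h.QQ_hh hτ0 hD0 hτD.le hρ hb hb' hD S
    have hh2 : QQ (W) S (jj c lam) (hh c lam B b b') ≤ CH * 81 * ρ ^ 2 * D ^ 2 := by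
      have e1 : CH * (9 * ρ ^ 2) ^ 2 = τ ^ 2 * (CH * 81 * ρ ^ 2 * D ^ 2) := by
        rw [← hτD]; ring
      rw [e1] at hh1
      exact le_of_mul_le_mul_left hh1 (by positivity)
    have g1 := h.QQ_gg hD S
    have w1 := h.hT1 S (gg c lam B b b') J
    have w2 := h.hT2 S (hh c lam B b b') J
    simp_rw [h.fin_split b b' S]
    calc ∑ j ∈ range J, W j * (∑ n ∈ S, gg c lam B b b' n * T1Q c lam B T n j + ∑ n ∈ S, hh c lam B b b' n * T2Q T n j) ^ 2
        ≤ ∑ j ∈ range J, (2 * (W j * (∑ n ∈ S, gg c lam B b b' n * T1Q c lam B T n j) ^ 2) +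
          2 * (W j * (∑ n ∈ S, hh c lam B b b' n * T2Q T n j) ^ 2)) := by
          apply sum_le_sum
          intro j _
          have := mul_nonneg (hW j).le (sq_nonneg ((∑ n ∈ S, gg c lam B b b' n * T1Q c lam B T n j) - ∑ n ∈ S, hh c lam B b b' n * T2Q T n j))
          nlinarith
      _ = 2 * ∑ j ∈ range J, W j * (∑ n ∈ S, gg c lam B b b' n * T1Q c lam B T n j) ^ 2 +
          2 * ∑ j ∈ range J, W j * (∑ n ∈ S, hh c lam B b b' n * T2Q T n j) ^ 2 := by
          rw [sum_add_distrib, mul_sum, mul_sum]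
      _ ≤ 2 * (K1 * D ^ 2) + 2 * (K2 * (CH * 81 * ρ ^ 2 * D ^ 2)) := by
          have a1 : K1 * QQ (W) S (jj c lam) (gg c lam B b b') ≤ K1 * D ^ 2 :=
            mul_le_mul_of_nonneg_left g1 (by positivity)
          have a2 : K2 * QQ (W) S (jj c lam) (hh c lam B b b') ≤ K2 * (CH * 81 * ρ ^ 2 * D ^ 2) :=
            mul_le_mul_of_nonneg_left hh2 (by positivity)
          linarith
      _ = _ := by ring

lemma sum_abs_le (S : Finset ℕ) (a : ℕ → ℝ) : (∑ n ∈ S, |a n|) ^ 2 ≤ 2 * QQ (W) S (jj c lam) a := by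
  classical
  have hW := h.hW
  have e1 : ∑ n ∈ S, |a n| = ∑ y ∈ S.image (jj c lam), ∑ n ∈ S.filter (fun n => jj c lam n = y), |a n| :=
    (sum_fiberwise_of_maps_to (fun i hi => mem_image_of_mem _ hi) _).symm
  rw [e1]
  have h1 := sum_sq_le_sum_mul_sum_of_sq_le_mul (S.image (jj c lam))
    (r := fun y => ∑ n ∈ S.filter (fun n => jj c lam n = y), |a n|) (f := fun y => 1 / W y)
    (g := fun y => W y * (∑ n ∈ S.filter (fun n => jj c lam n = y), |a n|) ^ 2)
    (fun y _ => (one_div_pos.2 (hW y)).le) (fun y _ => mul_nonneg (hW y).le (sq_nonneg _))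
    (fun y _ => by have := (hW y).ne'; apply le_of_eq; field_simp)
  refine h1.trans ?_
  have h2 := h.hR (S.image (jj c lam))
  exact mul_le_mul_of_nonneg_right h2 (QQ_nonneg (fun y => (hW y).le) _ _ _)

omit h in
lemma alp_zero (n : ℕ) : alp c lam B (fun _ => 0) n = if n = 1 then 1 else 0 := by
  unfold alp
  by_cases h0 : n = 0
  · subst h0; simp
  by_cases h1 : n = 1
  · subst h1; simp
  rw [if_neg h0, if_neg h1]
  split_ifs with hs
  · obtain ⟨p, hp⟩ := Nat.exists_prime_and_dvd h1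
    apply prod_eq_zero (i := p)
    · exact Nat.mem_primeFactors.2 ⟨hp.1, hp.2, h0⟩
    · unfold bet; split_ifs <;> simp
  · rfl

lemma abs_alp_le (b : ℕ → ℝ) (n : ℕ) : |alp c lam B b n| ≤
    |gg c lam B b (fun _ => 0) n| + |hh c lam B b (fun _ => 0) n| + if n = 1 then 1 else 0 := by
  by_cases h1 : n = 1
  · subst h1
    rw [if_pos rfl]
    have : alp c lam B b 1 = 1 := by unfold alp; simp
    rw [this]
    have a1 := abs_nonneg (gg c lam B b (fun _ => 0) 1)
    have a2 := abs_nonneg (hh c lam B b (fun _ => 0) 1)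
    simp only [abs_one]
    linarith
  rw [if_neg h1, add_zero]
  by_cases hg : n = 0 ∨ n ∈ B (jj c lam n)
  · have : gg c lam B b (fun _ => 0) n = alp c lam B b n := by
      unfold gg; rw [if_pos hg, alp_zero, if_neg h1, sub_zero]
    rw [this]
    exact le_add_of_nonneg_right (abs_nonneg _)
  by_cases hc : ¬ (n = 0 ∨ n.Prime) ∧ (Squarefree n ∧ 2 ≤ n.primeFactors.card)
  · have : hh c lam B b (fun _ => 0) n = alp c lam B b n := by
      unfold hh; rw [if_pos hc, alp_zero, if_neg h1, sub_zero]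
    rw [this]
    exact le_add_of_nonneg_left (abs_nonneg _)
  · have : alp c lam B b n = 0 := by
      by_cases hp : n.Prime
      · rw [alp_prime b hp]; unfold bet; rw [if_neg (by tauto)]
      · unfold alp
        rw [if_neg (by tauto)]
        split_ifs with hs
        · exfalso
          apply hc
          refine ⟨by tauto, hs, ?_⟩
          by_contra hcard
          have h2 : n.primeFactors.card ≤ 1 := by omega
          have h0 : n ≠ 0 := by tauto
          have h3 : ∏ p ∈ n.primeFactors, p = n := Nat.prod_primeFactors_of_squarefree hs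
          rcases Nat.eq_zero_or_pos n.primeFactors.card with h4 | h4
          · rw [card_eq_zero] at h4
            rw [h4] at h3
            simp at h3
            exact h1 h3.symm
          · have h5 : n.primeFactors.card = 1 := by omega
            obtain ⟨p, hp2⟩ := card_eq_one.1 h5
            rw [hp2, prod_singleton] at h3
            have : p ∈ n.primeFactors := by rw [hp2]; exact mem_singleton_self p
            rw [h3] at this
            exact hp (Nat.prime_of_mem_primeFactors this)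
        · rfl
    rw [this]
    simp only [abs_zero]
    positivity

lemma summable_alp {b : ℕ → ℝ} {ρ : ℝ} (hρ0 : 0 < ρ) (hρ : 9 * ρ ^ 2 ≤ E0)
    (hb : ∀ J : ℕ, ∑ j ∈ range J, W j * b j ^ 2 ≤ ρ ^ 2) : Summable fun n => |alp c lam B b n| := by
  have hz : ∀ J : ℕ, ∑ j ∈ range J, W j * (fun _ : ℕ => (0:ℝ)) j ^ 2 ≤ ρ ^ 2 := by
    intro J; simp; positivity
  have hd : ∀ J : ℕ, ∑ j ∈ range J, W j * (b j - (fun _ : ℕ => (0:ℝ)) j) ^ 2 ≤ ρ ^ 2 := by
    intro J; simpa using hb J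
  apply summable_of_sum_le (c := Real.sqrt (2 * ρ ^ 2) + Real.sqrt (2 * (CH * (9 * ρ ^ 2) ^ 2)) + 1)
  · intro n; exact abs_nonneg _
  · intro S
    have g1 := h.QQ_gg hd S
    have g2 := h.QQ_hh (τ := 1) one_pos hρ0.le (by rw [one_mul]) hρ hb hz hd S
    rw [one_pow, one_mul] at g2
    have s1 := h.sum_abs_le S (gg c lam B b (fun _ => 0))
    have s2 := h.sum_abs_le S (hh c lam B b (fun _ => 0))
    have t1 : ∑ n ∈ S, |gg c lam B b (fun _ => 0) n| ≤ Real.sqrt (2 * ρ ^ 2) :=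
      Real.le_sqrt_of_sq_le (by linarith)
    have t2 : ∑ n ∈ S, |hh c lam B b (fun _ => 0) n| ≤ Real.sqrt (2 * (CH * (9 * ρ ^ 2) ^ 2)) :=
      Real.le_sqrt_of_sq_le (by linarith)
    calc ∑ n ∈ S, |alp c lam B b n| ≤ ∑ n ∈ S, (|gg c lam B b (fun _ => 0) n| + |hh c lam B b (fun _ => 0) n| + if n = 1 then 1 else 0) :=
          sum_le_sum fun n _ => h.abs_alp_le b n
      _ = ∑ n ∈ S, |gg c lam B b (fun _ => 0) n| + ∑ n ∈ S, |hh c lam B b (fun _ => 0) n| + ∑ n ∈ S, (if n = 1 then (1:ℝ) else 0) := by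
          rw [sum_add_distrib, sum_add_distrib]
      _ ≤ _ := by
          have : ∑ n ∈ S, (if n = 1 then (1:ℝ) else 0) ≤ 1 := by
            rw [sum_ite_eq']
            split_ifs <;> norm_num
          linarith

lemma summable_term {b : ℕ → ℝ} (hs : Summable fun n => |alp c lam B b n|) (j : ℕ) :
    Summable fun n => alp c lam B b n * T n j := by
  refine Summable.of_norm_bounded (hs.mul_right CU) fun n => ?_
  rw [Real.norm_eq_abs, abs_mul]
  exact mul_le_mul_of_nonneg_left (h.hU n j) (abs_nonneg _)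

/-- Lipschitz estimate -/
lemma lip {b b' : ℕ → ℝ} {ρ D : ℝ} (hρ0 : 0 < ρ) (hD0 : 0 ≤ D) (hρ : 9 * ρ ^ 2 ≤ E0)
    (hb : ∀ J : ℕ, ∑ j ∈ range J, W j * b j ^ 2 ≤ ρ ^ 2) (hb' : ∀ J : ℕ, ∑ j ∈ range J, W j * b' j ^ 2 ≤ ρ ^ 2)
    (hD : ∀ J : ℕ, ∑ j ∈ range J, W j * (b j - b' j) ^ 2 ≤ D ^ 2) (J : ℕ) :
    ∑ j ∈ range J, W j * (∑' n, alp c lam B b n * T n j - ∑' n, alp c lam B b' n * T n j) ^ 2 ≤
      (2 * K1 + 2 * K2 * (CH * 81 * ρ ^ 2)) * D ^ 2 := by
  have hsb := h.summable_alp hρ0 hρ hb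
  have hsb' := h.summable_alp hρ0 hρ hb'
  have e1 : ∀ j, (∑' n, alp c lam B b n * T n j) - (∑' n, alp c lam B b' n * T n j) =
      ∑' n, (alp c lam B b n - alp c lam B b' n) * T n j := by
    intro j
    rw [← (h.summable_term hsb j).tsum_sub (h.summable_term hsb' j)]
    exact tsum_congr fun n => by ring
  simp_rw [e1]
  have hsum : ∀ j, HasSum (fun n => (alp c lam B b n - alp c lam B b' n) * T n j)
      (∑' n, (alp c lam B b n - alp c lam B b' n) * T n j) := by
    intro j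
    apply Summable.hasSum
    have := (h.summable_term hsb j).sub (h.summable_term hsb' j)
    refine this.congr fun n => by ring
  have ht : Filter.Tendsto (fun S : Finset ℕ => ∑ j ∈ range J, W j * (∑ n ∈ S, (alp c lam B b n - alp c lam B b' n) * T n j) ^ 2)
      Filter.atTop (nhds (∑ j ∈ range J, W j * (∑' n, (alp c lam B b n - alp c lam B b' n) * T n j) ^ 2)) :=
    tendsto_finsetSum _ fun j _ => ((hsum j).pow 2).const_mul _
  exact le_of_tendsto' ht fun S => h.fin_lip hρ0 hD0 hρ hb hb' hD S J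

/-- **Existence of the fixed point** for an arbitrary source. -/
theorem fixed {ρ : ℝ} (hρ0 : 0 < ρ) (hρ : 9 * ρ ^ 2 ≤ E0)
    (hK : 2 * K1 + 2 * K2 * (CH * 81 * ρ ^ 2) ≤ 1 / 4)
    (s : ℕ → ℝ) (hs : ∀ J : ℕ, ∑ j ∈ range J, W j * s j ^ 2 ≤ (ρ / 2) ^ 2) :
    ∃ b : ℕ → ℝ, (∀ J : ℕ, ∑ j ∈ range J, W j * b j ^ 2 ≤ ρ ^ 2) ∧
      (Summable fun n => |alp c lam B b n|) ∧
      ∀ j, b j = s j + ∑' n, alp c lam B b n * T n j := by
  have hW := h.hW
  suffices key : ∃ b : ℕ → ℝ, (∀ J : ℕ, ∑ j ∈ range J, W j * b j ^ 2 ≤ ρ ^ 2) ∧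
      ∀ j, b j = s j + ∑' n, alp c lam B b n * T n j by
    obtain ⟨b, hb1, hb2⟩ := key
    exact ⟨b, hb1, h.summable_alp hρ0 hρ hb1, hb2⟩
  refine Pool.Agent.H180R3.Q469.taskQ W hW (fun b j => s j + ∑' n, alp c lam B b n * T n j) ρ (1 / 2) hρ0
    (by norm_num) (by norm_num) ?_ ?_
  · intro J
    have e1 : ∀ j, ∑' n, alp c lam B (fun _ => 0) n * T n j = 0 := by
      intro j
      have : ∀ n, alp c lam B (fun _ => 0) n * T n j = 0 := by
        intro n
        rw [alp_zero]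
        split_ifs with h1
        · subst h1
          rw [h.hT0 1 j (by norm_num) (by simp), mul_zero]
        · simp
      simp_rw [this]
      exact tsum_zero
    simp_rw [e1, add_zero]
    refine (hs J).trans (le_of_eq ?_)
    ring
  · intro b b' hb hb' D hD0 hD J
    have e1 : ∀ j, (s j + ∑' n, alp c lam B b n * T n j) - (s j + ∑' n, alp c lam B b' n * T n j) =
        (∑' n, alp c lam B b n * T n j) - ∑' n, alp c lam B b' n * T n j := by
      intro j; ring
    simp_rw [e1]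
    refine (h.lip hρ0 hD0 hρ hb hb' hD J).trans ?_
    calc _ ≤ 1 / 4 * D ^ 2 := mul_le_mul_of_nonneg_right hK (sq_nonneg _)
      _ = _ := by ring

/-- **Stability**: two fixed points with sources `s`, `s'`. -/
theorem stab {ρ : ℝ} (hρ0 : 0 < ρ) (hρ : 9 * ρ ^ 2 ≤ E0) {L : ℝ}
    (hL : 2 * K1 + 2 * K2 * (CH * 81 * ρ ^ 2) ≤ L ^ 2) (hL1 : L ^ 2 ≤ 1 / 4)
    {s s' b b' : ℕ → ℝ} {A : ℝ} (hs : ∀ J : ℕ, ∑ j ∈ range J, W j * (s j - s' j) ^ 2 ≤ A ^ 2)
    (hb : ∀ J : ℕ, ∑ j ∈ range J, W j * b j ^ 2 ≤ ρ ^ 2) (hb' : ∀ J : ℕ, ∑ j ∈ range J, W j * b' j ^ 2 ≤ ρ ^ 2)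
    (hf : ∀ j, b j = s j + ∑' n, alp c lam B b n * T n j) (hf' : ∀ j, b' j = s' j + ∑' n, alp c lam B b' n * T n j) :
    (∀ J : ℕ, ∑ j ∈ range J, W j * (b j - b' j) ^ 2 ≤ (2 * A) ^ 2) ∧
    (∀ j, W j * ((b j - b' j) - (s j - s' j)) ^ 2 ≤ (2 * L * A) ^ 2) := by
  have hW := h.hW
  -- a priori bound
  have h0 : ∀ J : ℕ, ∑ j ∈ range J, W j * (b j - b' j) ^ 2 ≤ 4 * ρ ^ 2 := by
    intro J
    calc ∑ j ∈ range J, W j * (b j - b' j) ^ 2 ≤ ∑ j ∈ range J, (2 * (W j * b j ^ 2) + 2 * (W j * b' j ^ 2)) := by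
          apply sum_le_sum
          intro j _
          have := mul_nonneg (hW j).le (sq_nonneg (b j + b' j))
          nlinarith
      _ = 2 * ∑ j ∈ range J, W j * b j ^ 2 + 2 * ∑ j ∈ range J, W j * b' j ^ 2 := by
          rw [sum_add_distrib, mul_sum, mul_sum]
      _ ≤ _ := by have := hb J; have := hb' J; linarith
  have hsum : Summable fun j => W j * (b j - b' j) ^ 2 :=
    summable_of_sum_range_le (fun j => mul_nonneg (hW j).le (sq_nonneg _)) h0
  set Q := ∑' j, W j * (b j - b' j) ^ 2 with hQ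
  have hQ0 : 0 ≤ Q := tsum_nonneg fun j => mul_nonneg (hW j).le (sq_nonneg _)
  have hle : ∀ J : ℕ, ∑ j ∈ range J, W j * (b j - b' j) ^ 2 ≤ (√Q) ^ 2 := by
    intro J
    rw [Real.sq_sqrt hQ0]
    exact hsum.sum_le_tsum _ fun j _ => mul_nonneg (hW j).le (sq_nonneg _)
  have hlip : ∀ J : ℕ, ∑ j ∈ range J, W j * ((b j - b' j) - (s j - s' j)) ^ 2 ≤ L ^ 2 * Q := by
    intro J
    have e1 : ∀ j, (b j - b' j) - (s j - s' j) = (∑' n, alp c lam B b n * T n j) - ∑' n, alp c lam B b' n * T n j := by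
      intro j
      rw [hf j, hf' j]; ring
    simp_rw [e1]
    refine (h.lip hρ0 (Real.sqrt_nonneg Q) hρ hb hb' hle J).trans ?_
    rw [Real.sq_sqrt hQ0]
    exact mul_le_mul_of_nonneg_right hL hQ0
  have hQA : Q ≤ (2 * A) ^ 2 := by
    have h1 : ∀ J : ℕ, ∑ j ∈ range J, W j * (b j - b' j) ^ 2 ≤ 2 * (L ^ 2 * Q) + 2 * A ^ 2 := by
      intro J
      calc ∑ j ∈ range J, W j * (b j - b' j) ^ 2 ≤
          ∑ j ∈ range J, (2 * (W j * ((b j - b' j) - (s j - s' j)) ^ 2) + 2 * (W j * (s j - s' j) ^ 2)) := by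
            apply sum_le_sum
            intro j _
            have := mul_nonneg (hW j).le (sq_nonneg (((b j - b' j) - (s j - s' j)) - (s j - s' j)))
            nlinarith
        _ = 2 * ∑ j ∈ range J, W j * ((b j - b' j) - (s j - s' j)) ^ 2 + 2 * ∑ j ∈ range J, W j * (s j - s' j) ^ 2 := by
            rw [sum_add_distrib, mul_sum, mul_sum]
        _ ≤ _ := by have := hs J; have := hlip J; linarith
    have h2 : Q ≤ 2 * (L ^ 2 * Q) + 2 * A ^ 2 :=
      hsum.tsum_le_of_sum_range_le h1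
    nlinarith
  refine ⟨fun J => ((hle J).trans_eq (Real.sq_sqrt hQ0)).trans hQA, fun j => ?_⟩
  have h3 := hlip (j + 1)
  have h4 : W j * ((b j - b' j) - (s j - s' j)) ^ 2 ≤ ∑ i ∈ range (j + 1), W i * ((b i - b' i) - (s i - s' i)) ^ 2 :=
    single_le_sum (f := fun i => W i * ((b i - b' i) - (s i - s' i)) ^ 2) (fun i _ => mul_nonneg (hW i).le (sq_nonneg _))
      (mem_range.2 (Nat.lt_succ_self j))
  calc _ ≤ L ^ 2 * Q := h4.trans h3
    _ ≤ L ^ 2 * (2 * A) ^ 2 := mul_le_mul_of_nonneg_left hQA (sq_nonneg _)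
    _ = _ := by ring

end MQ

end Pool.Agent.H472.Q2
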