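import Mathlib
import Pool.Agent.H472.Q2.Mach

set_option autoImplicit false

open Finset MeasureTheory

namespace Pool.Agent.H472.Q2

open Pool.Agent.H469R10.HO Pool.Agent.H13R3.EM

lemma ratio_ge {c : ℝ} (hc : 0 < c) (hc1 : c ≤ 1 / 10) (j : ℕ) : 10 ≤ (1 + (j : ℝ)) / c := by
  rw [le_div_iff₀ hc]
  have : (0:ℝ) ≤ j := Nat.cast_nonneg j
  linarith

lemma log_ge {c : ℝ} (hc : 0 < c) (hc1 : c ≤ 1 / 10) (j : ℕ) : 1 ≤ Real.log ((1 + j) / c) := by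
  have h := ratio_ge hc hc1 j
  rw [Real.le_log_iff_exp_le (by linarith)]
  have := Real.exp_one_lt_d9
  linarith

lemma WS_pos {m : ℕ} {c : ℝ} (hc : 0 < c) (hc1 : c ≤ 1 / 10) (j : ℕ) : 0 < WS m c j := by
  unfold WS
  exact mul_pos (WW_pos hc hc1 j) (Real.rpow_pos_of_pos (by positivity) _)

lemma WW_ge_one {c : ℝ} (hc : 0 < c) (hc1 : c ≤ 1 / 10) (j : ℕ) : 1 + (j : ℝ) ≤ WW c j := by
  unfold WW
  have h1 : 1 ≤ Real.log ((1 + j) / c) ^ 4 := one_le_pow₀ (log_ge hc hc1 j)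
  have : (0:ℝ) ≤ j := Nat.cast_nonneg j
  nlinarith

lemma WS_ge_WW {m : ℕ} (hm : 1 ≤ m) {c : ℝ} (hc : 0 < c) (hc1 : c ≤ 1 / 10) (j : ℕ) : WW c j ≤ WS m c j := by
  unfold WS
  have h1 : 1 ≤ ((1 + (j:ℝ)) / c) ^ (2 * (m : ℝ) - 5 / 4) := by
    apply Real.one_le_rpow
    · linarith [ratio_ge hc hc1 j]
    · have : (1:ℝ) ≤ m := by exact_mod_cast hm
      linarith
  have h2 := (WW_pos hc hc1 j).le
  nlinarith

lemma WS_ge_one {m : ℕ} (hm : 1 ≤ m) {c : ℝ} (hc : 0 < c) (hc1 : c ≤ 1 / 10) (j : ℕ) : 1 ≤ WS m c j := by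
  have h1 := WS_ge_WW hm hc hc1 j
  have h2 := WW_ge_one hc hc1 j
  have : (0:ℝ) ≤ j := Nat.cast_nonneg j
  linarith

lemma WS_R {m : ℕ} (hm : 1 ≤ m) {c : ℝ} (hc : 0 < c) (hc1 : c ≤ 1 / 10) (F : Finset ℕ) :
    ∑ y ∈ F, 1 / WS m c y ≤ 2 := by
  refine le_trans (sum_le_sum fun y _ => ?_) (Pool.Agent.H853R3.RS.taskR c hc hc1 F)
  exact one_div_le_one_div_of_le (WW_pos hc hc1 y) (WS_ge_WW hm hc hc1 y)

/-- slow variation -/
lemma WS_slow {m : ℕ} (hm : 1 ≤ m) {c : ℝ} (hc : 0 < c) (hc1 : c ≤ 1 / 10) (i j : ℕ) :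
    WS m c i ≤ 17 ^ 4 * (1 + |(i : ℝ) - j|) ^ (2 * m) * WS m c j := by
  have hi : (0:ℝ) ≤ i := Nat.cast_nonneg i
  have hj : (0:ℝ) ≤ j := Nat.cast_nonneg j
  set d : ℝ := 1 + |(i : ℝ) - j| with hd
  have hd1 : 1 ≤ d := by rw [hd]; linarith [abs_nonneg ((i:ℝ) - j)]
  have hij : 1 + (i:ℝ) ≤ (1 + j) * d := by
    have : (i:ℝ) - j ≤ |(i:ℝ) - j| := le_abs_self _
    have h2 := abs_nonneg ((i:ℝ) - j)
    rw [hd]
    nlinarith
  have hcp : 0 < (1 + (j:ℝ)) / c := by positivity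
  have hq : (1 + (i:ℝ)) / c ≤ (1 + j) / c * d := by
    rw [div_mul_eq_mul_div]
    exact div_le_div_of_nonneg_right hij hc.le
  -- log
  have hlj := log_ge hc hc1 j
  have hli := log_ge hc hc1 i
  have hld : Real.log d ≤ 16 * d ^ (1 / 16 : ℝ) := by
    have := Real.log_le_rpow_div (x := d) (by linarith) (ε := 1 / 16) (by norm_num)
    linarith
  have hd16 : 1 ≤ d ^ (1 / 16 : ℝ) := Real.one_le_rpow hd1 (by norm_num)
  have hlog : Real.log ((1 + i) / c) ≤ Real.log ((1 + j) / c) * (17 * d ^ (1 / 16 : ℝ)) := by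
    calc Real.log ((1 + i) / c) ≤ Real.log ((1 + j) / c * d) := Real.log_le_log (by positivity) hq
      _ = Real.log ((1 + j) / c) + Real.log d := Real.log_mul hcp.ne' (by linarith)
      _ ≤ Real.log ((1 + j) / c) * 1 + Real.log ((1 + j) / c) * (16 * d ^ (1 / 16 : ℝ)) := by
          have : Real.log d ≤ Real.log ((1 + j) / c) * (16 * d ^ (1 / 16 : ℝ)) := by
            have h0 : 0 ≤ 16 * d ^ (1 / 16 : ℝ) := by positivity
            nlinarith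
          linarith
      _ ≤ _ := by
          have : Real.log ((1 + j) / c) * 1 ≤ Real.log ((1 + j) / c) * d ^ (1 / 16 : ℝ) :=
            mul_le_mul_of_nonneg_left hd16 (by linarith)
          nlinarith
  have hlog4 : Real.log ((1 + i) / c) ^ 4 ≤ Real.log ((1 + j) / c) ^ 4 * (17 ^ 4 * d ^ (1 / 4 : ℝ)) := by
    have h1 : Real.log ((1 + i) / c) ^ 4 ≤ (Real.log ((1 + j) / c) * (17 * d ^ (1 / 16 : ℝ))) ^ 4 :=
      pow_le_pow_left₀ (by linarith) hlog 4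
    have h2 : (d ^ (1 / 16 : ℝ)) ^ 4 = d ^ (1 / 4 : ℝ) := by
      rw [← Real.rpow_natCast, ← Real.rpow_mul (by linarith)]
      norm_num
    calc _ ≤ _ := h1
      _ = _ := by rw [mul_pow, mul_pow, h2]
  have hexp : 0 ≤ 2 * (m:ℝ) - 5 / 4 := by
    have : (1:ℝ) ≤ m := by exact_mod_cast hm
    linarith
  have hpow : ((1 + (i:ℝ)) / c) ^ (2 * (m : ℝ) - 5 / 4) ≤ ((1 + (j:ℝ)) / c) ^ (2 * (m : ℝ) - 5 / 4) * d ^ (2 * (m : ℝ) - 5 / 4) := by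
    rw [← Real.mul_rpow hcp.le (by linarith)]
    exact Real.rpow_le_rpow (by positivity) hq hexp
  unfold WS WW
  have e1 : d ^ (2 * m) = d * d ^ (2 * (m : ℝ) - 5 / 4) * d ^ (1 / 4 : ℝ) := by
    nth_rewrite 2 [← Real.rpow_one d]
    rw [← Real.rpow_add (by linarith), ← Real.rpow_add (by linarith), ← Real.rpow_natCast]
    congr 1
    push_cast
    ring
  have hL4 : 0 ≤ Real.log ((1 + (i:ℝ)) / c) ^ 4 := by positivity
  have hL4' : 0 ≤ Real.log ((1 + (j:ℝ)) / c) ^ 4 := by positivity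
  calc (1 + (i:ℝ)) * Real.log ((1 + i) / c) ^ 4 * ((1 + (i:ℝ)) / c) ^ (2 * (m : ℝ) - 5 / 4)
      ≤ ((1 + j) * d) * (Real.log ((1 + j) / c) ^ 4 * (17 ^ 4 * d ^ (1 / 4 : ℝ))) *
        (((1 + (j:ℝ)) / c) ^ (2 * (m : ℝ) - 5 / 4) * d ^ (2 * (m : ℝ) - 5 / 4)) := by
        gcongr
    _ = _ := by rw [e1]; ring

/-- `WS` is increasing -/
lemma WS_mono {m : ℕ} (hm : 1 ≤ m) {c : ℝ} (hc : 0 < c) (hc1 : c ≤ 1 / 10) {i j : ℕ} (hij : i ≤ j) :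
    WS m c i ≤ WS m c j := by
  have hij' : (i:ℝ) ≤ j := by exact_mod_cast hij
  have hq : (1 + (i:ℝ)) / c ≤ (1 + j) / c := div_le_div_of_nonneg_right (by linarith) hc.le
  have hli := log_ge hc hc1 i
  have hexp : 0 ≤ 2 * (m:ℝ) - 5 / 4 := by
    have : (1:ℝ) ≤ m := by exact_mod_cast hm
    linarith
  unfold WS WW
  have h1 : Real.log ((1 + (i:ℝ)) / c) ≤ Real.log ((1 + j) / c) := Real.log_le_log (by positivity) hq
  have h2 : ((1 + (i:ℝ)) / c) ^ (2 * (m : ℝ) - 5 / 4) ≤ ((1 + (j:ℝ)) / c) ^ (2 * (m : ℝ) - 5 / 4) :=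
    Real.rpow_le_rpow (by positivity) hq hexp
  have h0 : 0 ≤ Real.log ((1 + (i:ℝ)) / c) := by linarith
  gcongr

end Pool.Agent.H472.Q2
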