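import Mathlib
import Pool.Agent.H472.Q2.WSlem
import Pool.Graph.R_seed8.H54R3.Task469O
import Pool.Graph.R_seed8.H154R3.Task469K
import Pool.Graph.R_seed8.H853R3.Task469U
import Pool.Graph.R_seed8.H469R10.HO.Final

set_option autoImplicit false

open Finset MeasureTheory

namespace Pool.Agent.H472.Q2

open Pool.Agent.H469R10.HO Pool.Agent.H13R3.EM

lemma chi2_cont : Continuous chi2 := by
  unfold chi2
  exact Real.smoothTransition.continuous.comp (by fun_prop)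

lemma chi2_nonneg (x : ℝ) : 0 ≤ chi2 x := Real.smoothTransition.nonneg _

lemma chi2_le_one (x : ℝ) : chi2 x ≤ 1 := Real.smoothTransition.le_one _

lemma chi2_zero {x : ℝ} (hx : 3 / 4 ≤ x) : chi2 x = 0 := Real.smoothTransition.zero_of_nonpos (by linarith)

lemma chi2_one {x : ℝ} (hx : x ≤ 2 / 3) : chi2 x = 1 := Real.smoothTransition.one_of_one_le (by linarith)

lemma win_cont : Continuous win := by
  unfold win
  exact Real.smoothTransition.continuous.comp (by fun_prop)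

lemma win_nonneg (x : ℝ) : 0 ≤ win x := Real.smoothTransition.nonneg _

lemma win_le_one (x : ℝ) : win x ≤ 1 := Real.smoothTransition.le_one _

lemma win_one {x : ℝ} (hx : x ≤ 3 / 2) : win x = 1 := Real.smoothTransition.one_of_one_le (by linarith)

lemma win_zero {x : ℝ} (hx : 7 / 4 ≤ x) : win x = 0 := Real.smoothTransition.zero_of_nonpos (by linarith)

lemma DR_abs_le {m R : ℕ} {f : ℝ → ℝ} {C : ℝ} (hC : ∀ y, |f y| ≤ C) (x : ℝ) :
    |DR m R f x| ≤ |(R:ℝ) * x| ^ (2 * m) * C := by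
  unfold DR
  rw [abs_mul, abs_mul, abs_of_nonneg (chi2_nonneg _), abs_pow]
  have h1 := hC ((R : ℝ) ^ 2 * x)⁻¹
  have h2 := chi2_le_one ((R : ℝ) ^ 2 * x)
  have h3 := chi2_nonneg ((R : ℝ) ^ 2 * x)
  have h4 : 0 ≤ |(R:ℝ) * x| ^ (2 * m) := by positivity
  calc chi2 ((R : ℝ) ^ 2 * x) * |(R:ℝ) * x| ^ (2 * m) * |f ((R : ℝ) ^ 2 * x)⁻¹| ≤ 1 * |(R:ℝ) * x| ^ (2 * m) * C := by
        apply mul_le_mul _ h1 (abs_nonneg _) (by positivity)
        exact mul_le_mul_of_nonneg_right h2 h4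
    _ = _ := by ring

lemma DR_cont {m R : ℕ} (hm : 1 ≤ m) (hR : 1 ≤ R) {f : ℝ → ℝ} (hf : Continuous f) {C : ℝ} (hC : ∀ y, |f y| ≤ C) :
    Continuous (DR m R f) := by
  have hR0 : (R:ℝ) ≠ 0 := by positivity
  rw [continuous_iff_continuousAt]
  intro x
  by_cases hx : x = 0
  · subst hx
    have h0 : DR m R f 0 = 0 := by
      unfold DR
      have : 2 * m ≠ 0 := by omega
      simp [this]
    unfold ContinuousAt
    rw [h0]
    apply squeeze_zero_norm (a := fun x : ℝ => |(R:ℝ) * x| ^ (2 * m) * C)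
    · intro x
      rw [Real.norm_eq_abs]
      exact DR_abs_le hC x
    · have : Continuous fun x : ℝ => |(R:ℝ) * x| ^ (2 * m) * C := by fun_prop
      have h := this.tendsto 0
      have e : |(R:ℝ) * 0| ^ (2 * m) * C = 0 := by
        have : 2 * m ≠ 0 := by omega
        simp [this]
      rwa [e] at h
  · unfold DR
    have hx2 : (R:ℝ) ^ 2 * x ≠ 0 := mul_ne_zero (pow_ne_zero _ hR0) hx
    refine ((chi2_cont.comp (by fun_prop)).continuousAt.mul (by fun_prop)).mul ?_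
    exact hf.continuousAt.comp (ContinuousAt.inv₀ (by fun_prop) hx2)

lemma DR_cos_cont {m R : ℕ} (hm : 1 ≤ m) (hR : 1 ≤ R) (w : ℝ) : Continuous (DR m R fun y => Real.cos (w * y)) :=
  DR_cont hm hR (by fun_prop) (C := 1) fun y => Real.abs_cos_le_one _

lemma PP_DR_sum {ι : Type*} {m R : ℕ} (hm : 1 ≤ m) (hR : 1 ≤ R) (S : Finset ι) (β ω : ι → ℝ) (j : ℕ) :
    ∑ i ∈ S, β i * PP (DR m R fun y => Real.cos (ω i * y)) j = PP (DR m R fun y => ∑ i ∈ S, β i * Real.cos (ω i * y)) j := by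
  rw [← PP_sum S β (fun i => DR m R fun y => Real.cos (ω i * y)) (fun i _ => DR_cos_cont hm hR _)]
  congr 1
  funext x
  unfold DR
  rw [mul_sum]
  exact sum_congr rfl fun i _ => by ring

lemma DR_cos_abs (m R : ℕ) (hR : 1 ≤ R) (w x : ℝ) (hx0 : 0 ≤ x) : |DR m R (fun y => Real.cos (w * y)) x| ≤ 1 := by
  have hR1 : (1:ℝ) ≤ R := by exact_mod_cast hR
  rcases le_total (3 / 4) ((R:ℝ) ^ 2 * x) with h | h
  · unfold DR
    rw [chi2_zero h]
    simp
  · have h1 := DR_abs_le (m := m) (R := R) (f := fun y => Real.cos (w * y)) (C := 1) (fun y => Real.abs_cos_le_one _) x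
    refine h1.trans ?_
    rw [mul_one]
    apply pow_le_one₀ (abs_nonneg _)
    rw [abs_of_nonneg (by positivity)]
    nlinarith

section

variable {m R : ℕ} {c : ℝ}

/-- the dual columns in the weight `WS` -/
lemma dual_bound {CM CJ : ℝ} (hm : 1 ≤ m) (hR : 1 ≤ R) (hc : 0 < c) (hCM : 0 ≤ CM)
    (hM : ∀ (S : Finset ℕ) (cl : ℕ → ℕ) (ω β : ℕ → ℝ), (∀ i ∈ S, |ω i - xx (cl i)| ≤ 1) →
      (∀ J : ℕ, ∑ j ∈ range J, (PP (DR m R (fun y => ∑ i ∈ S, β i * Real.cos (ω i * y))) j) ^ 2 ≤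
          CM / (R : ℝ) ^ 2 * QQ (fun _ => 1) S cl β) ∧
      (∀ J : ℕ, ∑ j ∈ range J, (1 + (j : ℝ)) ^ (2 * m) * (PP (DR m R (fun y => ∑ i ∈ S, β i * Real.cos (ω i * y))) j) ^ 2 ≤
          CM / (R : ℝ) ^ 2 * QQ (fun y => (1 + (y : ℝ)) ^ (2 * m)) S cl β))
    (hJ : ∀ (cl : ℕ → ℕ) (T : ℕ → ℕ → ℝ) (κ : ℝ), 0 ≤ κ →
      (∀ (S : Finset ℕ) (β : ℕ → ℝ) (J : ℕ), ∑ j ∈ range J, (∑ n ∈ S, β n * T n j) ^ 2 ≤
        κ * ∑ y ∈ S.image cl, (∑ n ∈ S.filter (fun n => cl n = y), |β n|) ^ 2) →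
      (∀ (S : Finset ℕ) (β : ℕ → ℝ) (J : ℕ), ∑ j ∈ range J, (1 + (j : ℝ)) ^ (2 * m) * (∑ n ∈ S, β n * T n j) ^ 2 ≤
        κ * ∑ y ∈ S.image cl, (1 + (y : ℝ)) ^ (2 * m) * (∑ n ∈ S.filter (fun n => cl n = y), |β n|) ^ 2) →
      ∀ (S : Finset ℕ) (β : ℕ → ℝ) (J : ℕ), ∑ j ∈ range J, WS m c j * (∑ n ∈ S, β n * T n j) ^ 2 ≤
        CJ * κ * ∑ y ∈ S.image cl, WS m c y * (∑ n ∈ S.filter (fun n => cl n = y), |β n|) ^ 2)
    (S : Finset ℕ) (β : ℕ → ℝ) (J : ℕ) :
    ∑ j ∈ range J, WS m c j * (∑ n ∈ S, β n * PP (DR m R (fun y => Real.cos (uu c (lamQ m) n * y))) j) ^ 2 ≤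
      CJ * (CM / (R : ℝ) ^ 2) * QQ (WS m c) S (jj c (lamQ m)) β := by
  have hnear : ∀ (S : Finset ℕ), ∀ i ∈ S, |uu c (lamQ m) i - xx (jj c (lamQ m) i)| ≤ 1 := fun S i _ => cell_near (uu_nonneg hc.le i)
  refine hJ (jj c (lamQ m)) (fun n j => PP (DR m R (fun y => Real.cos (uu c (lamQ m) n * y))) j) (CM / (R : ℝ) ^ 2)
    (by positivity) ?_ ?_ S β J
  · intro S β J
    have := (hM S (jj c (lamQ m)) (uu c (lamQ m)) β (hnear S)).1 J
    simp_rw [PP_DR_sum hm hR]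
    simpa [QQ] using this
  · intro S β J
    have := (hM S (jj c (lamQ m)) (uu c (lamQ m)) β (hnear S)).2 J
    simp_rw [PP_DR_sum hm hR]
    simpa [QQ] using this

end

/-- two-term split of weighted squares -/
lemma two_split {W : ℕ → ℝ} (hW : ∀ j, 0 < W j) {a p q : ℕ → ℝ} {P Q : ℝ} (J : ℕ) (ha : ∀ j, a j = - p j + q j)
    (hp : ∑ j ∈ range J, W j * p j ^ 2 ≤ P) (hq : ∑ j ∈ range J, W j * q j ^ 2 ≤ Q) :
    ∑ j ∈ range J, W j * a j ^ 2 ≤ 2 * P + 2 * Q := by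
  calc ∑ j ∈ range J, W j * a j ^ 2 ≤ ∑ j ∈ range J, (2 * (W j * p j ^ 2) + 2 * (W j * q j ^ 2)) := by
        apply sum_le_sum
        intro j _
        rw [ha j]
        have := mul_nonneg (hW j).le (sq_nonneg (p j + q j))
        nlinarith
    _ = 2 * ∑ j ∈ range J, W j * p j ^ 2 + 2 * ∑ j ∈ range J, W j * q j ^ 2 := by
        rw [sum_add_distrib, mul_sum, mul_sum]
    _ ≤ _ := by linarith

lemma sum_filter_mul' (S : Finset ℕ) (P : ℕ → Prop) [DecidablePred P] (β T : ℕ → ℝ) :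
    ∑ n ∈ S, β n * (if P n then T n else 0) = ∑ n ∈ S.filter P, β n * T n := by
  rw [sum_filter]
  exact sum_congr rfl fun n _ => by split_ifs <;> simp

/-- **All constants packaged.** -/
theorem exists_mq (hJ : TaskJQ) (hH : TaskHQ) (hM : TaskMQ) (hWin : TaskWin) : ∃ m₀ : ℕ, 3 ≤ m₀ ∧
    ∀ m : ℕ, m₀ ≤ m → Even m → ∀ L : ℝ, 0 < L → ∃ (R : ℕ) (e CH K1 K2 η ρ c₀ : ℝ), 4 ≤ R ∧ 0 < e ∧ e ≤ 1 / 8 ∧
      0 < η ∧ 0 < ρ ∧ ρ ≤ 1 ∧ 9 * ρ ^ 2 ≤ 1 / 4 ^ m ∧ CH * 81 * ρ ^ 2 ≤ L ^ 2 ∧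
      2 * K1 + 2 * K2 * (CH * 81 * ρ ^ 2) ≤ L ^ 2 ∧ 0 < c₀ ∧ c₀ ≤ 1 / 10 ∧
      ∀ c : ℝ, 0 < c → c ≤ c₀ → ∃ B : ℕ → Finset ℕ,
        MQ c (lamQ m) e CH K1 K2 10 (1 / 4 ^ m) B (WS m c) (TQ c (lamQ m) m R) ∧
        (∀ j, 1 ≤ j → (B j).Nonempty ∧ ∀ p ∈ B j, η * p ≤ (B j).card * xx j * Real.log p) := by
  classical
  obtain ⟨lamK, hK⟩ := Pool.Agent.H154R3.Blocks.taskK Pool.Agent.H469R10.HO.hoheisel
  refine ⟨max 3 ⌈lamK⌉₊, le_max_left _ _, fun m hm hev L hL => ?_⟩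
  have hm3 : 3 ≤ m := (le_max_left _ _).trans hm
  have hmK : lamK ≤ m := Nat.ceil_le.mp ((le_max_right _ _).trans hm)
  have hmR : (3:ℝ) ≤ m := by exact_mod_cast hm3
  have hlamK : lamK ≤ lamQ m := by unfold lamQ; linarith
  obtain ⟨CJ, cJ, hCJ, hcJ, hJ'⟩ := hJ m (by omega)
  obtain ⟨CM, hCM, hM'⟩ := hM m (by omega) hev
  obtain ⟨CW, hCW, hW'⟩ := hWin m
  set A : ℝ := 17 ^ 4 with hA
  have hA0 : 0 < A := by positivity
  set G1 : ℝ := 16 * (CW * A + 1) with hG1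
  have hG10 : 0 < G1 := by positivity
  set e : ℝ := min (1 / 8) (L ^ 2 / G1) with he
  have he0 : 0 < e := lt_min (by norm_num) (by positivity)
  have he4 : e ≤ 1 / 8 := min_le_left _ _
  have heG : G1 * e ≤ L ^ 2 := by
    have : e ≤ L ^ 2 / G1 := min_le_right _ _
    rw [le_div_iff₀ hG10] at this
    linarith
  have he2 : e ^ 2 ≤ e := by nlinarith
  have hce : 4 * (CW * A * e ^ 2) ≤ L ^ 2 / 4 := by
    have h1 : 4 * (CW * A * e ^ 2) ≤ 4 * (CW * A * e) := by gcongr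
    have h2 : 16 * (CW * A * e) ≤ L ^ 2 := by
      have : G1 * e = 16 * (CW * A * e) + 16 * e := by rw [hG1]; ring
      linarith
    linarith
  obtain ⟨R0, hR0⟩ := exists_nat_ge (16 * (CJ * CM) / L ^ 2)
  set R : ℕ := max 4 R0 with hR
  have hR4 : 4 ≤ R := le_max_left _ _
  have hR0' : (R0:ℝ) ≤ R := by exact_mod_cast le_max_right _ _
  have hR1 : (1:ℝ) ≤ R := by
    have : (4:ℝ) ≤ R := by exact_mod_cast hR4
    linarith
  have hcR : 4 * (CJ * (CM / (R:ℝ) ^ 2)) ≤ L ^ 2 / 4 := by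
    have h1 : 16 * (CJ * CM) ≤ L ^ 2 * R := by
      rw [div_le_iff₀ (by positivity)] at hR0
      nlinarith [sq_nonneg L]
    have h2 : L ^ 2 * (R:ℝ) ≤ L ^ 2 * (R:ℝ) ^ 2 := by
      apply mul_le_mul_of_nonneg_left _ (by positivity)
      nlinarith
    have h3 : 4 * (CJ * (CM / (R:ℝ) ^ 2)) = 4 * (CJ * CM) / (R:ℝ) ^ 2 := by ring
    rw [h3, div_le_iff₀ (by positivity)]
    linarith
  set K1 : ℝ := 2 * (CW * A * e ^ 2) + 2 * (CJ * (CM / (R:ℝ) ^ 2)) with hK1
  set K2 : ℝ := 2 * (CW * A) + 2 * (CJ * (CM / (R:ℝ) ^ 2)) with hK2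
  have hK10 : 0 ≤ K1 := by positivity
  have hK20 : 0 ≤ K2 := by positivity
  obtain ⟨η, cK, hη, hcK, hKB⟩ := hK (lamQ m) hlamK e he0 (by linarith)
  obtain ⟨CH, cH, hCH, hcH, hH'⟩ := hH m η hm3 hη
  set G : ℝ := 2 * K2 * (CH * 81) + CH * 81 + 9 * 4 ^ m + 1 with hG
  have hG0 : 1 ≤ G := by rw [hG]; have : 0 ≤ 2 * K2 * (CH * 81) + CH * 81 + 9 * 4 ^ m := by positivity
                         linarith
  set ρ : ℝ := min 1 (min 1 (L ^ 2 / 2) / G) with hρ
  have hρ0 : 0 < ρ := lt_min one_pos (by positivity)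
  have hρ1 : ρ ≤ 1 := min_le_left _ _
  have hGρ : G * ρ ≤ min 1 (L ^ 2 / 2) := by
    have : ρ ≤ min 1 (L ^ 2 / 2) / G := min_le_right _ _
    rw [le_div_iff₀ (by positivity)] at this
    linarith
  have hρ2 : ρ ^ 2 ≤ ρ := by nlinarith
  have hGρ2 : G * ρ ^ 2 ≤ min 1 (L ^ 2 / 2) := (mul_le_mul_of_nonneg_left hρ2 (by linarith)).trans hGρ
  have hGa : G * ρ ^ 2 ≤ 1 := hGρ2.trans (min_le_left _ _)
  have hGb : G * ρ ^ 2 ≤ L ^ 2 / 2 := hGρ2.trans (min_le_right _ _)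
  have hGe : G * ρ ^ 2 = 2 * K2 * (CH * 81 * ρ ^ 2) + CH * 81 * ρ ^ 2 + 9 * 4 ^ m * ρ ^ 2 + ρ ^ 2 := by rw [hG]; ring
  have p1 : 0 ≤ 2 * K2 * (CH * 81 * ρ ^ 2) := by positivity
  have p2 : 0 ≤ CH * 81 * ρ ^ 2 := by positivity
  have p3 : 0 ≤ 9 * 4 ^ m * ρ ^ 2 := by positivity
  have p4 : 0 ≤ ρ ^ 2 := by positivity
  refine ⟨R, e, CH, K1, K2, η, ρ, min (min cJ cK) (min cH (1 / 10)), hR4, he0, he4, hη, hρ0, hρ1, ?_, ?_, ?_,
    lt_min (lt_min hcJ hcK) (lt_min hcH (by norm_num)), (min_le_right _ _).trans (min_le_right _ _), fun c hc hcc => ?_⟩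
  · rw [le_div_iff₀ (by positivity)]
    linarith
  · nlinarith [sq_nonneg L]
  · have : 2 * K1 = 4 * (CW * A * e ^ 2) + 4 * (CJ * (CM / (R:ℝ) ^ 2)) := by rw [hK1]; ring
    linarith
  have hc1 : c ≤ cJ := hcc.trans ((min_le_left _ _).trans (min_le_left _ _))
  have hc2 : c ≤ cK := hcc.trans ((min_le_left _ _).trans (min_le_right _ _))
  have hc3 : c ≤ cH := hcc.trans ((min_le_right _ _).trans (min_le_left _ _))
  have hc4 : c ≤ 1 / 10 := hcc.trans ((min_le_right _ _).trans (min_le_right _ _))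
  have hm1 : 1 ≤ m := by omega
  obtain ⟨B, hB1, hB2⟩ := hKB c hc hc2
  refine ⟨B, ?_, hB2⟩
  have hWpos := fun j => WS_pos (m := m) hc hc4 j
  have hslow : ∀ i j : ℕ, WS m c i ≤ A * (1 + |(i : ℝ) - j|) ^ (2 * m + 1) * WS m c j := by
    intro i j
    refine (WS_slow hm1 hc hc4 i j).trans ?_
    apply mul_le_mul_of_nonneg_right _ (hWpos j).le
    apply mul_le_mul_of_nonneg_left _ hA0.le
    apply pow_le_pow_right₀ _ (by omega)
    linarith [abs_nonneg ((i:ℝ) - j)]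
  have hdual := dual_bound (c := c) hm1 (by omega : 1 ≤ R) hc hCM.le (hM' R (by omega)) (hJ' c hc hc1)
  have hlam1 : 1 ≤ lamQ m := by unfold lamQ; linarith
  exact
    { hc := hc
      hlam := hlam1
      he := by linarith
      hCH := hCH.le
      hK1 := hK10
      hK2 := hK20
      hB := hB1
      hBne := fun j hj => (hB2 j hj).1
      hW := hWpos
      hR := WS_R hm1 hc hc4
      hH := fun b β h1 h2 h3 E hE h4 S hS Y =>
        hH' c hc hc3 B (fun j p hp => ⟨(hB1 j p hp).1, (hB1 j p hp).2.1, (hB1 j p hp).2.2.trans (by linarith)⟩) hB2 b β h1 h2 h3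
          E (by rw [le_div_iff₀ (by positivity)] at hE; linarith) h4 S hS Y
      hT1 := by
        intro S β J
        set S' := S.filter (fun n => n = 0 ∨ n ∈ B (jj c (lamQ m) n)) with hS'
        have hpr : ∀ n, n ∈ B (jj c (lamQ m) n) → n.Prime ∧ |uu c (lamQ m) n - xx (jj c (lamQ m) n)| ≤ e :=
          fun n hn => ⟨(hB1 _ n hn).2.1, (hB1 _ n hn).2.2⟩
        have hnear : ∀ i ∈ S', |uu c (lamQ m) i - xx (jj c (lamQ m) i)| ≤ e := by
          intro i hi
          rw [hS', mem_filter] at hi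
          rcases hi.2 with h | h
          · subst h
            rw [Pool.Agent.H469R10.HO.uu_zero hlam1, jj_zero hlam1]
            simp [xx, he0.le]
          · exact (hpr i h).2
        have w1 := (hW' (WS m c) A hA0 hWpos hslow S' (jj c (lamQ m)) (uu c (lamQ m)) β e he0.le (by linarith) hnear J).2
        have w2 := hdual S' β J
        have q := QQ_subset (w := WS m c) (fun y => (hWpos y).le) (filter_subset _ _ : S' ⊆ S) (jj c (lamQ m)) β
        refine (two_split hWpos J (fun j => ?_) w1 w2).trans ?_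
        · rw [← sum_neg_distrib, ← sum_add_distrib]
          have : ∀ n, T1Q c (lamQ m) B (TQ c (lamQ m) m R) n j =
              if (n = 0 ∨ n ∈ B (jj c (lamQ m) n)) then TQ c (lamQ m) m R n j else 0 := by
            intro n; unfold T1Q; rfl
          simp_rw [this]
          rw [sum_filter_mul' S (fun n => n = 0 ∨ n ∈ B (jj c (lamQ m) n)) β (fun n => TQ c (lamQ m) m R n j), ← hS']
          apply sum_congr rfl
          intro n hn
          have h0 : n = 0 ∨ n.Prime := by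
            rw [hS', mem_filter] at hn
            rcases hn.2 with h | h
            · exact Or.inl h
            · exact Or.inr (hpr n h).1
          unfold TQ
          rw [if_pos h0]
          ring
        · have : 2 * (CW * A * e ^ 2 * QQ (WS m c) S' (jj c (lamQ m)) β) +
              2 * (CJ * (CM / (R:ℝ) ^ 2) * QQ (WS m c) S' (jj c (lamQ m)) β) = K1 * QQ (WS m c) S' (jj c (lamQ m)) β := by
            rw [hK1]; ring
          rw [this]
          exact mul_le_mul_of_nonneg_left q hK10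
      hT2 := by
        intro S β J
        set S' := S.filter (fun n => ¬ (n = 0 ∨ n.Prime) ∧ (Squarefree n ∧ 2 ≤ n.primeFactors.card)) with hS'
        have hnear : ∀ i ∈ S', |uu c (lamQ m) i - xx (jj c (lamQ m) i)| ≤ 1 := fun i _ => cell_near (uu_nonneg hc.le i)
        have w1 := (hW' (WS m c) A hA0 hWpos hslow S' (jj c (lamQ m)) (uu c (lamQ m)) β 1 zero_le_one le_rfl hnear J).1
        have w2 := hdual S' β J
        have q := QQ_subset (w := WS m c) (fun y => (hWpos y).le) (filter_subset _ _ : S' ⊆ S) (jj c (lamQ m)) β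
        refine (two_split hWpos J (fun j => ?_) w1 w2).trans ?_
        · rw [← sum_neg_distrib, ← sum_add_distrib]
          have : ∀ n, T2Q (TQ c (lamQ m) m R) n j =
              if (¬ (n = 0 ∨ n.Prime) ∧ (Squarefree n ∧ 2 ≤ n.primeFactors.card)) then TQ c (lamQ m) m R n j else 0 := by
            intro n; unfold T2Q; rfl
          simp_rw [this]
          rw [sum_filter_mul' S (fun n => ¬ (n = 0 ∨ n.Prime) ∧ (Squarefree n ∧ 2 ≤ n.primeFactors.card)) β
            (fun n => TQ c (lamQ m) m R n j), ← hS']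
          apply sum_congr rfl
          intro n hn
          rw [hS', mem_filter] at hn
          unfold TQ
          rw [if_neg hn.2.1, if_pos hn.2.2]
          ring
        · have : 2 * (CW * A * QQ (WS m c) S' (jj c (lamQ m)) β) +
              2 * (CJ * (CM / (R:ℝ) ^ 2) * QQ (WS m c) S' (jj c (lamQ m)) β) = K2 * QQ (WS m c) S' (jj c (lamQ m)) β := by
            rw [hK2]; ring
          rw [this]
          exact mul_le_mul_of_nonneg_left q hK20
      hU := by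
        intro n j
        have d : |PP (DR m R (fun y => Real.cos (uu c (lamQ m) n * y))) j| ≤ 2 * 1 :=
          Pool.Agent.H853R3.U469.PP_abs_le _ 1 (fun x hx _ => DR_cos_abs m R (by omega) _ x hx) zero_le_one j
        have d1 : |PP (fun t => win t * (Real.cos (uu c (lamQ m) n * t) - Real.cos (xx (jj c (lamQ m) n) * t))) j| ≤ 2 * 2 := by
          refine Pool.Agent.H853R3.U469.PP_abs_le _ 2 (fun x _ _ => ?_) (by norm_num) j
          rw [abs_mul, abs_of_nonneg (win_nonneg x)]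
          have h1 := win_le_one x
          have h2 : |Real.cos (uu c (lamQ m) n * x) - Real.cos (xx (jj c (lamQ m) n) * x)| ≤ 2 := by
            have a1 := Real.abs_cos_le_one (uu c (lamQ m) n * x)
            have a2 := Real.abs_cos_le_one (xx (jj c (lamQ m) n) * x)
            have a3 := abs_sub (Real.cos (uu c (lamQ m) n * x)) (Real.cos (xx (jj c (lamQ m) n) * x))
            linarith
          calc win x * _ ≤ 1 * 2 := mul_le_mul h1 h2 (abs_nonneg _) zero_le_one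
            _ = 2 := one_mul _
        have d2 : |PP (fun t => win t * Real.cos (uu c (lamQ m) n * t)) j| ≤ 2 * 1 := by
          refine Pool.Agent.H853R3.U469.PP_abs_le _ 1 (fun x _ _ => ?_) (by norm_num) j
          rw [abs_mul, abs_of_nonneg (win_nonneg x)]
          calc win x * _ ≤ 1 * 1 := mul_le_mul (win_le_one x) (Real.abs_cos_le_one _) (abs_nonneg _) zero_le_one
            _ = 1 := one_mul _
        unfold TQ
        split_ifs
        · refine (abs_add_le _ _).trans ?_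
          rw [abs_neg]
          linarith
        · refine (abs_add_le _ _).trans ?_
          rw [abs_neg]
          linarith
        · simp
      hT0 := by
        intro n j h1 h2
        unfold TQ
        rw [if_neg h1, if_neg h2] }

end Pool.Agent.H472.Q2
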