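import Mathlib
import Pool.Agent.H472.Q2.MachB

set_option autoImplicit false

/-!
# Family of fixed points, part A: the wave packets and their sums
-/

open Finset MeasureTheory Filter Topology

namespace Pool.Agent.H472.Q2

open Pool.Agent.H469R10.HO Pool.Agent.H13R3.EM Pool.Agent.H180R3.Q469

lemma phi_cont : Continuous phi := by
  unfold phi
  exact (Real.smoothTransition.continuous.comp (by fun_prop)).mul (Real.smoothTransition.continuous.comp (by fun_prop))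

lemma phi_nonneg (x : ℝ) : 0 ≤ phi x := mul_nonneg (Real.smoothTransition.nonneg _) (Real.smoothTransition.nonneg _)

lemma phi_le_one (x : ℝ) : phi x ≤ 1 :=
  mul_le_one₀ (Real.smoothTransition.le_one _) (Real.smoothTransition.nonneg _) (Real.smoothTransition.le_one _)

lemma phi_low {x : ℝ} (hx : x ≤ 1 / 2) : phi x = 0 := by
  unfold phi
  rw [Real.smoothTransition.zero_of_nonpos (by linarith), zero_mul]

lemma phi_high {x : ℝ} (hx : 1 ≤ x) : phi x = 0 := by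
  unfold phi
  rw [Real.smoothTransition.zero_of_nonpos (x := 8 - 8 * x) (by linarith), mul_zero]

/-- continuity of an inverted function -/
lemma inv_cont {m R : ℕ} (hm : 1 ≤ m) (hR : 1 ≤ R) {f : ℝ → ℝ} (hf : Continuous f) {C : ℝ} (hC : ∀ y, |f y| ≤ C) :
    Continuous fun x : ℝ => ((R : ℝ) * x) ^ (2 * m) * f ((R : ℝ) ^ 2 * x)⁻¹ := by
  have hR0 : (R:ℝ) ≠ 0 := by positivity
  rw [continuous_iff_continuousAt]
  intro x
  by_cases hx : x = 0
  · subst hx
    unfold ContinuousAt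
    have h0 : ((R : ℝ) * 0) ^ (2 * m) * f ((R : ℝ) ^ 2 * 0)⁻¹ = 0 := by
      have : 2 * m ≠ 0 := by omega
      simp [this]
    simp only [h0]
    apply squeeze_zero_norm (a := fun x : ℝ => |(R:ℝ) * x| ^ (2 * m) * C)
    · intro x
      rw [Real.norm_eq_abs, abs_mul, abs_pow]
      exact mul_le_mul_of_nonneg_left (hC _) (by positivity)
    · have : Continuous fun x : ℝ => |(R:ℝ) * x| ^ (2 * m) * C := by fun_prop
      have h := this.tendsto 0
      have e : |(R:ℝ) * 0| ^ (2 * m) * C = 0 := by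
        have : 2 * m ≠ 0 := by omega
        simp [this]
      rwa [e] at h
  · have hx2 : (R:ℝ) ^ 2 * x ≠ 0 := mul_ne_zero (pow_ne_zero _ hR0) hx
    refine ContinuousAt.mul (by fun_prop) ?_
    exact hf.continuousAt.comp (ContinuousAt.inv₀ (by fun_prop) hx2)

section rQ

variable {m R : ℕ}

lemma rQ_cont (hm : 1 ≤ m) (hR : 1 ≤ R) (J : ℕ) : Continuous (rQ m R J) := by
  unfold rQ
  refine (phi_cont.mul (by fun_prop)).add ?_
  exact inv_cont (f := fun y => phi y * Real.cos (xx J * y)) hm hR (phi_cont.mul (by fun_prop)) (C := 1) fun y => by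
    rw [abs_mul, abs_of_nonneg (phi_nonneg y)]
    exact mul_le_one₀ (phi_le_one y) (abs_nonneg _) (Real.abs_cos_le_one _)

lemma mirror_abs (hR : 2 ≤ R) (x : ℝ) (J : ℕ) :
    |((R : ℝ) * x) ^ (2 * m) * (phi ((R : ℝ) ^ 2 * x)⁻¹ * Real.cos (xx J * ((R : ℝ) ^ 2 * x)⁻¹))| ≤ 1 := by
  have hR2 : (2:ℝ) ≤ R := by exact_mod_cast hR
  by_cases h : 1 / 2 < ((R : ℝ) ^ 2 * x)⁻¹
  · have hpos : 0 < (R : ℝ) ^ 2 * x := by
      by_contra hn
      push Not at hn
      have := inv_nonpos.2 hn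
      linarith
    have h2 : (R : ℝ) ^ 2 * x < 2 := by
      rw [lt_inv_comm₀ (by norm_num) hpos] at h
      norm_num at h
      exact h
    have hx : 0 < x := by
      by_contra hn
      push Not at hn
      have : (R : ℝ) ^ 2 * x ≤ 0 := mul_nonpos_of_nonneg_of_nonpos (by positivity) hn
      linarith
    have h3 : (R:ℝ) * x ≤ 1 := by nlinarith
    have h4 : 0 ≤ (R:ℝ) * x := by positivity
    rw [abs_mul, abs_mul, abs_of_nonneg (phi_nonneg _), abs_of_nonneg (by positivity : 0 ≤ ((R : ℝ) * x) ^ (2 * m))]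
    exact mul_le_one₀ (pow_le_one₀ h4 h3) (mul_nonneg (phi_nonneg _) (abs_nonneg _))
      (mul_le_one₀ (phi_le_one _) (abs_nonneg _) (Real.abs_cos_le_one _))
  · push Not at h
    rw [phi_low h]
    simp

lemma rQ_abs (hR : 2 ≤ R) (J : ℕ) (x : ℝ) : |rQ m R J x| ≤ 2 := by
  unfold rQ
  refine (abs_add_le _ _).trans ?_
  have h1 : |phi x * Real.cos (xx J * x)| ≤ 1 := by
    rw [abs_mul, abs_of_nonneg (phi_nonneg x)]
    exact mul_le_one₀ (phi_le_one x) (abs_nonneg _) (Real.abs_cos_le_one _)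
  have h2 := mirror_abs (m := m) hR x J
  linarith

lemma rQ_symm (hR : 1 ≤ R) (J : ℕ) {x : ℝ} (hx : 0 < x) :
    rQ m R J x = ((R : ℝ) * x) ^ (2 * m) * rQ m R J ((R : ℝ) ^ 2 * x)⁻¹ := by
  have hR0 : (0:ℝ) < R := by exact_mod_cast hR
  unfold rQ
  have e1 : ((R : ℝ) ^ 2 * ((R : ℝ) ^ 2 * x)⁻¹)⁻¹ = x := by
    field_simp
  have e2 : ((R : ℝ) * x) ^ (2 * m) * ((R : ℝ) * ((R : ℝ) ^ 2 * x)⁻¹) ^ (2 * m) = 1 := by
    rw [← mul_pow]
    have : (R : ℝ) * x * ((R : ℝ) * ((R : ℝ) ^ 2 * x)⁻¹) = 1 := by field_simp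
    rw [this, one_pow]
  rw [e1]
  linear_combination (-(phi x * Real.cos (xx J * x))) * e2

lemma rQ_low (hR : 2 ≤ R) (J : ℕ) {x : ℝ} (hx0 : 0 ≤ x) (hx : x ≤ 3 / (4 * (R : ℝ) ^ 2)) : rQ m R J x = 0 := by
  have hR2 : (2:ℝ) ≤ R := by exact_mod_cast hR
  have hRsq : (4:ℝ) ≤ (R:ℝ) ^ 2 := by nlinarith
  rw [le_div_iff₀ (by positivity)] at hx
  unfold rQ
  have h1 : x ≤ 1 / 2 := by nlinarith
  rw [phi_low h1]
  rcases hx0.eq_or_lt with h | h
  · subst h
    simp [phi_low]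
  · have hpos : 0 < (R : ℝ) ^ 2 * x := by positivity
    have h2 : 1 ≤ ((R : ℝ) ^ 2 * x)⁻¹ := by
      rw [one_le_inv₀ hpos]
      linarith
    rw [phi_high h2]
    simp

lemma rQ_high (hR : 2 ≤ R) (J : ℕ) {x : ℝ} (hx : 4 / 3 ≤ x) : rQ m R J x = 0 := by
  have hR2 : (2:ℝ) ≤ R := by exact_mod_cast hR
  have hRsq : (4:ℝ) ≤ (R:ℝ) ^ 2 := by nlinarith
  unfold rQ
  rw [phi_high (by linarith)]
  have hpos : 0 < (R : ℝ) ^ 2 * x := by positivity
  have h2 : ((R : ℝ) ^ 2 * x)⁻¹ ≤ 1 / 2 := by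
    rw [inv_le_comm₀ hpos (by norm_num)]
    norm_num
    nlinarith
  rw [phi_low h2]
  simp

end rQ

/-- Minkowski for series -/
lemma Nle_series {W : ℕ → ℝ} (hW : ∀ j, 0 < W j) {v : ℕ → ℕ → ℝ} {D : ℝ} (hD : 0 ≤ D) (hv : ∀ k, Nle W (v k) D)
    {a : ℕ → ℝ} (ha : Summable fun k => |a k|) {g : ℕ → ℝ} (hg : ∀ j, HasSum (fun k => a k * v k j) (g j)) :
    Nle W g ((∑' k, |a k|) * D) := by
  have h1 : ∀ K : ℕ, Nle W (fun j => ∑ k ∈ range K, a k * v k j) ((∑ k ∈ range K, |a k|) * D) := by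
    intro K
    induction K with
    | zero => intro J; simp
    | succ K ih =>
      have h2 : Nle W (fun j => a K * v K j) (|a K| * D) := by
        intro J
        have e : ∀ j, W j * (a K * v K j) ^ 2 = a K ^ 2 * (W j * v K j ^ 2) := fun j => by ring
        simp_rw [e]
        rw [← mul_sum, mul_pow, sq_abs]
        exact mul_le_mul_of_nonneg_left (hv K J) (sq_nonneg _)
      have h3 := Nle.add hW ih h2 (mul_nonneg (sum_nonneg fun k _ => abs_nonneg _) hD) (mul_nonneg (abs_nonneg _) hD)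
      simp_rw [sum_range_succ]
      rw [add_mul]
      exact h3
  refine Nle.lim (x := fun K j => ∑ k ∈ range K, a k * v k j) (fun j => (hg j).tendsto_sum_nat) ?_
  refine Eventually.of_forall fun K => ?_
  refine (h1 K).mono (mul_nonneg (sum_nonneg fun k _ => abs_nonneg _) hD) ?_
  exact mul_le_mul_of_nonneg_right (ha.sum_le_tsum _ fun _ _ => abs_nonneg _) hD

/-- tail of a geometric series -/
lemma tail_geom (K : ℕ) {f : ℕ → ℝ} (h0 : ∀ k, k < K → f k = 0) (h1 : ∀ k, |f k| ≤ (1 / 2) ^ k) :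
    (Summable fun k => |f k|) ∧ ∑' k, |f k| ≤ 2 * (1 / 2) ^ K := by
  have hs : Summable fun k : ℕ => ((1:ℝ) / 2) ^ k := summable_geometric_two
  have hf : Summable fun k => |f k| := Summable.of_nonneg_of_le (fun _ => abs_nonneg _) h1 hs
  refine ⟨hf, ?_⟩
  rw [← hf.sum_add_tsum_nat_add K]
  have e0 : ∑ i ∈ range K, |f i| = 0 := sum_eq_zero fun i hi => by rw [h0 i (mem_range.1 hi), abs_zero]
  rw [e0, zero_add]
  have h2 : Summable fun i : ℕ => ((1:ℝ) / 2) ^ (i + K) := (summable_nat_add_iff K).2 hs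
  calc ∑' i, |f (i + K)| ≤ ∑' i : ℕ, ((1:ℝ) / 2) ^ (i + K) :=
        ((summable_nat_add_iff K).2 hf).tsum_le_tsum (fun i => h1 _) h2
    _ = 2 * (1 / 2) ^ K := by
        simp_rw [pow_add]
        rw [tsum_mul_right, tsum_geometric_two]

end Pool.Agent.H472.Q2
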