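import Mathlib
import Pool.Agent.H472.Q2.FamA

set_option autoImplicit false

/-!
# Family of fixed points, part B
-/

open Finset MeasureTheory Filter Topology

namespace Pool.Agent.H472.Q2

open Pool.Agent.H469R10.HO Pool.Agent.H13R3.EM Pool.Agent.H180R3.Q469

/-- all hypotheses for the family -/
structure MH (m R : ℕ) (c e CH K1 K2 L ρ CS ε₀ η : ℝ) (B : ℕ → Finset ℕ) : Prop where
  mq : MQ c (lamQ m) e CH K1 K2 10 (1 / 4 ^ m) B (WS m c) (TQ c (lamQ m) m R)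
  hm : 3 ≤ m
  hR : 4 ≤ R
  hc1 : c ≤ 1 / 10
  he0 : 0 < e
  he8 : e ≤ 1 / 8
  hη : 0 < η
  hB2 : ∀ j, 1 ≤ j → (B j).Nonempty ∧ ∀ p ∈ B j, η * p ≤ (B j).card * xx j * Real.log p
  hρ0 : 0 < ρ
  hρ1 : ρ ≤ 1
  hρE : 9 * ρ ^ 2 ≤ 1 / 4 ^ m
  hL0 : 0 < L
  hL : 2 * K1 + 2 * K2 * (CH * 81 * ρ ^ 2) ≤ L ^ 2
  hL4 : L ^ 2 ≤ 1 / 4
  hCHL : CH * 81 * ρ ^ 2 ≤ L ^ 2
  hCS : 0 < CS
  hsrc : ∀ J I : ℕ, ∑ j ∈ range I, WS m c j * (PP (rQ m R J) j) ^ 2 ≤ CS ^ 2 * WS m c J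
  hss : Nle (WS m c) (ssQ m R c) (ρ / 4)
  hε0 : 0 < ε₀
  hε1 : ε₀ ≤ 1
  hερ : 2 * ε₀ * CS ≤ ρ / 4
  hLs : 80 * 6 * 17 ^ 2 * 2 ^ m * 4 ^ (2 * m + 1) * L * CS ≤ 1

/-- coefficients of the wave packets -/
noncomputable def aS (m : ℕ) (c ε₀ : ℝ) (J : ℕ → ℕ) (s : ℕ → Bool) (k : ℕ) : ℝ :=
  if s k then ε₀ * (1 / 2) ^ k * (√(WS m c (J k)))⁻¹ else 0

/-- the extra source -/
noncomputable def rS (m R : ℕ) (c ε₀ : ℝ) (J : ℕ → ℕ) (s : ℕ → Bool) (x : ℝ) : ℝ :=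
  ∑' k, aS m c ε₀ J s k * rQ m R (J k) x

/-- the source sequence -/
noncomputable def srcS (m R : ℕ) (c ε₀ : ℝ) (J : ℕ → ℕ) (s : ℕ → Bool) (j : ℕ) : ℝ :=
  ssQ m R c j + PP (rS m R c ε₀ J s) j

namespace MH

variable {m R : ℕ} {c e CH K1 K2 L ρ CS ε₀ η : ℝ} {B : ℕ → Finset ℕ} (h : MH m R c e CH K1 K2 L ρ CS ε₀ η B)
include h

lemma hc : 0 < c := h.mq.hc

lemma hm1 : 1 ≤ m := by have := h.hm; omega

lemma Wpos (j : ℕ) : 0 < WS m c j := h.mq.hW j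

lemma W1 (j : ℕ) : 1 ≤ WS m c j := WS_ge_one h.hm1 h.hc h.hc1 j

lemma amp_le (j : ℕ) : (√(WS m c j))⁻¹ ≤ 1 := by
  have : 1 ≤ √(WS m c j) := by
    rw [Real.one_le_sqrt]
    exact h.W1 j
  exact inv_le_one_of_one_le₀ this

lemma amp_pos (j : ℕ) : 0 < (√(WS m c j))⁻¹ := inv_pos.2 (Real.sqrt_pos.2 (h.Wpos j))

lemma aS_abs (J : ℕ → ℕ) (s : ℕ → Bool) (k : ℕ) : |aS m c ε₀ J s k| ≤ (1 / 2) ^ k := by
  unfold aS
  split_ifs
  · have h1 := h.amp_le (J k)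
    have h2 := h.amp_pos (J k)
    have h3 := h.hε0
    have h4 := h.hε1
    rw [abs_of_pos (by positivity)]
    have h5 : (0:ℝ) < (1 / 2) ^ k := by positivity
    have h6 : ε₀ * (1 / 2) ^ k ≤ (1 / 2) ^ k := by nlinarith
    have h7 : 0 < ε₀ * (1 / 2) ^ k := by positivity
    nlinarith
  · simp

lemma rS_hasSum (J : ℕ → ℕ) (s : ℕ → Bool) (x : ℝ) :
    HasSum (fun k => aS m c ε₀ J s k * rQ m R (J k) x) (rS m R c ε₀ J s x) := by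
  apply Summable.hasSum
  refine Summable.of_norm_bounded (g := fun k => ((1:ℝ) / 2) ^ k * 2) (summable_geometric_two.mul_right 2) fun k => ?_
  rw [Real.norm_eq_abs, abs_mul]
  have hR := h.hR
  exact mul_le_mul (h.aS_abs J s k) (rQ_abs (by omega) _ _) (abs_nonneg _) (by positivity)

lemma rS_cont (J : ℕ → ℕ) (s : ℕ → Bool) : Continuous (rS m R c ε₀ J s) := by
  have hR := h.hR
  have hm := h.hm
  refine continuous_tsum (u := fun k => ((1:ℝ) / 2) ^ k * 2) (fun k => continuous_const.mul (rQ_cont (by omega) (by omega) _))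
    (summable_geometric_two.mul_right 2) fun k x => ?_
  rw [Real.norm_eq_abs, abs_mul]
  exact mul_le_mul (h.aS_abs J s k) (rQ_abs (by omega) _ _) (abs_nonneg _) (by positivity)

lemma rS_low (J : ℕ → ℕ) (s : ℕ → Bool) {x : ℝ} (hx0 : 0 ≤ x) (hx : x ≤ 3 / (4 * (R : ℝ) ^ 2)) : rS m R c ε₀ J s x = 0 := by
  have hR := h.hR
  unfold rS
  simp_rw [rQ_low (m := m) (by omega : 2 ≤ R) _ hx0 hx, mul_zero]
  exact tsum_zero

lemma rS_high (J : ℕ → ℕ) (s : ℕ → Bool) {x : ℝ} (hx : 4 / 3 ≤ x) : rS m R c ε₀ J s x = 0 := by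
  have hR := h.hR
  unfold rS
  simp_rw [rQ_high (m := m) (by omega : 2 ≤ R) _ hx, mul_zero]
  exact tsum_zero

lemma rS_symm (J : ℕ → ℕ) (s : ℕ → Bool) {x : ℝ} (hx : 0 < x) :
    rS m R c ε₀ J s x = ((R : ℝ) * x) ^ (2 * m) * rS m R c ε₀ J s ((R : ℝ) ^ 2 * x)⁻¹ := by
  have hR := h.hR
  unfold rS
  rw [← tsum_mul_left]
  refine tsum_congr fun k => ?_
  rw [rQ_symm (m := m) (by omega : 1 ≤ R) (J k) hx]
  ring

lemma PP_rS (J : ℕ → ℕ) (s : ℕ → Bool) (j : ℕ) :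
    HasSum (fun k => aS m c ε₀ J s k * PP (rQ m R (J k)) j) (PP (rS m R c ε₀ J s) j) := by
  have hR := h.hR
  have hm := h.hm
  have h1 := Pool.Agent.H54R3.T469O.PP_hasSum (F := fun k x => aS m c ε₀ J s k * rQ m R (J k) x)
    (a := fun k => ((1:ℝ) / 2) ^ k * 2)
    (fun k => continuous_const.mul (rQ_cont (by omega) (by omega) _)) (fun k x _ => by
      rw [abs_mul]
      exact mul_le_mul (h.aS_abs J s k) (rQ_abs (by omega) _ _) (abs_nonneg _) (by positivity))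
    (summable_geometric_two.mul_right 2) j (f := rS m R c ε₀ J s) (fun x _ => h.rS_hasSum J s x)
  simpa only [Pool.Agent.H54R3.T469O.PP_const_mul] using h1

/-- normalized wave packet -/
lemma Nle_rQ (J : ℕ) : Nle (WS m c) (fun j => (√(WS m c J))⁻¹ * PP (rQ m R J) j) CS := by
  intro I
  have e : ∀ j, WS m c j * ((√(WS m c J))⁻¹ * PP (rQ m R J) j) ^ 2 = (WS m c J)⁻¹ * (WS m c j * (PP (rQ m R J) j) ^ 2) := by
    intro j
    rw [mul_pow, inv_pow, Real.sq_sqrt (h.Wpos J).le]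
    ring
  simp_rw [e]
  rw [← mul_sum]
  have h1 := h.hsrc J I
  have h2 := h.Wpos J
  calc (WS m c J)⁻¹ * ∑ j ∈ range I, WS m c j * (PP (rQ m R J) j) ^ 2 ≤ (WS m c J)⁻¹ * (CS ^ 2 * WS m c J) :=
        mul_le_mul_of_nonneg_left h1 (inv_nonneg.2 h2.le)
    _ = CS ^ 2 := by field_simp

/-- coefficients of the difference, normalized -/
noncomputable def dS (ε₀ : ℝ) (s s' : ℕ → Bool) (k : ℕ) : ℝ :=
  (if s k then ε₀ * (1 / 2) ^ k else 0) - (if s' k then ε₀ * (1 / 2) ^ k else 0)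

omit h in
lemma dS_eq (J : ℕ → ℕ) (s s' : ℕ → Bool) (k : ℕ) :
    aS m c ε₀ J s k - aS m c ε₀ J s' k = dS ε₀ s s' k * (√(WS m c (J k)))⁻¹ := by
  unfold aS dS
  split_ifs <;> ring

lemma src_diff (J : ℕ → ℕ) (s s' : ℕ → Bool) (j : ℕ) :
    HasSum (fun k => dS ε₀ s s' k * ((√(WS m c (J k)))⁻¹ * PP (rQ m R (J k)) j))
      (srcS m R c ε₀ J s j - srcS m R c ε₀ J s' j) := by
  have h1 := (h.PP_rS J s j).sub (h.PP_rS J s' j)
  have e : srcS m R c ε₀ J s j - srcS m R c ε₀ J s' j = PP (rS m R c ε₀ J s) j - PP (rS m R c ε₀ J s') j := by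
    unfold srcS; ring
  rw [e]
  refine h1.congr_fun ?_ |> fun x => x
  intro k
  rw [← sub_mul, dS_eq]
  ring

end MH

end Pool.Agent.H472.Q2
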