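import Mathlib
import Pool.Agent.H472.Q2.FamB

set_option autoImplicit false

/-!
# Family of fixed points, part C: existence, continuity
-/

open Finset MeasureTheory Filter Topology

namespace Pool.Agent.H472.Q2

open Pool.Agent.H469R10.HO Pool.Agent.H13R3.EM Pool.Agent.H180R3.Q469

lemma eventually_eq_nhds_discrete (b : Bool) : ∀ᶠ x in 𝓝 b, x = b := by
  rw [nhds_discrete]
  exact Filter.eventually_pure.2 rfl

lemma cont_of_mod {f : (ℕ → Bool) → ℝ} {C : ℝ} (hf : ∀ (K : ℕ) (s s' : ℕ → Bool), (∀ i, i < K → s i = s' i) →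
    |f s - f s'| ≤ C * (1 / 2) ^ K) : Continuous f := by
  rw [continuous_iff_continuousAt]
  intro s
  rw [ContinuousAt, Metric.tendsto_nhds]
  intro ε hε
  obtain ⟨K, hK⟩ := exists_pow_lt_of_lt_one (show 0 < ε / (|C| + 1) by positivity) (show (1/2 : ℝ) < 1 by norm_num)
  have h1 : ∀ᶠ s' in 𝓝 s, ∀ i ∈ Finset.range K, s' i = s i := by
    rw [Filter.eventually_all_finset]
    intro i _
    have h2 : Tendsto (fun s' : ℕ → Bool => s' i) (𝓝 s) (𝓝 (s i)) := (continuous_apply i).tendsto s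
    exact h2.eventually (eventually_eq_nhds_discrete (s i))
  filter_upwards [h1] with s' hs'
  rw [Real.dist_eq]
  refine (hf K s' s fun i hi => hs' i (Finset.mem_range.2 hi)).trans_lt ?_
  rw [lt_div_iff₀ (by positivity)] at hK
  have h3 : (0:ℝ) < (1 / 2) ^ K := by positivity
  have h4 := le_abs_self C
  nlinarith

namespace MH

variable {m R : ℕ} {c e CH K1 K2 L ρ CS ε₀ η : ℝ} {B : ℕ → Finset ℕ} (h : MH m R c e CH K1 K2 L ρ CS ε₀ η B)
include h

lemma dS_abs (s s' : ℕ → Bool) (k : ℕ) : |dS ε₀ s s' k| ≤ ε₀ * (1 / 2) ^ k := by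
  have h3 := h.hε0
  have h5 : (0:ℝ) < ε₀ * (1 / 2) ^ k := by positivity
  unfold dS
  split_ifs
  · simp; positivity
  · rw [sub_zero, abs_of_pos h5]
  · rw [zero_sub, abs_neg, abs_of_pos h5]
  · simp; positivity

omit h in
lemma dS_agree {s s' : ℕ → Bool} {k : ℕ} (hk : s k = s' k) : dS ε₀ s s' k = 0 := by
  unfold dS
  rw [hk, sub_self]

lemma dS_sum {s s' : ℕ → Bool} {K : ℕ} (hag : ∀ i, i < K → s i = s' i) :
    (Summable fun k => |dS ε₀ s s' k|) ∧ ∑' k, |dS ε₀ s s' k| ≤ 2 * ε₀ * (1 / 2) ^ K := by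
  have h3 := h.hε0
  have h1 := tail_geom K (f := fun k => dS ε₀ s s' k / ε₀) (fun k hk => by simp only [dS_agree (hag k hk), zero_div])
    (fun k => by
      rw [abs_div, abs_of_pos h3, div_le_iff₀ h3]
      have := h.dS_abs s s' k
      linarith)
  have e : ∀ k, |dS ε₀ s s' k| = ε₀ * |dS ε₀ s s' k / ε₀| := by
    intro k
    rw [abs_div, abs_of_pos h3]
    field_simp
  have e2 : (fun k => |dS ε₀ s s' k|) = fun k => ε₀ * |dS ε₀ s s' k / ε₀| := funext e
  rw [e2]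
  refine ⟨h1.1.mul_left _, ?_⟩
  rw [tsum_mul_left]
  have := mul_le_mul_of_nonneg_left h1.2 h3.le
  linarith

lemma Nle_diff (J : ℕ → ℕ) {s s' : ℕ → Bool} {K : ℕ} (hag : ∀ i, i < K → s i = s' i) :
    Nle (WS m c) (fun j => srcS m R c ε₀ J s j - srcS m R c ε₀ J s' j) (2 * ε₀ * (1 / 2) ^ K * CS) := by
  have h1 := h.dS_sum hag
  have h2 := Nle_series h.Wpos h.hCS.le (fun k => h.Nle_rQ (J k)) h1.1 (fun j => h.src_diff J s s' j)
  exact h2.mono (mul_nonneg (tsum_nonneg fun _ => abs_nonneg _) h.hCS.le) (mul_le_mul_of_nonneg_right h1.2 h.hCS.le)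

lemma src_false (J : ℕ → ℕ) (j : ℕ) : srcS m R c ε₀ J (fun _ => false) j = ssQ m R c j := by
  unfold srcS
  have : rS m R c ε₀ J (fun _ => false) = fun _ => 0 := by
    funext x
    unfold rS aS
    simp
  rw [this]
  unfold PP
  simp

lemma Nle_src (J : ℕ → ℕ) (s : ℕ → Bool) : Nle (WS m c) (srcS m R c ε₀ J s) (ρ / 2) := by
  have h1 := h.Nle_diff J (s := s) (s' := fun _ => false) (K := 0) (fun i hi => absurd hi (Nat.not_lt_zero _))
  have h2 := Nle.add h.Wpos h1 h.hss (by have := h.hε0; have := h.hCS; positivity) (by have := h.hρ0; positivity)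
  have e : (fun j => srcS m R c ε₀ J s j - srcS m R c ε₀ J (fun _ => false) j + ssQ m R c j) = srcS m R c ε₀ J s := by
    funext j
    rw [h.src_false]; ring
  rw [e] at h2
  refine h2.mono (by have := h.hε0; have := h.hCS; have := h.hρ0; positivity) ?_
  have := h.hερ
  rw [pow_zero, mul_one]
  linarith

lemma exists_b (J : ℕ → ℕ) (s : ℕ → Bool) : ∃ b : ℕ → ℝ, Nle (WS m c) b ρ ∧
    (Summable fun n => |alp c (lamQ m) B b n|) ∧
    ∀ j, b j = srcS m R c ε₀ J s j + ∑' n, alp c (lamQ m) B b n * TQ c (lamQ m) m R n j :=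
  h.mq.fixed h.hρ0 h.hρE (h.hL.trans h.hL4) _ (h.Nle_src J s)

lemma stab' {s s' : ℕ → ℝ} {b b' : ℕ → ℝ} {A : ℝ} (hs : Nle (WS m c) (fun j => s j - s' j) A)
    (hb : Nle (WS m c) b ρ) (hb' : Nle (WS m c) b' ρ)
    (hf : ∀ j, b j = s j + ∑' n, alp c (lamQ m) B b n * TQ c (lamQ m) m R n j)
    (hf' : ∀ j, b' j = s' j + ∑' n, alp c (lamQ m) B b' n * TQ c (lamQ m) m R n j) :
    Nle (WS m c) (fun j => b j - b' j) (2 * A) ∧
    (∀ j, WS m c j * ((b j - b' j) - (s j - s' j)) ^ 2 ≤ (2 * L * A) ^ 2) :=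
  h.mq.stab h.hρ0 h.hρE h.hL h.hL4 hs hb hb' hf hf'

/-- continuity of `b` -/
lemma cont_b (J : ℕ → ℕ) {b : (ℕ → Bool) → ℕ → ℝ} (hb : ∀ s, Nle (WS m c) (b s) ρ)
    (hf : ∀ s j, b s j = srcS m R c ε₀ J s j + ∑' n, alp c (lamQ m) B (b s) n * TQ c (lamQ m) m R n j) (j : ℕ) :
    Continuous fun s => b s j := by
  refine cont_of_mod (C := 4 * ε₀ * CS) fun K s s' hag => ?_
  have hε := h.hε0
  have hCS := h.hCS
  have h1 := (h.stab' (h.Nle_diff J hag) (hb s) (hb s') (hf s) (hf s')).1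
  have h2 := h1.abs_le h.Wpos (by positivity) j
  refine h2.trans ?_
  have h3 := h.amp_le j
  have h4 := h.amp_pos j
  rw [div_eq_mul_inv]
  calc 2 * (2 * ε₀ * (1 / 2) ^ K * CS) * (√(WS m c j))⁻¹ ≤ 2 * (2 * ε₀ * (1 / 2) ^ K * CS) * 1 :=
        mul_le_mul_of_nonneg_left h3 (by positivity)
    _ = _ := by ring

omit h in
lemma cont_alp {lam : ℝ} {b : (ℕ → Bool) → ℕ → ℝ} (hb : ∀ j, Continuous fun s => b s j) (n : ℕ) :
    Continuous fun s => alp c lam B (b s) n := by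
  unfold alp
  split_ifs
  · exact hb 0
  · refine continuous_finsetProd _ fun p _ => ?_
    unfold bet
    split_ifs
    · exact (hb _).div_const _
    · exact continuous_const
  · exact continuous_const

end MH

end Pool.Agent.H472.Q2
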