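import Mathlib
import Pool.Agent.H472.Q2.FamC

set_option autoImplicit false

/-!
# Family of fixed points, part D: the jump
-/

open Finset MeasureTheory Filter Topology

namespace Pool.Agent.H472.Q2

open Pool.Agent.H469R10.HO Pool.Agent.H13R3.EM Pool.Agent.H180R3.Q469

lemma lamQ_pos (m : ℕ) : 0 < lamQ m := by unfold lamQ; positivity

lemma rpow_kap (m : ℕ) {c : ℝ} (hc : 0 < c) (n : ℕ) : (n : ℝ) ^ kapQ m = (uu c (lamQ m) n / c) ^ (2 * m + 1) := by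
  unfold uu
  rw [mul_div_cancel_left₀ _ hc.ne', ← Real.rpow_natCast, ← Real.rpow_mul (Nat.cast_nonneg n)]
  congr 1
  unfold kapQ lamQ
  push_cast
  field_simp

lemma xx_lt {i j : ℕ} (h : i < j) : xx i + 3 / 2 < xx j := by
  unfold xx
  have h1 : (i:ℝ) + 1 ≤ j := by exact_mod_cast h
  have := Real.pi_gt_three
  nlinarith

lemma xx_mono {i j : ℕ} (h : i ≤ j) : xx i ≤ xx j := by
  unfold xx
  have h1 : (i:ℝ) ≤ j := by exact_mod_cast h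
  have := Real.pi_gt_three
  nlinarith

lemma lt_uu {m : ℕ} {c X y : ℝ} (hc : 0 < c) (hX : 0 ≤ X) {n : ℕ} (h1 : (X / c) ^ lamQ m ≤ y) (h2 : y < n) :
    X < uu c (lamQ m) n := by
  have hl := lamQ_pos m
  have hXc : 0 ≤ X / c := by positivity
  have h3 : (X / c) ^ lamQ m < n := lt_of_le_of_lt h1 h2
  have h4 : ((X / c) ^ lamQ m) ^ (1 / lamQ m) < (n:ℝ) ^ (1 / lamQ m) :=
    Real.rpow_lt_rpow (by positivity) h3 (by positivity)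
  rw [← Real.rpow_mul hXc, mul_one_div_cancel hl.ne', Real.rpow_one, div_lt_iff₀ hc] at h4
  unfold uu
  linarith

lemma uu_le_of {m : ℕ} {c X y : ℝ} (hc : 0 < c) (hX : 0 ≤ X) {n : ℕ} (h1 : y ≤ (X / c) ^ lamQ m) (h2 : (n : ℝ) ≤ y) :
    uu c (lamQ m) n ≤ X := by
  have hl := lamQ_pos m
  have hXc : 0 ≤ X / c := by positivity
  have h3 : (n : ℝ) ≤ (X / c) ^ lamQ m := h2.trans h1
  have h4 : (n:ℝ) ^ (1 / lamQ m) ≤ ((X / c) ^ lamQ m) ^ (1 / lamQ m) :=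
    Real.rpow_le_rpow (by positivity) h3 (by positivity)
  rw [← Real.rpow_mul hXc, mul_one_div_cancel hl.ne', Real.rpow_one, le_div_iff₀ hc] at h4
  unfold uu
  linarith

lemma lt_of_uu {m : ℕ} {c X y : ℝ} (hc : 0 < c) {n : ℕ} (h1 : y ≤ (X / c) ^ lamQ m) (h2 : X < uu c (lamQ m) n)
    (hX : 0 ≤ X) : y < n := by
  by_contra hn
  push Not at hn
  exact absurd (uu_le_of hc hX h1 hn) (not_le.2 h2)

lemma le_of_uu {m : ℕ} {c X y : ℝ} (hc : 0 < c) (hX : 0 ≤ X) {n : ℕ} (h1 : (X / c) ^ lamQ m ≤ y)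
    (h2 : uu c (lamQ m) n ≤ X) : (n:ℝ) ≤ y := by
  by_contra hn
  push Not at hn
  exact absurd (lt_uu hc hX h1 hn) (not_lt.2 h2)

lemma EE_sub (a : ℕ → ℝ) {x y : ℝ} (hxy : x ≤ y) : EE a y - EE a x = ∑ n ∈ Ioc ⌊x⌋₊ ⌊y⌋₊, a n := by
  unfold EE
  have h : ⌊x⌋₊ ≤ ⌊y⌋₊ := Nat.floor_mono hxy
  have e : Icc 1 ⌊y⌋₊ = Icc 1 ⌊x⌋₊ ∪ Ioc ⌊x⌋₊ ⌊y⌋₊ := by
    ext n
    simp only [mem_union, mem_Icc, mem_Ioc]
    omega
  have hd : Disjoint (Icc 1 ⌊x⌋₊) (Ioc ⌊x⌋₊ ⌊y⌋₊) := by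
    rw [disjoint_left]
    intro n h1 h2
    simp only [mem_Icc, mem_Ioc] at h1 h2
    omega
  rw [e, sum_union hd]
  ring

/-- size of the peak -/
lemma Pa_lower {m : ℕ} (hm : 1 ≤ m) {c : ℝ} (hc : 0 < c) (hc1 : c ≤ 1 / 10) : ∃ c₂ : ℝ, 0 < c₂ ∧ ∀ J : ℕ, 1 ≤ J →
    c₂ * (J : ℝ) ^ ((m : ℝ) + 1 + 1 / 16) ≤ ((J : ℝ) / c) ^ (2 * m + 1) * (√(WS m c J))⁻¹ := by
  have hmR : (1:ℝ) ≤ m := by exact_mod_cast hm
  set E : ℝ := 2 * (m:ℝ) - 5 / 4 + 1 / 8 + 1 with hE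
  -- `WS m c J ≤ D J^(2m - 1/8)`
  set D : ℝ := 32 ^ 4 * c * (2 / c) ^ (2 * (m:ℝ) - 1 / 8) with hD
  have hD0 : 0 < D := by positivity
  have hWS : ∀ J : ℕ, 1 ≤ J → WS m c J ≤ D * (J:ℝ) ^ (2 * (m:ℝ) - 1 / 8) := by
    intro J hJ
    have hJ1 : (1:ℝ) ≤ J := by exact_mod_cast hJ
    set y : ℝ := (1 + (J:ℝ)) / c with hy
    have hy10 := ratio_ge hc hc1 J
    have hy0 : 0 < y := by rw [hy]; positivity
    have hlog0 := log_ge hc hc1 J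
    have hlog : Real.log y ≤ 32 * y ^ (1 / 32 : ℝ) := by
      have := Real.log_le_rpow_div (x := y) hy0.le (ε := 1 / 32) (by norm_num)
      linarith
    have hlog4 : Real.log y ^ 4 ≤ 32 ^ 4 * y ^ (1 / 8 : ℝ) := by
      have h1 : Real.log y ^ 4 ≤ (32 * y ^ (1 / 32 : ℝ)) ^ 4 := pow_le_pow_left₀ (by linarith) hlog 4
      have h2 : (y ^ (1 / 32 : ℝ)) ^ 4 = y ^ (1 / 8 : ℝ) := by
        rw [← Real.rpow_natCast, ← Real.rpow_mul hy0.le]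
        norm_num
      rw [mul_pow, h2] at h1
      exact h1
    have e1 : 1 + (J:ℝ) = c * y := by rw [hy]; field_simp
    have h3 : WS m c J ≤ 32 ^ 4 * c * y ^ (2 * (m:ℝ) - 1 / 8) := by
      unfold WS WW
      calc (1 + (J:ℝ)) * Real.log ((1 + J) / c) ^ 4 * ((1 + (J:ℝ)) / c) ^ (2 * (m : ℝ) - 5 / 4)
          ≤ (c * y) * (32 ^ 4 * y ^ (1 / 8 : ℝ)) * y ^ (2 * (m : ℝ) - 5 / 4) := by
            rw [← hy, ← e1]
            gcongr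
        _ = 32 ^ 4 * c * (y ^ (1:ℝ) * y ^ (1 / 8 : ℝ) * y ^ (2 * (m : ℝ) - 5 / 4)) := by
            rw [Real.rpow_one]; ring
        _ = _ := by
            rw [← Real.rpow_add hy0, ← Real.rpow_add hy0]
            congr 2
            ring
    have h4 : y ≤ 2 / c * J := by
      rw [hy, div_mul_eq_mul_div]
      exact div_le_div_of_nonneg_right (by linarith) hc.le
    have h5 : y ^ (2 * (m:ℝ) - 1 / 8) ≤ (2 / c) ^ (2 * (m:ℝ) - 1 / 8) * (J:ℝ) ^ (2 * (m:ℝ) - 1 / 8) := by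
      rw [← Real.mul_rpow (by positivity) (by positivity)]
      exact Real.rpow_le_rpow hy0.le h4 (by linarith)
    calc WS m c J ≤ 32 ^ 4 * c * y ^ (2 * (m:ℝ) - 1 / 8) := h3
      _ ≤ 32 ^ 4 * c * ((2 / c) ^ (2 * (m:ℝ) - 1 / 8) * (J:ℝ) ^ (2 * (m:ℝ) - 1 / 8)) :=
          mul_le_mul_of_nonneg_left h5 (by positivity)
      _ = _ := by rw [hD]; ring
  refine ⟨(1 / c) ^ (2 * m + 1) * (√D)⁻¹, by positivity, fun J hJ => ?_⟩
  have hJ1 : (1:ℝ) ≤ J := by exact_mod_cast hJ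
  have hJ0 : (0:ℝ) < J := by linarith
  have hW := WS_pos (m := m) hc hc1 J
  have h1 : √(WS m c J) ≤ √D * (J:ℝ) ^ ((m:ℝ) - 1 / 16) := by
    rw [Real.sqrt_le_left (by positivity), mul_pow, Real.sq_sqrt hD0.le, ← Real.rpow_natCast ((J:ℝ) ^ ((m:ℝ) - 1 / 16)),
      ← Real.rpow_mul hJ0.le]
    refine (hWS J hJ).trans (le_of_eq ?_)
    congr 2
    push_cast
    ring
  have h2 : (√D * (J:ℝ) ^ ((m:ℝ) - 1 / 16))⁻¹ ≤ (√(WS m c J))⁻¹ := by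
    apply inv_anti₀ (Real.sqrt_pos.2 hW) h1
  calc (1 / c) ^ (2 * m + 1) * (√D)⁻¹ * (J : ℝ) ^ ((m : ℝ) + 1 + 1 / 16)
      = ((J : ℝ) / c) ^ (2 * m + 1) * (√D * (J:ℝ) ^ ((m:ℝ) - 1 / 16))⁻¹ := by
        rw [mul_inv, ← Real.rpow_neg hJ0.le, div_pow, div_pow, one_pow]
        have : (J:ℝ) ^ ((m : ℝ) + 1 + 1 / 16) = (J:ℝ) ^ (2 * m + 1) * (J:ℝ) ^ (-((m:ℝ) - 1 / 16)) := by
          rw [← Real.rpow_natCast, ← Real.rpow_add hJ0]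
          congr 1
          push_cast
          ring
        rw [this]
        ring
    _ ≤ _ := mul_le_mul_of_nonneg_left h2 (by positivity)

end Pool.Agent.H472.Q2
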