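import Mathlib
import Pool.Agent.H472.Q2.FamD

set_option autoImplicit false

/-!
# Family of fixed points, part E: the jump
-/

open Finset MeasureTheory Filter Topology

namespace Pool.Agent.H472.Q2

open Pool.Agent.H469R10.HO Pool.Agent.H13R3.EM Pool.Agent.H180R3.Q469

/-- outside the blocks the difference of the coefficients is the composite part -/
lemma alp_diff_eq {c lam : ℝ} {B : ℕ → Finset ℕ} (b b' : ℕ → ℝ) {n : ℕ} (h0 : n ≠ 0) (hB : n ∉ B (jj c lam n)) :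
    alp c lam B b n - alp c lam B b' n = MQ.hh c lam B b b' n := by
  unfold MQ.hh
  by_cases hc : ¬ (n = 0 ∨ n.Prime) ∧ (Squarefree n ∧ 2 ≤ n.primeFactors.card)
  · rw [if_pos hc]
  · rw [if_neg hc]
    by_cases hp : n.Prime
    · rw [Pool.Agent.H54R3.T469O.alp_prime hp, Pool.Agent.H54R3.T469O.alp_prime hp]
      unfold bet
      rw [if_neg hB, if_neg hB, sub_self]
    · by_cases h1 : n = 1
      · subst h1
        unfold alp
        simp
      · have hn : ¬ (n = 0 ∨ n.Prime) := by tauto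
        rw [Pool.Agent.H54R3.T469O.alp_eq_zero hn (by tauto) h1, Pool.Agent.H54R3.T469O.alp_eq_zero hn (by tauto) h1,
          sub_self]

lemma cell_range {u : ℝ} {J : ℕ} (hJ : 1 ≤ J) (h1 : xx (J - 1) ≤ u) (h2 : u ≤ xx (J + 1)) :
    J - 1 ≤ cell u ∧ cell u ≤ J + 1 := by
  have hpi := Real.pi_pos
  have hu : 0 ≤ u := (Pool.Agent.H469R10.HO.xx_nonneg _).trans h1
  have e : ∀ i : ℕ, 2 / Real.pi * xx i = i := by
    intro i; unfold xx; field_simp
  have a1 : ((J - 1 : ℕ) : ℝ) ≤ 2 / Real.pi * u := by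
    rw [← e (J - 1)]
    exact mul_le_mul_of_nonneg_left h1 (by positivity)
  have a2 : 2 / Real.pi * u ≤ ((J + 1 : ℕ) : ℝ) := by
    rw [← e (J + 1)]
    exact mul_le_mul_of_nonneg_left h2 (by positivity)
  unfold cell
  constructor
  · apply Nat.le_floor
    linarith
  · have : ⌊2 / Real.pi * u + 1 / 2⌋₊ < J + 2 := by
      rw [Nat.floor_lt (by positivity)]
      push_cast at a2 ⊢
      linarith
    omega

namespace MH

variable {m R : ℕ} {c e CH K1 K2 L ρ CS ε₀ η : ℝ} {B : ℕ → Finset ℕ} (h : MH m R c e CH K1 K2 L ρ CS ε₀ η B)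
include h

/-- composites in three neighbouring cells -/
lemma comp_small {b b' : ℕ → ℝ} {A : ℝ} (hA : 0 ≤ A) (hb : Nle (WS m c) b ρ) (hb' : Nle (WS m c) b' ρ)
    (hD : Nle (WS m c) (fun j => b j - b' j) (2 * A)) {J : ℕ} (hJ : 1 ≤ J) (S : Finset ℕ)
    (hS : ∀ n ∈ S, xx (J - 1) ≤ uu c (lamQ m) n ∧ uu c (lamQ m) n ≤ xx (J + 1)) :
    ∑ n ∈ S, |MQ.hh c (lamQ m) B b b' n| ≤ 4 * L * A * 17 ^ 2 * 2 ^ m * (√(WS m c J))⁻¹ := by
  classical
  have hL0 := h.hL0
  have hρ0 := h.hρ0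
  have hCH := h.mq.hCH
  set g : ℕ → ℝ := fun n => |MQ.hh c (lamQ m) B b b' n| with hg
  -- bound of the weighted norm
  have hQ : QQ (WS m c) S (jj c (lamQ m)) (MQ.hh c (lamQ m) B b b') ≤ L ^ 2 * (2 * A) ^ 2 := by
    rcases hA.eq_or_lt with hA0 | hA0
    · -- `b = b'`
      have hbb : b = b' := by
        funext j
        have h1 := hD.term h.Wpos j
        rw [← hA0] at h1
        have h2 := h.Wpos j
        have h3 : (b j - b' j) ^ 2 ≤ 0 := by nlinarith
        have h4 : b j - b' j = 0 := by nlinarith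
        linarith
      subst hbb
      have : ∀ n, MQ.hh c (lamQ m) B b b n = 0 := by
        intro n; unfold MQ.hh; split_ifs <;> simp
      unfold QQ
      simp_rw [this]
      simp
      positivity
    · set τ := ρ / (2 * A) with hτ
      have hτ0 : 0 < τ := by positivity
      have hτD : τ * (2 * A) = ρ := by rw [hτ]; field_simp
      have h1 := h.mq.QQ_hh hτ0 (by positivity) hτD.le h.hρE hb hb' hD S
      have e1 : CH * (9 * ρ ^ 2) ^ 2 = τ ^ 2 * (CH * 81 * ρ ^ 2 * (2 * A) ^ 2) := by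
        rw [← hτD]; ring
      rw [e1] at h1
      have h2 := le_of_mul_le_mul_left h1 (by positivity)
      exact h2.trans (mul_le_mul_of_nonneg_right h.hCHL (by positivity))
  -- image
  have himg : S.image (jj c (lamQ m)) ⊆ Icc (J - 1) (J + 1) := by
    intro y hy
    rw [mem_image] at hy
    obtain ⟨n, hn, rfl⟩ := hy
    have h1 := hS n hn
    have h2 := cell_range hJ h1.1 h1.2
    rw [mem_Icc]
    exact h2
  have hcard : ((S.image (jj c (lamQ m))).card : ℝ) ≤ 3 := by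
    have h1 := card_le_card himg
    have h2 : (Icc (J - 1) (J + 1)).card = 3 := by
      rw [Nat.card_Icc]; omega
    rw [h2] at h1
    exact_mod_cast h1
  have hWJ := h.Wpos (J - 1)
  have hslow : WS m c J ≤ 17 ^ 4 * 2 ^ (2 * m) * WS m c (J - 1) := by
    have h1 := WS_slow h.hm1 h.hc h.hc1 J (J - 1)
    have e2 : 1 + |(J:ℝ) - ((J - 1 : ℕ) : ℝ)| = 2 := by
      rw [Nat.cast_sub hJ]
      push_cast
      rw [show (J:ℝ) - (J - 1) = 1 by ring]
      norm_num
    rw [e2] at h1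
    exact h1
  -- the sum
  have hsum : (∑ n ∈ S, g n) ^ 2 ≤ 3 * ∑ y ∈ S.image (jj c (lamQ m)), (∑ n ∈ S.filter (fun n => jj c (lamQ m) n = y), g n) ^ 2 := by
    have e1 : ∑ n ∈ S, g n = ∑ y ∈ S.image (jj c (lamQ m)), ∑ n ∈ S.filter (fun n => jj c (lamQ m) n = y), g n :=
      (sum_fiberwise_of_maps_to (fun i hi => mem_image_of_mem _ hi) _).symm
    rw [e1]
    refine (sq_sum_le_card_mul_sum_sq).trans ?_
    exact mul_le_mul_of_nonneg_right hcard (sum_nonneg fun _ _ => sq_nonneg _)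
  have hsum2 : WS m c (J - 1) * ∑ y ∈ S.image (jj c (lamQ m)), (∑ n ∈ S.filter (fun n => jj c (lamQ m) n = y), g n) ^ 2 ≤
      L ^ 2 * (2 * A) ^ 2 := by
    refine le_trans ?_ hQ
    unfold QQ
    rw [mul_sum]
    apply sum_le_sum
    intro y hy
    have h1 := mem_Icc.1 (himg hy)
    exact mul_le_mul_of_nonneg_right (WS_mono h.hm1 h.hc h.hc1 h1.1) (sq_nonneg _)
  have hWp := h.Wpos J
  set X := ∑ y ∈ S.image (jj c (lamQ m)), (∑ n ∈ S.filter (fun n => jj c (lamQ m) n = y), g n) ^ 2 with hX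
  have hX0 : 0 ≤ X := sum_nonneg fun _ _ => sq_nonneg _
  have hXW : WS m c J * X ≤ 17 ^ 4 * 2 ^ (2 * m) * (L ^ 2 * (2 * A) ^ 2) := by
    calc WS m c J * X ≤ (17 ^ 4 * 2 ^ (2 * m) * WS m c (J - 1)) * X := mul_le_mul_of_nonneg_right hslow hX0
      _ = 17 ^ 4 * 2 ^ (2 * m) * (WS m c (J - 1) * X) := by ring
      _ ≤ _ := mul_le_mul_of_nonneg_left hsum2 (by positivity)
  have hs0 := Real.sqrt_pos.2 hWp
  rw [← div_eq_mul_inv, le_div_iff₀ hs0]
  refine le_of_sq_le_sq ?_ (by positivity)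
  rw [mul_pow, Real.sq_sqrt hWp.le]
  calc (∑ n ∈ S, g n) ^ 2 * WS m c J ≤ (3 * X) * WS m c J := mul_le_mul_of_nonneg_right hsum hWp.le
    _ = 3 * (WS m c J * X) := by ring
    _ ≤ 3 * (17 ^ 4 * 2 ^ (2 * m) * (L ^ 2 * (2 * A) ^ 2)) := by linarith
    _ ≤ 4 * (17 ^ 4 * 2 ^ (2 * m) * (L ^ 2 * (2 * A) ^ 2)) := by
        have : 0 ≤ 17 ^ 4 * 2 ^ (2 * m) * (L ^ 2 * (2 * A) ^ 2) := by positivity
        linarith
    _ = (4 * L * A * 17 ^ 2 * 2 ^ m) ^ 2 := by
        rw [pow_mul']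
        ring

end MH

end Pool.Agent.H472.Q2
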