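import Mathlib
import Pool.Agent.H472.Q2.FamE

set_option autoImplicit false

/-!
# Family of fixed points, part F: the jump
-/

open Finset MeasureTheory Filter Topology

namespace Pool.Agent.H472.Q2

open Pool.Agent.H469R10.HO Pool.Agent.H13R3.EM Pool.Agent.H180R3.Q469

namespace MH

variable {m R : ℕ} {c e CH K1 K2 L ρ CS ε₀ η : ℝ} {B : ℕ → Finset ℕ} (h : MH m R c e CH K1 K2 L ρ CS ε₀ η B)
include h

/-- source difference for a single flip -/
lemma single_flip (J : ℕ → ℕ) {s s' : ℕ → Bool} {k : ℕ} (hag : ∀ i, i ≠ k → s i = s' i) (hk : s k ≠ s' k) :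
    (∀ j, |srcS m R c ε₀ J s j - srcS m R c ε₀ J s' j| = ε₀ * (1 / 2) ^ k * ((√(WS m c (J k)))⁻¹ * |PP (rQ m R (J k)) j|)) ∧
    Nle (WS m c) (fun j => srcS m R c ε₀ J s j - srcS m R c ε₀ J s' j) (ε₀ * (1 / 2) ^ k * CS) := by
  have hε := h.hε0
  have hp : (0:ℝ) < ε₀ * (1 / 2) ^ k := by positivity
  have hd : |dS ε₀ s s' k| = ε₀ * (1 / 2) ^ k := by
    unfold dS
    cases h1 : s k <;> cases h2 : s' k
    · exact absurd (h1.trans h2.symm) hk
    · simp; positivity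
    · simp; positivity
    · exact absurd (h1.trans h2.symm) hk
  have hamp := h.amp_pos (J k)
  have heq : ∀ j, srcS m R c ε₀ J s j - srcS m R c ε₀ J s' j =
      dS ε₀ s s' k * ((√(WS m c (J k)))⁻¹ * PP (rQ m R (J k)) j) := by
    intro j
    have h1 := h.src_diff J s s' j
    have h2 : HasSum (fun i => dS ε₀ s s' i * ((√(WS m c (J i)))⁻¹ * PP (rQ m R (J i)) j))
        (dS ε₀ s s' k * ((√(WS m c (J k)))⁻¹ * PP (rQ m R (J k)) j)) := by
      apply hasSum_single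
      intro i hi
      rw [dS_agree (hag i hi), zero_mul]
    exact h1.unique h2
  constructor
  · intro j
    rw [heq, abs_mul, hd, abs_mul, abs_of_pos hamp]
  · intro I
    simp_rw [heq]
    have e2 : ∀ j, WS m c j * (dS ε₀ s s' k * ((√(WS m c (J k)))⁻¹ * PP (rQ m R (J k)) j)) ^ 2 =
        (ε₀ * (1 / 2) ^ k) ^ 2 * (WS m c j * ((√(WS m c (J k)))⁻¹ * PP (rQ m R (J k)) j) ^ 2) := by
      intro j
      rw [← hd, sq_abs]; ring
    simp_rw [e2]
    rw [← mul_sum, mul_pow (ε₀ * (1 / 2) ^ k) CS]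
    exact mul_le_mul_of_nonneg_left (h.Nle_rQ (J k) I) (by positivity)

/-- **The jump.** -/
theorem jump (J : ℕ → ℕ) {s s' : ℕ → Bool} {k : ℕ} (hag : ∀ i, i ≠ k → s i = s' i) (hk : s k ≠ s' k)
    {b b' : ℕ → ℝ} (hb : Nle (WS m c) b ρ) (hb' : Nle (WS m c) b' ρ)
    (hf : ∀ j, b j = srcS m R c ε₀ J s j + ∑' n, alp c (lamQ m) B b n * TQ c (lamQ m) m R n j)
    (hf' : ∀ j, b' j = srcS m R c ε₀ J s' j + ∑' n, alp c (lamQ m) B b' n * TQ c (lamQ m) m R n j)
    (hJ : 1 ≤ J k) (hPP : 1 / 20 ≤ PP (rQ m R (J k)) (J k)) {xa xb : ℝ}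
    (h1 : ((xx (J k - 1) + 2 * e) / c) ^ lamQ m ≤ xa) (h2 : xa ≤ ((xx (J k) - 2 * e) / c) ^ lamQ m)
    (h3 : ((xx (J k) + 2 * e) / c) ^ lamQ m ≤ xb) (h4 : xb ≤ ((xx (J k + 1) - 2 * e) / c) ^ lamQ m) :
    ((J k : ℝ) / c) ^ (2 * m + 1) * (√(WS m c (J k)))⁻¹ * (ε₀ * (1 / 2) ^ k) / 60 ≤
      |(EE (fun n => alp c (lamQ m) B b n * (n : ℝ) ^ kapQ m) xb - EE (fun n => alp c (lamQ m) B b' n * (n : ℝ) ^ kapQ m) xb) -
       (EE (fun n => alp c (lamQ m) B b n * (n : ℝ) ^ kapQ m) xa - EE (fun n => alp c (lamQ m) B b' n * (n : ℝ) ^ kapQ m) xa)| := by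
  classical
  have hc := h.hc
  have hε := h.hε0
  have hCS := h.hCS
  have hL0 := h.hL0
  have he0 := h.he0
  have he8 := h.he8
  have hl := lamQ_pos m
  set j₀ := J k with hj₀
  have hpi := Real.pi_gt_three
  have hxj : xx j₀ = Real.pi / 2 * j₀ := rfl
  have hj1 : (1:ℝ) ≤ j₀ := by exact_mod_cast hJ
  have hxj1 : 3 / 2 * (j₀:ℝ) ≤ xx j₀ := by rw [hxj]; nlinarith
  have hxm := Pool.Agent.H469R10.HO.xx_nonneg (j₀ - 1)
  have hxp : xx (j₀ + 1) = xx j₀ + Real.pi / 2 := by unfold xx; push_cast; ring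
  have hxpi : Real.pi / 2 ≤ xx j₀ := by rw [hxj]; nlinarith
  obtain ⟨hs1, hs2⟩ := h.single_flip J hag hk
  set A : ℝ := ε₀ * (1 / 2) ^ k * CS with hA
  have hA0 : 0 ≤ A := by positivity
  obtain ⟨hst1, hst2⟩ := h.stab' hs2 hb hb' hf hf'
  set a : ℝ := (√(WS m c j₀))⁻¹ with ha
  have ha0 : 0 < a := h.amp_pos j₀
  have hW := h.Wpos j₀
  have haW : a ^ 2 * WS m c j₀ = 1 := by
    rw [ha, inv_pow, Real.sq_sqrt hW.le]; field_simp
  set t : ℝ := ε₀ * (1 / 2) ^ k with ht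
  have ht0 : 0 < t := by positivity
  -- smallness of `L CS`
  have hLs := h.hLs
  set M : ℝ := 17 ^ 2 * 2 ^ m * 4 ^ (2 * m + 1) with hM
  have hM1 : 1 ≤ M := by
    rw [hM]
    have a1 : (1:ℝ) ≤ 2 ^ m := one_le_pow₀ (by norm_num)
    have a2 : (1:ℝ) ≤ 4 ^ (2 * m + 1) := one_le_pow₀ (by norm_num)
    nlinarith
  have hLM : 480 * (M * (L * CS)) ≤ 1 := by
    calc 480 * (M * (L * CS)) = 80 * 6 * 17 ^ 2 * 2 ^ m * 4 ^ (2 * m + 1) * L * CS := by rw [hM]; ring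
      _ ≤ 1 := hLs
  have hLCS : 0 < L * CS := by positivity
  have hLCS1 : 480 * (L * CS) ≤ 1 := by nlinarith
  -- the coefficient of the cell
  have hdb : a * t / 40 ≤ |b j₀ - b' j₀| := by
    have e1 := hst2 j₀
    have e2 : |(b j₀ - b' j₀) - (srcS m R c ε₀ J s j₀ - srcS m R c ε₀ J s' j₀)| ≤ 2 * L * A * a := by
      refine le_of_sq_le_sq ?_ (by positivity)
      rw [sq_abs, mul_pow]
      calc ((b j₀ - b' j₀) - (srcS m R c ε₀ J s j₀ - srcS m R c ε₀ J s' j₀)) ^ 2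
          = a ^ 2 * (WS m c j₀ * ((b j₀ - b' j₀) - (srcS m R c ε₀ J s j₀ - srcS m R c ε₀ J s' j₀)) ^ 2) := by
            rw [← mul_assoc, haW, one_mul]
        _ ≤ a ^ 2 * (2 * L * A) ^ 2 := mul_le_mul_of_nonneg_left e1 (by positivity)
        _ = _ := by ring
    have e3 : t * (a * (1 / 20)) ≤ |srcS m R c ε₀ J s j₀ - srcS m R c ε₀ J s' j₀| := by
      rw [hs1 j₀]
      have : 1 / 20 ≤ |PP (rQ m R j₀) j₀| := hPP.trans (le_abs_self _)
      gcongr
    have e4 : |srcS m R c ε₀ J s j₀ - srcS m R c ε₀ J s' j₀| ≤ |b j₀ - b' j₀| +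
        |(b j₀ - b' j₀) - (srcS m R c ε₀ J s j₀ - srcS m R c ε₀ J s' j₀)| := by
      have := abs_sub (b j₀ - b' j₀) ((b j₀ - b' j₀) - (srcS m R c ε₀ J s j₀ - srcS m R c ε₀ J s' j₀))
      rwa [sub_sub_cancel] at this
    have e5 : 2 * L * A * a = 2 * (L * CS) * (a * t) := by rw [hA]; ring
    have e6 : 2 * (L * CS) * (a * t) ≤ 1 / 40 * (a * t) := by
      apply mul_le_mul_of_nonneg_right _ (by positivity)
      linarith
    nlinarith
  -- the order of `xa`, `xb`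
  have hXa : 0 ≤ xx (j₀ - 1) + 2 * e := by linarith
  have hXb : 0 ≤ xx j₀ - 2 * e := by linarith
  have hXc : 0 ≤ xx j₀ + 2 * e := by linarith
  have hXd : 0 ≤ xx (j₀ + 1) - 2 * e := by rw [hxp]; linarith
  have hxab : xa ≤ xb := by
    refine h2.trans (le_trans ?_ h3)
    apply Real.rpow_le_rpow (by positivity) _ hl.le
    exact div_le_div_of_nonneg_right (by linarith) hc.le
  have hxb0 : 0 ≤ xb := le_trans (by positivity) h3
  have hxa0 : 0 ≤ xa := le_trans (by positivity) h1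
  set S := Ioc ⌊xa⌋₊ ⌊xb⌋₊ with hS
  have hSr : ∀ n ∈ S, xx (j₀ - 1) + 2 * e < uu c (lamQ m) n ∧ uu c (lamQ m) n ≤ xx (j₀ + 1) - 2 * e := by
    intro n hn
    rw [hS, mem_Ioc] at hn
    constructor
    · exact lt_uu hc hXa h1 ((Nat.floor_lt hxa0).1 hn.1)
    · exact uu_le_of hc hXd h4 ((Nat.le_floor_iff hxb0).1 hn.2)
  have hBS : B j₀ ⊆ S := by
    intro p hp
    have h5 := (abs_le.1 (h.mq.hB j₀ p hp).2.2)
    rw [hS, mem_Ioc]
    constructor
    · rw [Nat.floor_lt hxa0]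
      exact lt_of_uu hc h2 (by linarith) hXb
    · rw [Nat.le_floor_iff hxb0]
      exact le_of_uu hc hXc h3 (by linarith)
  -- differences
  have hsplit : (EE (fun n => alp c (lamQ m) B b n * (n : ℝ) ^ kapQ m) xb - EE (fun n => alp c (lamQ m) B b' n * (n : ℝ) ^ kapQ m) xb) -
       (EE (fun n => alp c (lamQ m) B b n * (n : ℝ) ^ kapQ m) xa - EE (fun n => alp c (lamQ m) B b' n * (n : ℝ) ^ kapQ m) xa) =
      ∑ n ∈ B j₀, (alp c (lamQ m) B b n - alp c (lamQ m) B b' n) * (n : ℝ) ^ kapQ m +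
      ∑ n ∈ S \ B j₀, (alp c (lamQ m) B b n - alp c (lamQ m) B b' n) * (n : ℝ) ^ kapQ m := by
    rw [add_comm, sum_sdiff hBS]
    have e1 := EE_sub (fun n => alp c (lamQ m) B b n * (n : ℝ) ^ kapQ m) hxab
    have e2 := EE_sub (fun n => alp c (lamQ m) B b' n * (n : ℝ) ^ kapQ m) hxab
    rw [← hS] at e1 e2
    have e3 : ∑ n ∈ S, (alp c (lamQ m) B b n - alp c (lamQ m) B b' n) * (n : ℝ) ^ kapQ m =
        ∑ n ∈ S, alp c (lamQ m) B b n * (n : ℝ) ^ kapQ m - ∑ n ∈ S, alp c (lamQ m) B b' n * (n : ℝ) ^ kapQ m := by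
      rw [← sum_sub_distrib]
      exact sum_congr rfl fun n _ => by ring
    rw [e3, ← e1, ← e2]
    ring
  rw [hsplit]
  set P : ℝ := ((xx j₀ - e) / c) ^ (2 * m + 1) with hP
  have hxe : 0 < xx j₀ - e := by linarith
  have hP0 : 0 < P := by positivity
  have hPJ : ((j₀ : ℝ) / c) ^ (2 * m + 1) ≤ P := by
    rw [hP]
    apply pow_le_pow_left₀ (by positivity)
    exact div_le_div_of_nonneg_right (by linarith) hc.le
  -- main part
  have hmain : P * (a * t / 40) ≤ |∑ n ∈ B j₀, (alp c (lamQ m) B b n - alp c (lamQ m) B b' n) * (n : ℝ) ^ kapQ m| := by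
    have hcard : (0:ℝ) < (B j₀).card := by exact_mod_cast (h.mq.hBne j₀ hJ).card_pos
    have e1 : ∑ n ∈ B j₀, (alp c (lamQ m) B b n - alp c (lamQ m) B b' n) * (n : ℝ) ^ kapQ m =
        (b j₀ - b' j₀) / (B j₀).card * ∑ n ∈ B j₀, (n : ℝ) ^ kapQ m := by
      rw [mul_sum]
      apply sum_congr rfl
      intro p hp
      have hpr := (h.mq.hB j₀ p hp).2.1
      rw [Pool.Agent.H54R3.T469O.alp_prime hpr, Pool.Agent.H54R3.T469O.alp_prime hpr, h.mq.bet_mem b hp, h.mq.bet_mem b' hp]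
      ring
    have e2 : (B j₀).card * P ≤ ∑ n ∈ B j₀, (n : ℝ) ^ kapQ m := by
      rw [← nsmul_eq_mul]
      apply card_nsmul_le_sum
      intro p hp
      rw [rpow_kap m hc, hP]
      have h5 := (abs_le.1 (h.mq.hB j₀ p hp).2.2).1
      apply pow_le_pow_left₀ (by positivity)
      exact div_le_div_of_nonneg_right (by linarith) hc.le
    have e3 : 0 ≤ ∑ n ∈ B j₀, (n : ℝ) ^ kapQ m := sum_nonneg fun n _ => by positivity
    rw [e1, abs_mul, abs_div, abs_of_pos hcard, abs_of_nonneg e3]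
    calc P * (a * t / 40) ≤ P * |b j₀ - b' j₀| := mul_le_mul_of_nonneg_left hdb hP0.le
      _ = |b j₀ - b' j₀| / (B j₀).card * ((B j₀).card * P) := by field_simp
      _ ≤ _ := mul_le_mul_of_nonneg_left e2 (by positivity)
  -- the rest
  have hrest : |∑ n ∈ S \ B j₀, (alp c (lamQ m) B b n - alp c (lamQ m) B b' n) * (n : ℝ) ^ kapQ m| ≤ P * (a * t / 120) := by
    have e1 : ∀ n ∈ S \ B j₀, |(alp c (lamQ m) B b n - alp c (lamQ m) B b' n) * (n : ℝ) ^ kapQ m| ≤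
        |MQ.hh c (lamQ m) B b b' n| * (4 ^ (2 * m + 1) * P) := by
      intro n hn
      rw [Finset.mem_sdiff] at hn
      obtain ⟨hn1, hn2⟩ := hn
      have hr := hSr n hn1
      have hn0 : n ≠ 0 := by
        rw [hS, mem_Ioc] at hn1
        omega
      have hnB : n ∉ B (jj c (lamQ m) n) := by
        intro hmem
        have h5 := abs_le.1 (h.mq.hB _ n hmem).2.2
        set y := jj c (lamQ m) n with hy
        have hy1 : ¬ y < j₀ := by
          intro hlt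
          have : xx y ≤ xx (j₀ - 1) := xx_mono (by omega)
          linarith
        have hy2 : ¬ j₀ < y := by
          intro hlt
          have : xx (j₀ + 1) ≤ xx y := xx_mono (by omega)
          linarith
        have hy3 : y = j₀ := by omega
        rw [hy3] at hmem
        exact hn2 hmem
      rw [alp_diff_eq b b' hn0 hnB, abs_mul]
      apply mul_le_mul_of_nonneg_left _ (abs_nonneg _)
      rw [abs_of_nonneg (by positivity), rpow_kap m hc, hP, ← mul_pow]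
      apply pow_le_pow_left₀ (by have := uu_nonneg (lam := lamQ m) hc.le n; positivity)
      rw [mul_div_assoc']
      apply div_le_div_of_nonneg_right _ hc.le
      rw [hxp] at hr
      linarith [hr.2]
    refine (abs_sum_le_sum_abs _ _).trans ((sum_le_sum e1).trans ?_)
    rw [← sum_mul]
    have e2 : ∑ n ∈ S \ B j₀, |MQ.hh c (lamQ m) B b b' n| ≤ 4 * L * A * 17 ^ 2 * 2 ^ m * a := by
      refine h.comp_small hA0 hb hb' hst1 hJ _ fun n hn => ?_
      have hr := hSr n (Finset.mem_sdiff.1 hn).1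
      exact ⟨by linarith [hr.1], by linarith [hr.2]⟩
    calc (∑ n ∈ S \ B j₀, |MQ.hh c (lamQ m) B b b' n|) * (4 ^ (2 * m + 1) * P)
        ≤ (4 * L * A * 17 ^ 2 * 2 ^ m * a) * (4 ^ (2 * m + 1) * P) := mul_le_mul_of_nonneg_right e2 (by positivity)
      _ = 4 * (M * (L * CS)) * (P * (a * t)) := by rw [hA, hM]; ring
      _ ≤ 4 * (1 / 480) * (P * (a * t)) := by
          apply mul_le_mul_of_nonneg_right _ (by positivity)
          linarith
      _ = _ := by ring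
  have habs := abs_sub_abs_le_abs_sub (∑ n ∈ B j₀, (alp c (lamQ m) B b n - alp c (lamQ m) B b' n) * (n : ℝ) ^ kapQ m)
    (-(∑ n ∈ S \ B j₀, (alp c (lamQ m) B b n - alp c (lamQ m) B b' n) * (n : ℝ) ^ kapQ m))
  rw [sub_neg_eq_add, abs_neg] at habs
  have hfin : ((j₀ : ℝ) / c) ^ (2 * m + 1) * a * t / 60 ≤ P * (a * t) / 60 := by
    have : ((j₀ : ℝ) / c) ^ (2 * m + 1) * (a * t) ≤ P * (a * t) := mul_le_mul_of_nonneg_right hPJ (by positivity)
    linarith
  linarith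

end MH

end Pool.Agent.H472.Q2
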