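import Mathlib
import Pool.Agent.H472.Q2.FamF

set_option autoImplicit false

/-!
# Family of fixed points, part G: cell sums
-/

open Finset MeasureTheory Filter Topology

namespace Pool.Agent.H472.Q2

open Pool.Agent.H469R10.HO Pool.Agent.H13R3.EM Pool.Agent.H180R3.Q469

/-- change of cells -/
lemma cells_change {S : Finset ℕ} {f g : ℕ → ℕ} {w1 w2 : ℕ → ℝ} {N C : ℝ} {a : ℕ → ℝ} (ha : ∀ n, 0 ≤ a n)
    (hN : 0 ≤ N) (hC : 0 ≤ C) (hw1 : ∀ y, 0 ≤ w1 y) (hw2 : ∀ y, 0 ≤ w2 y)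
    (hcard : ∀ y, (((S.filter (fun n => f n = y)).image g).card : ℝ) ≤ N) (hw : ∀ n ∈ S, w1 (f n) ≤ C * w2 (g n)) :
    ∑ y ∈ S.image f, w1 y * (∑ n ∈ S.filter (fun n => f n = y), a n) ^ 2 ≤
      N * C * ∑ j ∈ S.image g, w2 j * (∑ n ∈ S.filter (fun n => g n = j), a n) ^ 2 := by
  classical
  set G : ℕ → ℕ → ℝ := fun y j => ∑ n ∈ (S.filter (fun n => f n = y)).filter (fun n => g n = j), a n with hG
  have hG0 : ∀ y j, 0 ≤ G y j := fun y j => sum_nonneg fun n _ => ha n
  have h1 : ∀ y ∈ S.image f, w1 y * (∑ n ∈ S.filter (fun n => f n = y), a n) ^ 2 ≤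
      N * C * ∑ j ∈ S.image g, w2 j * (G y j) ^ 2 := by
    intro y _
    have e1 : ∑ n ∈ S.filter (fun n => f n = y), a n = ∑ j ∈ (S.filter (fun n => f n = y)).image g, G y j :=
      (sum_fiberwise_of_maps_to (fun i hi => mem_image_of_mem _ hi) _).symm
    have e2 : (∑ n ∈ S.filter (fun n => f n = y), a n) ^ 2 ≤ N * ∑ j ∈ (S.filter (fun n => f n = y)).image g, (G y j) ^ 2 := by
      rw [e1]
      refine sq_sum_le_card_mul_sum_sq.trans ?_
      exact mul_le_mul_of_nonneg_right (hcard y) (sum_nonneg fun _ _ => sq_nonneg _)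
    have e3 : ∀ j ∈ (S.filter (fun n => f n = y)).image g, w1 y * (G y j) ^ 2 ≤ C * (w2 j * (G y j) ^ 2) := by
      intro j hj
      rw [mem_image] at hj
      obtain ⟨n, hn, rfl⟩ := hj
      rw [mem_filter] at hn
      have := hw n hn.1
      rw [hn.2] at this
      calc w1 y * (G y (g n)) ^ 2 ≤ (C * w2 (g n)) * (G y (g n)) ^ 2 := mul_le_mul_of_nonneg_right this (sq_nonneg _)
        _ = _ := by ring
    calc w1 y * (∑ n ∈ S.filter (fun n => f n = y), a n) ^ 2 ≤
          w1 y * (N * ∑ j ∈ (S.filter (fun n => f n = y)).image g, (G y j) ^ 2) := mul_le_mul_of_nonneg_left e2 (hw1 y)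
      _ = N * ∑ j ∈ (S.filter (fun n => f n = y)).image g, w1 y * (G y j) ^ 2 := by rw [← mul_sum]; ring
      _ ≤ N * ∑ j ∈ (S.filter (fun n => f n = y)).image g, C * (w2 j * (G y j) ^ 2) :=
          mul_le_mul_of_nonneg_left (sum_le_sum e3) hN
      _ = N * C * ∑ j ∈ (S.filter (fun n => f n = y)).image g, w2 j * (G y j) ^ 2 := by rw [← mul_sum]; ring
      _ ≤ _ := by
          apply mul_le_mul_of_nonneg_left _ (mul_nonneg hN hC)
          exact sum_le_sum_of_subset_of_nonneg (image_subset_image (filter_subset _ _))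
            fun j _ _ => mul_nonneg (hw2 j) (sq_nonneg _)
  refine (sum_le_sum h1).trans ?_
  rw [← mul_sum, sum_comm]
  apply mul_le_mul_of_nonneg_left _ (mul_nonneg hN hC)
  apply sum_le_sum
  intro j _
  rw [← mul_sum]
  apply mul_le_mul_of_nonneg_left _ (hw2 j)
  refine (sum_sq_le_sq_sum_of_nonneg fun y _ => hG0 y j).trans ?_
  apply pow_le_pow_left₀ (sum_nonneg fun y _ => hG0 y j)
  rw [← sum_fiberwise_of_maps_to (g := f) (t := S.image f) (s := S.filter (fun n => g n = j))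
    (fun i hi => mem_image_of_mem _ (mem_filter.1 hi).1)]
  apply le_of_eq
  apply sum_congr rfl
  intro y _
  rw [hG]
  apply sum_congr _ fun _ _ => rfl
  rw [filter_filter, filter_filter]
  ext n
  simp only [mem_filter]
  tauto

lemma QQ_add_le {W : ℕ → ℝ} (hW : ∀ y, 0 ≤ W y) (S : Finset ℕ) (cl : ℕ → ℕ) {a x y z : ℕ → ℝ}
    (h : ∀ n, |a n| ≤ |x n| + |y n| + |z n|) : QQ W S cl a ≤ 3 * (QQ W S cl x + QQ W S cl y + QQ W S cl z) := by
  unfold QQ
  rw [← sum_add_distrib, ← sum_add_distrib, mul_sum]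
  apply sum_le_sum
  intro i _
  have h1 : ∑ n ∈ S.filter (fun n => cl n = i), |a n| ≤ ∑ n ∈ S.filter (fun n => cl n = i), |x n| +
      ∑ n ∈ S.filter (fun n => cl n = i), |y n| + ∑ n ∈ S.filter (fun n => cl n = i), |z n| := by
    rw [← sum_add_distrib, ← sum_add_distrib]
    exact sum_le_sum fun n _ => h n
  have h0 : 0 ≤ ∑ n ∈ S.filter (fun n => cl n = i), |a n| := sum_nonneg fun _ _ => abs_nonneg _
  set X := ∑ n ∈ S.filter (fun n => cl n = i), |x n|
  set Y := ∑ n ∈ S.filter (fun n => cl n = i), |y n|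
  set Z := ∑ n ∈ S.filter (fun n => cl n = i), |z n|
  have h2 : (∑ n ∈ S.filter (fun n => cl n = i), |a n|) ^ 2 ≤ (X + Y + Z) ^ 2 := pow_le_pow_left₀ h0 h1 2
  have h3 : (X + Y + Z) ^ 2 ≤ 3 * (X ^ 2 + Y ^ 2 + Z ^ 2) := by
    nlinarith [sq_nonneg (X - Y), sq_nonneg (X - Z), sq_nonneg (Y - Z)]
  calc W i * (∑ n ∈ S.filter (fun n => cl n = i), |a n|) ^ 2 ≤ W i * (3 * (X ^ 2 + Y ^ 2 + Z ^ 2)) :=
        mul_le_mul_of_nonneg_left (h2.trans h3) (hW i)
    _ = _ := by ring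

namespace MH

variable {m R : ℕ} {c e CH K1 K2 L ρ CS ε₀ η : ℝ} {B : ℕ → Finset ℕ} (h : MH m R c e CH K1 K2 L ρ CS ε₀ η B)
include h

/-- the cell norm of the coefficients is bounded -/
lemma QQ_alp {b : ℕ → ℝ} (hb : Nle (WS m c) b ρ) : ∃ M : ℝ, ∀ S : Finset ℕ,
    QQ (WS m c) S (jj c (lamQ m)) (alp c (lamQ m) B b) ≤ M := by
  classical
  have hρ0 := h.hρ0
  have hz : Nle (WS m c) (fun _ : ℕ => (0:ℝ)) ρ := by intro J; simp; positivity
  have hd : Nle (WS m c) (fun j => b j - (fun _ : ℕ => (0:ℝ)) j) ρ := by intro J; simpa using hb J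
  refine ⟨3 * (ρ ^ 2 + CH * (9 * ρ ^ 2) ^ 2 + WS m c (jj c (lamQ m) 1)), fun S => ?_⟩
  have g1 := h.mq.QQ_gg hd S
  have g2 := h.mq.QQ_hh (τ := 1) one_pos hρ0.le (by rw [one_mul]) h.hρE hb hz hd S
  rw [one_pow, one_mul] at g2
  have hW := fun y => (h.Wpos y).le
  refine (QQ_add_le hW S (jj c (lamQ m)) (x := MQ.gg c (lamQ m) B b (fun _ => 0))
    (y := MQ.hh c (lamQ m) B b (fun _ => 0)) (z := fun n => if n = 1 then 1 else 0) fun n => ?_).trans ?_
  · have := h.mq.abs_alp_le b n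
    refine this.trans (le_of_eq ?_)
    congr 1
    split_ifs <;> simp
  · have g3 : QQ (WS m c) S (jj c (lamQ m)) (fun n => if n = 1 then (1:ℝ) else 0) ≤ WS m c (jj c (lamQ m) 1) := by
      unfold QQ
      have e : ∀ y, ∑ n ∈ S.filter (fun n => jj c (lamQ m) n = y), |if n = 1 then (1:ℝ) else 0| ≤
          if y = jj c (lamQ m) 1 then 1 else 0 := by
        intro y
        have e2 : ∀ n, |if n = 1 then (1:ℝ) else 0| = if n = 1 then (1:ℝ) else 0 := by
          intro n; split_ifs <;> simp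
        simp_rw [e2]
        rw [sum_ite_eq']
        split_ifs with h1 h2 h2
        · exact le_rfl
        · rw [mem_filter] at h1
          exact absurd h1.2.symm h2
        · norm_num
        · exact le_rfl
      calc ∑ y ∈ S.image (jj c (lamQ m)), WS m c y * (∑ n ∈ S.filter (fun n => jj c (lamQ m) n = y), |if n = 1 then (1:ℝ) else 0|) ^ 2
          ≤ ∑ y ∈ S.image (jj c (lamQ m)), (if y = jj c (lamQ m) 1 then WS m c (jj c (lamQ m) 1) else 0) := by
            apply sum_le_sum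
            intro y _
            have h1 := e y
            have h0 : 0 ≤ ∑ n ∈ S.filter (fun n => jj c (lamQ m) n = y), |if n = 1 then (1:ℝ) else 0| :=
              sum_nonneg fun _ _ => abs_nonneg _
            split_ifs at h1 ⊢ with h2
            · have h3 : (∑ n ∈ S.filter (fun n => jj c (lamQ m) n = y), |if n = 1 then (1:ℝ) else 0|) ^ 2 ≤ 1 ^ 2 :=
                pow_le_pow_left₀ h0 h1 2
              rw [h2] at h3 ⊢
              have := hW (jj c (lamQ m) 1)
              nlinarith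
            · have h3 : ∑ n ∈ S.filter (fun n => jj c (lamQ m) n = y), |if n = 1 then (1:ℝ) else 0| = 0 := le_antisymm h1 h0
              rw [h3]; simp
        _ ≤ WS m c (jj c (lamQ m) 1) := by
            rw [sum_ite_eq']
            split_ifs
            · exact le_rfl
            · exact hW _
    linarith

/-- the cells of `TaskSM` -/
lemma floor_cells {b : ℕ → ℝ} (hb : Nle (WS m c) b ρ) : ∃ M : ℝ, ∀ S : Finset ℕ,
    ∑ y ∈ S.image (fun n => ⌊uu (c / R) (lamQ m) n⌋₊), (1 + (y : ℝ)) ^ (2 * (m : ℝ) - 1 / 4) *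
      (∑ n ∈ S.filter (fun n => ⌊uu (c / R) (lamQ m) n⌋₊ = y), |alp c (lamQ m) B b n|) ^ 2 ≤ M := by
  classical
  obtain ⟨M, hM⟩ := h.QQ_alp hb
  have hc := h.hc
  have hR4 := h.hR
  have hRR : (4:ℝ) ≤ R := by exact_mod_cast hR4
  have hm1 := h.hm1
  have hmR : (1:ℝ) ≤ m := by exact_mod_cast hm1
  have hpi := Real.pi_gt_three
  have hW := fun y => (h.Wpos y).le
  refine ⟨((R:ℝ) + 3) * 3 ^ (2 * (m : ℝ) - 1 / 4) * M, fun S => ?_⟩
  have huR : ∀ n, uu (c / R) (lamQ m) n = uu c (lamQ m) n / R := by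
    intro n; unfold uu; ring
  have key := cells_change (S := S) (f := fun n => ⌊uu (c / R) (lamQ m) n⌋₊) (g := jj c (lamQ m))
    (w1 := fun y => (1 + (y : ℝ)) ^ (2 * (m : ℝ) - 1 / 4)) (w2 := WS m c) (N := (R:ℝ) + 3) (C := 3 ^ (2 * (m : ℝ) - 1 / 4))
    (a := fun n => |alp c (lamQ m) B b n|) (fun n => abs_nonneg _) (by positivity) (by positivity) (fun y => by positivity)
    hW ?_ ?_
  · refine key.trans ?_
    apply mul_le_mul_of_nonneg_left _ (by positivity)
    exact hM S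
  · intro y
    -- the cells `jj n` with `⌊u n / R⌋ = y` lie in an interval
    have himg : (S.filter (fun n => ⌊uu (c / R) (lamQ m) n⌋₊ = y)).image (jj c (lamQ m)) ⊆
        Icc ⌊2 / Real.pi * (R * y) + 1 / 2⌋₊ (⌊2 / Real.pi * (R * y) + 1 / 2⌋₊ + R + 1) := by
      intro j hj
      rw [mem_image] at hj
      obtain ⟨n, hn, rfl⟩ := hj
      rw [mem_filter] at hn
      have hu0 := uu_nonneg (lam := lamQ m) hc.le n
      have hn2 := hn.2
      rw [huR, Nat.floor_eq_iff (by positivity), le_div_iff₀ (by positivity), div_lt_iff₀ (by positivity)] at hn2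
      rw [mem_Icc]
      unfold jj cell
      constructor
      · apply Nat.floor_mono
        have : 2 / Real.pi * (R * y) ≤ 2 / Real.pi * uu c (lamQ m) n := by
          apply mul_le_mul_of_nonneg_left _ (by positivity)
          linarith [hn2.1]
        linarith
      · have h1 : 2 / Real.pi * uu c (lamQ m) n + 1 / 2 ≤ (2 / Real.pi * (R * y) + 1 / 2) + R := by
          have e1 : 2 / Real.pi * uu c (lamQ m) n ≤ 2 / Real.pi * ((y + 1) * R) :=
            mul_le_mul_of_nonneg_left hn2.2.le (by positivity)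
          have e2 : 2 / Real.pi * R ≤ 1 * R := by
            apply mul_le_mul_of_nonneg_right _ (by positivity)
            rw [div_le_one (by positivity)]
            linarith
          have e3 : 2 / Real.pi * ((y + 1) * R) = 2 / Real.pi * (R * y) + 2 / Real.pi * R := by ring
          linarith
        have h2 : 2 / Real.pi * (R * y) + 1 / 2 < (⌊2 / Real.pi * (R * y) + 1 / 2⌋₊ : ℝ) + 1 := Nat.lt_floor_add_one _
        have h3 : ⌊2 / Real.pi * uu c (lamQ m) n + 1 / 2⌋₊ < ⌊2 / Real.pi * (R * y) + 1 / 2⌋₊ + R + 2 := by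
          rw [Nat.floor_lt (by positivity)]
          push_cast
          linarith
        omega
    have h1 := card_le_card himg
    rw [Nat.card_Icc] at h1
    have h2 : ((S.filter (fun n => ⌊uu (c / R) (lamQ m) n⌋₊ = y)).image (jj c (lamQ m))).card ≤ R + 3 := by omega
    exact_mod_cast h2
  · intro n _
    have hu0 := uu_nonneg (lam := lamQ m) hc.le n
    have h1 : (⌊uu (c / R) (lamQ m) n⌋₊ : ℝ) ≤ uu c (lamQ m) n / R := by
      rw [← huR]
      exact Nat.floor_le (by rw [huR]; positivity)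
    have h2 : uu c (lamQ m) n / R ≤ uu c (lamQ m) n := div_le_self hu0 (by linarith)
    have h3 := cell_near hu0
    have h4 := (abs_le.1 h3).2
    have h5 := Pool.Agent.H469R10.HO.xx_le (cell (uu c (lamQ m) n))
    have h6 : 1 + (⌊uu (c / R) (lamQ m) n⌋₊ : ℝ) ≤ 3 * (1 + (jj c (lamQ m) n : ℝ)) := by
      unfold jj
      have : (0:ℝ) ≤ (cell (uu c (lamQ m) n) : ℝ) := Nat.cast_nonneg _
      linarith
    have hE : 0 ≤ 2 * (m : ℝ) - 1 / 4 := by linarith
    have h7 : (1 + (⌊uu (c / R) (lamQ m) n⌋₊ : ℝ)) ^ (2 * (m : ℝ) - 1 / 4) ≤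
        3 ^ (2 * (m : ℝ) - 1 / 4) * (1 + (jj c (lamQ m) n : ℝ)) ^ (2 * (m : ℝ) - 1 / 4) := by
      rw [← Real.mul_rpow (by norm_num) (by positivity)]
      exact Real.rpow_le_rpow (by positivity) h6 hE
    refine h7.trans (mul_le_mul_of_nonneg_left ?_ (by positivity))
    set j := jj c (lamQ m) n
    have hj0 : (0:ℝ) ≤ j := Nat.cast_nonneg _
    have hlog : 1 ≤ Real.log ((1 + j) / c) ^ 4 := one_le_pow₀ (log_ge hc h.hc1 j)
    have h8 : (1 + (j:ℝ)) ^ (2 * (m : ℝ) - 1 / 4) = (1 + (j:ℝ)) * (1 + (j:ℝ)) ^ (2 * (m : ℝ) - 5 / 4) := by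
      nth_rewrite 2 [← Real.rpow_one (1 + (j:ℝ))]
      rw [← Real.rpow_add (by positivity)]
      congr 1
      ring
    have h9 : (1 + (j:ℝ)) ^ (2 * (m : ℝ) - 5 / 4) ≤ ((1 + (j:ℝ)) / c) ^ (2 * (m : ℝ) - 5 / 4) := by
      apply Real.rpow_le_rpow (by positivity) _ (by linarith)
      rw [le_div_iff₀ hc]
      have := h.hc1
      nlinarith
    rw [h8]
    unfold WS WW
    have h10 : (1 + (j:ℝ)) * 1 ≤ (1 + (j:ℝ)) * Real.log ((1 + j) / c) ^ 4 := mul_le_mul_of_nonneg_left hlog (by positivity)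
    calc (1 + (j:ℝ)) * (1 + (j:ℝ)) ^ (2 * (m : ℝ) - 5 / 4) ≤
        ((1 + (j:ℝ)) * Real.log ((1 + j) / c) ^ 4) * ((1 + (j:ℝ)) / c) ^ (2 * (m : ℝ) - 5 / 4) := by
          apply mul_le_mul (by linarith) h9 (by positivity) (by positivity)
      _ = _ := rfl

end MH

end Pool.Agent.H472.Q2
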