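import Mathlib
import Pool.Agent.H472.Q2.FamG

set_option autoImplicit false

/-!
# The output of the machine
-/

open Finset MeasureTheory Filter Topology

namespace Pool.Agent.H472.Q2

open Pool.Agent.H469R10.HO Pool.Agent.H13R3.EM Pool.Agent.H180R3.Q469

namespace MH

variable {m R : ℕ} {c e CH K1 K2 L ρ CS ε₀ η : ℝ} {B : ℕ → Finset ℕ} (h : MH m R c e CH K1 K2 L ρ CS ε₀ η B)
include h

/-- the theta relation at scale `c / R` -/
lemma theta (hBol : TaskBol) (hRel : TaskRelQ) (J : ℕ → ℕ) (s : ℕ → Bool) {b : ℕ → ℝ}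
    (hsum : Summable fun n => |alp c (lamQ m) B b n|)
    (hf : ∀ j, b j = srcS m R c ε₀ J s j + ∑' n, alp c (lamQ m) B b n * TQ c (lamQ m) m R n j) :
    ∀ t : ℝ, 0 < t → ∑' n, alp c (lamQ m) B b n * uu (c / R) (lamQ m) n ^ (2 * m + 1) *
        Real.exp (-(uu (c / R) (lamQ m) n / t)) =
      (-1) ^ (m + 1) * t ^ (2 * m + 2) * ∑' n, alp c (lamQ m) B b n * uu (c / R) (lamQ m) n ^ (2 * m + 1) *
        Real.exp (-(uu (c / R) (lamQ m) n * t)) := by
  have hc := h.hc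
  have hR4 := h.hR
  have hR0 : (0:ℝ) < R := by
    have : (4:ℝ) ≤ R := by exact_mod_cast hR4
    linarith
  have hm := h.hm
  have hBh : ∀ j, ∀ p ∈ B j, 1 ≤ j ∧ p.Prime ∧ |uu c (lamQ m) p - xx j| ≤ 1 / 2 :=
    fun j p hp => ⟨(h.mq.hB j p hp).1, (h.mq.hB j p hp).2.1, (h.mq.hB j p hp).2.2.trans h.mq.he⟩
  have hrel := hRel c (lamQ m) m R B b (rS m R c ε₀ J s) hc h.mq.hlam (by omega) (by omega) (h.rS_cont J s)
    (fun x h0 h1 => h.rS_low J s h0 h1) (fun x h1 => h.rS_high J s h1) (fun x hx => h.rS_symm J s hx) hBh h.mq.hBne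
    hsum hf
  have huR : ∀ n, uu (c / R) (lamQ m) n = uu c (lamQ m) n / R := by
    intro n; unfold uu; ring
  refine hBol m (by omega) (alp c (lamQ m) B b) (uu (c / R) (lamQ m))
    (fun i => if i < m then (-1) ^ i * (c / R) ^ (2 * i) / (2 * i).factorial else 0) hsum
    (fun n => uu_nonneg (by positivity) n) fun y hy => ?_
  have h1 := hrel (y / R) (by positivity)
  have e1 : ∀ n, uu c (lamQ m) n * (y / R) = uu (c / R) (lamQ m) n * y := by
    intro n; rw [huR]; ring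
  have e2 : ((R:ℝ) ^ 2 * (y / R))⁻¹ = y⁻¹ / R := by field_simp
  have e3 : ∀ n, uu c (lamQ m) n * (y⁻¹ / R) = uu (c / R) (lamQ m) n * y⁻¹ := by
    intro n; rw [huR]; ring
  have e4 : (R:ℝ) * (y / R) = y := by field_simp
  have e5 : ∀ z : ℝ, ∑ i ∈ range (m + 1), (if i < m then (-1) ^ i * (c / R) ^ (2 * i) / (2 * i).factorial else 0) * z ^ (2 * i) =
      tay m (c * (z / R)) := by
    intro z
    rw [sum_range_succ, if_neg (lt_irrefl m), zero_mul, add_zero]
    unfold tay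
    apply sum_congr rfl
    intro i hi
    rw [if_pos (mem_range.1 hi)]
    have : c * (z / R) = c / R * z := by ring
    rw [this, mul_pow]
    ring
  rw [e2, e4] at h1
  simp_rw [e1, e3] at h1
  rw [e5 y, e5 y⁻¹]
  exact h1

/-- the data of `TaskSM` -/
lemma dataSM (hBol : TaskBol) (hRel : TaskRelQ) (J : ℕ → ℕ) (s : ℕ → Bool) {b : ℕ → ℝ} (hb : Nle (WS m c) b ρ)
    (hsum : Summable fun n => |alp c (lamQ m) B b n|)
    (hf : ∀ j, b j = srcS m R c ε₀ J s j + ∑' n, alp c (lamQ m) B b n * TQ c (lamQ m) m R n j) :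
    ∃ M : ℝ, DataSM m (c / R) M (alp c (lamQ m) B b) := by
  obtain ⟨M, hM⟩ := h.floor_cells hb
  have hc := h.hc
  have hR4 := h.hR
  have hR0 : (0:ℝ) < R := by
    have : (4:ℝ) ≤ R := by exact_mod_cast hR4
    linarith
  exact ⟨M,
    { hm := h.hm1
      hc := by positivity
      h1 := by
        have : alp c (lamQ m) B b 1 = 1 := by unfold alp; simp
        rw [this]; norm_num
      hs := hsum
      hM := hM
      hθ := h.theta hBol hRel J s hsum hf }⟩

end MH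

/-- **TaskOut** from the other tasks of the machine. -/
theorem taskOut_of (hJ : TaskJQ) (hH : TaskHQ) (hM : TaskMQ) (hWin : TaskWin) (hN : TaskNQ) (hRel : TaskRelQ)
    (hWrap : TaskWrapQ) (hP : TaskPQ) (hSrc : TaskSrcQ) (hBol : TaskBol) : TaskOut := by
  obtain ⟨m₀, hm₀, hmq⟩ := exists_mq hJ hH hM hWin
  refine ⟨m₀, fun m hm hev => ?_⟩
  have hm3 : 3 ≤ m := hm₀.trans hm
  obtain ⟨CS', cS, J₁, hCS', hcS, hsrc⟩ := hSrc m (by omega) hev
  set CS : ℝ := √CS' with hCSdef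
  have hCS : 0 < CS := Real.sqrt_pos.2 hCS'
  have hCSsq : CS ^ 2 = CS' := Real.sq_sqrt hCS'.le
  set Q : ℝ := 80 * 6 * 17 ^ 2 * 2 ^ m * 4 ^ (2 * m + 1) * CS with hQ
  have hQ0 : 0 < Q := by positivity
  set L : ℝ := min (1 / 2) (1 / Q) with hLdef
  have hL0 : 0 < L := lt_min (by norm_num) (by positivity)
  have hL2 : L ≤ 1 / 2 := min_le_left _ _
  have hLQ : L * Q ≤ 1 := by
    have : L ≤ 1 / Q := min_le_right _ _
    rwa [le_div_iff₀ hQ0] at this
  obtain ⟨R, e, CH, K1, K2, η, ρ, c₀, hR, he0, he8, hη, hρ0, hρ1, hρE, hCHL, hL, hc₀, hc₀1, hB⟩ := hmq m hm hev L hL0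
  obtain ⟨hsrc1, hsrc2⟩ := hsrc R hR
  obtain ⟨cN, hcN, hNN⟩ := hN m (by omega) hev R (by omega) ((ρ / 4) ^ 2) (by positivity)
  obtain ⟨cP, hcP, hPP⟩ := hP m (by omega) η hη
  set c : ℝ := min (min c₀ cS) (min cN cP) with hcdef
  have hc : 0 < c := lt_min (lt_min hc₀ hcS) (lt_min hcN hcP)
  have hcc₀ : c ≤ c₀ := (min_le_left _ _).trans (min_le_left _ _)
  have hccS : c ≤ cS := (min_le_left _ _).trans (min_le_right _ _)
  have hccN : c ≤ cN := (min_le_right _ _).trans (min_le_left _ _)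
  have hccP : c ≤ cP := (min_le_right _ _).trans (min_le_right _ _)
  obtain ⟨B, hmqB, hB2⟩ := hB c hc hcc₀
  set ε₀ : ℝ := min 1 (ρ / (8 * CS)) with hε₀def
  have hε₀ : 0 < ε₀ := lt_min one_pos (by positivity)
  have hε₀2 : 2 * ε₀ * CS ≤ ρ / 4 := by
    have : ε₀ ≤ ρ / (8 * CS) := min_le_right _ _
    rw [le_div_iff₀ (by positivity)] at this
    linarith
  have h : MH m R c e CH K1 K2 L ρ CS ε₀ η B :=
    { mq := hmqB
      hm := hm3
      hR := hR
      hc1 := hcc₀.trans hc₀1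
      he0 := he0
      he8 := he8
      hη := hη
      hB2 := hB2
      hρ0 := hρ0
      hρ1 := hρ1
      hρE := hρE
      hL0 := hL0
      hL := hL
      hL4 := by nlinarith
      hCHL := hCHL
      hCS := hCS
      hsrc := fun J I => by rw [hCSsq]; exact hsrc1 c hc hccS J I
      hss := hNN c hc hccN
      hε0 := hε₀
      hε1 := min_le_left _ _
      hερ := hε₀2
      hLs := by
        calc 80 * 6 * 17 ^ 2 * 2 ^ m * 4 ^ (2 * m + 1) * L * CS = L * Q := by rw [hQ]; ring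
          _ ≤ 1 := hLQ }
  obtain ⟨c₂, hc₂, hPa⟩ := Pa_lower h.hm1 hc h.hc1
  have hR0 : (0:ℝ) < R := by
    have : (4:ℝ) ≤ R := by exact_mod_cast hR
    linarith
  refine ⟨c, 2 * e, c₂ * ε₀ / 60, c / R, max 1 J₁, hc, by positivity, by linarith, by positivity, by positivity, fun J hJJ => ?_⟩
  choose b hb1 hb2 hb3 using fun s => h.exists_b J s
  have hBh : ∀ j, ∀ p ∈ B j, 1 ≤ j ∧ p.Prime ∧ |uu c (lamQ m) p - xx j| ≤ 1 / 2 :=
    fun j p hp => ⟨(h.mq.hB j p hp).1, (h.mq.hB j p hp).2.1, (h.mq.hB j p hp).2.2.trans h.mq.he⟩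
  refine ⟨fun s => alp c (lamQ m) B (b s), ?_⟩
  exact
    { cont := MH.cont_alp (h.cont_b J hb1 hb3)
      sel := by
        intro s
        refine hWrap m (c / R) (bet c (lamQ m) B (b s)) (alp c (lamQ m) B (b s)) (by omega) (by positivity) ?_ ?_ (hb2 s)
          (h.theta hBol hRel J s (hb2 s) (hb3 s))
        · intro p hp
          refine hPP c hc hccP B hBh hB2 (b s) (fun j => ?_) p hp
          refine ((hb1 s).term h.Wpos j).trans ?_
          nlinarith
        · intro n hn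
          unfold alp
          rw [if_neg (by omega)]
      data := fun s => h.dataSM hBol hRel J s (hb1 s) (hb2 s) (hb3 s)
      jump := by
        intro s s' k hag hk xa xb h1 h2 h3 h4
        have hJk := hJJ k
        have hJ1 : 1 ≤ J k := (le_max_left _ _).trans hJk
        have hJ2 : J₁ ≤ J k := (le_max_right _ _).trans hJk
        have hj := h.jump J hag hk (hb1 s) (hb1 s') (hb3 s) (hb3 s') hJ1 (hsrc2 (J k) hJ2) h1 h2 h3 h4
        refine le_trans ?_ hj
        have h5 := hPa (J k) hJ1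
        have hp : (0:ℝ) ≤ ε₀ * (1 / 2) ^ k / 60 := by positivity
        calc c₂ * ε₀ / 60 * (1 / 2) ^ k * (J k : ℝ) ^ ((m : ℝ) + 1 + 1 / 16)
            = (c₂ * (J k : ℝ) ^ ((m : ℝ) + 1 + 1 / 16)) * (ε₀ * (1 / 2) ^ k / 60) := by ring
          _ ≤ (((J k : ℝ) / c) ^ (2 * m + 1) * (√(WS m c (J k)))⁻¹) * (ε₀ * (1 / 2) ^ k / 60) :=
              mul_le_mul_of_nonneg_right h5 hp
          _ = _ := by ring }

end Pool.Agent.H472.Q2
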