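import Mathlib
import Pool.Agent.H472.Q2.Tasks
import Pool.Graph.R_seed8.H853R3.Task469G

set_option autoImplicit false

open Finset MeasureTheory

namespace Pool.Agent.H472.Q2

open Pool.Agent.H469R10.HO Pool.Agent.H13R3.EM Pool.Agent.H853R3.Bol

namespace Bol

/-- partial expansion of `x ^ (2 i) / (t + i x) ^ (2 m + 2)` -/
lemma expand (t x : ℝ) (ht : 0 < t) (m i : ℕ) (hi : i ≤ m) :
    (x : ℂ) ^ (2 * i) * (1 / ((t : ℂ) + x * Complex.I) ^ (2 * m + 1 + 1)) =
      ∑ k ∈ range (2 * i + 1), ((-1) ^ i * ((-(t : ℂ)) ^ (2 * i - k) * ((2 * i).choose k : ℂ))) *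
        (1 / ((t : ℂ) + x * Complex.I) ^ ((2 * m + 1 - k) + 1)) := by
  have h0 := ne_zero' t ht x
  have h1 : (x : ℂ) ^ (2 * i) = (-1) ^ i * (((t : ℂ) + x * Complex.I) + (-(t : ℂ))) ^ (2 * i) := by
    have : ((t : ℂ) + x * Complex.I) + (-(t : ℂ)) = x * Complex.I := by ring
    rw [this, mul_pow, pow_mul Complex.I, Complex.I_sq]
    have h2 : ((-1 : ℂ)) ^ i * (-1) ^ i = 1 := by
      rw [← mul_pow]; simp
    linear_combination (-(x : ℂ) ^ (2 * i)) * h2
  rw [h1, add_pow, mul_sum, sum_mul]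
  refine sum_congr rfl fun k hk => ?_
  have hk' : k ≤ 2 * i := Nat.lt_succ_iff.mp (mem_range.mp hk)
  have h3 : ((t : ℂ) + x * Complex.I) ^ (2 * m + 1 + 1) =
      ((t : ℂ) + x * Complex.I) ^ ((2 * m + 1 - k) + 1) * ((t : ℂ) + x * Complex.I) ^ k := by
    rw [← pow_add]
    congr 1
    omega
  rw [h3]
  have h4 : ((t : ℂ) + x * Complex.I) ^ k ≠ 0 := pow_ne_zero _ h0
  have h5 : ((t : ℂ) + x * Complex.I) ^ ((2 * m + 1 - k) + 1) ≠ 0 := pow_ne_zero _ h0
  field_simp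

lemma pow_ker_int (t : ℝ) (ht : 0 < t) (m i : ℕ) (hi : i ≤ m) :
    Integrable (fun x : ℝ => (x : ℂ) ^ (2 * i) * (1 / ((t : ℂ) + x * Complex.I) ^ (2 * m + 1 + 1))) := by
  simp_rw [expand t _ ht m i hi]
  refine integrable_finsetSum _ fun k hk => ?_
  have hk' : k ≤ 2 * i := Nat.lt_succ_iff.mp (mem_range.mp hk)
  exact (ker_int t ht (2 * m + 1 - k) (by omega)).const_mul _

lemma ker_zero (t : ℝ) (ht : 0 < t) (n : ℕ) (hn : 1 ≤ n) :
    ∫ x : ℝ, (1 : ℂ) / ((t : ℂ) + x * Complex.I) ^ (n + 1) = 0 := by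
  have h := inv_formula t ht n hn 0
  rw [ff_neg t n hn le_rfl] at h
  simpa using h

lemma pow_ker_zero (t : ℝ) (ht : 0 < t) (m i : ℕ) (hi : i ≤ m) :
    ∫ x : ℝ, (x : ℂ) ^ (2 * i) * (1 / ((t : ℂ) + x * Complex.I) ^ (2 * m + 1 + 1)) = 0 := by
  simp_rw [expand t _ ht m i hi]
  rw [integral_finsetSum]
  · refine sum_eq_zero fun k hk => ?_
    have hk' : k ≤ 2 * i := Nat.lt_succ_iff.mp (mem_range.mp hk)
    rw [integral_const_mul, ker_zero t ht _ (by omega), mul_zero]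
  · intro k hk
    have hk' : k ≤ 2 * i := Nat.lt_succ_iff.mp (mem_range.mp hk)
    exact (ker_int t ht (2 * m + 1 - k) (by omega)).const_mul _

lemma re_eq (t x : ℝ) (m i : ℕ) :
    ((x : ℂ) ^ (2 * i) * (1 / ((t : ℂ) + x * Complex.I) ^ (2 * m + 1 + 1))).re =
      x ^ (2 * i) * K (2 * m + 1) t x := by
  unfold K
  rw [← Complex.ofReal_pow, Complex.re_ofReal_mul]

lemma pow_K_int (t : ℝ) (ht : 0 < t) (m i : ℕ) (hi : i ≤ m) :
    Integrable (fun x : ℝ => x ^ (2 * i) * K (2 * m + 1) t x) := by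
  have h := (pow_ker_int t ht m i hi).re
  refine h.congr (Filter.Eventually.of_forall fun x => ?_)
  exact re_eq t x m i

lemma pow_K_zero (t : ℝ) (ht : 0 < t) (m i : ℕ) (hi : i ≤ m) :
    ∫ x in Set.Ioi (0 : ℝ), x ^ (2 * i) * K (2 * m + 1) t x = 0 := by
  have h1 : ∫ x : ℝ, x ^ (2 * i) * K (2 * m + 1) t x = 0 := by
    have h := congrArg Complex.re (pow_ker_zero t ht m i hi)
    rw [← RCLike.re_eq_complex_re, ← integral_re (pow_ker_int t ht m i hi)] at h
    simp only [RCLike.re_eq_complex_re, re_eq, Complex.zero_re] at h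
    exact h
  have h2 := integral_comp_abs (f := fun x : ℝ => x ^ (2 * i) * K (2 * m + 1) t x)
  have h3 : (fun x : ℝ => |x| ^ (2 * i) * K (2 * m + 1) t |x|) =
      fun x : ℝ => x ^ (2 * i) * K (2 * m + 1) t x := by
    ext x
    rcases abs_choice x with h | h <;> rw [h]
    rw [K_even, Even.neg_pow (even_two_mul i)]
  rw [h3, h1] at h2
  linarith

/-- the theta series as an integral, with the polynomial subtracted -/
lemma theta_eq' (t : ℝ) (ht : 0 < t) (m : ℕ) (α u q : ℕ → ℝ) (hα : Summable fun j => |α j|)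
    (hu : ∀ j, 0 ≤ u j) :
    ∑' j, α j * u j ^ (2 * m + 1) * Real.exp (-(u j * t)) =
      2 * (2 * m + 1).factorial / Real.pi * ∫ x in Set.Ioi (0 : ℝ),
        ((∑' j, α j * Real.cos (u j * x)) - ∑ i ∈ range (m + 1), q i * x ^ (2 * i)) *
          K (2 * m + 1) t x := by
  rw [theta_eq t ht (2 * m + 1) (by omega) α u hα hu]
  congr 1
  have hKi : IntegrableOn (K (2 * m + 1) t) (Set.Ioi 0) := (K_int t ht (2 * m + 1) (by omega)).integrableOn
  have hF : IntegrableOn (fun x => (∑' j, α j * Real.cos (u j * x)) * K (2 * m + 1) t x) (Set.Ioi 0) := by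
    refine hKi.bdd_mul (c := ∑' j, |α j|) ?_ ?_
    · apply Continuous.aestronglyMeasurable
      refine continuous_tsum (fun n => by fun_prop) hα fun n x => ?_
      rw [Real.norm_eq_abs, abs_mul]
      exact mul_le_of_le_one_right (abs_nonneg _) (Real.abs_cos_le_one _)
    · refine Filter.Eventually.of_forall fun x => ?_
      refine tsum_of_norm_bounded hα.hasSum fun n => ?_
      rw [Real.norm_eq_abs, abs_mul]
      exact mul_le_of_le_one_right (abs_nonneg _) (Real.abs_cos_le_one _)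
  have hP : ∀ i ∈ range (m + 1), IntegrableOn (fun x => q i * (x ^ (2 * i) * K (2 * m + 1) t x)) (Set.Ioi 0) := by
    intro i hi
    exact ((pow_K_int t ht m i (Nat.lt_succ_iff.mp (mem_range.mp hi))).const_mul _).integrableOn
  have hPs : IntegrableOn (fun x => ∑ i ∈ range (m + 1), q i * (x ^ (2 * i) * K (2 * m + 1) t x))
      (Set.Ioi 0) := integrable_finsetSum _ hP
  have e1 : (fun x => ((∑' j, α j * Real.cos (u j * x)) - ∑ i ∈ range (m + 1), q i * x ^ (2 * i)) *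
      K (2 * m + 1) t x) = fun x => (∑' j, α j * Real.cos (u j * x)) * K (2 * m + 1) t x -
        ∑ i ∈ range (m + 1), q i * (x ^ (2 * i) * K (2 * m + 1) t x) := by
    funext x
    rw [sub_mul, sum_mul]
    congr 1
    refine sum_congr rfl fun i _ => ?_
    ring
  rw [e1, integral_sub hF hPs, integral_finsetSum _ hP]
  have e2 : ∑ i ∈ range (m + 1), ∫ x in Set.Ioi (0 : ℝ), q i * (x ^ (2 * i) * K (2 * m + 1) t x) = 0 := by
    refine sum_eq_zero fun i hi => ?_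
    rw [integral_const_mul, pow_K_zero t ht m i (Nat.lt_succ_iff.mp (mem_range.mp hi)), mul_zero]
  rw [e2, sub_zero]

end Bol

open Bol in
theorem pf_TaskBol : TaskBol := by
  intro m hm α u q hα hu hrel t ht
  have hti : 0 < t⁻¹ := inv_pos.2 ht
  have h1 := theta_eq' t⁻¹ hti m α u q hα hu
  have h2 := theta_eq' t ht m α u q hα hu
  simp_rw [div_eq_mul_inv]
  rw [h1, h2]
  set g : ℝ → ℝ := fun x => ((∑' j, α j * Real.cos (u j * x)) - ∑ i ∈ range (m + 1), q i * x ^ (2 * i)) *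
    K (2 * m + 1) t⁻¹ x with hg
  have h3 := integral_comp_rpow_Ioi g (p := -1) (by norm_num)
  rw [← h3]
  have h4 : ∫ x in Set.Ioi (0 : ℝ), (|(-1 : ℝ)| * x ^ ((-1 : ℝ) - 1)) • g (x ^ (-1 : ℝ)) =
      ∫ x in Set.Ioi (0 : ℝ), ((-1) ^ (m + 1) * t ^ (2 * m + 2)) *
        (((∑' j, α j * Real.cos (u j * x)) - ∑ i ∈ range (m + 1), q i * x ^ (2 * i)) *
          K (2 * m + 1) t x) := by
    refine setIntegral_congr_fun measurableSet_Ioi fun x hx => ?_
    have hx0 : (0 : ℝ) < x := hx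
    have e1 : x ^ (-1 : ℝ) = x⁻¹ := Real.rpow_neg_one x
    have e2 : x ^ ((-1 : ℝ) - 1) = (x ^ 2)⁻¹ := by
      rw [show ((-1 : ℝ) - 1) = -((2 : ℕ) : ℝ) by norm_num, Real.rpow_neg hx0.le, Real.rpow_natCast]
    have e3 := hrel x hx0
    simp only [hg, smul_eq_mul, abs_neg, abs_one, one_mul]
    rw [e1, e2, K_inv m t x ht hx0, e3]
    have h5 : x ^ (2 * m + 2) = x ^ (2 * m) * x ^ 2 := by ring
    have h6 : x ^ (2 * m) ≠ 0 := (pow_pos hx0 _).ne'
    rw [mul_pow, h5]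
    field_simp
  rw [h4, integral_const_mul]
  ring

end Pool.Agent.H472.Q2
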