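import Mathlib
import Pool.Agent.H472.Q2.Tasks

set_option autoImplicit false

open Finset MeasureTheory

namespace Pool.Agent.H472.Q2

open Pool.Agent.H469R10.HO Pool.Agent.H13R3.EM

namespace FinAux

lemma EE_meas (a : ℕ → ℝ) : Measurable (EE a) := by
  have : EE a = (fun N : ℕ => ∑ n ∈ Icc 1 N, a n) ∘ (fun x : ℝ => ⌊x⌋₊) := rfl
  rw [this]
  exact (measurable_from_nat).comp Nat.measurable_floor

lemma EE_bound (a b : ℕ → ℝ) (hab : ∀ n, |a n| ≤ b n) (T x : ℝ) (hx : x ≤ T) :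
    |EE a x| ≤ ∑ n ∈ Icc 1 ⌊T⌋₊, b n := by
  unfold EE
  refine (Finset.abs_sum_le_sum_abs _ _).trans ?_
  refine (Finset.sum_le_sum fun n _ => hab n).trans ?_
  apply Finset.sum_le_sum_of_subset_of_nonneg
  · exact Finset.Icc_subset_Icc_right (Nat.floor_mono hx)
  · intro n _ _; exact (abs_nonneg _).trans (hab n)

/-- the integrand -/
noncomputable def igd (w : ℝ → ℝ) (a b : ℕ → ℝ) (x : ℝ) : ℝ := EE a x ^ 2 * EE b x ^ 2 * w x

lemma igd_nonneg (w : ℝ → ℝ) (hw : ∀ x, 0 ≤ w x) (a b : ℕ → ℝ) (x : ℝ) : 0 ≤ igd w a b x :=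
  mul_nonneg (mul_nonneg (sq_nonneg _) (sq_nonneg _)) (hw x)

lemma igd_int (w : ℝ → ℝ) (hwi : ∀ T : ℝ, 1 ≤ T → IntervalIntegrable w volume 1 T) (a b : ℕ → ℝ)
    (T : ℝ) (hT : 1 ≤ T) : IntervalIntegrable (igd w a b) volume 1 T := by
  have h := hwi T hT
  rw [intervalIntegrable_iff_integrableOn_Ioc_of_le hT] at h ⊢
  refine Integrable.bdd_mul (c := (∑ n ∈ Icc 1 ⌊T⌋₊, |a n|) ^ 2 * (∑ n ∈ Icc 1 ⌊T⌋₊, |b n|) ^ 2) h ?_ ?_
  · exact (((EE_meas a).pow_const 2).mul ((EE_meas b).pow_const 2)).aestronglyMeasurable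
  · rw [ae_restrict_iff' measurableSet_Ioc]
    refine Filter.Eventually.of_forall fun x hx => ?_
    rw [Real.norm_eq_abs, abs_mul, abs_pow, abs_pow]
    have h1 := EE_bound a (fun n => |a n|) (fun n => le_refl _) T x hx.2
    have h2 := EE_bound b (fun n => |b n|) (fun n => le_refl _) T x hx.2
    gcongr

lemma igd_int_sub (w : ℝ → ℝ) (hwi : ∀ T : ℝ, 1 ≤ T → IntervalIntegrable w volume 1 T) (a b : ℕ → ℝ)
    (u v : ℝ) (hu : 1 ≤ u) (huv : u ≤ v) : IntervalIntegrable (igd w a b) volume u v := by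
  apply (igd_int w hwi a b v (hu.trans huv)).mono_set
  rw [Set.uIcc_of_le huv, Set.uIcc_of_le (hu.trans huv)]
  exact Set.Icc_subset_Icc_left hu

/-- for fixed `T`, the integral is continuous in the parameters -/
lemma igd_cont (w : ℝ → ℝ) (hw : ∀ x, 0 ≤ w x) (hwi : ∀ T : ℝ, 1 ≤ T → IntervalIntegrable w volume 1 T)
    (f g : (ℕ → Bool) → ℕ → ℝ) (hf : ∀ n, Continuous fun s => f s n) (hg : ∀ n, Continuous fun s => g s n)
    (T : ℝ) (hT : 1 ≤ T) :
    Continuous fun p : (ℕ → Bool) × (ℕ → Bool) => ∫ x in (1:ℝ)..T, igd w (f p.1) (g p.2) x := by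
  have hbf : ∀ n, ∃ C : ℝ, ∀ s, |f s n| ≤ C := by
    intro n
    obtain ⟨C, hC⟩ := (isCompact_univ (X := ℕ → Bool)).exists_bound_of_continuousOn (hf n).continuousOn
    exact ⟨C, fun s => by simpa using hC s (Set.mem_univ _)⟩
  have hbg : ∀ n, ∃ C : ℝ, ∀ s, |g s n| ≤ C := by
    intro n
    obtain ⟨C, hC⟩ := (isCompact_univ (X := ℕ → Bool)).exists_bound_of_continuousOn (hg n).continuousOn
    exact ⟨C, fun s => by simpa using hC s (Set.mem_univ _)⟩
  choose Cf hCf using hbf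
  choose Cg hCg using hbg
  refine intervalIntegral.continuous_of_dominated_interval
    (bound := fun x => ((∑ n ∈ Icc 1 ⌊T⌋₊, Cf n) ^ 2 * (∑ n ∈ Icc 1 ⌊T⌋₊, Cg n) ^ 2) * w x) ?_ ?_ ?_ ?_
  · intro p
    have h := igd_int w hwi (f p.1) (g p.2) T hT
    rw [Set.uIoc_of_le hT]
    exact h.1.aestronglyMeasurable
  · intro p
    refine Filter.Eventually.of_forall fun x hx => ?_
    rw [Set.uIoc_of_le hT] at hx
    unfold igd
    rw [Real.norm_eq_abs, abs_mul, abs_mul, abs_pow, abs_pow, abs_of_nonneg (hw x)]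
    have h1 := EE_bound (f p.1) Cf (fun n => hCf n p.1) T x hx.2
    have h2 := EE_bound (g p.2) Cg (fun n => hCg n p.2) T x hx.2
    have := hw x
    gcongr
  · exact (hwi T hT).const_mul _
  · refine Filter.Eventually.of_forall fun x _ => ?_
    unfold igd EE
    have h1 : Continuous fun p : (ℕ → Bool) × (ℕ → Bool) => ∑ n ∈ Icc 1 ⌊x⌋₊, f p.1 n :=
      continuous_finsetSum _ fun n _ => (hf n).comp continuous_fst
    have h2 : Continuous fun p : (ℕ → Bool) × (ℕ → Bool) => ∑ n ∈ Icc 1 ⌊x⌋₊, g p.2 n :=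
      continuous_finsetSum _ fun n _ => (hg n).comp continuous_snd
    exact ((h1.pow 2).mul (h2.pow 2)).mul continuous_const

/-- dichotomy on the two gaps -/
lemma dich (D : ℝ → ℝ) (h : ℝ) (A B : Set ℝ) (hD : ∀ a ∈ A, ∀ b ∈ B, h ≤ |D b - D a|) :
    (∀ x ∈ A, h / 2 ≤ |D x|) ∨ (∀ x ∈ B, h / 2 ≤ |D x|) := by
  by_contra hcon
  push Not at hcon
  obtain ⟨⟨a, ha, ha'⟩, ⟨b, hb, hb'⟩⟩ := hcon
  have h1 := hD a ha b hb
  have h2 : |D b - D a| ≤ |D b| + |D a| := by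
    have := abs_add_le (D b) (-(D a))
    rwa [abs_neg, ← sub_eq_add_neg] at this
  linarith

/-- sum of four integrals over a gap -/
lemma four (w : ℝ → ℝ) (hw : ∀ x, 0 ≤ w x) (hwi : ∀ T : ℝ, 1 ≤ T → IntervalIntegrable w volume 1 T)
    (a a' b b' : ℕ → ℝ) (h1 h2 u v : ℝ) (hh1 : 0 ≤ h1) (hh2 : 0 ≤ h2) (hu : 1 ≤ u) (huv : u ≤ v)
    (ha : ∀ x, u ≤ x → x ≤ v → h1 / 2 ≤ |EE a x - EE a' x|)
    (hb : ∀ x, u ≤ x → x ≤ v → h2 / 2 ≤ |EE b x - EE b' x|) :
    h1 ^ 2 * h2 ^ 2 / 64 * (∫ x in u..v, w x) ≤ (∫ x in (1:ℝ)..v, igd w a b x) + (∫ x in (1:ℝ)..v, igd w a' b x) +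
      (∫ x in (1:ℝ)..v, igd w a b' x) + (∫ x in (1:ℝ)..v, igd w a' b' x) := by
  have key : ∀ c d : ℕ → ℝ, (∫ x in u..v, igd w c d x) ≤ ∫ x in (1:ℝ)..v, igd w c d x := by
    intro c d
    have h3 := intervalIntegral.integral_add_adjacent_intervals (igd_int w hwi c d u hu) (igd_int_sub w hwi c d u v hu huv)
    have h4 : 0 ≤ ∫ x in (1:ℝ)..u, igd w c d x :=
      intervalIntegral.integral_nonneg hu fun x _ => igd_nonneg w hw c d x
    linarith
  have hwuv : IntervalIntegrable w volume u v := by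
    apply (hwi v (hu.trans huv)).mono_set
    rw [Set.uIcc_of_le huv, Set.uIcc_of_le (hu.trans huv)]
    exact Set.Icc_subset_Icc_left hu
  have I := fun c d => igd_int_sub w hwi c d u v hu huv
  have hsum : h1 ^ 2 * h2 ^ 2 / 64 * (∫ x in u..v, w x) ≤ (∫ x in u..v, igd w a b x) + (∫ x in u..v, igd w a' b x) +
      (∫ x in u..v, igd w a b' x) + (∫ x in u..v, igd w a' b' x) := by
    rw [← intervalIntegral.integral_add (I a b) (I a' b),
      ← intervalIntegral.integral_add ((I a b).add (I a' b)) (I a b'),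
      ← intervalIntegral.integral_add (((I a b).add (I a' b)).add (I a b')) (I a' b'),
      ← intervalIntegral.integral_const_mul]
    apply intervalIntegral.integral_mono_on huv (hwuv.const_mul _)
      ((((I a b).add (I a' b)).add (I a b')).add (I a' b'))
    intro x hx
    have hA := ha x hx.1 hx.2
    have hB := hb x hx.1 hx.2
    have hA2 : h1 ^ 2 / 8 ≤ EE a x ^ 2 + EE a' x ^ 2 := by
      have h5 : (h1 / 2) ^ 2 ≤ (EE a x - EE a' x) ^ 2 := by
        rw [← sq_abs (EE a x - EE a' x)]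
        exact pow_le_pow_left₀ (by positivity) hA 2
      nlinarith [sq_nonneg (EE a x + EE a' x)]
    have hB2 : h2 ^ 2 / 8 ≤ EE b x ^ 2 + EE b' x ^ 2 := by
      have h5 : (h2 / 2) ^ 2 ≤ (EE b x - EE b' x) ^ 2 := by
        rw [← sq_abs (EE b x - EE b' x)]
        exact pow_le_pow_left₀ (by positivity) hB 2
      nlinarith [sq_nonneg (EE b x + EE b' x)]
    have h6 : h1 ^ 2 / 8 * (h2 ^ 2 / 8) ≤ (EE a x ^ 2 + EE a' x ^ 2) * (EE b x ^ 2 + EE b' x ^ 2) :=
      mul_le_mul hA2 hB2 (by positivity) (by positivity)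
    have h7 := mul_le_mul_of_nonneg_right h6 (hw x)
    unfold igd
    calc h1 ^ 2 * h2 ^ 2 / 64 * w x = h1 ^ 2 / 8 * (h2 ^ 2 / 8) * w x := by ring
      _ ≤ _ := h7
      _ = _ := by ring
  linarith [key a b, key a' b, key a b', key a' b']

end FinAux

namespace FinAux

lemma poly_low (R : Polynomial ℝ) (hR : 0 < R.leadingCoeff) : ∃ r Y : ℝ, 0 < r ∧ ∀ y, Y ≤ y → r ≤ R.eval y := by
  by_cases hd : 0 < R.degree
  · have ht := R.tendsto_atTop_of_leadingCoeff_nonneg hd hR.le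
    have h1 := ht.eventually_ge_atTop 1
    rw [Filter.eventually_atTop] at h1
    obtain ⟨Y, hY⟩ := h1
    exact ⟨1, Y, one_pos, hY⟩
  · have h1 : R.degree ≤ 0 := not_lt.mp hd
    rw [Polynomial.eq_C_of_degree_le_zero h1] at hR ⊢
    rw [Polynomial.leadingCoeff_C] at hR
    exact ⟨_, 0, hR, fun y _ => by rw [Polynomial.eval_C]⟩

lemma w_lower (w : ℝ → ℝ) (P : Polynomial ℝ) (η : ℝ) (hη : 0 < η) (hw0 : ∀ x, 0 ≤ w x)
    (hwi : ∀ T : ℝ, 1 ≤ T → IntervalIntegrable w volume 1 T) (hP : P ≠ 0)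
    (hC : ∃ C : ℝ, ∀ T : ℝ, 1 ≤ T → |(∫ x in (1:ℝ)..T, w x) - T * P.eval (Real.log T)| ≤ C * T ^ (1 - η)) :
    ∃ (q C X : ℝ), 0 < q ∧ 0 ≤ C ∧ 1 ≤ X ∧ ∀ a b : ℝ, X ≤ a → a ≤ b →
      q * (b - a) - C * b ^ (1 - min η 1) ≤ ∫ x in a..b, w x := by
  obtain ⟨C, hC⟩ := hC
  have hC0 : 0 ≤ C := by
    have := hC 1 le_rfl
    rw [Real.one_rpow, mul_one] at this
    exact (abs_nonneg _).trans this
  -- leading coefficient positive
  have hlead : 0 < P.leadingCoeff := by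
    by_contra hneg
    have hneg' : P.leadingCoeff < 0 := lt_of_le_of_ne (not_lt.mp hneg) (by simpa using hP)
    obtain ⟨r, Y, hr, hY⟩ := poly_low (-P) (by rw [Polynomial.leadingCoeff_neg]; linarith)
    have ht := tendsto_rpow_neg_atTop hη
    have h1 : ∀ᶠ T : ℝ in Filter.atTop, C * T ^ (-η) < r := by
      have h2 := ht.const_mul C
      rw [mul_zero] at h2
      exact h2.eventually_lt_const hr
    have h3 : ∀ᶠ T : ℝ in Filter.atTop, Y ≤ Real.log T := Real.tendsto_log_atTop.eventually_ge_atTop Y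
    obtain ⟨T, hT1, hT2, hT3⟩ := (h1.and (h3.and (Filter.eventually_ge_atTop 1))).exists
    have h4 := hY _ hT2
    rw [Polynomial.eval_neg] at h4
    have h5 := hC T hT3
    have h6 : 0 ≤ ∫ x in (1:ℝ)..T, w x := intervalIntegral.integral_nonneg hT3 fun x _ => hw0 x
    have h7 : T ^ (1 - η) = T * T ^ (-η) := by
      rw [sub_eq_add_neg, Real.rpow_add (by linarith), Real.rpow_one]
    rw [abs_le] at h5
    rw [h7] at h5
    have h8 : T * r ≤ T * (-P.eval (Real.log T)) := mul_le_mul_of_nonneg_left h4 (by linarith)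
    have h9 : T * (C * T ^ (-η)) < T * r := mul_lt_mul_of_pos_left hT1 (by linarith)
    nlinarith [h5.2]
  -- Q = P + P'
  set Q := P + Polynomial.derivative P with hQ
  have hleadQ : 0 < Q.leadingCoeff := by
    rw [hQ, Polynomial.leadingCoeff_add_of_degree_lt' (Polynomial.degree_derivative_lt hP)]
    exact hlead
  obtain ⟨q, Y, hq, hY⟩ := poly_low Q hleadQ
  refine ⟨q, 2 * C, max 1 (Real.exp Y), hq, by positivity, le_max_left _ _, ?_⟩
  intro a b ha hab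
  have ha1 : 1 ≤ a := (le_max_left _ _).trans ha
  have ha2 : Real.exp Y ≤ a := (le_max_right _ _).trans ha
  have hb1 : 1 ≤ b := ha1.trans hab
  have hder : ∀ x : ℝ, 0 < x → HasDerivAt (fun x => x * P.eval (Real.log x)) (Q.eval (Real.log x)) x := by
    intro x hx
    have h1 : HasDerivAt (fun x => P.eval (Real.log x)) ((Polynomial.derivative P).eval (Real.log x) * x⁻¹) x :=
      (P.hasDerivAt (Real.log x)).comp x (Real.hasDerivAt_log hx.ne')
    have h2 : HasDerivAt (fun x => x * P.eval (Real.log x))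
        (1 * P.eval (Real.log x) + x * ((Polynomial.derivative P).eval (Real.log x) * x⁻¹)) x :=
      (hasDerivAt_id' x).mul h1
    have h3 : Q.eval (Real.log x) =
        1 * P.eval (Real.log x) + x * ((Polynomial.derivative P).eval (Real.log x) * x⁻¹) := by
      rw [hQ, Polynomial.eval_add]
      field_simp
    rw [h3]
    exact h2
  have hmvt : q * (b - a) ≤ b * P.eval (Real.log b) - a * P.eval (Real.log a) := by
    apply Convex.mul_sub_le_image_sub_of_le_deriv (D := Set.Icc a b) (convex_Icc a b)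
      (f := fun x => x * P.eval (Real.log x))
    · intro x hx
      exact (hder x (by linarith [hx.1])).continuousAt.continuousWithinAt
    · intro x hx
      rw [interior_Icc] at hx
      exact (hder x (by linarith [hx.1])).differentiableAt.differentiableWithinAt
    · intro x hx
      rw [interior_Icc] at hx
      have hx0 : 0 < x := by linarith [hx.1]
      rw [(hder x hx0).deriv]
      apply hY
      rw [Real.le_log_iff_exp_le hx0]
      linarith [hx.1]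
    · exact Set.left_mem_Icc.mpr hab
    · exact Set.right_mem_Icc.mpr hab
    · exact hab
  have hadd : (∫ x in (1:ℝ)..a, w x) + (∫ x in a..b, w x) = ∫ x in (1:ℝ)..b, w x := by
    apply intervalIntegral.integral_add_adjacent_intervals (hwi a ha1)
    apply (hwi b hb1).mono_set
    rw [Set.uIcc_of_le hab, Set.uIcc_of_le hb1]
    exact Set.Icc_subset_Icc_left ha1
  have hA := hC a ha1
  have hB := hC b hb1
  rw [abs_le] at hA hB
  have hη' : min η 1 ≤ η := min_le_left _ _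
  have hη1 : min η 1 ≤ 1 := min_le_right _ _
  have hE1 : a ^ (1 - η) ≤ b ^ (1 - min η 1) :=
    (Real.rpow_le_rpow_of_exponent_le ha1 (by linarith)).trans
      (Real.rpow_le_rpow (by linarith) hab (by linarith))
  have hE2 : b ^ (1 - η) ≤ b ^ (1 - min η 1) := Real.rpow_le_rpow_of_exponent_le hb1 (by linarith)
  nlinarith [mul_le_mul_of_nonneg_left hE1 hC0, mul_le_mul_of_nonneg_left hE2 hC0]

/-- `x^lam - y^lam ≥ (x - y) y^(lam-1)` -/
lemma rpow_diff (lam x y : ℝ) (hlam : 1 ≤ lam) (hy : 0 < y) (hxy : y ≤ x) :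
    (x - y) * y ^ (lam - 1) ≤ x ^ lam - y ^ lam := by
  have hx : 0 < x := lt_of_lt_of_le hy hxy
  have h1 : x ^ lam = x * x ^ (lam - 1) := by
    rw [Real.rpow_sub hx, Real.rpow_one]
    field_simp
  have h2 : y ^ lam = y * y ^ (lam - 1) := by
    rw [Real.rpow_sub hy, Real.rpow_one]
    field_simp
  have h3 : y ^ (lam - 1) ≤ x ^ (lam - 1) := Real.rpow_le_rpow hy.le hxy (by linarith)
  rw [h1, h2]
  nlinarith [mul_le_mul_of_nonneg_left h3 (by linarith : (0:ℝ) ≤ x)]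

lemma gap_len (lam c e : ℝ) (hlam : 1 ≤ lam) (hc : 0 < c) (he : 0 < e) (he4 : e ≤ 1 / 4) (J : ℕ) (hJ : 1 ≤ J) :
    (1 / c) * (1 / 4) ^ (lam - 1) * (((xx (J + 1) - e) / c) ^ lam) ^ (1 - 1 / lam) ≤
      ((xx (J + 1) - e) / c) ^ lam - ((xx J + e) / c) ^ lam := by
  have hpi := Real.pi_gt_three
  have hJ' : (1 : ℝ) ≤ J := by exact_mod_cast hJ
  have hxJ : Real.pi / 2 ≤ xx J := by unfold xx; nlinarith
  have hx1 : xx (J + 1) = xx J + Real.pi / 2 := by unfold xx; push_cast; ring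
  set y0 := (xx J + e) / c with hy0
  set y1 := (xx (J + 1) - e) / c with hy1
  have hy0pos : 0 < y0 := by rw [hy0]; apply div_pos _ hc; linarith
  have hdiff : 1 / c ≤ y1 - y0 := by
    rw [hy0, hy1, ← sub_div]
    apply div_le_div_of_nonneg_right _ hc.le
    rw [hx1]; linarith
  have hy01 : y0 ≤ y1 := by
    have : 0 < 1 / c := by positivity
    linarith
  have hq : y1 / 4 ≤ y0 := by
    rw [hy0, hy1, div_div, div_le_div_iff₀ (by positivity) hc]
    rw [hx1]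
    nlinarith
  have hy1pos : 0 < y1 := lt_of_lt_of_le hy0pos hy01
  have h1 := rpow_diff lam y1 y0 hlam hy0pos hy01
  have h2 : (y1 ^ lam) ^ (1 - 1 / lam) = y1 ^ (lam - 1) := by
    rw [← Real.rpow_mul hy1pos.le]
    congr 1
    field_simp
  have h3 : (1 / 4 : ℝ) ^ (lam - 1) * y1 ^ (lam - 1) ≤ y0 ^ (lam - 1) := by
    rw [← Real.mul_rpow (by norm_num) hy1pos.le]
    apply Real.rpow_le_rpow (by positivity) _ (by linarith)
    linarith
  rw [h2, mul_assoc]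
  refine le_trans ?_ h1
  exact mul_le_mul hdiff h3 (by positivity) (by linarith)

/-- gaps of the first sequence inside gaps of the second -/
lemma triple (lam1 lam2 c1 c2 e1 e2 : ℝ) (h1 : 1 ≤ lam1) (h12 : lam1 < lam2) (hc1 : 0 < c1) (hc2 : 0 < c2)
    (he1 : 0 < e1) (he1' : e1 ≤ 1 / 4) (he2 : 0 < e2) (he2' : e2 ≤ 1 / 4) (L : ℕ) :
    ∃ I₀ : ℕ, ∀ I : ℕ, I₀ ≤ I → ∃ J : ℕ, L ≤ J ∧ 1 ≤ J ∧
      ((xx I + e2) / c2) ^ lam2 ≤ ((xx (J - 1) + e1) / c1) ^ lam1 ∧
      ((xx (J + 1) - e1) / c1) ^ lam1 ≤ ((xx (I + 1) - e2) / c2) ^ lam2 := by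
  have hpi := Real.pi_gt_three
  set r := lam2 / lam1 with hr
  have hr1 : 1 < r := by rw [hr, lt_div_iff₀ (by linarith)]; linarith
  -- tendsto
  have ht1 : Filter.Tendsto (fun I : ℕ => (xx I + e2) / c2) Filter.atTop Filter.atTop := by
    apply Filter.Tendsto.atTop_div_const hc2
    apply Filter.tendsto_atTop_add_const_right
    unfold xx
    exact Filter.Tendsto.const_mul_atTop (by positivity) tendsto_natCast_atTop_atTop
  have ht2 : Filter.Tendsto (fun I : ℕ => (c1 / c2) * ((xx I + e2) / c2) ^ (r - 1)) Filter.atTop Filter.atTop :=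
    Filter.Tendsto.const_mul_atTop (by positivity) ((tendsto_rpow_atTop (by linarith)).comp ht1)
  have ht3 : Filter.Tendsto (fun I : ℕ => c1 * ((xx I + e2) / c2) ^ r) Filter.atTop Filter.atTop :=
    Filter.Tendsto.const_mul_atTop (by positivity) ((tendsto_rpow_atTop (by linarith)).comp ht1)
  have hev := (ht2.eventually_ge_atTop (3 * (Real.pi / 2))).and (ht3.eventually_ge_atTop (Real.pi / 2 * L))
  rw [Filter.eventually_atTop] at hev
  obtain ⟨I₀, hI₀⟩ := hev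
  refine ⟨I₀, fun I hI => ?_⟩
  obtain ⟨hA, hB⟩ := hI₀ I hI
  have hxI : 0 ≤ xx I := by unfold xx; positivity
  have hx1 : xx (I + 1) = xx I + Real.pi / 2 := by unfold xx; push_cast; ring
  set y0 := (xx I + e2) / c2 with hy0
  set y1 := (xx (I + 1) - e2) / c2 with hy1
  have hy0pos : 0 < y0 := by rw [hy0]; positivity
  have hdiff : 1 / c2 ≤ y1 - y0 := by
    rw [hy0, hy1, ← sub_div]
    apply div_le_div_of_nonneg_right _ hc2.le
    rw [hx1]; linarith
  have hy01 : y0 ≤ y1 := by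
    have : 0 < 1 / c2 := by positivity
    linarith
  have hy1pos : 0 < y1 := lt_of_lt_of_le hy0pos hy01
  have hlen : c1 * y0 ^ r + 3 * (Real.pi / 2) ≤ c1 * y1 ^ r := by
    have h3 := rpow_diff r y1 y0 hr1.le hy0pos hy01
    have h4 : 1 / c2 * y0 ^ (r - 1) ≤ y1 ^ r - y0 ^ r :=
      le_trans (mul_le_mul_of_nonneg_right hdiff (by positivity)) h3
    have h5 : c1 * (1 / c2 * y0 ^ (r - 1)) ≤ c1 * (y1 ^ r - y0 ^ r) := mul_le_mul_of_nonneg_left h4 hc1.le
    have h6 : c1 * (1 / c2 * y0 ^ (r - 1)) = c1 / c2 * y0 ^ (r - 1) := by ring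
    rw [h6] at h5
    linarith
  set K := ⌈(c1 * y0 ^ r) / (Real.pi / 2)⌉₊ with hK
  have hK1 : (c1 * y0 ^ r) / (Real.pi / 2) ≤ K := Nat.le_ceil _
  have hK2 : (K : ℝ) < (c1 * y0 ^ r) / (Real.pi / 2) + 1 := Nat.ceil_lt_add_one (by positivity)
  have hxK1 : c1 * y0 ^ r ≤ xx K := by
    unfold xx
    rw [div_le_iff₀ (by positivity)] at hK1
    linarith
  have hxK2 : xx K ≤ c1 * y0 ^ r + Real.pi / 2 := by
    unfold xx
    have : (K : ℝ) - 1 < (c1 * y0 ^ r) / (Real.pi / 2) := by linarith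
    rw [lt_div_iff₀ (by positivity)] at this
    linarith
  refine ⟨K + 1, ?_, by omega, ?_, ?_⟩
  · have h7 : (L : ℝ) ≤ K := by
      refine le_trans ?_ hK1
      rw [le_div_iff₀ (by positivity)]
      linarith
    have : L ≤ K := by exact_mod_cast h7
    omega
  · rw [Nat.add_sub_cancel]
    have h8 : y0 ^ r ≤ (xx K + e1) / c1 := by
      rw [le_div_iff₀ hc1]; linarith
    have h9 : (y0 ^ r) ^ lam1 = y0 ^ lam2 := by
      rw [← Real.rpow_mul hy0pos.le]
      congr 1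
      rw [hr]; field_simp
    rw [← h9]
    exact Real.rpow_le_rpow (by positivity) h8 (by linarith)
  · have hx2 : xx (K + 1 + 1) = xx K + 2 * (Real.pi / 2) := by unfold xx; push_cast; ring
    have hxKnn : 0 ≤ xx K := by unfold xx; positivity
    have h8 : (xx (K + 1 + 1) - e1) / c1 ≤ y1 ^ r := by
      rw [div_le_iff₀ hc1, hx2]; linarith
    have h9 : (y1 ^ r) ^ lam1 = y1 ^ lam2 := by
      rw [← Real.rpow_mul hy1pos.le]
      congr 1
      rw [hr]; field_simp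
    rw [← h9]
    refine Real.rpow_le_rpow (div_nonneg ?_ hc1.le) h8 (by linarith)
    rw [hx2]; linarith

/-- lower bound for the index in terms of the endpoint -/
lemma idx_low (lam c T : ℝ) (hlam : 1 ≤ lam) (hc : 0 < c) (hT : 0 < T) (J : ℕ) (hJ : 1 ≤ J)
    (h : T ≤ (xx (J + 1) / c) ^ lam) (s : ℝ) (hs : 0 ≤ s) :
    (c / Real.pi) ^ s * T ^ (s / lam) ≤ (J : ℝ) ^ s := by
  have hpi := Real.pi_gt_three
  have hJ' : (1 : ℝ) ≤ J := by exact_mod_cast hJ
  have hx1 : 0 ≤ xx (J + 1) / c := by unfold xx; positivity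
  have h1 : T ^ (1 / lam) ≤ xx (J + 1) / c := by
    have h2 := Real.rpow_le_rpow hT.le h (by positivity : (0:ℝ) ≤ 1 / lam)
    rwa [← Real.rpow_mul hx1, mul_one_div_cancel (by linarith), Real.rpow_one] at h2
  have h3 : c / Real.pi * T ^ (1 / lam) ≤ J := by
    rw [le_div_iff₀ hc] at h1
    unfold xx at h1
    push_cast at h1
    rw [div_mul_eq_mul_div, div_le_iff₀ (by positivity)]
    nlinarith
  have h4 := Real.rpow_le_rpow (by positivity) h3 hs
  rw [Real.mul_rpow (by positivity) (by positivity), ← Real.rpow_mul hT.le] at h4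
  convert h4 using 3
  ring

end FinAux

namespace FinAux

lemma gap_mono (lam c e : ℝ) (hlam : 1 ≤ lam) (hc : 0 < c) (he : 0 < e) (he4 : e ≤ 1 / 4) (J : ℕ) (hJ : 1 ≤ J) :
    ((xx J + e) / c) ^ lam ≤ ((xx (J + 1) - e) / c) ^ lam := by
  have h := gap_len lam c e hlam hc he he4 J hJ
  have h2 : 0 ≤ (1 / c) * (1 / 4) ^ (lam - 1) * (((xx (J + 1) - e) / c) ^ lam) ^ (1 - 1 / lam) := by
    have hpi := Real.pi_gt_three
    have h3 : 0 ≤ (xx (J + 1) - e) / c := by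
      apply div_nonneg _ hc.le
      unfold xx
      push_cast
      have : (0 : ℝ) ≤ J := Nat.cast_nonneg _
      nlinarith
    positivity
  linarith

lemma w_gap (w : ℝ → ℝ) (P : Polynomial ℝ) (η : ℝ) (hη : 0 < η) (hw0 : ∀ x, 0 ≤ w x)
    (hwi : ∀ T : ℝ, 1 ≤ T → IntervalIntegrable w volume 1 T) (hP : P ≠ 0)
    (hC : ∃ C : ℝ, ∀ T : ℝ, 1 ≤ T → |(∫ x in (1:ℝ)..T, w x) - T * P.eval (Real.log T)| ≤ C * T ^ (1 - η))
    (lam c e : ℝ) (hlam : 1 ≤ lam) (hlamη : 1 / lam < min η 1) (hc : 0 < c) (he : 0 < e) (he4 : e ≤ 1 / 4) :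
    ∃ q X : ℝ, 0 < q ∧ 1 ≤ X ∧ ∀ J : ℕ, 1 ≤ J → X ≤ ((xx J + e) / c) ^ lam →
      q * (((xx (J + 1) - e) / c) ^ lam) ^ (1 - 1 / lam) ≤
        ∫ x in (((xx J + e) / c) ^ lam)..(((xx (J + 1) - e) / c) ^ lam), w x := by
  obtain ⟨q, C, X, hq, hC0, hX, H⟩ := w_lower w P η hη hw0 hwi hP hC
  set g := (1 / c) * (1 / 4 : ℝ) ^ (lam - 1) with hg
  have hgpos : 0 < g := by positivity
  have ht : Filter.Tendsto (fun b : ℝ => (q * g / 2) * b ^ (min η 1 - 1 / lam)) Filter.atTop Filter.atTop :=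
    Filter.Tendsto.const_mul_atTop (by positivity) (tendsto_rpow_atTop (by linarith))
  have hev := ht.eventually_ge_atTop C
  rw [Filter.eventually_atTop] at hev
  obtain ⟨X', hX'⟩ := hev
  refine ⟨q * g / 2, max X X', by positivity, hX.trans (le_max_left _ _), ?_⟩
  intro J hJ hXJ
  set a := ((xx J + e) / c) ^ lam with ha
  set b := ((xx (J + 1) - e) / c) ^ lam with hb
  have hab : a ≤ b := gap_mono lam c e hlam hc he he4 J hJ
  have hXa : X ≤ a := (le_max_left _ _).trans hXJ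
  have hX'b : X' ≤ b := ((le_max_right _ _).trans hXJ).trans hab
  have hb1 : 1 ≤ b := hX.trans (hXa.trans hab)
  have h1 := H a b hXa hab
  have h2 := gap_len lam c e hlam hc he he4 J hJ
  rw [← hg] at h2
  rw [← hb, ← ha] at h2
  have h3 := hX' b hX'b
  have h4 : C * b ^ (1 - min η 1) ≤ (q * g / 2) * b ^ (1 - 1 / lam) := by
    have h5 : b ^ (1 - 1 / lam) = b ^ (min η 1 - 1 / lam) * b ^ (1 - min η 1) := by
      rw [← Real.rpow_add (by linarith)]
      congr 1; ring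
    rw [h5, ← mul_assoc]
    exact mul_le_mul_of_nonneg_right h3 (by positivity)
  have h6 : q * (g * b ^ (1 - 1 / lam)) ≤ q * (b - a) := mul_le_mul_of_nonneg_left h2 hq.le
  have h7 : q * (g * b ^ (1 - 1 / lam)) = q * g / 2 * b ^ (1 - 1 / lam) + q * g / 2 * b ^ (1 - 1 / lam) := by ring
  linarith

/-- threshold for a strict inequality between powers -/
lemma pow_thr (A D g0 g1 : ℝ) (hD : 0 < D) (hg : g0 < g1) : ∃ X : ℝ, 1 ≤ X ∧ ∀ T : ℝ, X ≤ T → A * T ^ g0 < D * T ^ g1 := by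
  have ht : Filter.Tendsto (fun b : ℝ => D * b ^ (g1 - g0)) Filter.atTop Filter.atTop :=
    Filter.Tendsto.const_mul_atTop hD (tendsto_rpow_atTop (by linarith))
  have hev := ht.eventually_gt_atTop A
  rw [Filter.eventually_atTop] at hev
  obtain ⟨X', hX'⟩ := hev
  refine ⟨max 1 X', le_max_left _ _, fun T hT => ?_⟩
  have hT1 : 1 ≤ T := (le_max_left _ _).trans hT
  have h1 := hX' T ((le_max_right _ _).trans hT)
  have h2 : T ^ g1 = T ^ (g1 - g0) * T ^ g0 := by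
    rw [← Real.rpow_add (by linarith)]
    congr 1; ring
  rw [h2, ← mul_assoc]
  exact mul_lt_mul_of_pos_right h1 (by positivity)

/-- data of a function: `lam`, `c`, `e`, `h`, exponent `s` -/
structure Dat where
  lam : ℝ
  c : ℝ
  e : ℝ
  h : ℝ
  s : ℝ
  hlam : 1 ≤ lam
  hc : 0 < c
  he : 0 < e
  he4 : e ≤ 1 / 4
  hh : 0 < h
  hs : 0 ≤ s

/-- left end of the gap between the nodes `J` and `J+1` -/
noncomputable def Dat.a (F : Dat) (J : ℕ) : ℝ := ((xx J + F.e) / F.c) ^ F.lam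

/-- right end of the gap between the nodes `J` and `J+1` -/
noncomputable def Dat.b (F : Dat) (J : ℕ) : ℝ := ((xx (J + 1) - F.e) / F.c) ^ F.lam

/-- the jump height -/
noncomputable def Dat.hgt (F : Dat) (K J : ℕ) : ℝ := F.h * (1 / 2) ^ K * (J : ℝ) ^ F.s

lemma Dat.ab (F : Dat) (J : ℕ) (hJ : 1 ≤ J) : F.a J ≤ F.b J := gap_mono F.lam F.c F.e F.hlam F.hc F.he F.he4 J hJ

lemma Dat.ba (F : Dat) (J : ℕ) : F.b J ≤ F.a (J + 1) := by
  unfold Dat.a Dat.b
  have hpi := Real.pi_gt_three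
  have h0 : 0 ≤ xx (J + 1) - F.e := by
    unfold xx
    push_cast
    have h1 : (0 : ℝ) ≤ J := Nat.cast_nonneg _
    have h2 := F.he4
    nlinarith
  apply Real.rpow_le_rpow (div_nonneg h0 F.hc.le) _ (by linarith [F.hlam])
  apply div_le_div_of_nonneg_right _ F.hc.le
  linarith [F.he]

lemma Dat.b_le (F : Dat) (J : ℕ) : F.b J ≤ (xx (J + 1) / F.c) ^ F.lam := by
  unfold Dat.b
  have hpi := Real.pi_gt_three
  have h0 : 0 ≤ xx (J + 1) - F.e := by
    unfold xx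
    push_cast
    have h1 : (0 : ℝ) ≤ J := Nat.cast_nonneg _
    have h2 := F.he4
    nlinarith
  apply Real.rpow_le_rpow (div_nonneg h0 F.hc.le) _ (by linarith [F.hlam])
  apply div_le_div_of_nonneg_right _ F.hc.le
  linarith [F.he]

lemma Dat.a_tendsto (F : Dat) : Filter.Tendsto F.a Filter.atTop Filter.atTop := by
  have hpi := Real.pi_gt_three
  have ht1 : Filter.Tendsto (fun I : ℕ => (xx I + F.e) / F.c) Filter.atTop Filter.atTop := by
    apply Filter.Tendsto.atTop_div_const F.hc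
    apply Filter.tendsto_atTop_add_const_right
    unfold xx
    exact Filter.Tendsto.const_mul_atTop (by positivity) tendsto_natCast_atTop_atTop
  exact (tendsto_rpow_atTop (by linarith [F.hlam])).comp ht1

/-- the choice of the scales -/
lemma choose_scale (w : ℝ → ℝ) (P : Polynomial ℝ) (η : ℝ) (hη : 0 < η) (hw0 : ∀ x, 0 ≤ w x)
    (hwi : ∀ T : ℝ, 1 ≤ T → IntervalIntegrable w volume 1 T) (hP : P ≠ 0)
    (hC : ∃ C : ℝ, ∀ T : ℝ, 1 ≤ T → |(∫ x in (1:ℝ)..T, w x) - T * P.eval (Real.log T)| ≤ C * T ^ (1 - η))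
    (F1 F2 : Dat) (h12 : F1.lam < F2.lam) (hlamη : 1 / F1.lam < min η 1) (g0 : ℝ)
    (hg : g0 < 2 * F1.s / F1.lam + 2 * F2.s / F2.lam + (1 - 1 / F1.lam)) (L1 L2 : ℕ) (k : ℕ) :
    ∃ J2 J' J'' : ℕ, L2 ≤ J2 ∧ L1 ≤ J' ∧ L1 ≤ J'' ∧ 1 ≤ J2 ∧ 2 ≤ J' ∧ 2 ≤ J'' ∧
      F2.a (J2 - 1) ≤ F1.a (J' - 1) ∧ F1.b J' ≤ F2.b (J2 - 1) ∧ F2.a J2 ≤ F1.a (J'' - 1) ∧ F1.b J'' ≤ F2.b J2 ∧
      1 ≤ F1.a (J' - 1) ∧ 1 ≤ F1.a (J'' - 1) ∧
      ∀ J : ℕ, (J = J' ∨ J = J'') → ∀ i : ℕ, (i = J - 1 ∨ i = J) →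
        4 * (k : ℝ) * (F1.b i) ^ g0 < F1.hgt (2 * k + 1) J ^ 2 * F2.hgt k J2 ^ 2 / 64 * ∫ x in (F1.a i)..(F1.b i), w x := by
  obtain ⟨q, X, hq, hX, hwg⟩ := w_gap w P η hη hw0 hwi hP hC F1.lam F1.c F1.e F1.hlam hlamη F1.hc F1.he F1.he4
  have hpi := Real.pi_gt_three
  set D : ℝ := (F1.h * (1 / 2) ^ (2 * k + 1) * (F1.c / Real.pi) ^ F1.s) ^ 2 *
    (F2.h * (1 / 2) ^ k * (F2.c / Real.pi) ^ F2.s) ^ 2 / 64 * q with hD
  have hD0 : 0 < D := by
    have h1 := F1.hh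
    have h2 := F2.hh
    have h3 := F1.hc
    have h4 := F2.hc
    have hpp := Real.pi_pos
    positivity
  obtain ⟨X2, hX2, hthr⟩ := pow_thr (4 * k) D g0 _ hD0 hg
  obtain ⟨I0, hI0⟩ := triple F1.lam F2.lam F1.c F2.c F1.e F2.e F1.hlam h12 F1.hc F2.hc F1.he F1.he4 F2.he F2.he4
    (max L1 2)
  have hev := F2.a_tendsto.eventually_ge_atTop (max X X2)
  rw [Filter.eventually_atTop] at hev
  obtain ⟨I1, hI1⟩ := hev
  set I := max I0 (max I1 L2) with hI
  have hI0I : I0 ≤ I := le_max_left _ _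
  have hI1I : I1 ≤ I := (le_max_left _ _).trans (le_max_right _ _)
  have hL2I : L2 ≤ I := (le_max_right _ _).trans (le_max_right _ _)
  obtain ⟨J', hJ'1, _, hJ'2, hJ'3⟩ := hI0 I hI0I
  obtain ⟨J'', hJ''1, _, hJ''2, hJ''3⟩ := hI0 (I + 1) (hI0I.trans (Nat.le_succ _))
  have hL1J' : L1 ≤ J' := (le_max_left _ _).trans hJ'1
  have h2J' : 2 ≤ J' := (le_max_right _ _).trans hJ'1
  have hL1J'' : L1 ≤ J'' := (le_max_left _ _).trans hJ''1
  have h2J'' : 2 ≤ J'' := (le_max_right _ _).trans hJ''1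
  have e1 : F2.a I ≤ F1.a (J' - 1) := hJ'2
  have e2 : F1.b J' ≤ F2.b I := hJ'3
  have e3 : F2.a (I + 1) ≤ F1.a (J'' - 1) := hJ''2
  have e4 : F1.b J'' ≤ F2.b (I + 1) := hJ''3
  have hXI : max X X2 ≤ F2.a I := hI1 I hI1I
  have hXI' : max X X2 ≤ F2.a (I + 1) := hI1 (I + 1) (hI1I.trans (Nat.le_succ _))
  refine ⟨I + 1, J', J'', hL2I.trans (Nat.le_succ _), hL1J', hL1J'', by omega, h2J', h2J'', by simpa using e1,
    by simpa using e2, e3, e4, ?_, ?_, ?_⟩
  · exact hX.trans ((le_max_left _ _).trans (hXI.trans e1))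
  · exact hX.trans ((le_max_left _ _).trans (hXI'.trans e3))
  · intro J hJ i hi
    -- facts about J
    have hJ2 : 2 ≤ J := by rcases hJ with h | h <;> omega
    have hXJ : max X X2 ≤ F1.a (J - 1) := by
      rcases hJ with h | h
      · rw [h]; exact hXI.trans e1
      · rw [h]; exact hXI'.trans e3
    have hbJ : F1.b J ≤ F2.b (I + 1) := by
      rcases hJ with h | h
      · rw [h]; exact (e2.trans (F2.ba I)).trans (F2.ab (I + 1) (by omega))
      · rw [h]; exact e4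
    have hi1 : 1 ≤ i := by omega
    have hai : F1.a (J - 1) ≤ F1.a i := by
      rcases hi with h | h
      · rw [h]
      · rw [h]
        have h5 := (F1.ab (J - 1) (by omega)).trans (F1.ba (J - 1))
        rwa [Nat.sub_add_cancel (by omega)] at h5
    have hbi : F1.b i ≤ F1.b J := by
      rcases hi with h | h
      · rw [h]
        have h5 := F1.ba (J - 1)
        rw [Nat.sub_add_cancel (by omega)] at h5
        exact h5.trans (F1.ab J (by omega))
      · rw [h]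
    have hXi : X ≤ F1.a i := (le_max_left _ _).trans (hXJ.trans hai)
    have hX2i : X2 ≤ F1.b i := ((le_max_right _ _).trans (hXJ.trans hai)).trans (F1.ab i hi1)
    set T := F1.b i with hT
    have hT1 : 1 ≤ T := hX2.trans hX2i
    have hT0 : 0 < T := by linarith
    have hint : q * T ^ (1 - 1 / F1.lam) ≤ ∫ x in (F1.a i)..T, w x := hwg i hi1 hXi
    have hJs := idx_low F1.lam F1.c T F1.hlam F1.hc hT0 J (by omega) (hbi.trans (F1.b_le J)) F1.s F1.hs
    have hJ2s := idx_low F2.lam F2.c T F2.hlam F2.hc hT0 (I + 1) (by omega)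
      ((hbi.trans hbJ).trans (F2.b_le (I + 1))) F2.s F2.hs
    have hh1 : F1.h * (1 / 2) ^ (2 * k + 1) * ((F1.c / Real.pi) ^ F1.s * T ^ (F1.s / F1.lam)) ≤ F1.hgt (2 * k + 1) J := by
      unfold Dat.hgt
      exact mul_le_mul_of_nonneg_left hJs (mul_nonneg F1.hh.le (by positivity))
    have hh2 : F2.h * (1 / 2) ^ k * ((F2.c / Real.pi) ^ F2.s * T ^ (F2.s / F2.lam)) ≤ F2.hgt k (I + 1) := by
      unfold Dat.hgt
      exact mul_le_mul_of_nonneg_left hJ2s (mul_nonneg F2.hh.le (by positivity))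
    have hc1 := F1.hc
    have hc2 := F2.hc
    have hhh1 := F1.hh
    have hhh2 := F2.hh
    have hpp := Real.pi_pos
    have hsq1 : (F1.h * (1 / 2) ^ (2 * k + 1) * ((F1.c / Real.pi) ^ F1.s * T ^ (F1.s / F1.lam))) ^ 2 ≤
        F1.hgt (2 * k + 1) J ^ 2 := pow_le_pow_left₀ (by positivity) hh1 2
    have hsq2 : (F2.h * (1 / 2) ^ k * ((F2.c / Real.pi) ^ F2.s * T ^ (F2.s / F2.lam))) ^ 2 ≤
        F2.hgt k (I + 1) ^ 2 := pow_le_pow_left₀ (by positivity) hh2 2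
    have hthrT := hthr T hX2i
    refine lt_of_lt_of_le hthrT ?_
    have hexp : T ^ (2 * F1.s / F1.lam + 2 * F2.s / F2.lam + (1 - 1 / F1.lam)) =
        (T ^ (F1.s / F1.lam)) ^ 2 * (T ^ (F2.s / F2.lam)) ^ 2 * T ^ (1 - 1 / F1.lam) := by
      rw [Real.rpow_add hT0, Real.rpow_add hT0]
      congr 2
      · rw [← Real.rpow_natCast, ← Real.rpow_mul hT0.le]
        congr 1; push_cast; ring
      · rw [← Real.rpow_natCast, ← Real.rpow_mul hT0.le]
        congr 1; push_cast; ring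
    rw [hexp, hD]
    calc (F1.h * (1 / 2) ^ (2 * k + 1) * (F1.c / Real.pi) ^ F1.s) ^ 2 *
          (F2.h * (1 / 2) ^ k * (F2.c / Real.pi) ^ F2.s) ^ 2 / 64 * q *
          ((T ^ (F1.s / F1.lam)) ^ 2 * (T ^ (F2.s / F2.lam)) ^ 2 * T ^ (1 - 1 / F1.lam))
        = (F1.h * (1 / 2) ^ (2 * k + 1) * ((F1.c / Real.pi) ^ F1.s * T ^ (F1.s / F1.lam))) ^ 2 *
          (F2.h * (1 / 2) ^ k * ((F2.c / Real.pi) ^ F2.s * T ^ (F2.s / F2.lam))) ^ 2 / 64 *
          (q * T ^ (1 - 1 / F1.lam)) := by ring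
      _ ≤ F1.hgt (2 * k + 1) J ^ 2 * F2.hgt k (I + 1) ^ 2 / 64 * ∫ x in (F1.a i)..T, w x := by
          apply mul_le_mul _ hint (by positivity) (by positivity)
          apply div_le_div_of_nonneg_right _ (by norm_num)
          exact mul_le_mul hsq1 hsq2 (by positivity) (by positivity)

end FinAux

namespace FinAux

/-- coefficients -/
noncomputable def cf (m : ℕ) (α : ℕ → ℝ) (n : ℕ) : ℝ := α n * (n : ℝ) ^ kapQ m

lemma err_eq (m : ℕ) (α : ℕ → ℝ) (F : Sel) (h0 : F.m0 = 0)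
    (hF : ∀ n, 1 ≤ n → F.a n = ((α n * (n : ℝ) ^ kapQ m : ℝ) : ℂ)) (x : ℝ) :
    F.err x = ((EE (cf m α) x : ℝ) : ℂ) := by
  unfold Sel.err Sel.res
  rw [if_pos h0, sub_zero]
  unfold EE cf
  rw [Complex.ofReal_sum]
  apply Finset.sum_congr rfl
  intro n hn
  exact hF n (Finset.mem_Icc.mp hn).1

lemma hasMoment_of (hSM : TaskSM) (m : ℕ) (c : ℝ) (α : ℕ → ℝ) (hD : ∃ M : ℝ, DataSM m c M α) (F : Sel) (h0 : F.m0 = 0)
    (hF : ∀ n, 1 ≤ n → F.a n = ((α n * (n : ℝ) ^ kapQ m : ℝ) : ℂ)) (d : ℕ) (hd : d = 4 * m + 4) : HasMoment F d 2 := by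
  obtain ⟨M, hD⟩ := hD
  obtain ⟨C, δ, K, hC, hδ, H⟩ := hSM m c M α hD.hm hD.hc hD.h1 hD.hs hD.hM hD.hθ
  refine ⟨(C : ℂ), by exact_mod_cast hC.ne', δ, hδ, ?_⟩
  intro ε hε
  refine ⟨|K|, fun T hT => ?_⟩
  have hex : 1 + ((2 : ℕ) : ℝ) * ((d : ℝ) - 1) / (2 * d) = 2 - 1 / (4 * (m : ℝ) + 4) := by
    rw [hd]
    push_cast
    have : (4 * (m : ℝ) + 4) ≠ 0 := by positivity
    field_simp
    ring
  rw [hex]
  have h1 : (∫ x in (1:ℝ)..T, F.err x ^ 2) = ((∫ x in (1:ℝ)..T, EE (cf m α) x ^ 2 : ℝ) : ℂ) := by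
    rw [← intervalIntegral.integral_ofReal]
    congr 1
    funext x
    rw [err_eq m α F h0 hF x]
    push_cast
    rfl
  rw [h1, ← Complex.ofReal_mul, ← Complex.ofReal_sub, Complex.norm_real, Real.norm_eq_abs]
  refine (H T hT).trans ?_
  calc K * T ^ (2 - 1 / (4 * (m : ℝ) + 4) - δ) ≤ |K| * T ^ (2 - 1 / (4 * (m : ℝ) + 4) - δ) :=
        mul_le_mul_of_nonneg_right (le_abs_self K) (by positivity)
    _ ≤ |K| * T ^ (2 - 1 / (4 * (m : ℝ) + 4) - δ + ε) :=
        mul_le_mul_of_nonneg_left (Real.rpow_le_rpow_of_exponent_le hT (by linarith)) (abs_nonneg _)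

/-- flip the `j`-th coordinate -/
def flp (s : ℕ → Bool) (j : ℕ) : ℕ → Bool := Function.update s j (!(s j))

lemma flp_ne (s : ℕ → Bool) (j i : ℕ) (h : i ≠ j) : s i = flp s j i := by
  unfold flp
  rw [Function.update_of_ne h]

lemma flp_eq (s : ℕ → Bool) (j : ℕ) : s j ≠ flp s j j := by
  unfold flp
  rw [Function.update_self]
  cases s j <;> simp

lemma flp_tendsto (s : ℕ → Bool) (φ : ℕ → ℕ) (hφ : ∀ k, k ≤ φ k) :
    Filter.Tendsto (fun k => flp s (φ k)) Filter.atTop (nhds s) := by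
  rw [tendsto_pi_nhds]
  intro i
  apply tendsto_const_nhds.congr'
  filter_upwards [Filter.eventually_gt_atTop i] with k hk
  exact flp_ne s (φ k) i (by have := hφ k; omega)

end FinAux

open FinAux

theorem pf_TaskFin : TaskFin := by
  classical
  intro hOut hSM w P η hη hw0 hwi hP hC
  obtain ⟨m₀, hOut⟩ := hOut
  have hmin : 0 < min η 1 := lt_min hη one_pos
  obtain ⟨N, hN⟩ := exists_nat_gt (1 / min η 1)
  obtain ⟨m1, hm1def⟩ : ∃ m1 : ℕ, m1 = 2 * (m₀ + N + 3) := ⟨_, rfl⟩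
  have hm1a : m₀ ≤ m1 := by omega
  have hm1b : 6 ≤ m1 := by omega
  have hm1e : Even m1 := by rw [hm1def]; exact even_two_mul _
  have hm1N : N ≤ m1 := by omega
  obtain ⟨m2, hm2def⟩ : ∃ m2 : ℕ, m2 = m1 + 2 := ⟨_, rfl⟩
  have hm2e : Even m2 := by rw [hm2def]; exact hm1e.add even_two
  obtain ⟨c1, e1, h1, c1', J01, hc1, he1, he1', hh1, hc1', O1⟩ := hOut m1 hm1a hm1e
  obtain ⟨c2, e2, h2, c2', J02, hc2, he2, he2', hh2, hc2', O2⟩ := hOut m2 (by omega) hm2e
  have hm1R : (6 : ℝ) ≤ m1 := by exact_mod_cast hm1b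
  have hm2R : (m2 : ℝ) = m1 + 2 := by rw [hm2def]; push_cast; ring
  have hl1 : 1 ≤ lamQ m1 := by unfold lamQ; linarith
  have hl2 : 1 ≤ lamQ m2 := by unfold lamQ; linarith
  let F1 : Dat := ⟨lamQ m1, c1, e1, h1, (m1 : ℝ) + 1 + 1 / 16, hl1, hc1, he1, he1', hh1, by positivity⟩
  let F2 : Dat := ⟨lamQ m2, c2, e2, h2, (m2 : ℝ) + 1 + 1 / 16, hl2, hc2, he2, he2', hh2, by positivity⟩
  obtain ⟨d₁, hd₁⟩ : ∃ d₁ : ℕ, d₁ = 4 * m1 + 4 := ⟨_, rfl⟩
  obtain ⟨d₂, hd₂⟩ : ∃ d₂ : ℕ, d₂ = 4 * m2 + 4 := ⟨_, rfl⟩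
  obtain ⟨ε₀, hε₀⟩ : ∃ ε₀ : ℝ, ε₀ = (2 * (m1 : ℝ) - 4) / (32 * ((m1 : ℝ) + 1) * ((m1 : ℝ) + 3)) := ⟨_, rfl⟩
  have hε₀pos : 0 < ε₀ := by rw [hε₀]; apply div_pos (by linarith) (by positivity)
  obtain ⟨g0, hg0⟩ : ∃ g0 : ℝ, g0 = 1 + sigQ ![d₁, d₂] ![2, 2] + ε₀ := ⟨_, rfl⟩
  have hsig : sigQ ![d₁, d₂] ![2, 2] = 2 - 1 / (4 * (m1 : ℝ) + 4) - 1 / (4 * (m1 : ℝ) + 12) := by
    unfold sigQ
    rw [Fin.sum_univ_two]
    simp only [Matrix.cons_val_zero, Matrix.cons_val_one]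
    rw [hd₁, hd₂, hm2def]
    push_cast
    have hA : (4 * (m1 : ℝ) + 4) ≠ 0 := by positivity
    have hB : (4 * (m1 : ℝ) + 12) ≠ 0 := by positivity
    have hB' : (4 * ((m1 : ℝ) + 2) + 4) = 4 * (m1 : ℝ) + 12 := by ring
    rw [hB']
    field_simp
    ring
  have hg : g0 < 2 * F1.s / F1.lam + 2 * F2.s / F2.lam + (1 - 1 / F1.lam) := by
    show g0 < 2 * ((m1 : ℝ) + 1 + 1 / 16) / lamQ m1 + 2 * ((m2 : ℝ) + 1 + 1 / 16) / lamQ m2 + (1 - 1 / lamQ m1)
    have key : 2 * ((m1 : ℝ) + 1 + 1 / 16) / lamQ m1 + 2 * ((m2 : ℝ) + 1 + 1 / 16) / lamQ m2 + (1 - 1 / lamQ m1) -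
        (1 + (2 - 1 / (4 * (m1 : ℝ) + 4) - 1 / (4 * (m1 : ℝ) + 12))) = 2 * ε₀ := by
      rw [hε₀, hm2R]
      unfold lamQ
      rw [hm2R]
      have hA : ((m1 : ℝ) + 1) ≠ 0 := by positivity
      have hB : ((m1 : ℝ) + 3) ≠ 0 := by positivity
      have e3 : (2 * ((m1 : ℝ) + 2) + 2) = 2 * ((m1 : ℝ) + 3) := by ring
      have e4 : (2 * (m1 : ℝ) + 2) = 2 * ((m1 : ℝ) + 1) := by ring
      have e5 : (4 * (m1 : ℝ) + 4) = 4 * ((m1 : ℝ) + 1) := by ring
      have e6 : (4 * (m1 : ℝ) + 12) = 4 * ((m1 : ℝ) + 3) := by ring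
      rw [e3, e4, e5, e6]
      field_simp
      ring
    rw [hg0, hsig]
    linarith
  have h12 : F1.lam < F2.lam := by
    show lamQ m1 < lamQ m2
    unfold lamQ; rw [hm2R]; linarith
  have hlamη : 1 / F1.lam < min η 1 := by
    show 1 / lamQ m1 < min η 1
    rw [div_lt_iff₀ (by linarith)]
    rw [div_lt_iff₀ hmin] at hN
    have : (N : ℝ) ≤ lamQ m1 := by
      unfold lamQ
      have : (N : ℝ) ≤ m1 := by exact_mod_cast hm1N
      linarith
    nlinarith
  have hscale := fun k => choose_scale w P η hη hw0 hwi hP hC F1 F2 h12 hlamη g0 hg J01 J02 k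
  choose J2 J' J'' s1 s2 s3 s4 s5 s6 s7 s8 s9 s10 s11 s12 s13 using hscale
  -- the sequence for function 1
  let S1 : ℕ → ℕ := fun n => if Even n then J' (n / 2) else J'' (n / 2)
  have hS1 : ∀ n, J01 ≤ S1 n := by
    intro n
    show J01 ≤ if Even n then J' (n / 2) else J'' (n / 2)
    split_ifs
    · exact s2 _
    · exact s3 _
  obtain ⟨α, hα⟩ := O1 S1 hS1
  obtain ⟨β, hβ⟩ := O2 J2 s1
  -- Baire
  let V : ℕ → Set ((ℕ → Bool) × (ℕ → Bool)) := fun n =>
    {p | ∀ T : ℝ, 1 ≤ T → ∫ x in (1:ℝ)..T, igd w (cf m1 (α p.1)) (cf m2 (β p.2)) x ≤ n * T ^ g0}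
  have hVclosed : ∀ n, IsClosed (V n) := by
    intro n
    have : V n = ⋂ (T : ℝ) (_ : 1 ≤ T), {p | ∫ x in (1:ℝ)..T, igd w (cf m1 (α p.1)) (cf m2 (β p.2)) x ≤ n * T ^ g0} := by
      ext p
      simp [V]
    rw [this]
    apply isClosed_iInter
    intro T
    apply isClosed_iInter
    intro hT
    apply isClosed_le _ continuous_const
    exact igd_cont w hw0 hwi (fun s => cf m1 (α s)) (fun s => cf m2 (β s))
      (fun n => (hα.cont n).mul continuous_const) (fun n => (hβ.cont n).mul continuous_const) T hT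
  have hnot : ∃ p : (ℕ → Bool) × (ℕ → Bool), ∀ n : ℕ, p ∉ V n := by
    by_contra hcon
    push Not at hcon
    have hU : (⋃ n, V n) = Set.univ := by
      ext p
      simp only [Set.mem_iUnion, Set.mem_univ, iff_true]
      exact hcon p
    obtain ⟨n, ⟨⟨s, t⟩, hst⟩⟩ := nonempty_interior_of_iUnion_of_closed hVclosed hU
    have hnhds : interior (V n) ∈ nhds (s, t) := isOpen_interior.mem_nhds hst
    have hs0 : Filter.Tendsto (fun _ : ℕ => s) Filter.atTop (nhds s) := tendsto_const_nhds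
    have ht0 : Filter.Tendsto (fun _ : ℕ => t) Filter.atTop (nhds t) := tendsto_const_nhds
    have hs1' := flp_tendsto s (fun k => 2 * k) (fun k => by show k ≤ 2 * k; omega)
    have hs2' := flp_tendsto s (fun k => 2 * k + 1) (fun k => by show k ≤ 2 * k + 1; omega)
    have ht1' := flp_tendsto t (fun k => k) (fun k => le_refl _)
    have E1 := (hs1'.prodMk_nhds ht0).eventually_mem hnhds
    have E2 := (hs1'.prodMk_nhds ht1').eventually_mem hnhds
    have E3 := (hs2'.prodMk_nhds ht0).eventually_mem hnhds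
    have E4 := (hs2'.prodMk_nhds ht1').eventually_mem hnhds
    have E5 := (hs0.prodMk_nhds ht1').eventually_mem hnhds
    obtain ⟨k, m1', m2', m3', m4', m5', hkn⟩ :=
      (E1.and (E2.and (E3.and (E4.and (E5.and (Filter.eventually_ge_atTop n)))))).exists
    have M0 := interior_subset hst
    have M1 := interior_subset m1'
    have M2 := interior_subset m2'
    have M3 := interior_subset m3'
    have M4 := interior_subset m4'
    have M5 := interior_subset m5'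
    -- the core argument
    have core : ∀ (K1 J : ℕ), (J = J' k ∨ J = J'' k) → S1 K1 = J → K1 ≤ 2 * k + 1 →
        (flp s K1, t) ∈ V n → (flp s K1, flp t k) ∈ V n → 2 ≤ J → 1 ≤ F1.a (J - 1) →
        (∀ x, F1.a (J - 1) ≤ x → x ≤ F1.b J → F2.hgt k (J2 k) / 2 ≤
          |EE (cf m2 (β t)) x - EE (cf m2 (β (flp t k))) x|) → False := by
      intro K1 J hJ hSJ hK1 N1 N2 hJ2 haJ hbig
      have hjump := hα.jump s (flp s K1) K1 (fun i hi => flp_ne s K1 i hi) (flp_eq s K1)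
      rw [hSJ] at hjump
      have hJsub : J - 1 + 1 = J := Nat.sub_add_cancel (by omega)
      have hD : ∀ a ∈ Set.Icc (F1.a (J - 1)) (F1.b (J - 1)), ∀ b ∈ Set.Icc (F1.a J) (F1.b J),
          F1.hgt (2 * k + 1) J ≤ |(fun x => EE (cf m1 (α s)) x - EE (cf m1 (α (flp s K1))) x) b -
            (fun x => EE (cf m1 (α s)) x - EE (cf m1 (α (flp s K1))) x) a| := by
        intro a ha b hb
        have hb1 : F1.b (J - 1) = ((xx J - e1) / c1) ^ lamQ m1 := by
          show ((xx (J - 1 + 1) - e1) / c1) ^ lamQ m1 = _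
          rw [hJsub]
        have h3 := hjump a b ha.1 (by rw [← hb1]; exact ha.2) hb.1 hb.2
        refine le_trans ?_ h3
        show h1 * (1 / 2) ^ (2 * k + 1) * (J : ℝ) ^ ((m1 : ℝ) + 1 + 1 / 16) ≤ _
        apply mul_le_mul_of_nonneg_right _ (by positivity)
        apply mul_le_mul_of_nonneg_left _ hh1.le
        exact pow_le_pow_of_le_one (by norm_num) (by norm_num) hK1
      have hab1 : F1.b (J - 1) ≤ F1.a J := by
        have := F1.ba (J - 1)
        rwa [hJsub] at this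
      have hab0 : F1.a (J - 1) ≤ F1.b (J - 1) := F1.ab (J - 1) (by omega)
      have hab2 : F1.a J ≤ F1.b J := F1.ab J (by omega)
      have fin : ∀ i : ℕ, (i = J - 1 ∨ i = J) → F1.a (J - 1) ≤ F1.a i → F1.a i ≤ F1.b i → F1.b i ≤ F1.b J →
          (∀ x ∈ Set.Icc (F1.a i) (F1.b i), F1.hgt (2 * k + 1) J / 2 ≤
            |(fun x => EE (cf m1 (α s)) x - EE (cf m1 (α (flp s K1))) x) x|) → False := by
        intro i hi hi1 hi2 hi3 hbig1
        have ha1 : 1 ≤ F1.a i := haJ.trans hi1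
        have hb1 : 1 ≤ F1.b i := ha1.trans hi2
        have hh1' : 0 ≤ F1.hgt (2 * k + 1) J := by
          unfold Dat.hgt
          have := F1.hh
          positivity
        have hh2' : 0 ≤ F2.hgt k (J2 k) := by
          unfold Dat.hgt
          have := F2.hh
          positivity
        have h4 := four w hw0 hwi (cf m1 (α s)) (cf m1 (α (flp s K1))) (cf m2 (β t)) (cf m2 (β (flp t k)))
          (F1.hgt (2 * k + 1) J) (F2.hgt k (J2 k)) (F1.a i) (F1.b i) hh1' hh2' ha1 hi2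
          (fun x hx1 hx2 => hbig1 x ⟨hx1, hx2⟩)
          (fun x hx1 hx2 => hbig x (hi1.trans hx1) (hx2.trans hi3))
        have h5 := s13 k J hJ i hi
        have v1 := M0 (F1.b i) hb1
        have v2 := N1 (F1.b i) hb1
        have v3 := M5 (F1.b i) hb1
        have v4 := N2 (F1.b i) hb1
        simp only at v1 v2 v3 v4
        have h6 : (n : ℝ) * F1.b i ^ g0 ≤ k * F1.b i ^ g0 := by
          apply mul_le_mul_of_nonneg_right _ (by positivity)
          exact_mod_cast hkn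
        linarith
      rcases dich (fun x => EE (cf m1 (α s)) x - EE (cf m1 (α (flp s K1))) x) (F1.hgt (2 * k + 1) J)
        (Set.Icc (F1.a (J - 1)) (F1.b (J - 1))) (Set.Icc (F1.a J) (F1.b J)) hD with hL | hR
      · exact fin (J - 1) (Or.inl rfl) le_rfl hab0 (hab1.trans hab2) hL
      · exact fin J (Or.inr rfl) (hab0.trans hab1) hab2 le_rfl hR
    -- function 2
    have hjump2 := hβ.jump t (flp t k) k (fun i hi => flp_ne t k i hi) (flp_eq t k)
    have hJsub2 : J2 k - 1 + 1 = J2 k := Nat.sub_add_cancel (s4 k)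
    have hD2 : ∀ a ∈ Set.Icc (F2.a (J2 k - 1)) (F2.b (J2 k - 1)), ∀ b ∈ Set.Icc (F2.a (J2 k)) (F2.b (J2 k)),
        F2.hgt k (J2 k) ≤ |(fun x => EE (cf m2 (β t)) x - EE (cf m2 (β (flp t k))) x) b -
          (fun x => EE (cf m2 (β t)) x - EE (cf m2 (β (flp t k))) x) a| := by
      intro a ha b hb
      have hb1 : F2.b (J2 k - 1) = ((xx (J2 k) - e2) / c2) ^ lamQ m2 := by
        show ((xx (J2 k - 1 + 1) - e2) / c2) ^ lamQ m2 = _
        rw [hJsub2]
      exact hjump2 a b ha.1 (by rw [← hb1]; exact ha.2) hb.1 hb.2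
    rcases dich (fun x => EE (cf m2 (β t)) x - EE (cf m2 (β (flp t k))) x) (F2.hgt k (J2 k))
      (Set.Icc (F2.a (J2 k - 1)) (F2.b (J2 k - 1))) (Set.Icc (F2.a (J2 k)) (F2.b (J2 k))) hD2 with hL | hR
    · refine core (2 * k) (J' k) (Or.inl rfl) ?_ (by omega) M1 M2 (s5 k) (s11 k) ?_
      · show (if Even (2 * k) then J' (2 * k / 2) else J'' (2 * k / 2)) = J' k
        rw [if_pos (even_two_mul k), Nat.mul_div_cancel_left k (by norm_num)]
      · intro x hx1 hx2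
        exact hL x ⟨(s7 k).trans hx1, hx2.trans (s8 k)⟩
    · refine core (2 * k + 1) (J'' k) (Or.inr rfl) ?_ le_rfl M3 M4 (s6 k) (s12 k) ?_
      · show (if Even (2 * k + 1) then J' ((2 * k + 1) / 2) else J'' ((2 * k + 1) / 2)) = J'' k
        rw [if_neg (by simp)]
        congr 1
        omega
      · intro x hx1 hx2
        exact hR x ⟨(s9 k).trans hx1, hx2.trans (s10 k)⟩
  -- conclusion
  obtain ⟨⟨s, t⟩, hp⟩ := hnot
  obtain ⟨G1, hG1m, hG1d, hG1a⟩ := hα.sel s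
  obtain ⟨G2, hG2m, hG2d, hG2a⟩ := hβ.sel t
  refine ⟨G1, G2, d₁, d₂, ε₀, by omega, by omega, ?_, ?_, hG1m, hG2m, hε₀pos, ?_, ?_, ?_⟩
  · rw [hG1d, hd₁]; push_cast; ring
  · rw [hG2d, hd₂]; push_cast; ring
  · exact hasMoment_of hSM m1 c1' (α s) (hα.data s) G1 hG1m hG1a d₁ hd₁
  · exact hasMoment_of hSM m2 c2' (β t) (hβ.data t) G2 hG2m hG2a d₂ hd₂
  · intro K
    obtain ⟨n, hn⟩ := exists_nat_ge K
    have h3 := hp n
    simp only [V, Set.mem_ofPred_eq] at h3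
    push Not at h3
    obtain ⟨T, hT, hlt⟩ := h3
    refine ⟨T, hT, ?_⟩
    rw [← hg0]
    have h4 : (∫ x in (1:ℝ)..T, G1.err x ^ 2 * G2.err x ^ 2 * (w x : ℂ)) =
        ((∫ x in (1:ℝ)..T, igd w (cf m1 (α s)) (cf m2 (β t)) x : ℝ) : ℂ) := by
      rw [← intervalIntegral.integral_ofReal]
      congr 1
      funext x
      rw [err_eq m1 (α s) G1 hG1m hG1a x, err_eq m2 (β t) G2 hG2m hG2a x]
      unfold igd
      push_cast
      rfl
    rw [h4, Complex.norm_real, Real.norm_eq_abs]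
    have h5 : K * T ^ g0 ≤ n * T ^ g0 := mul_le_mul_of_nonneg_right hn (by positivity)
    exact lt_of_lt_of_le (lt_of_le_of_lt h5 hlt) (le_abs_self _)

end Pool.Agent.H472.Q2
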