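import Mathlib
import Pool.Agent.H472.Q2.Tasks
import Pool.Graph.R_seed8.H853R3.Task469H

set_option autoImplicit false

open Finset MeasureTheory

namespace Pool.Agent.H472.Q2

open Pool.Agent.H469R10.HO Pool.Agent.H13R3.EM

namespace TaskHQ_aux

/-- the node index of a prime is unique -/
lemma idx_unique (m : ℕ) (c : ℝ) (B : ℕ → Finset ℕ)
    (hB : ∀ j, ∀ p ∈ B j, 1 ≤ j ∧ p.Prime ∧ |uu c (lamQ m) p - xx j| ≤ 1 / 2)
    {j k p : ℕ} (hj : p ∈ B j) (hk : p ∈ B k) : j = k := by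
  have h1 := (hB j p hj).2.2
  have h2 := (hB k p hk).2.2
  rw [abs_le] at h1 h2
  have hpi := Real.pi_gt_three
  unfold xx at h1 h2
  by_contra hne
  rcases Nat.lt_or_gt_of_ne hne with h | h
  · have h3 : (j : ℝ) + 1 ≤ k := by exact_mod_cast h
    nlinarith
  · have h3 : (k : ℝ) + 1 ≤ j := by exact_mod_cast h
    nlinarith

lemma uu_prod (c lam : ℝ) (hc : 0 < c) (n : ℕ) (hn : Squarefree n) :
    uu c lam n / c = ∏ p ∈ n.primeFactors, (uu c lam p / c) := by
  have h1 : ∀ k : ℕ, uu c lam k / c = (k : ℝ) ^ (1 / lam) := by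
    intro k
    unfold uu
    field_simp
  rw [h1]
  simp_rw [h1]
  rw [Real.finsetProd_rpow _ _ (fun i _ => Nat.cast_nonneg i)]
  congr 1
  rw [← Nat.cast_prod, Nat.prod_primeFactors_of_squarefree hn]

end TaskHQ_aux

open TaskHQ_aux

theorem pf_TaskHQ : TaskHQ := by
  classical
  intro m η hm hη
  have hlam : (8 : ℝ) ≤ lamQ m := by
    unfold lamQ
    have : (3 : ℝ) ≤ m := by exact_mod_cast hm
    linarith
  obtain ⟨C, c₀, hC, hc₀, H⟩ := Pool.Agent.H853R3.NL.taskH (lamQ m) η hlam hη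
  set θ : ℝ := (m : ℝ) - 5 / 8 with hθdef
  have hm3 : (3 : ℝ) ≤ m := by exact_mod_cast hm
  have hθ : 0 < θ := by rw [hθdef]; linarith
  have hpi3 := Real.pi_gt_three
  have hpi4 : Real.pi < 3.15 := Real.pi_lt_d2
  refine ⟨4 ^ m * (C * (4 ^ m) ^ 2), min c₀ (1 / 2), by positivity, by positivity, ?_⟩
  intro c hc hcc B hB hBc b β hb hβ hβ0 E hE1 hE S hS Y
  have hc1 : c ≤ c₀ := hcc.trans (min_le_left _ _)
  have hc2 : c ≤ 1 / 2 := hcc.trans (min_le_right _ _)
  -- twisted data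
  set tw : ℕ → ℝ := fun j => (Real.pi / 2 * (1 + j) / c) ^ θ with htw
  have htwpos : ∀ j, 0 < tw j := fun j => by rw [htw]; positivity
  set b' : ℕ → ℝ := fun j => b j * tw j with hb'
  set β' : ℕ → ℝ := fun p => if h : ∃ j, p ∈ B j then b' h.choose / (B h.choose).card else 0 with hβ'
  have hβ'in : ∀ j, ∀ p ∈ B j, β' p = b' j / (B j).card := by
    intro j p hp
    have hex : ∃ j, p ∈ B j := ⟨j, hp⟩
    have hj : hex.choose = j := idx_unique m c B hB hex.choose_spec hp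
    simp only [hβ']
    rw [dif_pos hex, hj]
  have hβ'0 : ∀ p, (∀ j, p ∉ B j) → β' p = 0 := by
    intro p hp
    simp only [hβ']
    rw [dif_neg (by push Not; exact hp)]
  have hWS : ∀ y, WS m c y = WW c y * (((1 + y : ℝ) / c) ^ θ) ^ 2 := by
    intro y
    unfold WS
    rw [← Real.rpow_natCast, ← Real.rpow_mul (by positivity)]
    congr 2
    rw [hθdef]; push_cast; ring
  have hWW0 : ∀ y, 0 ≤ WW c y := by
    intro y; unfold WW
    have : 0 ≤ (Real.log ((1 + (y : ℝ)) / c)) ^ 4 := by positivity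
    positivity
  have hpiθ : (Real.pi / 2) ^ (2 * θ) ≤ 4 ^ m := by
    have h1 : (Real.pi / 2) ^ (2 * θ) ≤ (2 : ℝ) ^ (2 * θ) :=
      Real.rpow_le_rpow (by positivity) (by linarith) (by positivity)
    have h2 : (2 : ℝ) ^ (2 * θ) ≤ (2 : ℝ) ^ ((2 * m : ℕ) : ℝ) :=
      Real.rpow_le_rpow_of_exponent_le (by norm_num) (by push_cast; rw [hθdef]; linarith)
    rw [Real.rpow_natCast, pow_mul] at h2
    norm_num at h2
    linarith
  have hbb : ∀ j, WW c j * b' j ^ 2 ≤ 4 ^ m * (WS m c j * b j ^ 2) := by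
    intro j
    rw [hWS j]
    have h1 : tw j ^ 2 = (Real.pi / 2) ^ (2 * θ) * (((1 + j : ℝ) / c) ^ θ) ^ 2 := by
      simp only [htw]
      rw [show Real.pi / 2 * (1 + (j : ℝ)) / c = (Real.pi / 2) * ((1 + j) / c) by ring]
      rw [Real.mul_rpow (by positivity) (by positivity), mul_pow]
      congr 1
      rw [← Real.rpow_natCast, ← Real.rpow_mul (by positivity)]
      congr 1
      push_cast; ring
    simp only [hb']
    rw [mul_pow, h1]
    have h2 : 0 ≤ WW c j * b j ^ 2 * (((1 + j : ℝ) / c) ^ θ) ^ 2 :=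
      mul_nonneg (mul_nonneg (hWW0 j) (sq_nonneg _)) (sq_nonneg _)
    nlinarith [mul_le_mul_of_nonneg_right hpiθ h2]
  have hE' : ∀ J, ∑ j ∈ range J, WW c j * b' j ^ 2 ≤ 4 ^ m * E := by
    intro J
    calc ∑ j ∈ range J, WW c j * b' j ^ 2 ≤ ∑ j ∈ range J, 4 ^ m * (WS m c j * b j ^ 2) :=
          Finset.sum_le_sum fun j _ => hbb j
      _ = 4 ^ m * ∑ j ∈ range J, WS m c j * b j ^ 2 := by rw [Finset.mul_sum]
      _ ≤ 4 ^ m * E := mul_le_mul_of_nonneg_left (hE J) (by positivity)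
  have hb'0 : ∀ j, 0 ≤ b' j := fun j => mul_nonneg (hb j) (htwpos j).le
  have hmain := H c hc hc1 B hB hBc b' β' hb'0 hβ'in hβ'0 (4 ^ m * E) hE1 hE' S hS Y
  -- nonnegativity
  have hβnn : ∀ p, 0 ≤ β p := by
    intro p
    by_cases h : ∃ j, p ∈ B j
    · obtain ⟨j, hj⟩ := h
      rw [hβ j p hj]
      exact div_nonneg (hb j) (Nat.cast_nonneg _)
    · push Not at h
      rw [hβ0 p h]
  have hβ'nn : ∀ p, 0 ≤ β' p := by
    intro p
    by_cases h : ∃ j, p ∈ B j
    · obtain ⟨j, hj⟩ := h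
      rw [hβ'in j p hj]
      exact div_nonneg (hb'0 j) (Nat.cast_nonneg _)
    · push Not at h
      rw [hβ'0 p h]
  -- the key comparison
  have hkey : ∀ n ∈ S, ∀ y, cell (uu c (lamQ m) n) = y →
      (((1 + y : ℝ) / c) ^ θ) * ∏ p ∈ n.primeFactors, β p ≤ 2 ^ θ * ∏ p ∈ n.primeFactors, β' p := by
    intro n hn y hy
    obtain ⟨hsq, hcard⟩ := hS n hn
    by_cases hall : ∀ p ∈ n.primeFactors, ∃ j, p ∈ B j
    · -- all primes are in blocks
      have hp1 : ∀ p ∈ n.primeFactors, 1 ≤ uu c (lamQ m) p ∧ β' p ≥ β p * (uu c (lamQ m) p / c) ^ θ := by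
        intro p hp
        obtain ⟨j, hj⟩ := hall p hp
        obtain ⟨hj1, hpp, hclose⟩ := hB j p hj
        rw [abs_le] at hclose
        have hj1' : (1 : ℝ) ≤ j := by exact_mod_cast hj1
        unfold xx at hclose
        have hlo : 1 ≤ uu c (lamQ m) p := by nlinarith
        refine ⟨hlo, ?_⟩
        rw [hβ'in j p hj, hβ j p hj]
        simp only [hb', htw]
        have hup : uu c (lamQ m) p / c ≤ Real.pi / 2 * (1 + j) / c := by
          apply div_le_div_of_nonneg_right _ hc.le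
          nlinarith
        have h3 : (uu c (lamQ m) p / c) ^ θ ≤ (Real.pi / 2 * (1 + (j : ℝ)) / c) ^ θ :=
          Real.rpow_le_rpow (by positivity) hup hθ.le
        have h4 : 0 ≤ b j / (B j).card := div_nonneg (hb j) (Nat.cast_nonneg _)
        calc b j / (B j).card * (uu c (lamQ m) p / c) ^ θ
            ≤ b j / (B j).card * (Real.pi / 2 * (1 + (j : ℝ)) / c) ^ θ :=
              mul_le_mul_of_nonneg_left h3 h4
          _ = _ := by ring
      have hun : uu c (lamQ m) n / c = ∏ p ∈ n.primeFactors, (uu c (lamQ m) p / c) := uu_prod c _ hc n hsq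
      have hprod1 : (∏ p ∈ n.primeFactors, β p) * (uu c (lamQ m) n / c) ^ θ ≤ ∏ p ∈ n.primeFactors, β' p := by
        rw [hun, ← Real.finsetProd_rpow _ _ (fun p hp => div_nonneg (by linarith [(hp1 p hp).1]) hc.le),
          ← Finset.prod_mul_distrib]
        apply Finset.prod_le_prod
        · intro p hp
          exact mul_nonneg (hβnn p) (Real.rpow_nonneg (div_nonneg (by linarith [(hp1 p hp).1]) hc.le) _)
        · intro p hp
          exact (hp1 p hp).2
      -- u_n ≥ 2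
      have hun2 : 2 ≤ uu c (lamQ m) n := by
        have h5 : ∀ p ∈ n.primeFactors, (1 : ℝ) / c ≤ uu c (lamQ m) p / c := fun p hp =>
          div_le_div_of_nonneg_right (hp1 p hp).1 hc.le
        have h6 : (1 / c) ^ n.primeFactors.card ≤ uu c (lamQ m) n / c := by
          rw [hun, ← Finset.prod_const]
          exact Finset.prod_le_prod (fun p _ => by positivity) h5
        have h7 : (2 : ℝ) ≤ 1 / c := by
          rw [le_div_iff₀ hc]; linarith
        have h8 : (1 / c) ^ 2 ≤ (1 / c) ^ n.primeFactors.card :=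
          pow_le_pow_right₀ (by linarith) hcard
        have h9 : (1 / c) ^ 2 ≤ uu c (lamQ m) n / c := h8.trans h6
        rw [le_div_iff₀ hc] at h9
        have h10 : (1 / c) ^ 2 * c = 1 / c := by field_simp
        rw [h10] at h9
        linarith
      have hcell : 1 + (y : ℝ) ≤ 2 * uu c (lamQ m) n := by
        have h11 : (y : ℝ) ≤ 2 / Real.pi * uu c (lamQ m) n + 1 / 2 := by
          rw [← hy]
          unfold cell
          exact Nat.floor_le (by positivity)
        have h12 : 2 / Real.pi ≤ 2 / 3 := by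
          apply div_le_div_of_nonneg_left (by norm_num) (by norm_num) hpi3.le
        nlinarith
      have h13 : ((1 + (y : ℝ)) / c) ^ θ ≤ 2 ^ θ * (uu c (lamQ m) n / c) ^ θ := by
        rw [← Real.mul_rpow (by norm_num) (by positivity)]
        apply Real.rpow_le_rpow (by positivity) _ hθ.le
        rw [← mul_div_assoc]
        exact div_le_div_of_nonneg_right hcell hc.le
      have hpnn : 0 ≤ ∏ p ∈ n.primeFactors, β p := Finset.prod_nonneg fun p _ => hβnn p
      calc ((1 + (y : ℝ)) / c) ^ θ * ∏ p ∈ n.primeFactors, β p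
          ≤ (2 ^ θ * (uu c (lamQ m) n / c) ^ θ) * ∏ p ∈ n.primeFactors, β p :=
            mul_le_mul_of_nonneg_right h13 hpnn
        _ = 2 ^ θ * ((∏ p ∈ n.primeFactors, β p) * (uu c (lamQ m) n / c) ^ θ) := by ring
        _ ≤ 2 ^ θ * ∏ p ∈ n.primeFactors, β' p :=
            mul_le_mul_of_nonneg_left hprod1 (by positivity)
    · push Not at hall
      obtain ⟨p, hp, hpj⟩ := hall
      rw [Finset.prod_eq_zero hp (hβ0 p hpj), mul_zero]
      exact mul_nonneg (by positivity) (Finset.prod_nonneg fun p _ => hβ'nn p)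
  -- conclusion
  have h2θ : ((2 : ℝ) ^ θ) ^ 2 ≤ 4 ^ m := by
    rw [← Real.rpow_natCast, ← Real.rpow_mul (by norm_num)]
    have h2 : (2 : ℝ) ^ (θ * ((2 : ℕ) : ℝ)) ≤ (2 : ℝ) ^ ((2 * m : ℕ) : ℝ) :=
      Real.rpow_le_rpow_of_exponent_le (by norm_num) (by push_cast; rw [hθdef]; linarith)
    rw [Real.rpow_natCast (2 : ℝ) (2 * m), pow_mul] at h2
    norm_num at h2
    norm_num
    linarith
  have hterm : ∀ y ∈ range Y, WS m c y * (∑ n ∈ S.filter (fun n => cell (uu c (lamQ m) n) = y),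
      ∏ p ∈ n.primeFactors, β p) ^ 2 ≤ 4 ^ m * (WW c y * (∑ n ∈ S.filter (fun n => cell (uu c (lamQ m) n) = y),
      ∏ p ∈ n.primeFactors, β' p) ^ 2) := by
    intro y _
    rw [hWS y]
    set s1 := ∑ n ∈ S.filter (fun n => cell (uu c (lamQ m) n) = y), ∏ p ∈ n.primeFactors, β p with hs1
    set s2 := ∑ n ∈ S.filter (fun n => cell (uu c (lamQ m) n) = y), ∏ p ∈ n.primeFactors, β' p with hs2
    have hs1nn : 0 ≤ s1 := Finset.sum_nonneg fun n _ => Finset.prod_nonneg fun p _ => hβnn p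
    have hle : ((1 + (y : ℝ)) / c) ^ θ * s1 ≤ 2 ^ θ * s2 := by
      rw [hs1, hs2, Finset.mul_sum, Finset.mul_sum]
      apply Finset.sum_le_sum
      intro n hn
      rw [Finset.mem_filter] at hn
      exact hkey n hn.1 y hn.2
    have hsq : (((1 + (y : ℝ)) / c) ^ θ * s1) ^ 2 ≤ (2 ^ θ * s2) ^ 2 :=
      pow_le_pow_left₀ (mul_nonneg (by positivity) hs1nn) hle 2
    calc WW c y * (((1 + (y : ℝ)) / c) ^ θ) ^ 2 * s1 ^ 2
        = WW c y * (((1 + (y : ℝ)) / c) ^ θ * s1) ^ 2 := by ring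
      _ ≤ WW c y * (2 ^ θ * s2) ^ 2 := mul_le_mul_of_nonneg_left hsq (hWW0 y)
      _ = (2 ^ θ) ^ 2 * (WW c y * s2 ^ 2) := by ring
      _ ≤ 4 ^ m * (WW c y * s2 ^ 2) :=
          mul_le_mul_of_nonneg_right h2θ (mul_nonneg (hWW0 y) (sq_nonneg _))
  calc ∑ y ∈ range Y, WS m c y * (∑ n ∈ S.filter (fun n => cell (uu c (lamQ m) n) = y),
      ∏ p ∈ n.primeFactors, β p) ^ 2
      ≤ ∑ y ∈ range Y, 4 ^ m * (WW c y * (∑ n ∈ S.filter (fun n => cell (uu c (lamQ m) n) = y),
      ∏ p ∈ n.primeFactors, β' p) ^ 2) := Finset.sum_le_sum hterm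
    _ = 4 ^ m * ∑ y ∈ range Y, (WW c y * (∑ n ∈ S.filter (fun n => cell (uu c (lamQ m) n) = y),
      ∏ p ∈ n.primeFactors, β' p) ^ 2) := by rw [Finset.mul_sum]
    _ ≤ 4 ^ m * (C * (4 ^ m * E) ^ 2) := mul_le_mul_of_nonneg_left hmain (by positivity)
    _ = 4 ^ m * (C * (4 ^ m) ^ 2) * E ^ 2 := by ring

end Pool.Agent.H472.Q2
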