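import Mathlib
import Pool.Agent.H472.Q2.Tasks
import Pool.Agent.H287.Terms

set_option autoImplicit false

open Finset MeasureTheory Filter Topology

namespace Pool.Agent.H472.Q2

open Pool.Agent.H469R10.HO Pool.Agent.H13R3.EM

namespace MQ

open Pool.Agent.H99R3.M469 Pool.Agent.H287.XM

section core

variable {S : Finset ℕ} {cl : ℕ → ℕ} {β ω φ : ℕ → ℝ}

lemma tr_inv_contOn {a b : ℝ} (ha : 0 < a) (hab : a ≤ b) :
    ContinuousOn (fun x : ℝ => tr S β ω φ x⁻¹ ^ 2) (Set.uIcc a b) := by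
  apply ContinuousOn.pow
  apply (tr_cont S β ω φ).comp_continuousOn
  apply continuousOn_id.inv₀
  intro x hx
  rw [Set.uIcc_of_le hab] at hx
  exact (lt_of_lt_of_le ha hx.1).ne'

lemma tr_inv_int {a b : ℝ} (ha : 0 < a) (hab : a ≤ b) :
    IntervalIntegrable (fun x : ℝ => tr S β ω φ x⁻¹ ^ 2) volume a b :=
  (tr_inv_contOn ha hab).intervalIntegrable

lemma tr_inv_int0 {b : ℝ} (hb : 0 ≤ b) :
    IntervalIntegrable (fun x : ℝ => tr S β ω φ x⁻¹ ^ 2) volume 0 b := by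
  apply int_of_bdd (M := (∑ i ∈ S, |β i|) ^ 2) hb
  · apply ContinuousOn.pow
    apply (tr_cont S β ω φ).comp_continuousOn
    apply continuousOn_id.inv₀
    intro x hx
    exact hx.1.ne'
  · intro x _
    rw [abs_pow]
    exact pow_le_pow_left₀ (abs_nonneg _) (tr_bd S β ω φ _) 2

lemma seg0 (hω : ∀ i ∈ S, |ω i - xx (cl i)| ≤ 1) {A : ℝ} (hA : 0 < A) :
    ∫ x in (A + 2)⁻¹..A⁻¹, tr S β ω φ x⁻¹ ^ 2 ≤ (A⁻¹) ^ 2 * (60 * QQ (fun _ => 1) S cl β) := by
  set G : ℝ → ℝ := fun x => tr S β ω φ x⁻¹ ^ 2 with hG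
  have hB : 0 < A + 2 := by linarith
  have hle : (A + 2)⁻¹ ≤ A⁻¹ := inv_anti₀ hA (by linarith)
  have hpos : ∀ y ∈ Set.uIcc A (A + 2), 0 < y := by
    intro y hy
    rw [Set.uIcc_of_le (by linarith)] at hy
    exact lt_of_lt_of_le hA hy.1
  have himg : (fun y : ℝ => y⁻¹) '' Set.uIcc A (A + 2) ⊆ Set.uIcc (A + 2)⁻¹ A⁻¹ := by
    rintro _ ⟨y, hy, rfl⟩
    have h0 := hpos y hy
    rw [Set.uIcc_of_le (by linarith)] at hy
    rw [Set.uIcc_of_le hle]
    exact ⟨inv_anti₀ h0 hy.2, inv_anti₀ hA hy.1⟩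
  have h1 : ∫ y in A..(A + 2), (G ∘ fun y : ℝ => y⁻¹) y * (-(y ^ 2)⁻¹) = ∫ x in A⁻¹..(A + 2)⁻¹, G x := by
    apply intervalIntegral.integral_comp_mul_deriv' (f := fun y : ℝ => y⁻¹)
    · intro y hy
      exact hasDerivAt_inv (hpos y hy).ne'
    · apply ContinuousOn.neg
      apply ContinuousOn.inv₀ (by fun_prop)
      intro y hy
      exact (pow_pos (hpos y hy) 2).ne'
    · exact (tr_inv_contOn (by positivity) hle).mono himg
  rw [intervalIntegral.integral_symm]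
  rw [← h1, ← intervalIntegral.integral_neg]
  have e1 : ∀ y, (G ∘ fun y : ℝ => y⁻¹) y = tr S β ω φ y ^ 2 := by
    intro y; simp [hG, Function.comp]
  have h2 : ∫ y in A..(A + 2), -((G ∘ fun y : ℝ => y⁻¹) y * (-(y ^ 2)⁻¹)) ≤
      ∫ y in A..(A + 2), (A⁻¹) ^ 2 * tr S β ω φ y ^ 2 := by
    simp_rw [e1]
    have hc := tr_cont S β ω φ
    apply intervalIntegral.integral_mono_on (by linarith)
    · apply ContinuousOn.intervalIntegrable
      apply ContinuousOn.neg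
      apply ContinuousOn.mul (by fun_prop)
      · apply ContinuousOn.neg
        apply ContinuousOn.inv₀ (by fun_prop)
        intro y hy
        exact (pow_pos (hpos y hy) 2).ne'
    · exact Continuous.intervalIntegrable (by fun_prop) _ _
    · intro y hy
      have hy0 : 0 < y := lt_of_lt_of_le hA hy.1
      have h3 : y⁻¹ ≤ A⁻¹ := inv_anti₀ hA hy.1
      have h4 : (y⁻¹) ^ 2 ≤ (A⁻¹) ^ 2 := pow_le_pow_left₀ (by positivity) h3 _
      calc -(tr S β ω φ y ^ 2 * -(y ^ 2)⁻¹) = (y⁻¹) ^ 2 * tr S β ω φ y ^ 2 := by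
            rw [inv_pow y 2]; ring
        _ ≤ _ := mul_le_mul_of_nonneg_right h4 (sq_nonneg _)
  refine h2.trans ?_
  rw [intervalIntegral.integral_const_mul]
  exact mul_le_mul_of_nonneg_left (tr_cell hω A) (by positivity)

lemma core0 (hω : ∀ i ∈ S, |ω i - xx (cl i)| ≤ 1) :
    ∫ x in (0:ℝ)..(3/4), tr S β ω φ x⁻¹ ^ 2 ≤ 90 * QQ (fun _ => 1) S cl β := by
  set G : ℝ → ℝ := fun x => tr S β ω φ x⁻¹ ^ 2 with hG
  set Q := QQ (fun _ => 1) S cl β with hQ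
  set M := (∑ i ∈ S, |β i|) ^ 2 with hM
  have hQ0 : 0 ≤ Q := QQ_nonneg (fun _ => zero_le_one) S cl β
  have hbd : ∀ y, |tr S β ω φ y ^ 2| ≤ M := fun y => by
    rw [abs_pow]
    exact pow_le_pow_left₀ (abs_nonneg _) (tr_bd S β ω φ y) 2
  set a : ℕ → ℝ := fun k => 4/3 + 2 * k with ha
  have ha0 : ∀ k, 4/3 ≤ a k := fun k => by simp only [ha]; have : (0:ℝ) ≤ k := Nat.cast_nonneg k; linarith
  have hai : ∀ k, (a k)⁻¹ ≤ 3/4 := fun k => by
    rw [show (3:ℝ)/4 = (4/3)⁻¹ by norm_num]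
    exact inv_anti₀ (by norm_num) (ha0 k)
  have key : ∀ K : ℕ, ∫ x in (a K)⁻¹..(3/4), G x ≤ 60 * Q * (3/2 - 1 / (2 * (a K - 1))) := by
    intro K
    induction K with
    | zero =>
      have : (a 0)⁻¹ = 3/4 := by simp only [ha]; norm_num
      rw [this, intervalIntegral.integral_same]
      have h2 : (3:ℝ)/2 - 1 / (2 * (a 0 - 1)) = 0 := by simp only [ha]; norm_num
      rw [h2, mul_zero]
    | succ K ih =>
      have e : a (K + 1) = a K + 2 := by simp only [ha]; push_cast; ring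
      have hK := ha0 K
      have hK1 := ha0 (K + 1)
      have h1 := seg0 (φ := φ) (β := β) hω (A := a K) (by linarith)
      rw [← intervalIntegral.integral_add_adjacent_intervals (b := (a K)⁻¹)
        (tr_inv_int (by positivity) (inv_anti₀ (by linarith) (by rw [e]; linarith)))
        (tr_inv_int (by positivity) (hai K)), e]
      have h3 : ((a K)⁻¹) ^ 2 ≤ (1 / (2 * (a K - 1)) - 1 / (2 * (a K + 2 - 1))) := by
        have p1 : 0 < a K - 1 := by linarith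
        have p2 : 0 < a K + 2 - 1 := by linarith
        have p3 : 0 < a K := by linarith
        rw [div_sub_div _ _ (by positivity) (by positivity), inv_pow, inv_eq_one_div,
          div_le_div_iff₀ (by positivity) (by positivity)]
        nlinarith
      have h6 : ((a K)⁻¹) ^ 2 * (60 * Q) ≤
          (1 / (2 * (a K - 1)) - 1 / (2 * (a K + 2 - 1))) * (60 * Q) :=
        mul_le_mul_of_nonneg_right h3 (by positivity)
      have h7 : (∫ x in (a K + 2)⁻¹..(a K)⁻¹, G x) ≤ ((a K)⁻¹) ^ 2 * (60 * Q) := h1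
      nlinarith [ih, h6, h7]
  have hlim : Tendsto (fun K : ℕ => 90 * Q + M * (a K)⁻¹) atTop (𝓝 (90 * Q + M * 0)) := by
    apply Tendsto.const_add
    apply Tendsto.const_mul
    apply Tendsto.inv_tendsto_atTop
    simp only [ha]
    apply tendsto_atTop_add_const_left
    exact Tendsto.const_mul_atTop (by norm_num) tendsto_natCast_atTop_atTop
  rw [mul_zero, add_zero] at hlim
  refine ge_of_tendsto' hlim fun K => ?_
  have hK := ha0 K
  have hp : 0 < (a K)⁻¹ := by positivity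
  rw [← intervalIntegral.integral_add_adjacent_intervals (b := (a K)⁻¹)
        (tr_inv_int0 hp.le) (tr_inv_int hp (hai K))]
  have h8 : ∫ x in (0:ℝ)..(a K)⁻¹, G x ≤ ∫ x in (0:ℝ)..(a K)⁻¹, M := by
    apply intervalIntegral.integral_mono_on hp.le (tr_inv_int0 hp.le) (by simp)
    intro x hx
    exact le_of_abs_le (hbd x⁻¹)
  rw [intervalIntegral.integral_const, smul_eq_mul, sub_zero] at h8
  have h11 := key K
  have h12 : 60 * Q * (3/2 - 1 / (2 * (a K - 1))) ≤ 60 * Q * (3/2) := by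
    apply mul_le_mul_of_nonneg_left _ (by positivity)
    have : 0 < 1 / (2 * (a K - 1)) := by
      have : 0 < a K - 1 := by linarith
      positivity
    linarith
  nlinarith

end core

/-! ### the cutoff -/

noncomputable def X2 (a : ℕ) : ℝ → ℝ := iteratedDeriv a chi2

lemma chi2_cd : ContDiff ℝ (⊤ : ℕ∞) chi2 := by
  have h : ContDiff ℝ (⊤ : ℕ∞) (fun x : ℝ => 9 - 12 * x) := by fun_prop
  exact (Real.smoothTransition.contDiff (n := ⊤)).comp h

lemma X2_hd (a : ℕ) (y : ℝ) : HasDerivAt (X2 a) (X2 (a + 1) y) y := by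
  unfold X2
  rw [iteratedDeriv_succ]
  exact ((chi2_cd.differentiable_iteratedDeriv a (by exact_mod_cast ENat.natCast_lt_top a)) y).hasDerivAt

lemma X2_c (a : ℕ) : Continuous (X2 a) :=
  continuous_iff_continuousAt.2 fun y => (X2_hd a y).continuousAt

lemma X2_zero (y : ℝ) : X2 0 y = chi2 y := by simp [X2]

lemma X2_z (a : ℕ) {y : ℝ} (hy : 3/4 ≤ y) : X2 a y = 0 := by
  have h1 : ∀ a : ℕ, ∀ y : ℝ, 3/4 < y → X2 a y = 0 := by
    intro a
    induction a with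
    | zero =>
      intro y hy
      rw [X2_zero]
      exact Real.smoothTransition.zero_of_nonpos (by linarith)
    | succ a ih =>
      intro y hy
      have h2 : X2 a =ᶠ[𝓝 y] fun _ => 0 := by
        filter_upwards [lt_mem_nhds hy] with z hz
        exact ih z hz
      have h3 := (X2_hd a y).congr_of_eventuallyEq h2.symm
      exact h3.unique (hasDerivAt_const y 0)
  have h4 : Tendsto (X2 a) (𝓝[>] y) (𝓝 (X2 a y)) := (X2_c a).continuousAt.mono_left nhdsWithin_le_nhds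
  have h5 : Tendsto (X2 a) (𝓝[>] y) (𝓝 0) := by
    apply tendsto_const_nhds.congr'
    filter_upwards [self_mem_nhdsWithin] with z hz
    exact (h1 a z (lt_of_le_of_lt hy hz)).symm
  exact tendsto_nhds_unique h4 h5

lemma X2_bd (m : ℕ) : ∃ K : ℝ, 0 ≤ K ∧ ∀ a ≤ m, ∀ y : ℝ, 0 ≤ y → |X2 a y| ≤ K := by
  have h : ∀ a : ℕ, ∃ K : ℝ, ∀ y : ℝ, 0 ≤ y → |X2 a y| ≤ K := by
    intro a
    obtain ⟨K, hK⟩ := isCompact_Icc.exists_bound_of_continuousOn (s := Set.Icc (0:ℝ) (3/4)) (X2_c a).continuousOn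
    refine ⟨max K 0, fun y hy => ?_⟩
    by_cases h : y ≤ 3/4
    · exact (hK y ⟨hy, h⟩).trans (le_max_left _ _)
    · rw [X2_z a (by linarith)]; simp
  choose K hK using h
  refine ⟨∑ a ∈ range (m + 1), |K a|, sum_nonneg fun a _ => abs_nonneg _, fun a ha y hy => ?_⟩
  refine ((hK a y hy).trans (le_abs_self _)).trans ?_
  exact single_le_sum (f := fun a => |K a|) (fun i _ => abs_nonneg _) (mem_range.2 (by omega))

/-! ### the trigonometric sum -/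

section trig

variable (S : Finset ℕ) (β ω : ℕ → ℝ)

noncomputable def Fk (k : ℕ) : ℝ → ℝ := tr S (fun i => β i * ω i ^ k) ω (fun _ => k * (Real.pi / 2))

lemma Fk_c (k : ℕ) : Continuous (Fk S β ω k) := tr_cont _ _ _ _

lemma Fk_bd (k : ℕ) (y : ℝ) : |Fk S β ω k y| ≤ ∑ i ∈ S, |β i * ω i ^ k| := tr_bd _ _ _ _ y

lemma Fk_zero : Fk S β ω 0 = fun y => ∑ i ∈ S, β i * Real.cos (ω i * y) := by
  ext y; simp [Fk, tr]

lemma Fk_hd (k : ℕ) (y : ℝ) : HasDerivAt (Fk S β ω k) (Fk S β ω (k + 1) y) y := by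
  unfold Fk tr
  apply HasDerivAt.fun_sum
  intro i _
  have h := ((((hasDerivAt_id y).const_mul (ω i)).add_const ((k:ℝ) * (Real.pi / 2))).cos).const_mul (β i * ω i ^ k)
  simp only [id, mul_one] at h
  refine h.congr_deriv ?_
  rw [show ω i * y + ((k + 1 : ℕ) : ℝ) * (Real.pi / 2) = ω i * y + k * (Real.pi / 2) + Real.pi / 2 by push_cast; ring,
    Real.cos_add_pi_div_two]
  ring

end trig

section est

variable {S : Finset ℕ} {cl : ℕ → ℕ} {β ω : ℕ → ℝ}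

lemma QQ_w' (hω : ∀ i ∈ S, |ω i - xx (cl i)| ≤ 1) {m k : ℕ} (hk : k ≤ m) :
    QQ (fun _ => 1) S cl (fun i => β i * ω i ^ k) ≤ 4 ^ m * QQ (fun y => (1 + (y : ℝ)) ^ (2 * m)) S cl β := by
  unfold QQ
  rw [mul_sum]
  apply sum_le_sum
  intro y _
  have hy1 : (1:ℝ) ≤ 1 + y := by have : (0:ℝ) ≤ y := Nat.cast_nonneg y; linarith
  have h1 : ∑ i ∈ S.filter (fun i => cl i = y), |β i * ω i ^ k| ≤
      (2 * (1 + y)) ^ m * ∑ i ∈ S.filter (fun i => cl i = y), |β i| := by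
    rw [mul_sum]
    apply sum_le_sum
    intro i hi
    rw [mem_filter] at hi
    have h2 := om_bd hω hi.1
    rw [hi.2] at h2
    rw [abs_mul, mul_comm, abs_pow]
    apply mul_le_mul_of_nonneg_right _ (abs_nonneg _)
    exact (pow_le_pow_left₀ (abs_nonneg _) h2 k).trans (pow_le_pow_right₀ (by linarith) hk)
  have h0 : 0 ≤ ∑ i ∈ S.filter (fun i => cl i = y), |β i * ω i ^ k| := sum_nonneg fun i _ => abs_nonneg _
  have h2 := pow_le_pow_left₀ h0 h1 2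
  calc 1 * (∑ i ∈ S.filter (fun i => cl i = y), |β i * ω i ^ k|) ^ 2 ≤
      ((2 * (1 + y)) ^ m * ∑ i ∈ S.filter (fun i => cl i = y), |β i|) ^ 2 := by rw [one_mul]; exact h2
    _ = 4 ^ m * ((1 + (y:ℝ)) ^ (2 * m) * (∑ i ∈ S.filter (fun i => cl i = y), |β i|) ^ 2) := by
      have e4 : (4:ℝ) ^ m = (2 ^ m) ^ 2 := by rw [← pow_mul, mul_comm, pow_mul]; norm_num
      have e5 : (1 + (y:ℝ)) ^ (2 * m) = ((1 + (y:ℝ)) ^ m) ^ 2 := by rw [← pow_mul, mul_comm]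
      rw [mul_pow, e4, e5, mul_pow 2 (1 + (y:ℝ)) m]
      ring

/-- the derivatives of `DR m R F` -/
noncomputable def Dm (S : Finset ℕ) (β ω : ℕ → ℝ) (m R i : ℕ) (x : ℝ) : ℝ :=
  ((R:ℝ) ^ (2 * m))⁻¹ * ((R:ℝ) ^ 2) ^ i * evL X2 (Fk S β ω) (LL m i) ((R:ℝ) ^ 2 * x)

lemma Dm_zero {m R : ℕ} (hR : 2 ≤ R) : Dm S β ω m R 0 = DR m R (fun y => ∑ i ∈ S, β i * Real.cos (ω i * y)) := by
  ext x
  have hR0 : (R:ℝ) ≠ 0 := by positivity
  unfold Dm DR
  rw [← Fk_zero]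
  simp only [LL, evL_cons, evL_nil, Tm.ev, X2_zero]
  rw [mul_pow ((R:ℝ) ^ 2) x, mul_pow (R:ℝ) x, ← pow_mul]
  field_simp
  ring

lemma Dm_hd {m R i : ℕ} (hR : 2 ≤ R) (hi : i < m) {x : ℝ} (hx : 0 < x) :
    HasDerivAt (Dm S β ω m R i) (Dm S β ω m R (i + 1) x) x := by
  have hR0 : (0:ℝ) < (R:ℝ) ^ 2 := by positivity
  have h1 : HasDerivAt (fun x : ℝ => (R:ℝ) ^ 2 * x) ((R:ℝ) ^ 2) x := by
    simpa using (hasDerivAt_id x).const_mul ((R:ℝ) ^ 2)
  have h2 := hd_LL (X := X2) (F := Fk S β ω) hi (y := (R:ℝ) ^ 2 * x) (by positivity)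
    (fun a _ => X2_hd a _) (fun k _ => Fk_hd S β ω k _)
  have h3 := (h2.comp x h1).const_mul (((R:ℝ) ^ (2 * m))⁻¹ * ((R:ℝ) ^ 2) ^ i)
  refine h3.congr_deriv ?_
  unfold Dm
  ring

lemma Dm_c {m R i : ℕ} (hi : i < m) : Continuous (Dm S β ω m R i) := by
  have := cont_LL (X := X2) (F := Fk S β ω) hi (fun a _ => X2_c a) (fun k _ => Fk_c S β ω k)
    (M := fun k => ∑ i ∈ S, |β i * ω i ^ k|) (fun k _ y => Fk_bd S β ω k y)
  unfold Dm
  fun_prop

lemma Dm_z0 {m R i : ℕ} (hi : i < m) : Dm S β ω m R i 0 = 0 := by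
  unfold Dm; rw [mul_zero, zero_LL hi, mul_zero]

lemma Dm_z {m R i : ℕ} (hR : 2 ≤ R) {x : ℝ} (hx : 1 ≤ x) : Dm S β ω m R i x = 0 := by
  have h2 : (2:ℝ) ≤ R := by exact_mod_cast hR
  unfold Dm
  rw [evL_z _ (fun a => X2_z a (by nlinarith)), mul_zero]

/-- pointwise bound -/
lemma ev_bd {m i : ℕ} (hi : i ≤ m) {K : ℝ} (hK0 : 0 ≤ K) (hK : ∀ a ≤ m, ∀ y : ℝ, 0 ≤ y → |X2 a y| ≤ K) {y : ℝ} (h0 : 0 ≤ y)
    (h1 : y ≤ 3/4) : evL X2 (Fk S β ω) (LL m i) y ^ 2 ≤ (cf (LL m i) * K) ^ 2 * ∑ k ∈ range (m + 1), Fk S β ω k y⁻¹ ^ 2 := by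
  set Z0 := ∑ k ∈ range (m + 1), Fk S β ω k y⁻¹ ^ 2 with hS
  have hS0 : 0 ≤ Z0 := sum_nonneg fun k _ => sq_nonneg _
  have h := evL_bd (X := X2) (F := Fk S β ω) (y := y) (M := K * √Z0) (LL m i) (fun t ht => by
    obtain ⟨g1, g2, g3⟩ := LL_inv m i t ht
    rw [abs_mul, abs_mul, abs_pow]
    have q1 := hK t.a (by omega) y h0
    have q2 : |y| ^ t.n ≤ 1 := pow_le_one₀ (abs_nonneg _) (by rw [abs_of_nonneg h0]; linarith)
    have q3 : |Fk S β ω t.k y⁻¹| ≤ √Z0 := by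
      apply Real.abs_le_sqrt
      exact single_le_sum (f := fun k => Fk S β ω k y⁻¹ ^ 2) (fun i _ => sq_nonneg _) (mem_range.2 (by omega))
    have q4 : |y| ^ t.n * |Fk S β ω t.k y⁻¹| ≤ 1 * √Z0 := mul_le_mul q2 q3 (abs_nonneg _) zero_le_one
    rw [one_mul] at q4
    exact mul_le_mul q1 q4 (by positivity) hK0)
  calc evL X2 (Fk S β ω) (LL m i) y ^ 2 = |evL X2 (Fk S β ω) (LL m i) y| ^ 2 := (sq_abs _).symm
    _ ≤ (cf (LL m i) * (K * √Z0)) ^ 2 := pow_le_pow_left₀ (abs_nonneg _) h 2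
    _ = (cf (LL m i) * K) ^ 2 * Z0 := by
      rw [← mul_assoc, mul_pow, Real.sq_sqrt hS0]

lemma ev_bd2 {m i : ℕ} (hi : i ≤ m) {K : ℝ} (hK0 : 0 ≤ K) (hK : ∀ a ≤ m, ∀ y : ℝ, 0 ≤ y → |X2 a y| ≤ K) :
    ∃ M : ℝ, ∀ y : ℝ, 0 ≤ y → |evL X2 (Fk S β ω) (LL m i) y| ≤ M := by
  refine ⟨cf (LL m i) * (K * ∑ k ∈ range (m + 1), ∑ i ∈ S, |β i * ω i ^ k|), fun y h0 => ?_⟩
  have hn : 0 ≤ ∑ k ∈ range (m + 1), ∑ i ∈ S, |β i * ω i ^ k| :=
    sum_nonneg fun k _ => sum_nonneg fun i _ => abs_nonneg _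
  by_cases h1 : y ≤ 3/4
  · apply evL_bd
    intro t ht
    obtain ⟨g1, g2, g3⟩ := LL_inv m i t ht
    rw [abs_mul, abs_mul, abs_pow]
    have q1 := hK t.a (by omega) y h0
    have q2 : |y| ^ t.n ≤ 1 := pow_le_one₀ (abs_nonneg _) (by rw [abs_of_nonneg h0]; linarith)
    have q3 : |Fk S β ω t.k y⁻¹| ≤ ∑ k ∈ range (m + 1), ∑ i ∈ S, |β i * ω i ^ k| :=
      (Fk_bd S β ω t.k _).trans (single_le_sum (f := fun k => ∑ i ∈ S, |β i * ω i ^ k|)
        (fun i _ => sum_nonneg fun i _ => abs_nonneg _) (mem_range.2 (by omega)))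
    have q4 := mul_le_mul q2 q3 (abs_nonneg _) zero_le_one
    rw [one_mul] at q4
    exact mul_le_mul q1 q4 (by positivity) hK0
  · rw [evL_z _ (fun a => X2_z a (by linarith)), abs_zero]
    have := cf_nonneg (LL m i)
    positivity

lemma Dm_bd {m R i : ℕ} (hi : i ≤ m) : ∃ M : ℝ, ∀ x ∈ Set.Ioc (0:ℝ) 2, |Dm S β ω m R i x| ≤ M := by
  obtain ⟨K, hK0, hK⟩ := X2_bd m
  obtain ⟨M, hM⟩ := ev_bd2 (S := S) (β := β) (ω := ω) hi hK0 hK
  refine ⟨((R:ℝ) ^ (2 * m))⁻¹ * ((R:ℝ) ^ 2) ^ i * M, fun x hx => ?_⟩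
  unfold Dm
  rw [abs_mul, abs_of_nonneg (by positivity : (0:ℝ) ≤ ((R:ℝ) ^ (2 * m))⁻¹ * ((R:ℝ) ^ 2) ^ i)]
  exact mul_le_mul_of_nonneg_left (hM _ (by have := hx.1.le; positivity)) (by positivity)

lemma Dm_cOn {m R i : ℕ} (hR : 2 ≤ R) : ContinuousOn (Dm S β ω m R i) (Set.Ioc 0 2) := by
  unfold Dm
  apply continuousOn_const.mul
  apply (contOn_evL (LL m i) X2_c (Fk_c S β ω)).comp (by fun_prop)
  intro x hx
  have := hx.1
  have hR0 : (0:ℝ) < (R:ℝ) ^ 2 := by positivity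
  exact mul_pos hR0 this

/-- the integral of the square of the `i`-th derivative -/
lemma Dm_int (hω : ∀ i ∈ S, |ω i - xx (cl i)| ≤ 1) {m R i : ℕ} (hR : 2 ≤ R) (hi : i ≤ m) (T : Finset ℕ) {B : ℝ}
    (hB0 : 0 ≤ B) (hB : ∀ y : ℝ, 0 ≤ y → y ≤ 3/4 → evL X2 (Fk S β ω) (LL m i) y ^ 2 ≤ B * ∑ k ∈ T, Fk S β ω k y⁻¹ ^ 2) :
    ∫ x in (0:ℝ)..2, Dm S β ω m R i x ^ 2 ≤ ((R:ℝ) ^ 2)⁻¹ * (B *
      ∑ k ∈ T, 90 * QQ (fun _ => 1) S cl (fun j => β j * ω j ^ k)) := by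
  obtain ⟨K, hK0, hK⟩ := X2_bd m
  set G : ℝ → ℝ := fun y => evL X2 (Fk S β ω) (LL m i) y ^ 2 with hG
  have hR1 : (1:ℝ) ≤ R := by exact_mod_cast (by omega : 1 ≤ R)
  have hR0 : (0:ℝ) < (R:ℝ) ^ 2 := by positivity
  obtain ⟨M, hM⟩ := ev_bd2 (S := S) (β := β) (ω := ω) hi hK0 hK
  have hGi : ∀ b : ℝ, 0 ≤ b → IntervalIntegrable G volume 0 b := by
    intro b hb
    apply int_of_bdd (M := M ^ 2) hb
    · apply ContinuousOn.pow
      exact (contOn_evL (LL m i) X2_c (Fk_c S β ω)).mono fun x hx => hx.1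
    · intro x hx
      rw [hG, abs_pow]
      exact pow_le_pow_left₀ (abs_nonneg _) (hM x hx.1.le) 2
  -- scaling factor at most one
  have h1 : ∫ x in (0:ℝ)..2, Dm S β ω m R i x ^ 2 ≤ ∫ x in (0:ℝ)..2, G ((R:ℝ) ^ 2 * x) := by
    obtain ⟨M', hM'⟩ := Dm_bd (S := S) (β := β) (ω := ω) (R := R) hi
    apply intervalIntegral.integral_mono_on (by norm_num)
    · refine int_of_bdd (f := fun x => Dm S β ω m R i x ^ 2) (M := M' ^ 2) (by norm_num) ((Dm_cOn hR).pow 2) ?_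
      intro x hx
      rw [abs_pow]
      exact pow_le_pow_left₀ (abs_nonneg _) (hM' x hx) 2
    · have := (hGi ((R:ℝ) ^ 2 * 2) (by positivity)).comp_mul_left (c := (R:ℝ) ^ 2)
      rw [zero_div, mul_div_cancel_left₀ _ hR0.ne'] at this
      exact this
    · intro x _
      unfold Dm
      rw [mul_pow]
      apply mul_le_of_le_one_left (sq_nonneg _)
      apply pow_le_one₀ (by positivity)
      rw [← pow_mul, inv_mul_le_iff₀ (by positivity), mul_one]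
      exact pow_le_pow_right₀ hR1 (by omega)
  refine h1.trans ?_
  rw [intervalIntegral.integral_comp_mul_left G hR0.ne', smul_eq_mul, mul_zero]
  apply mul_le_mul_of_nonneg_left _ (by positivity)
  have hle : (3:ℝ)/4 ≤ (R:ℝ) ^ 2 * 2 := by nlinarith
  rw [← intervalIntegral.integral_add_adjacent_intervals (b := 3/4) (hGi _ (by norm_num))
    ((hGi _ (by norm_num)).symm.trans (hGi _ (by positivity)))]
  have h2 : ∫ x in (3/4:ℝ)..(R:ℝ) ^ 2 * 2, G x = 0 := by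
    have : ∫ x in (3/4:ℝ)..(R:ℝ) ^ 2 * 2, G x = ∫ x in (3/4:ℝ)..(R:ℝ) ^ 2 * 2, (0:ℝ) := by
      apply intervalIntegral.integral_congr
      intro x hx
      rw [Set.uIcc_of_le hle] at hx
      simp only [hG]
      rw [evL_z _ (fun a => X2_z a hx.1)]
      norm_num
    rw [this]; simp
  rw [h2, add_zero]
  have h3 : ∫ x in (0:ℝ)..(3/4), G x ≤ ∫ x in (0:ℝ)..(3/4), B * ∑ k ∈ T, Fk S β ω k x⁻¹ ^ 2 := by
    apply intervalIntegral.integral_mono_on (by norm_num) (hGi _ (by norm_num))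
    · apply IntervalIntegrable.const_mul
      have := IntervalIntegrable.sum (μ := volume) (a := 0) (b := 3/4) T (f := fun k x => Fk S β ω k x⁻¹ ^ 2)
        (fun k _ => tr_inv_int0 (by norm_num))
      refine this.congr ?_
      intro x _
      simp
    · intro x hx
      exact hB x hx.1 hx.2
  refine h3.trans ?_
  rw [intervalIntegral.integral_const_mul]
  apply mul_le_mul_of_nonneg_left _ hB0
  rw [intervalIntegral.integral_finsetSum]
  · apply sum_le_sum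
    intro k _
    exact core0 hω
  · intro k _
    exact tr_inv_int0 (by norm_num)

end est

end MQ

open MQ Pool.Agent.H287.XM in
theorem pf_TaskMQ : TaskMQ := by
  intro m hm2 hme
  obtain ⟨K, hK0, hK⟩ := X2_bd m
  set B : ℝ := (cf (LL m m) * K) ^ 2 * ((m + 1) * (90 * 4 ^ m)) with hB
  have hBn : 0 ≤ B := by positivity
  refine ⟨90 + 4 ^ m * (90 + B), by positivity, fun R hR S cl ω β hω => ?_⟩
  have hR0 : (0:ℝ) < (R:ℝ) ^ 2 := by positivity
  have hm0 : 0 < m := by omega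
  -- the two integrals
  have i0 : ∫ x in (0:ℝ)..2, Dm S β ω m R 0 x ^ 2 ≤ ((R:ℝ) ^ 2)⁻¹ * (90 * QQ (fun _ => 1) S cl β) := by
    refine (Dm_int hω hR (Nat.zero_le m) {0} (B := 1) zero_le_one ?_).trans (le_of_eq ?_)
    · intro y h0 h1
      simp only [LL, evL_cons, evL_nil, Tm.ev, X2_zero, sum_singleton]
      have q1 : |chi2 y| ≤ 1 := by
        unfold chi2
        rw [abs_of_nonneg (Real.smoothTransition.nonneg _)]; exact Real.smoothTransition.le_one _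
      have q2 : |y ^ (2 * m)| ≤ 1 := by
        rw [abs_pow]; exact pow_le_one₀ (abs_nonneg _) (by rw [abs_of_nonneg h0]; linarith)
      have q3 : |chi2 y * y ^ (2 * m)| ≤ 1 := by
        rw [abs_mul]; exact mul_le_one₀ q1 (abs_nonneg _) q2
      have q4 : (chi2 y * y ^ (2 * m)) ^ 2 ≤ 1 := by
        rw [← sq_abs]; exact pow_le_one₀ (abs_nonneg _) q3
      calc (1 * (chi2 y * (y ^ (2 * m) * Fk S β ω 0 y⁻¹)) + 0) ^ 2 =
          (chi2 y * y ^ (2 * m)) ^ 2 * Fk S β ω 0 y⁻¹ ^ 2 := by ring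
        _ ≤ 1 * Fk S β ω 0 y⁻¹ ^ 2 := mul_le_mul_of_nonneg_right q4 (sq_nonneg _)
    · simp
  have im : ∫ x in (0:ℝ)..2, Dm S β ω m R m x ^ 2 ≤ ((R:ℝ) ^ 2)⁻¹ * (B * QQ (fun y => (1 + (y : ℝ)) ^ (2 * m)) S cl β) := by
    refine (Dm_int hω hR le_rfl (range (m + 1)) (B := (cf (LL m m) * K) ^ 2) (sq_nonneg _)
      (fun y h0 h1 => ev_bd le_rfl hK0 hK h0 h1)).trans ?_
    apply mul_le_mul_of_nonneg_left _ (by positivity)
    rw [hB, mul_assoc]
    apply mul_le_mul_of_nonneg_left _ (sq_nonneg _)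
    calc ∑ k ∈ range (m + 1), 90 * QQ (fun _ => 1) S cl (fun j => β j * ω j ^ k) ≤
        ∑ k ∈ range (m + 1), 90 * (4 ^ m * QQ (fun y => (1 + (y : ℝ)) ^ (2 * m)) S cl β) := by
          apply sum_le_sum
          intro k hk
          exact mul_le_mul_of_nonneg_left (QQ_w' hω (by rw [mem_range] at hk; omega)) (by norm_num)
      _ = _ := by rw [sum_const, card_range, nsmul_eq_mul]; push_cast; ring
  have q0 := QQ_nonneg (w := fun _ => 1) (fun _ => zero_le_one) S cl β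
  have q1 : QQ (fun _ => 1) S cl β ≤ QQ (fun y => (1 + (y : ℝ)) ^ (2 * m)) S cl β := by
    unfold QQ
    apply sum_le_sum
    intro y _
    apply mul_le_mul_of_nonneg_right _ (sq_nonneg _)
    exact one_le_pow₀ (by have : (0:ℝ) ≤ y := Nat.cast_nonneg y; linarith)
  set Q0 := QQ (fun _ => 1) S cl β
  set Q1 := QQ (fun y => (1 + (y : ℝ)) ^ (2 * m)) S cl β
  -- regularity
  obtain ⟨M0, hM0⟩ := Dm_bd (S := S) (β := β) (ω := ω) (R := R) (Nat.zero_le m)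
  obtain ⟨Mm, hMm⟩ := Dm_bd (S := S) (β := β) (ω := ω) (R := R) (le_refl m)
  have r0 : IntervalIntegrable (Dm S β ω m R 0) volume 0 2 := int_of_bdd (by norm_num) (Dm_cOn hR) hM0
  have r02 : IntervalIntegrable (fun x => Dm S β ω m R 0 x ^ 2) volume 0 2 := by
    apply Continuous.intervalIntegrable
    exact (Dm_c hm0).pow 2
  have rm : IntervalIntegrable (Dm S β ω m R m) volume 0 2 := int_of_bdd (by norm_num) (Dm_cOn hR) hMm
  have rm2 : IntervalIntegrable (fun x => Dm S β ω m R m x ^ 2) volume 0 2 := by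
    refine int_of_bdd (f := fun x => Dm S β ω m R m x ^ 2) (M := Mm ^ 2) (by norm_num) ((Dm_cOn hR).pow 2) ?_
    intro x hx
    rw [abs_pow]
    exact pow_le_pow_left₀ (abs_nonneg _) (hMm x hx) 2
  have b0 : ∀ J : Finset ℕ, ∑ j ∈ J, PP (Dm S β ω m R 0) j ^ 2 ≤ ((R:ℝ) ^ 2)⁻¹ * (90 * Q0) := fun J =>
    (bessel' r0 r02 J).trans i0
  have bm : ∀ J : Finset ℕ, ∑ j ∈ J, xx j ^ (2 * m) * PP (Dm S β ω m R 0) j ^ 2 ≤ ((R:ℝ) ^ 2)⁻¹ * (B * Q1) := fun J =>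
    (bessel_m hme (D := Dm S β ω m R) (fun i hi => (Dm_c hi).continuousOn) (fun i hi x hx => Dm_hd hR hi hx.1)
      (fun i hi _ => ⟨Dm_z0 hi, Dm_z hR (by norm_num)⟩) rm rm2 J).trans im
  rw [← Dm_zero hR]
  have hRi : (0:ℝ) ≤ ((R:ℝ) ^ 2)⁻¹ := by positivity
  have h4 : (1:ℝ) ≤ 4 ^ m := one_le_pow₀ (by norm_num)
  constructor
  · intro J
    refine (b0 (range J)).trans ?_
    rw [div_eq_mul_inv, mul_comm (90 + 4 ^ m * (90 + B)), mul_assoc]
    apply mul_le_mul_of_nonneg_left _ hRi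
    apply mul_le_mul_of_nonneg_right _ q0
    nlinarith
  · intro J
    have h1 : ∑ j ∈ range J, (1 + (j : ℝ)) ^ (2 * m) * PP (Dm S β ω m R 0) j ^ 2 ≤
        4 ^ m * (∑ j ∈ range J, PP (Dm S β ω m R 0) j ^ 2 + ∑ j ∈ range J, xx j ^ (2 * m) * PP (Dm S β ω m R 0) j ^ 2) := by
      rw [← sum_add_distrib, mul_sum]
      apply sum_le_sum
      intro j _
      have hj0 : (0:ℝ) ≤ j := Nat.cast_nonneg j
      have hj : (j:ℝ) ≤ xx j := by
        unfold xx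
        have := Real.pi_gt_three
        nlinarith
      have hj2 : (1 + (j : ℝ)) ^ (2 * m) ≤ 4 ^ m * (1 + xx j ^ (2 * m)) := by
        have e4 : (4:ℝ) ^ m = 2 ^ (2 * m) := by rw [pow_mul]; norm_num
        rw [e4]
        rcases Nat.eq_zero_or_pos j with rfl | hj1
        · have : (1:ℝ) ≤ 2 ^ (2 * m) := one_le_pow₀ (by norm_num)
          have h0 : (0:ℝ) ≤ xx 0 ^ (2 * m) := by unfold xx; simp
          simp only [Nat.cast_zero, add_zero, one_pow]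
          nlinarith
        · have hj1' : (1:ℝ) ≤ j := by exact_mod_cast hj1
          calc (1 + (j : ℝ)) ^ (2 * m) ≤ (2 * xx j) ^ (2 * m) := pow_le_pow_left₀ (by positivity) (by linarith) _
            _ = 2 ^ (2 * m) * xx j ^ (2 * m) := by rw [mul_pow]
            _ ≤ 2 ^ (2 * m) * (1 + xx j ^ (2 * m)) := mul_le_mul_of_nonneg_left (by linarith) (by positivity)
      have := mul_le_mul_of_nonneg_right hj2 (sq_nonneg (PP (Dm S β ω m R 0) j))
      linarith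
    refine h1.trans ?_
    have h2 := b0 (range J)
    have h3 := bm (range J)
    rw [div_eq_mul_inv, mul_comm (90 + 4 ^ m * (90 + B)), mul_assoc]
    calc 4 ^ m * (∑ j ∈ range J, PP (Dm S β ω m R 0) j ^ 2 + ∑ j ∈ range J, xx j ^ (2 * m) * PP (Dm S β ω m R 0) j ^ 2)
        ≤ 4 ^ m * (((R:ℝ) ^ 2)⁻¹ * (90 * Q0) + ((R:ℝ) ^ 2)⁻¹ * (B * Q1)) :=
          mul_le_mul_of_nonneg_left (add_le_add h2 h3) (by positivity)
      _ = ((R:ℝ) ^ 2)⁻¹ * (4 ^ m * (90 * Q0 + B * Q1)) := by ring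
      _ ≤ ((R:ℝ) ^ 2)⁻¹ * ((90 + 4 ^ m * (90 + B)) * Q1) := by
          apply mul_le_mul_of_nonneg_left _ hRi
          have q2 : 0 ≤ Q1 := q0.trans q1
          have q3 : 4 ^ m * (90 * Q0) ≤ 4 ^ m * (90 * Q1) := by
            apply mul_le_mul_of_nonneg_left _ (by positivity); linarith
          nlinarith

end Pool.Agent.H472.Q2
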