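import Mathlib
import Pool.Agent.H472.Q2.Tasks

set_option autoImplicit false

open Finset MeasureTheory Filter Topology

namespace Pool.Agent.H472.Q2.NQ

open Pool.Agent.H469R10.HO Pool.Agent.H472.Q2


/-- chains of derivatives on an open set -/
structure DSeq (n : ℕ) (s : Set ℝ) (F : ℕ → ℝ → ℝ) : Prop where
  der : ∀ i < n, ∀ x ∈ s, HasDerivAt (F i) (F (i + 1) x) x
  cont : ContinuousOn (F n) s

lemma DSeq.contAll {n : ℕ} {s : Set ℝ} {F : ℕ → ℝ → ℝ} (h : DSeq n s F) : ∀ i ≤ n, ContinuousOn (F i) s := by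
  intro i hi
  rcases hi.lt_or_eq with hi | rfl
  · exact fun x hx => (h.der i hi x hx).continuousAt.continuousWithinAt
  · exact h.cont

lemma DSeq.mono {n k : ℕ} {s t : Set ℝ} {F : ℕ → ℝ → ℝ} (h : DSeq n s F) (hk : k ≤ n) (ht : t ⊆ s) : DSeq k t F :=
  ⟨fun i hi x hx => h.der i (lt_of_lt_of_le hi hk) x (ht hx), (h.contAll k hk).mono ht⟩

lemma DSeq.shift {n : ℕ} {s : Set ℝ} {F : ℕ → ℝ → ℝ} (h : DSeq (n + 1) s F) : DSeq n s (fun i => F (i + 1)) :=
  ⟨fun i hi x hx => h.der (i + 1) (by omega) x hx, h.cont⟩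

lemma DSeq.eqOn {n : ℕ} {s t u : Set ℝ} {F G : ℕ → ℝ → ℝ} (hu : IsOpen u) (hus : u ⊆ s) (hut : u ⊆ t)
    (hF : DSeq n s F) (hG : DSeq n t G) (h0 : ∀ x ∈ u, F 0 x = G 0 x) : ∀ i ≤ n, ∀ x ∈ u, F i x = G i x := by
  intro i
  induction i with
  | zero => intro _; exact h0
  | succ i ih =>
    intro hi x hx
    have h1 := hF.der i (by omega) x (hus hx)
    have h2 := hG.der i (by omega) x (hut hx)
    have h3 : F i =ᶠ[𝓝 x] G i := by
      filter_upwards [hu.mem_nhds hx] with y hy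
      exact ih (by omega) y hy
    exact (h1.congr_of_eventuallyEq h3.symm).unique h2

lemma DSeq.sub {n : ℕ} {s : Set ℝ} {F G : ℕ → ℝ → ℝ} (hF : DSeq n s F) (hG : DSeq n s G) :
    DSeq n s (fun i x => F i x - G i x) :=
  ⟨fun i hi x hx => (hF.der i hi x hx).fun_sub (hG.der i hi x hx), hF.cont.sub hG.cont⟩

/-- scaling -/
lemma DSeq.scale {n : ℕ} {s t : Set ℝ} {F : ℕ → ℝ → ℝ} (hF : DSeq n s F) (a b : ℝ) (ht : ∀ x ∈ t, b * x ∈ s) :
    DSeq n t (fun i x => a * b ^ i * F i (b * x)) := by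
  refine ⟨fun i hi x hx => ?_, ?_⟩
  · have h1 := hF.der i hi (b * x) (ht x hx)
    have h2 : HasDerivAt (fun x => b * x) b x := by simpa using (hasDerivAt_id x).const_mul b
    have h3 := (h1.comp x h2).const_mul (a * b ^ i)
    have e : a * b ^ (i + 1) * F (i + 1) (b * x) = a * b ^ i * (F (i + 1) (b * x) * b) := by ring
    rw [e]
    exact h3
  · have h2 : ContinuousOn (fun x : ℝ => b * x) t := by fun_prop
    exact continuousOn_const.mul (hF.cont.comp h2 ht)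

/-- products -/
lemma DSeq.mul {s : Set ℝ} (n : ℕ) : ∀ (F G : ℕ → ℝ → ℝ) (A B : ℝ), DSeq n s F → DSeq n s G →
    (∀ i ≤ n, ∀ x ∈ s, |F i x| ≤ A) → (∀ i ≤ n, ∀ x ∈ s, |G i x| ≤ B) →
    ∃ H : ℕ → ℝ → ℝ, DSeq n s H ∧ (∀ x, H 0 x = F 0 x * G 0 x) ∧ ∀ i ≤ n, ∀ x ∈ s, |H i x| ≤ 2 ^ i * (A * B) := by
  induction n with
  | zero =>
    intro F G A B hF hG hA hB
    refine ⟨fun _ x => F 0 x * G 0 x, ⟨fun i hi => absurd hi (by omega), hF.cont.mul hG.cont⟩, fun _ => rfl, ?_⟩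
    intro i hi x hx
    obtain rfl : i = 0 := by omega
    rw [abs_mul, pow_zero, one_mul]
    exact mul_le_mul (hA 0 le_rfl x hx) (hB 0 le_rfl x hx) (abs_nonneg _) ((abs_nonneg _).trans (hA 0 le_rfl x hx))
  | succ n ih =>
    intro F G A B hF hG hA hB
    obtain ⟨H1, d1, z1, b1⟩ := ih (fun i => F (i + 1)) G A B hF.shift (hG.mono (by omega) subset_rfl)
      (fun i hi x hx => hA (i + 1) (by omega) x hx) (fun i hi x hx => hB i (by omega) x hx)
    obtain ⟨H2, d2, z2, b2⟩ := ih F (fun i => G (i + 1)) A B (hF.mono (by omega) subset_rfl) hG.shift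
      (fun i hi x hx => hA i (by omega) x hx) (fun i hi x hx => hB (i + 1) (by omega) x hx)
    refine ⟨fun i x => match i with | 0 => F 0 x * G 0 x | i + 1 => H1 i x + H2 i x, ⟨?_, ?_⟩, fun _ => rfl, ?_⟩
    · intro i hi x hx
      rcases i with _ | i
      · have h1 := (hF.der 0 (by omega) x hx).fun_mul (hG.der 0 (by omega) x hx)
        show HasDerivAt (fun x => F 0 x * G 0 x) (H1 0 x + H2 0 x) x
        rw [z1, z2]
        exact h1
      · exact (d1.der i (by omega) x hx).fun_add (d2.der i (by omega) x hx)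
    · exact d1.cont.add d2.cont
    · intro i hi x hx
      rcases i with _ | i
      · show |F 0 x * G 0 x| ≤ _
        rw [abs_mul, pow_zero, one_mul]
        exact mul_le_mul (hA 0 (by omega) x hx) (hB 0 (by omega) x hx) (abs_nonneg _)
          ((abs_nonneg _).trans (hA 0 (by omega) x hx))
      · have h1 := b1 i (by omega) x hx
        have h2 := b2 i (by omega) x hx
        calc |H1 i x + H2 i x| ≤ |H1 i x| + |H2 i x| := abs_add_le _ _
          _ ≤ 2 ^ i * (A * B) + 2 ^ i * (A * B) := add_le_add h1 h2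
          _ = 2 ^ (i + 1) * (A * B) := by ring

/-- smooth functions -/
lemma dseq_smooth {f : ℝ → ℝ} (hf : ContDiff ℝ ((⊤ : ℕ∞) : WithTop ℕ∞) f) (n : ℕ) (s : Set ℝ) : DSeq n s (fun i => iteratedDeriv i f) := by
  have hi : ∀ i : ℕ, Differentiable ℝ (iteratedDeriv i f) := fun i =>
    hf.differentiable_iteratedDeriv i (by exact_mod_cast WithTop.coe_lt_top _)
  refine ⟨fun i _ x _ => ?_, (hi n).continuous.continuousOn⟩
  have := (hi i x).hasDerivAt
  rwa [← iteratedDeriv_succ] at this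

lemma smooth_bdd {f : ℝ → ℝ} (hf : ContDiff ℝ ((⊤ : ℕ∞) : WithTop ℕ∞) f) (n : ℕ) (a b : ℝ) : ∃ A : ℝ, 0 < A ∧ ∀ i ≤ n, ∀ x ∈ Set.Icc a b,
    |iteratedDeriv i f x| ≤ A := by
  have hi : ∀ i : ℕ, Continuous (iteratedDeriv i f) := fun i =>
    (hf.differentiable_iteratedDeriv i (by exact_mod_cast WithTop.coe_lt_top _)).continuous
  induction n with
  | zero =>
    obtain ⟨C, hC⟩ := (isCompact_Icc (a := a) (b := b)).exists_bound_of_continuousOn (hi 0).continuousOn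
    refine ⟨max C 1, by positivity, fun i hi' x hx => ?_⟩
    obtain rfl : i = 0 := by omega
    exact (hC x hx).trans (le_max_left _ _)
  | succ n ih =>
    obtain ⟨A, hA, h⟩ := ih
    obtain ⟨C, hC⟩ := (isCompact_Icc (a := a) (b := b)).exists_bound_of_continuousOn (hi (n + 1)).continuousOn
    refine ⟨max A C, lt_max_of_lt_left hA, fun i hi' x hx => ?_⟩
    rcases Nat.lt_or_ge n i with h1 | h1
    · obtain rfl : i = n + 1 := by omega
      exact (hC x hx).trans (le_max_right _ _)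
    · exact (h i h1 x hx).trans (le_max_left _ _)

/-! ### Bessel's inequality for bounded functions -/

lemma ii_bdd {f : ℝ → ℝ} {M : ℝ} (hf : ContinuousOn f (Set.Ioo 0 2)) (hb : ∀ x ∈ Set.Ioo (0:ℝ) 2, |f x| ≤ M) :
    IntervalIntegrable f volume 0 2 := by
  rw [intervalIntegrable_iff_integrableOn_Ioo_of_le (by norm_num)]
  refine ⟨hf.aestronglyMeasurable measurableSet_Ioo, ?_⟩
  apply HasFiniteIntegral.of_bounded (C := M)
  rw [ae_restrict_iff' measurableSet_Ioo]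
  exact Eventually.of_forall fun x hx => hb x hx

lemma ii_mul {f g : ℝ → ℝ} {M : ℝ} (hf : ContinuousOn f (Set.Ioo 0 2)) (hb : ∀ x ∈ Set.Ioo (0:ℝ) 2, |f x| ≤ M)
    (hg : Continuous g) : IntervalIntegrable (fun x => f x * g x) volume 0 2 :=
  (ii_bdd hf hb).mul_continuousOn hg.continuousOn

lemma ii_sq {f : ℝ → ℝ} {M : ℝ} (hf : ContinuousOn f (Set.Ioo 0 2)) (hb : ∀ x ∈ Set.Ioo (0:ℝ) 2, |f x| ≤ M) :
    IntervalIntegrable (fun x => f x ^ 2) volume 0 2 := by
  apply ii_bdd (M := M ^ 2) (hf.pow 2)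
  intro x hx
  show |f x ^ 2| ≤ M ^ 2
  rw [abs_pow]
  exact pow_le_pow_left₀ (abs_nonneg _) (hb x hx) 2

lemma int_sq_le {f : ℝ → ℝ} {M : ℝ} (hf : ContinuousOn f (Set.Ioo 0 2)) (hb : ∀ x ∈ Set.Ioo (0:ℝ) 2, |f x| ≤ M) :
    ∫ t in (0:ℝ)..2, f t ^ 2 ≤ 2 * M ^ 2 := by
  have h : ∫ t in (0:ℝ)..2, f t ^ 2 ≤ ∫ _t in (0:ℝ)..2, M ^ 2 := by
    rw [intervalIntegral.integral_of_le (by norm_num), intervalIntegral.integral_of_le (by norm_num),
      integral_Ioc_eq_integral_Ioo, integral_Ioc_eq_integral_Ioo]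
    apply setIntegral_mono_on _ _ measurableSet_Ioo
    · intro x hx
      rw [← sq_abs]
      exact pow_le_pow_left₀ (abs_nonneg _) (hb x hx) 2
    · exact (intervalIntegrable_iff_integrableOn_Ioo_of_le (by norm_num)).1 (ii_sq hf hb)
    · exact integrableOn_const (by simp)
  simpa using h

/-- Bessel's inequality for the cosines, bounded functions -/
lemma bessel_bdd {f : ℝ → ℝ} {M : ℝ} (hf : ContinuousOn f (Set.Ioo 0 2)) (hb : ∀ x ∈ Set.Ioo (0:ℝ) 2, |f x| ≤ M)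
    (J : Finset ℕ) : ∑ j ∈ J, PP f j ^ 2 ≤ 2 * M ^ 2 := by
  have hint : ∀ g : ℝ → ℝ, Continuous g → IntervalIntegrable (fun x => f x * g x) volume 0 2 :=
    fun g hg => ii_mul hf hb hg
  have h0 : 0 ≤ ∫ t in (0:ℝ)..2, (f t - ∑ j ∈ J, PP f j * Real.cos (xx j * t)) ^ 2 := by
    apply intervalIntegral.integral_nonneg (by norm_num)
    intro t _; positivity
  have hg : Continuous fun t => ∑ j ∈ J, PP f j * Real.cos (xx j * t) :=
    continuous_finsetSum _ fun j _ => by fun_prop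
  have h1 : ∀ t, (f t - ∑ j ∈ J, PP f j * Real.cos (xx j * t)) ^ 2 =
      f t ^ 2 - 2 * (f t * ∑ j ∈ J, PP f j * Real.cos (xx j * t)) + (∑ j ∈ J, PP f j * Real.cos (xx j * t)) ^ 2 := by
    intro t; ring
  simp_rw [h1] at h0
  rw [intervalIntegral.integral_add (((ii_sq hf hb).sub ((hint _ hg).const_mul 2)))
    (Continuous.intervalIntegrable (by fun_prop) _ _), intervalIntegral.integral_sub (ii_sq hf hb)
    ((hint _ hg).const_mul 2), intervalIntegral.integral_const_mul,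
    sq_int (e := fun j t => Real.cos (xx j * t)) (w := ww) (fun j => by fun_prop)
    (fun i j => by rw [int_cos_cos]; unfold ww; rfl)] at h0
  have h2 : ∫ t in (0:ℝ)..2, f t * ∑ j ∈ J, PP f j * Real.cos (xx j * t) = ∑ j ∈ J, PP f j ^ 2 * ww j := by
    simp_rw [mul_sum]
    rw [intervalIntegral.integral_finsetSum]
    · apply sum_congr rfl
      intro j hj
      have : ∀ t, f t * (PP f j * Real.cos (xx j * t)) = PP f j * (f t * Real.cos (xx j * t)) := fun t => by ring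
      simp_rw [this]
      rw [intervalIntegral.integral_const_mul]
      have h3 : ∫ x in (0:ℝ)..2, f x * Real.cos (xx j * x) = PP f j * ww j := by
        unfold PP
        have := ww_ge j
        field_simp
      rw [h3]; ring
    · intro j _
      exact hint (fun t => PP f j * Real.cos (xx j * t)) (by fun_prop)
  rw [h2] at h0
  have h4 := int_sq_le hf hb
  have h5 : ∑ j ∈ J, PP f j ^ 2 ≤ ∑ j ∈ J, PP f j ^ 2 * ww j := by
    apply sum_le_sum
    intro j _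
    have := ww_ge j
    nlinarith [sq_nonneg (PP f j)]
  linarith

/-! ### Integration by parts -/

lemma tendsto_bdd_mul {l : Filter ℝ} {f g : ℝ → ℝ} {M : ℝ} (hf : ∀ᶠ x in l, |f x| ≤ M) (hg : Tendsto g l (𝓝 0)) :
    Tendsto (fun x => f x * g x) l (𝓝 0) := by
  rw [tendsto_zero_iff_norm_tendsto_zero] at hg ⊢
  have h1 : Tendsto (fun x => M * ‖g x‖) l (𝓝 0) := by simpa using hg.const_mul M
  refine squeeze_zero' (Eventually.of_forall fun x => norm_nonneg _) ?_ h1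
  filter_upwards [hf] with x hx
  rw [norm_mul]
  exact mul_le_mul_of_nonneg_right hx (norm_nonneg _)

/-- two integrations by parts -/
lemma ibp_two {f f1 f2 : ℝ → ℝ} {M : ℝ} (h1 : ∀ x ∈ Set.Ioo (0:ℝ) 2, HasDerivAt f (f1 x) x)
    (h2 : ∀ x ∈ Set.Ioo (0:ℝ) 2, HasDerivAt f1 (f2 x) x) (hc : ContinuousOn f2 (Set.Ioo 0 2))
    (b0 : ∀ x ∈ Set.Ioo (0:ℝ) 2, |f x| ≤ M) (b1 : ∀ x ∈ Set.Ioo (0:ℝ) 2, |f1 x| ≤ M)
    (b2 : ∀ x ∈ Set.Ioo (0:ℝ) 2, |f2 x| ≤ M) (t0 : Tendsto f1 (𝓝[>] 0) (𝓝 0)) (t2 : Tendsto f1 (𝓝[<] 2) (𝓝 0)) (j : ℕ) :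
    ∫ x in (0:ℝ)..2, f2 x * Real.cos (xx j * x) = - (xx j ^ 2 * ∫ x in (0:ℝ)..2, f x * Real.cos (xx j * x)) := by
  have c0 : ContinuousOn f (Set.Ioo 0 2) := fun x hx => (h1 x hx).continuousAt.continuousWithinAt
  have c1 : ContinuousOn f1 (Set.Ioo 0 2) := fun x hx => (h2 x hx).continuousAt.continuousWithinAt
  have hs : ∀ x, HasDerivAt (fun x => Real.sin (xx j * x)) (xx j * Real.cos (xx j * x)) x := fun x => by
    have := ((hasDerivAt_id x).const_mul (xx j)).sin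
    simp only [id, mul_one] at this
    rwa [mul_comm] at this
  have hk : ∀ x, HasDerivAt (fun x => Real.cos (xx j * x)) (-(xx j * Real.sin (xx j * x))) x := fun x => by
    have := ((hasDerivAt_id x).const_mul (xx j)).cos
    simp only [id, mul_one] at this
    rw [show -(xx j * Real.sin (xx j * x)) = -Real.sin (xx j * x) * xx j by ring]
    exact this
  have m0 : Set.Ioo (0:ℝ) 2 ∈ 𝓝[>] (0:ℝ) := Ioo_mem_nhdsGT (by norm_num)
  have m2 : Set.Ioo (0:ℝ) 2 ∈ 𝓝[<] (2:ℝ) := Ioo_mem_nhdsLT (by norm_num)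
  have i1 : IntervalIntegrable (fun x => f1 x * Real.sin (xx j * x)) volume 0 2 := ii_mul c1 b1 (by fun_prop)
  have i0 : IntervalIntegrable (fun x => f x * (xx j * Real.cos (xx j * x))) volume 0 2 := ii_mul c0 b0 (by fun_prop)
  have i2 : IntervalIntegrable (fun x => f2 x * Real.cos (xx j * x)) volume 0 2 := ii_mul hc b2 (by fun_prop)
  have i3 : IntervalIntegrable (fun x => f1 x * (-(xx j * Real.sin (xx j * x)))) volume 0 2 := ii_mul c1 b1 (by fun_prop)
  have s0 : Tendsto (fun x => Real.sin (xx j * x)) (𝓝[>] 0) (𝓝 0) := by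
    have : Continuous fun x : ℝ => Real.sin (xx j * x) := by fun_prop
    have h := this.tendsto 0
    simp only [mul_zero, Real.sin_zero] at h
    exact h.mono_left nhdsWithin_le_nhds
  have s2 : Tendsto (fun x => Real.sin (xx j * x)) (𝓝[<] 2) (𝓝 0) := by
    have : Continuous fun x : ℝ => Real.sin (xx j * x) := by fun_prop
    have h := this.tendsto 2
    simp only [xx_sin_two] at h
    exact h.mono_left nhdsWithin_le_nhds
  have e1 := intervalIntegral.integral_eq_sub_of_hasDerivAt_of_tendsto (a := (0:ℝ)) (b := 2)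
    (f := fun x => f x * Real.sin (xx j * x)) (f' := fun x => f1 x * Real.sin (xx j * x) + f x * (xx j * Real.cos (xx j * x)))
    (fa := 0) (fb := 0) (by norm_num) (fun x hx => (h1 x hx).fun_mul (hs x)) (i1.add i0)
    (tendsto_bdd_mul (M := M) (by filter_upwards [m0] with x hx using b0 x hx) s0)
    (tendsto_bdd_mul (M := M) (by filter_upwards [m2] with x hx using b0 x hx) s2)
  have e2 := intervalIntegral.integral_eq_sub_of_hasDerivAt_of_tendsto (a := (0:ℝ)) (b := 2)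
    (f := fun x => f1 x * Real.cos (xx j * x)) (f' := fun x => f2 x * Real.cos (xx j * x) + f1 x * (-(xx j * Real.sin (xx j * x))))
    (fa := 0) (fb := 0) (by norm_num) (fun x hx => (h2 x hx).fun_mul (hk x)) (i2.add i3)
    (by
      have := tendsto_bdd_mul (l := 𝓝[>] (0:ℝ)) (f := fun x => Real.cos (xx j * x)) (g := f1) (M := 1)
        (Eventually.of_forall fun x => Real.abs_cos_le_one _) t0
      simpa [mul_comm] using this)
    (by
      have := tendsto_bdd_mul (l := 𝓝[<] (2:ℝ)) (f := fun x => Real.cos (xx j * x)) (g := f1) (M := 1)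
        (Eventually.of_forall fun x => Real.abs_cos_le_one _) t2
      simpa [mul_comm] using this)
  rw [intervalIntegral.integral_add i1 i0] at e1
  rw [intervalIntegral.integral_add i2 i3] at e2
  have e3 : ∫ x in (0:ℝ)..2, f x * (xx j * Real.cos (xx j * x)) = xx j * ∫ x in (0:ℝ)..2, f x * Real.cos (xx j * x) := by
    rw [← intervalIntegral.integral_const_mul]
    congr 1; ext x; ring
  have e4 : ∫ x in (0:ℝ)..2, f1 x * (-(xx j * Real.sin (xx j * x))) = -(xx j * ∫ x in (0:ℝ)..2, f1 x * Real.sin (xx j * x)) := by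
    rw [← intervalIntegral.integral_const_mul, ← intervalIntegral.integral_neg]
    congr 1; ext x; ring
  rw [e3] at e1
  rw [e4] at e2
  have e5 : ∫ x in (0:ℝ)..2, f1 x * Real.sin (xx j * x) = -(xx j * ∫ x in (0:ℝ)..2, f x * Real.cos (xx j * x)) := by linarith
  rw [e5] at e2
  linear_combination e2

/-- `2n` integrations by parts -/
lemma ibp (n : ℕ) : ∀ (F : ℕ → ℝ → ℝ) (M : ℝ), DSeq (2 * n) (Set.Ioo 0 2) F →
    (∀ i ≤ 2 * n, ∀ x ∈ Set.Ioo (0:ℝ) 2, |F i x| ≤ M) →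
    (∀ i < 2 * n, Odd i → Tendsto (F i) (𝓝[>] 0) (𝓝 0) ∧ Tendsto (F i) (𝓝[<] 2) (𝓝 0)) → ∀ j : ℕ,
    ∫ x in (0:ℝ)..2, F (2 * n) x * Real.cos (xx j * x) =
      (-1) ^ n * (xx j ^ (2 * n) * ∫ x in (0:ℝ)..2, F 0 x * Real.cos (xx j * x)) := by
  induction n with
  | zero => intro F M _ _ _ j; simp
  | succ n ih =>
    intro F M hD hb ht j
    have h1 := ih (fun i => F (i + 2)) M ⟨fun i hi x hx => hD.der (i + 2) (by omega) x hx, hD.cont⟩
      (fun i hi x hx => hb (i + 2) (by omega) x hx)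
      (fun i hi ho => ht (i + 2) (by omega) (by
        obtain ⟨k, hk⟩ := ho
        exact ⟨k + 1, by omega⟩)) j
    have h2 := ibp_two (f := F 0) (f1 := F 1) (f2 := F 2) (M := M) (fun x hx => hD.der 0 (by omega) x hx)
      (fun x hx => hD.der 1 (by omega) x hx) (hD.contAll 2 (by omega)) (hb 0 (by omega)) (hb 1 (by omega)) (hb 2 (by omega))
      (ht 1 (by omega) ⟨0, by norm_num⟩).1 (ht 1 (by omega) ⟨0, by norm_num⟩).2 j
    show ∫ x in (0:ℝ)..2, F (2 * n + 2) x * Real.cos (xx j * x) = _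
    simp only [zero_add] at h1
    rw [h1, h2]
    ring

/-- the weighted estimate -/
lemma weighted (n : ℕ) (F : ℕ → ℝ → ℝ) (M : ℝ) (hD : DSeq (2 * n) (Set.Ioo 0 2) F)
    (hb : ∀ i ≤ 2 * n, ∀ x ∈ Set.Ioo (0:ℝ) 2, |F i x| ≤ M)
    (ht : ∀ i < 2 * n, Odd i → Tendsto (F i) (𝓝[>] 0) (𝓝 0) ∧ Tendsto (F i) (𝓝[<] 2) (𝓝 0)) (J : Finset ℕ) :
    ∑ j ∈ J, (1 + (j : ℝ)) ^ (2 * (2 * n)) * PP (F 0) j ^ 2 ≤ 2 * (1 + 4 ^ (2 * n)) * M ^ 2 := by
  have h1 := bessel_bdd (hD.contAll 0 (by omega)) (hb 0 (by omega)) J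
  have h2 := bessel_bdd hD.cont (hb (2 * n) le_rfl) J
  have h3 : ∀ j, PP (F (2 * n)) j ^ 2 = xx j ^ (2 * (2 * n)) * PP (F 0) j ^ 2 := by
    intro j
    unfold PP
    rw [ibp n F M hD hb ht j]
    have h4 : ((-1 : ℝ) ^ n) ^ 2 = 1 := by rw [← pow_mul, mul_comm, pow_mul]; norm_num
    calc ((-1) ^ n * (xx j ^ (2 * n) * ∫ x in (0:ℝ)..2, F 0 x * Real.cos (xx j * x)) / ww j) ^ 2 =
        ((-1 : ℝ) ^ n) ^ 2 * (xx j ^ (2 * (2 * n)) * ((∫ x in (0:ℝ)..2, F 0 x * Real.cos (xx j * x)) / ww j) ^ 2) := by ring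
      _ = _ := by rw [h4, one_mul]
  have h5 : ∀ j : ℕ, (1 + (j : ℝ)) ^ (2 * (2 * n)) ≤ 1 + 4 ^ (2 * n) * xx j ^ (2 * (2 * n)) := by
    intro j
    rcases Nat.eq_zero_or_pos j with rfl | hj
    · simp only [Nat.cast_zero, add_zero, one_pow]
      have : 0 ≤ (4:ℝ) ^ (2 * n) * xx 0 ^ (2 * (2 * n)) := by unfold xx; positivity
      linarith
    · have h6 : 1 + (j : ℝ) ≤ 2 * xx j := by
        unfold xx
        have h7 : (1:ℝ) ≤ j := by exact_mod_cast hj
        have := Real.pi_gt_three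
        nlinarith
      have h8 : (1 + (j : ℝ)) ^ (2 * (2 * n)) ≤ (2 * xx j) ^ (2 * (2 * n)) := pow_le_pow_left₀ (by positivity) h6 _
      have h9 : (2:ℝ) ^ (2 * (2 * n)) = 4 ^ (2 * n) := by rw [pow_mul]; norm_num
      rw [mul_pow, h9] at h8
      linarith
  calc ∑ j ∈ J, (1 + (j : ℝ)) ^ (2 * (2 * n)) * PP (F 0) j ^ 2
      ≤ ∑ j ∈ J, (PP (F 0) j ^ 2 + 4 ^ (2 * n) * PP (F (2 * n)) j ^ 2) := by
        apply sum_le_sum
        intro j _
        rw [h3]
        nlinarith [h5 j, sq_nonneg (PP (F 0) j)]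
    _ = ∑ j ∈ J, PP (F 0) j ^ 2 + 4 ^ (2 * n) * ∑ j ∈ J, PP (F (2 * n)) j ^ 2 := by
        rw [sum_add_distrib, mul_sum]
    _ ≤ 2 * M ^ 2 + 4 ^ (2 * n) * (2 * M ^ 2) := by gcongr
    _ = _ := by ring


/-! ### derivatives of the cosine and of the Taylor remainder -/

noncomputable def ck (k : ℕ) (z : ℝ) : ℝ := Real.cos (z + k * (Real.pi / 2))

lemma ck_zero (z : ℝ) : ck 0 z = Real.cos z := by simp [ck]

lemma ck_der (k : ℕ) (z : ℝ) : HasDerivAt (ck k) (ck (k + 1) z) z := by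
  have h := ((hasDerivAt_id z).add_const (k * (Real.pi / 2))).cos
  simp only [id, mul_one] at h
  have e : ck (k + 1) z = -Real.sin (z + k * (Real.pi / 2)) := by
    unfold ck
    rw [show z + ((k + 1 : ℕ) : ℝ) * (Real.pi / 2) = z + k * (Real.pi / 2) + Real.pi / 2 by push_cast; ring,
      Real.cos_add_pi_div_two]
  rw [e]
  exact h

lemma ck_abs (k : ℕ) (z : ℝ) : |ck k z| ≤ 1 := Real.abs_cos_le_one _

noncomputable def TP (m : ℕ) : Polynomial ℝ :=
  ∑ i ∈ range m, Polynomial.C ((-1) ^ i / ((2 * i).factorial : ℝ)) * Polynomial.X ^ (2 * i)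

lemma TP_eval (m : ℕ) (y : ℝ) : (TP m).eval y = tay m y := by
  unfold TP tay
  rw [Polynomial.eval_finsetSum]
  apply sum_congr rfl
  intro i _
  simp
  ring

noncomputable def gk (m k : ℕ) (z : ℝ) : ℝ := ck k z - (Polynomial.derivative^[k] (TP m)).eval z

lemma poly_der (P : Polynomial ℝ) (k : ℕ) (z : ℝ) :
    HasDerivAt (fun z => (Polynomial.derivative^[k] P).eval z) ((Polynomial.derivative^[k + 1] P).eval z) z := by
  rw [Function.iterate_succ_apply']
  exact (Polynomial.derivative^[k] P).hasDerivAt z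

lemma gk_der (m k : ℕ) (z : ℝ) : HasDerivAt (gk m k) (gk m (k + 1) z) z :=
  (ck_der k z).fun_sub (poly_der (TP m) k z)

lemma TP_coeff_even (m i : ℕ) (h : i < m) : (TP m).coeff (2 * i) = (-1) ^ i / ((2 * i).factorial : ℝ) := by
  unfold TP
  rw [Polynomial.finsetSum_coeff, sum_eq_single i]
  · simp [Polynomial.coeff_X_pow]
  · intro b _ hb
    have : 2 * i ≠ 2 * b := by omega
    simp [Polynomial.coeff_X_pow, this]
  · intro h2
    exact absurd (mem_range.2 h) h2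

lemma TP_coeff_odd (m k : ℕ) (h : Odd k) : (TP m).coeff k = 0 := by
  unfold TP
  rw [Polynomial.finsetSum_coeff]
  apply sum_eq_zero
  intro b _
  obtain ⟨l, hl⟩ := h
  have : k ≠ 2 * b := by omega
  simp [Polynomial.coeff_X_pow, this]

lemma eval_zero_iter (P : Polynomial ℝ) (k : ℕ) : (Polynomial.derivative^[k] P).eval 0 = k.factorial * P.coeff k := by
  rw [← Polynomial.coeff_zero_eq_eval_zero, Polynomial.coeff_iterate_derivative]
  simp [Nat.descFactorial_self]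

lemma cos_nat_odd (k : ℕ) (h : Odd k) : Real.cos (k * (Real.pi / 2)) = 0 := by
  obtain ⟨l, rfl⟩ := h
  rw [show ((2 * l + 1 : ℕ) : ℝ) * (Real.pi / 2) = Real.pi / 2 + l * Real.pi by push_cast; ring,
    Real.cos_add_nat_mul_pi]
  simp

lemma gk_zero (m k : ℕ) (h : k < 2 * m) : gk m k 0 = 0 := by
  unfold gk ck
  rw [eval_zero_iter, zero_add]
  rcases Nat.even_or_odd k with he | ho
  · obtain ⟨i, rfl⟩ := he
    rw [← two_mul, TP_coeff_even m i (by omega)]
    rw [show ((2 * i : ℕ) : ℝ) * (Real.pi / 2) = 0 + i * Real.pi by push_cast; ring, Real.cos_add_nat_mul_pi]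
    have : ((2 * i).factorial : ℝ) ≠ 0 := by positivity
    field_simp
    simp
  · rw [TP_coeff_odd m k ho, cos_nat_odd k ho]
    simp

lemma TP_top (m : ℕ) : Polynomial.derivative^[2 * m] (TP m) = 0 := by
  rcases Nat.eq_zero_or_pos m with rfl | hm
  · simp [TP]
  apply Polynomial.iterate_derivative_eq_zero
  refine lt_of_le_of_lt (Polynomial.natDegree_sum_le_of_forall_le (n := 2 * m - 1) _ _ ?_) (by omega)
  intro i hi
  rw [mem_range] at hi
  refine (Polynomial.natDegree_C_mul_X_pow_le _ _).trans (by omega)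

lemma gk_bound (m : ℕ) : ∀ l ≤ 2 * m, ∀ z : ℝ, 0 ≤ z → |gk m (2 * m - l) z| ≤ z ^ l := by
  intro l
  induction l with
  | zero =>
    intro _ z _
    unfold gk
    rw [Nat.sub_zero, TP_top]
    simpa using ck_abs (2 * m) z
  | succ l ih =>
    intro hl z hz
    have h1 : ∀ x ∈ Set.Icc (0:ℝ) z, ‖gk m (2 * m - l) x‖ ≤ z ^ l := fun x hx =>
      (ih (by omega) x hx.1).trans (pow_le_pow_left₀ hx.1 hx.2 l)
    have h2 : ∀ x ∈ Set.Icc (0:ℝ) z, HasDerivWithinAt (gk m (2 * m - (l + 1))) (gk m (2 * m - l) x) (Set.Icc 0 z) x := by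
      intro x _
      have := gk_der m (2 * m - (l + 1)) x
      rw [show 2 * m - (l + 1) + 1 = 2 * m - l by omega] at this
      exact this.hasDerivWithinAt
    have h3 := (convex_Icc (0:ℝ) z).norm_image_sub_le_of_norm_hasDerivWithin_le h2 h1
      (Set.left_mem_Icc.2 hz) (Set.right_mem_Icc.2 hz)
    rw [gk_zero m _ (by omega), sub_zero, sub_zero, Real.norm_eq_abs, Real.norm_eq_abs, abs_of_nonneg hz] at h3
    rw [pow_succ]
    exact h3

lemma gk_bound' (m k : ℕ) (hk : k ≤ 2 * m) (z : ℝ) (hz : 0 ≤ z) : |gk m k z| ≤ z ^ (2 * m - k) := by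
  have := gk_bound m (2 * m - k) (by omega) z hz
  rwa [show 2 * m - (2 * m - k) = k by omega] at this

/-! ### derivatives of `y^N G(1/y)` -/

noncomputable def kap (N : ℕ) : ℕ → ℕ → ℝ
  | 0, 0 => 1
  | 0, _ + 1 => 0
  | i + 1, 0 => ((N : ℝ) - i) * kap N i 0
  | i + 1, l + 1 => ((N : ℝ) - i - (l + 1)) * kap N i (l + 1) - kap N i l

lemma kap_gt (N : ℕ) : ∀ i l : ℕ, i < l → kap N i l = 0 := by
  intro i
  induction i with
  | zero => intro l hl; obtain ⟨l, rfl⟩ : ∃ k, l = k + 1 := ⟨l - 1, by omega⟩; rfl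
  | succ i ih =>
    intro l hl
    obtain ⟨l, rfl⟩ : ∃ k, l = k + 1 := ⟨l - 1, by omega⟩
    show ((N : ℝ) - i - (l + 1)) * kap N i (l + 1) - kap N i l = 0
    rw [ih _ (by omega), ih _ (by omega)]; ring

noncomputable def phj (N : ℕ) (G : ℕ → ℝ → ℝ) (i : ℕ) (y : ℝ) : ℝ :=
  ∑ l ∈ range (i + 1), kap N i l * (y ^ (N - i - l) * G l y⁻¹)

lemma phj_der (m : ℕ) (G : ℕ → ℝ → ℝ) (hG : ∀ k z, HasDerivAt (G k) (G (k + 1) z) z) (i : ℕ) (hi : i < m) (y : ℝ)
    (hy : 0 < y) : HasDerivAt (phj (2 * m) G i) (phj (2 * m) G (i + 1) y) y := by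
  have hterm : ∀ l ∈ range (i + 1), HasDerivAt (fun y => kap (2 * m) i l * (y ^ (2 * m - i - l) * G l y⁻¹))
      (((2 * m : ℕ) - i - l : ℝ) * kap (2 * m) i l * (y ^ (2 * m - (i + 1) - l) * G l y⁻¹) -
        kap (2 * m) i l * (y ^ (2 * m - (i + 1) - (l + 1)) * G (l + 1) y⁻¹)) y := by
    intro l hl
    rw [mem_range] at hl
    have h1 := hasDerivAt_pow (2 * m - i - l) y
    have h2 := (hG l y⁻¹).comp y (hasDerivAt_inv hy.ne')
    have h3 := (h1.mul h2).const_mul (kap (2 * m) i l)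
    have e1 : ((2 * m - i - l : ℕ) : ℝ) = ((2 * m : ℕ) : ℝ) - i - l := by
      rw [Nat.cast_sub (by omega), Nat.cast_sub (by omega)]
    have e2 : 2 * m - i - l - 1 = 2 * m - (i + 1) - l := by omega
    have e3 : 2 * m - i - l = (2 * m - (i + 1) - (l + 1)) + 2 := by omega
    refine h3.congr_deriv ?_
    simp only [Function.comp_apply]
    rw [e1, e2]
    rw [e3, pow_add]
    field_simp
    ring
  have h := HasDerivAt.fun_sum hterm
  have e : phj (2 * m) G (i + 1) y = ∑ l ∈ range (i + 1),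
      (((2 * m : ℕ) - i - l : ℝ) * kap (2 * m) i l * (y ^ (2 * m - (i + 1) - l) * G l y⁻¹) -
        kap (2 * m) i l * (y ^ (2 * m - (i + 1) - (l + 1)) * G (l + 1) y⁻¹)) := by
    unfold phj
    rw [sum_range_succ' _ (i + 1), sum_sub_distrib, sum_range_succ' (fun l => (((2 * m : ℕ) - i - l : ℝ) * kap (2 * m) i l *
      (y ^ (2 * m - (i + 1) - l) * G l y⁻¹))) i]
    have h1 : ∑ k ∈ range (i + 1), kap (2 * m) (i + 1) (k + 1) * (y ^ (2 * m - (i + 1) - (k + 1)) * G (k + 1) y⁻¹) =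
        ∑ k ∈ range i, ((2 * m : ℕ) - i - ((k + 1 : ℕ) : ℝ)) * kap (2 * m) i (k + 1) *
          (y ^ (2 * m - (i + 1) - (k + 1)) * G (k + 1) y⁻¹) -
        ∑ k ∈ range (i + 1), kap (2 * m) i k * (y ^ (2 * m - (i + 1) - (k + 1)) * G (k + 1) y⁻¹) := by
      have h2 : ∑ k ∈ range i, ((2 * m : ℕ) - i - ((k + 1 : ℕ) : ℝ)) * kap (2 * m) i (k + 1) *
          (y ^ (2 * m - (i + 1) - (k + 1)) * G (k + 1) y⁻¹) =
          ∑ k ∈ range (i + 1), ((2 * m : ℕ) - i - ((k + 1 : ℕ) : ℝ)) * kap (2 * m) i (k + 1) *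
          (y ^ (2 * m - (i + 1) - (k + 1)) * G (k + 1) y⁻¹) := by
        rw [sum_range_succ _ i, kap_gt (2 * m) i (i + 1) (by omega)]; ring
      rw [h2, ← sum_sub_distrib]
      apply sum_congr rfl
      intro k _
      have h3 : kap (2 * m) (i + 1) (k + 1) = (((2 * m : ℕ) : ℝ) - i - (k + 1)) * kap (2 * m) i (k + 1) - kap (2 * m) i k := rfl
      rw [h3]
      push_cast
      ring
    rw [h1]
    have h4 : kap (2 * m) (i + 1) 0 = (((2 * m : ℕ) : ℝ) - i) * kap (2 * m) i 0 := rfl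
    rw [h4]
    push_cast
    ring
  rw [e]
  exact h

noncomputable def KK (N i : ℕ) : ℝ := ∑ l ∈ range (i + 1), |kap N i l|

lemma KK_nonneg (N i : ℕ) : 0 ≤ KK N i := sum_nonneg fun _ _ => abs_nonneg _

lemma phj_le (N : ℕ) (G : ℕ → ℝ → ℝ) (i : ℕ) (y B : ℝ) (h : ∀ l ≤ i, |y ^ (N - i - l) * G l y⁻¹| ≤ B) :
    |phj N G i y| ≤ KK N i * B := by
  unfold phj KK
  rw [sum_mul]
  refine (abs_sum_le_sum_abs _ _).trans (sum_le_sum fun l hl => ?_)
  rw [mem_range] at hl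
  rw [abs_mul]
  exact mul_le_mul_of_nonneg_left (h l (by omega)) (abs_nonneg _)

/-- `y ≤ 1`, cosine part -/
lemma phj_small (m i : ℕ) (hi : i ≤ m) (y : ℝ) (hy : 0 < y) (hy1 : y ≤ 1) : |phj (2 * m) ck i y| ≤ KK (2 * m) i := by
  have := phj_le (2 * m) ck i y 1 (fun l hl => by
    rw [abs_mul, abs_of_nonneg (pow_nonneg hy.le _)]
    exact mul_le_one₀ (pow_le_one₀ hy.le hy1) (abs_nonneg _) (ck_abs _ _))
  simpa using this

lemma phj_small' (m i : ℕ) (hi : i < m) (y : ℝ) (hy : 0 < y) (hy1 : y ≤ 1) : |phj (2 * m) ck i y| ≤ KK (2 * m) i * y := by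
  apply phj_le
  intro l hl
  rw [abs_mul, abs_of_nonneg (pow_nonneg hy.le _)]
  have h1 : y ^ (2 * m - i - l) ≤ y ^ 1 := pow_le_pow_of_le_one hy.le hy1 (by omega)
  rw [pow_one] at h1
  calc y ^ (2 * m - i - l) * |ck l y⁻¹| ≤ y ^ (2 * m - i - l) * 1 :=
        mul_le_mul_of_nonneg_left (ck_abs _ _) (pow_nonneg hy.le _)
    _ ≤ y := by rw [mul_one]; exact h1

/-- `y ≥ 1`, Taylor remainder -/
lemma phj_large (m i : ℕ) (hi : i ≤ m) (y : ℝ) (hy : 1 ≤ y) : |phj (2 * m) (gk m) i y| ≤ KK (2 * m) i := by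
  have hy0 : 0 < y := by linarith
  have := phj_le (2 * m) (gk m) i y 1 (fun l hl => by
    rw [abs_mul, abs_of_nonneg (pow_nonneg hy0.le _)]
    have h1 := gk_bound' m l (by omega) y⁻¹ (inv_nonneg.2 hy0.le)
    calc y ^ (2 * m - i - l) * |gk m l y⁻¹| ≤ y ^ (2 * m - i - l) * y⁻¹ ^ (2 * m - l) := by gcongr
      _ ≤ 1 := by
        rw [inv_pow, ← div_eq_mul_inv, div_le_one (by positivity)]
        exact pow_le_pow_right₀ hy (by omega))
  simpa using this

/-! ### the function `Ψ` -/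

noncomputable def QP (m : ℕ) : Polynomial ℝ :=
  ∑ i ∈ range m, Polynomial.C ((-1) ^ i / ((2 * i).factorial : ℝ)) * Polynomial.X ^ (2 * m - 2 * i)

lemma QP_eval (m : ℕ) (y : ℝ) (hy : y ≠ 0) : (QP m).eval y = y ^ (2 * m) * tay m y⁻¹ := by
  unfold QP tay
  rw [Polynomial.eval_finsetSum, mul_sum]
  apply sum_congr rfl
  intro i hi
  rw [mem_range] at hi
  have e : y ^ (2 * m) = y ^ (2 * m - 2 * i) * y ^ (2 * i) := by rw [← pow_add]; congr 1; omega
  rw [e]
  simp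
  field_simp

lemma QP_coeff_odd (m k : ℕ) (h : Odd k) : (QP m).coeff k = 0 := by
  unfold QP
  rw [Polynomial.finsetSum_coeff]
  apply sum_eq_zero
  intro b hb
  rw [mem_range] at hb
  obtain ⟨l, hl⟩ := h
  have : k ≠ 2 * m - 2 * b := by omega
  simp [Polynomial.coeff_X_pow, this]

lemma QP_zero (m : ℕ) : (QP m).eval 0 = 0 := by
  unfold QP
  rw [Polynomial.eval_finsetSum]
  apply sum_eq_zero
  intro i hi
  rw [mem_range] at hi
  have : 2 * m - 2 * i ≠ 0 := by omega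
  simp [this]

noncomputable def Psi (m i : ℕ) (y : ℝ) : ℝ := phj (2 * m) ck i y - (Polynomial.derivative^[i] (QP m)).eval y

lemma phj_zero (N : ℕ) (G : ℕ → ℝ → ℝ) (y : ℝ) : phj N G 0 y = y ^ N * G 0 y⁻¹ := by
  simp [phj, kap]

lemma Psi_zero (m : ℕ) (y : ℝ) (hy : y ≠ 0) : Psi m 0 y = y ^ (2 * m) * gk m 0 y⁻¹ := by
  unfold Psi gk
  rw [phj_zero]
  simp only [Function.iterate_zero, id]
  rw [QP_eval m y hy, TP_eval]
  ring

lemma phj_dseq (m : ℕ) (G : ℕ → ℝ → ℝ) (hG : ∀ k z, HasDerivAt (G k) (G (k + 1) z) z) :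
    DSeq m (Set.Ioi 0) (phj (2 * m) G) := by
  refine ⟨fun i hi y hy => phj_der m G hG i hi y hy, ?_⟩
  unfold phj
  apply continuousOn_finsetSum
  intro l _
  have h1 : Continuous (G l) := continuous_iff_continuousAt.2 fun z => (hG l z).continuousAt
  have h2 : ContinuousOn (fun y : ℝ => y⁻¹) (Set.Ioi 0) := continuousOn_inv₀.mono (fun x hx => (ne_of_gt hx))
  exact continuousOn_const.mul ((continuousOn_id.pow _).mul (h1.comp_continuousOn h2))

lemma Psi_dseq (m : ℕ) : DSeq m (Set.Ioi 0) (Psi m) :=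
  (phj_dseq m ck ck_der).sub ⟨fun i _ y _ => poly_der (QP m) i y, (Polynomial.continuous _).continuousOn⟩

lemma Psi_bound (m : ℕ) : ∃ C : ℝ, 0 < C ∧ ∀ i ≤ m, ∀ y : ℝ, 0 < y → |Psi m i y| ≤ C := by
  have hP : ∃ A : ℝ, 0 < A ∧ ∀ i ≤ m, ∀ y ∈ Set.Icc (0:ℝ) 1, |(Polynomial.derivative^[i] (QP m)).eval y| ≤ A := by
    have key : ∀ n : ℕ, ∃ A : ℝ, 0 < A ∧ ∀ i ≤ n, ∀ y ∈ Set.Icc (0:ℝ) 1,
        |(Polynomial.derivative^[i] (QP m)).eval y| ≤ A := by
      intro n
      induction n with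
      | zero =>
        obtain ⟨C, hC⟩ := (isCompact_Icc (a := (0:ℝ)) (b := 1)).exists_bound_of_continuousOn
          (Polynomial.continuous (Polynomial.derivative^[0] (QP m))).continuousOn
        refine ⟨max C 1, by positivity, fun i hi' x hx => ?_⟩
        obtain rfl : i = 0 := by omega
        exact (hC x hx).trans (le_max_left _ _)
      | succ n ih =>
        obtain ⟨A, hA, h⟩ := ih
        obtain ⟨C, hC⟩ := (isCompact_Icc (a := (0:ℝ)) (b := 1)).exists_bound_of_continuousOn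
          (Polynomial.continuous (Polynomial.derivative^[n + 1] (QP m))).continuousOn
        refine ⟨max A C, lt_max_of_lt_left hA, fun i hi' x hx => ?_⟩
        rcases Nat.lt_or_ge n i with h1 | h1
        · obtain rfl : i = n + 1 := by omega
          exact (hC x hx).trans (le_max_right _ _)
        · exact (h i h1 x hx).trans (le_max_left _ _)
    exact key m
  obtain ⟨A, hA, hP⟩ := hP
  refine ⟨∑ i ∈ range (m + 1), KK (2 * m) i + A, add_pos_of_nonneg_of_pos (sum_nonneg fun i _ => KK_nonneg _ _) hA, ?_⟩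
  intro i hi y hy
  have h1 : KK (2 * m) i ≤ ∑ i ∈ range (m + 1), KK (2 * m) i :=
    single_le_sum (f := fun i => KK (2 * m) i) (fun i _ => KK_nonneg _ _) (mem_range.2 (by omega))
  rcases le_total y 1 with h2 | h2
  · have h3 := phj_small m i hi y hy h2
    have h4 := hP i hi y ⟨hy.le, h2⟩
    unfold Psi
    refine (abs_sub _ _).trans ?_
    linarith
  · have h3 := phj_large m i hi y h2
    have h4 : Psi m i y = phj (2 * m) (gk m) i y :=
      DSeq.eqOn isOpen_Ioi subset_rfl subset_rfl (Psi_dseq m) (phj_dseq m (gk m) (gk_der m))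
        (fun x hx => by rw [phj_zero]; exact Psi_zero m x (ne_of_gt hx)) i hi y hy
    rw [h4]
    linarith

lemma Psi_lim (m i : ℕ) (hi : i < m) (ho : Odd i) : Tendsto (Psi m i) (𝓝[>] 0) (𝓝 0) := by
  have h1 : Tendsto (phj (2 * m) ck i) (𝓝[>] 0) (𝓝 0) := by
    rw [tendsto_zero_iff_norm_tendsto_zero]
    have h2 : Tendsto (fun y : ℝ => KK (2 * m) i * y) (𝓝[>] 0) (𝓝 0) := by
      have : Tendsto (fun y : ℝ => KK (2 * m) i * y) (𝓝 0) (𝓝 (KK (2 * m) i * 0)) := (continuous_const.mul continuous_id).tendsto 0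
      rw [mul_zero] at this
      exact this.mono_left nhdsWithin_le_nhds
    refine squeeze_zero' (Eventually.of_forall fun x => norm_nonneg _) ?_ h2
    filter_upwards [Ioc_mem_nhdsGT (show (0:ℝ) < 1 by norm_num)] with y hy
    exact phj_small' m i hi y hy.1 hy.2
  have h3 : Tendsto (fun y => (Polynomial.derivative^[i] (QP m)).eval y) (𝓝[>] 0) (𝓝 0) := by
    have h4 := (Polynomial.continuous (Polynomial.derivative^[i] (QP m))).tendsto 0
    rw [eval_zero_iter, QP_coeff_odd m i ho, mul_zero] at h4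
    exact h4.mono_left nhdsWithin_le_nhds
  have := h1.sub h3
  rwa [sub_zero] at this


lemma zero_dseq (n : ℕ) (s : Set ℝ) : DSeq n s (fun _ _ => 0) :=
  ⟨fun _ _ x _ => hasDerivAt_const x 0, continuousOn_const⟩

/-- first part: `win * s0Q` -/
lemma part_one (n : ℕ) (hn : 1 ≤ n) : ∃ C : ℝ, 0 < C ∧ ∀ c : ℝ, 0 < c → c ≤ 1 → ∀ J : Finset ℕ,
    ∑ j ∈ J, (1 + (j : ℝ)) ^ (2 * (2 * n)) * PP (fun x => win x * s0Q (2 * n) c x) j ^ 2 ≤ C * c ^ (2 * (2 * n)) := by
  have hw : ContDiff ℝ ((⊤ : ℕ∞) : WithTop ℕ∞) win := by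
    unfold win
    exact Real.smoothTransition.contDiff.comp (by fun_prop)
  obtain ⟨A, hA, hwb⟩ := smooth_bdd hw (2 * n) 0 2
  refine ⟨2 * (1 + 4 ^ (2 * n)) * (2 ^ (2 * n) * (A * 2 ^ (2 * (2 * n)))) ^ 2, by positivity, fun c hc hc1 J => ?_⟩
  set m := 2 * n with hm
  have hS : DSeq m (Set.Ioo 0 2) (fun i x => 1 * c ^ i * gk m i (c * x)) := by
    have h1 : DSeq m Set.univ (gk m) := ⟨fun i _ x _ => gk_der m i x,
      (continuous_iff_continuousAt.2 fun z => (gk_der m m z).continuousAt).continuousOn⟩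
    exact h1.scale 1 c (fun x _ => Set.mem_univ _)
  have hSb : ∀ i ≤ m, ∀ x ∈ Set.Ioo (0:ℝ) 2, |1 * c ^ i * gk m i (c * x)| ≤ 2 ^ (2 * m) * c ^ m := by
    intro i hi x hx
    have h1 := gk_bound' m i (by omega) (c * x) (by have := hx.1; positivity)
    rw [one_mul, abs_mul, abs_of_nonneg (pow_nonneg hc.le _)]
    calc c ^ i * |gk m i (c * x)| ≤ c ^ i * (c * x) ^ (2 * m - i) := by gcongr
      _ = c ^ (2 * m) * x ^ (2 * m - i) := by
        rw [mul_pow, ← mul_assoc, ← pow_add]; congr 2; omega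
      _ ≤ c ^ m * 2 ^ (2 * m) := by
        apply mul_le_mul (pow_le_pow_of_le_one hc.le hc1 (by omega)) _ (pow_nonneg hx.1.le _) (by positivity)
        calc x ^ (2 * m - i) ≤ 2 ^ (2 * m - i) := pow_le_pow_left₀ hx.1.le hx.2.le _
          _ ≤ 2 ^ (2 * m) := pow_le_pow_right₀ (by norm_num) (by omega)
      _ = _ := by ring
  obtain ⟨H, dH, zH, bH⟩ := DSeq.mul m _ _ A (2 ^ (2 * m) * c ^ m) (dseq_smooth hw m (Set.Ioo 0 2)) hS
    (fun i hi x hx => hwb i hi x ⟨hx.1.le, hx.2.le⟩) hSb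
  have hf : (fun x => win x * s0Q m c x) = H 0 := by
    ext x
    rw [zH, iteratedDeriv_zero, pow_zero, one_mul, one_mul]
    congr 1
    unfold gk s0Q
    simp only [Function.iterate_zero, id]
    rw [ck_zero, TP_eval]
  rw [hf]
  have hb : ∀ i ≤ m, ∀ x ∈ Set.Ioo (0:ℝ) 2, |H i x| ≤ 2 ^ m * (A * 2 ^ (2 * m)) * c ^ m := by
    intro i hi x hx
    refine (bH i hi x hx).trans ?_
    have : (2:ℝ) ^ i ≤ 2 ^ m := pow_le_pow_right₀ (by norm_num) hi
    calc (2:ℝ) ^ i * (A * (2 ^ (2 * m) * c ^ m)) ≤ 2 ^ m * (A * (2 ^ (2 * m) * c ^ m)) := by gcongr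
      _ = _ := by ring
  have hlim : ∀ i < m, Odd i → Tendsto (H i) (𝓝[>] 0) (𝓝 0) ∧ Tendsto (H i) (𝓝[<] 2) (𝓝 0) := by
    intro i hi _
    constructor
    · have h1 : ∀ x ∈ Set.Ioo (0:ℝ) (3 / 2), H i x = 1 * c ^ i * gk m i (c * x) := by
        apply DSeq.eqOn isOpen_Ioo (Set.Ioo_subset_Ioo le_rfl (by norm_num)) (Set.Ioo_subset_Ioo le_rfl (by norm_num)) dH hS _ i hi.le
        intro x hx
        rw [zH, iteratedDeriv_zero]
        have : win x = 1 := Real.smoothTransition.one_of_one_le (by linarith [hx.2])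
        rw [this, one_mul]
      have h2 : Tendsto (fun x => 1 * c ^ i * gk m i (c * x)) (𝓝[>] 0) (𝓝 0) := by
        have h3 : Continuous (gk m i) := continuous_iff_continuousAt.2 fun z => (gk_der m i z).continuousAt
        have h4 : Continuous (fun x => 1 * c ^ i * gk m i (c * x)) := by fun_prop
        have h5 := h4.tendsto 0
        rw [mul_zero, gk_zero m i (by omega), mul_zero] at h5
        exact h5.mono_left nhdsWithin_le_nhds
      refine h2.congr' ?_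
      filter_upwards [Ioo_mem_nhdsGT (show (0:ℝ) < 3 / 2 by norm_num)] with x hx
      exact (h1 x hx).symm
    · have h1 : ∀ x ∈ Set.Ioo (7 / 4 : ℝ) 2, H i x = 0 := by
        apply DSeq.eqOn isOpen_Ioo (Set.Ioo_subset_Ioo (by norm_num) le_rfl) (Set.Ioo_subset_Ioo (by norm_num) le_rfl) dH
          (zero_dseq m (Set.Ioo 0 2)) _ i hi.le
        intro x hx
        rw [zH, iteratedDeriv_zero]
        have : win x = 0 := Real.smoothTransition.zero_of_nonpos (by linarith [hx.1])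
        rw [this, zero_mul]
      refine tendsto_const_nhds.congr' ?_
      filter_upwards [Ioo_mem_nhdsLT (show (7 / 4 : ℝ) < 2 by norm_num)] with x hx
      exact (h1 x hx).symm
  refine (weighted n H _ dH hb hlim J).trans (le_of_eq ?_)
  ring

/-- second part: the dual term -/
lemma part_two (n : ℕ) (hn : 1 ≤ n) (R : ℕ) (hR : 2 ≤ R) : ∃ C : ℝ, 0 < C ∧ ∀ c : ℝ, 0 < c → c ≤ 1 → ∀ J : Finset ℕ,
    ∑ j ∈ J, (1 + (j : ℝ)) ^ (2 * (2 * n)) * PP (DR (2 * n) R (s0Q (2 * n) c)) j ^ 2 ≤ C * c ^ (2 * (2 * n)) := by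
  have hR' : (2:ℝ) ≤ R := by exact_mod_cast hR
  have hR0 : (0:ℝ) < R := by linarith
  have hw : ContDiff ℝ ((⊤ : ℕ∞) : WithTop ℕ∞) (fun x => chi2 ((R : ℝ) ^ 2 * x)) := by
    unfold chi2
    exact Real.smoothTransition.contDiff.comp (by fun_prop)
  obtain ⟨A, hA, hwb⟩ := smooth_bdd hw (2 * n) 0 2
  obtain ⟨D, hD, hPsi⟩ := Psi_bound (2 * n)
  refine ⟨2 * (1 + 4 ^ (2 * n)) * (2 ^ (2 * n) * (A * D)) ^ 2, by positivity, fun c hc hc1 J => ?_⟩
  set m := 2 * n with hm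
  set b : ℝ := (R : ℝ) ^ 2 / c with hb
  set a : ℝ := (c / R) ^ (2 * m) with ha
  have hb0 : 0 < b := by positivity
  have hS : DSeq m (Set.Ioo 0 2) (fun i x => a * b ^ i * Psi m i (b * x)) :=
    (Psi_dseq m).scale a b (fun x hx => mul_pos hb0 hx.1)
  have hSb : ∀ i ≤ m, ∀ x ∈ Set.Ioo (0:ℝ) 2, |a * b ^ i * Psi m i (b * x)| ≤ D * c ^ m := by
    intro i hi x hx
    have h1 := hPsi i hi (b * x) (mul_pos hb0 hx.1)
    have h2 : a * b ^ i ≤ c ^ m := by
      have e : a * b ^ i = c ^ m * (c ^ (m - i) * ((R : ℝ)⁻¹ ^ (2 * (m - i)))) := by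
        rw [ha, hb, div_pow, div_pow]
        have e1 : c ^ (2 * m) = c ^ m * c ^ (m - i) * c ^ i := by rw [← pow_add, ← pow_add]; congr 1; omega
        have e2 : (R : ℝ) ^ (2 * m) = ((R : ℝ) ^ 2) ^ i * (R : ℝ) ^ (2 * (m - i)) := by
          rw [← pow_mul, ← pow_add]; congr 1; omega
        rw [e1, e2, inv_pow]
        field_simp
      rw [e]
      have h3 : c ^ (m - i) * ((R : ℝ)⁻¹ ^ (2 * (m - i))) ≤ 1 :=
        mul_le_one₀ (pow_le_one₀ hc.le hc1) (by positivity) (pow_le_one₀ (by positivity) (inv_le_one_of_one_le₀ (by linarith)))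
      calc c ^ m * (c ^ (m - i) * ((R : ℝ)⁻¹ ^ (2 * (m - i)))) ≤ c ^ m * 1 := by gcongr
        _ = c ^ m := mul_one _
    have h4 : 0 ≤ a * b ^ i := by positivity
    rw [abs_mul, abs_of_nonneg h4, mul_comm D]
    exact mul_le_mul h2 h1 (abs_nonneg _) (by positivity)
  obtain ⟨H, dH, zH, bH⟩ := DSeq.mul m _ _ A (D * c ^ m) (dseq_smooth hw m (Set.Ioo 0 2)) hS
    (fun i hi x hx => hwb i hi x ⟨hx.1.le, hx.2.le⟩) hSb
  have hf : DR m R (s0Q m c) = H 0 := by
    ext x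
    rw [zH, iteratedDeriv_zero, pow_zero, mul_one]
    unfold DR
    rw [mul_assoc]
    congr 1
    rcases eq_or_ne x 0 with rfl | hx
    · have h1 : Psi m 0 (b * 0) = 0 := by
        unfold Psi
        simp only [Function.iterate_zero, id, mul_zero]
        rw [phj_zero, QP_zero, zero_pow (by omega)]
        ring
      rw [h1, mul_zero, zero_pow (by omega)]
      ring
    · have hbx : b * x ≠ 0 := mul_ne_zero hb0.ne' hx
      rw [Psi_zero m (b * x) hbx]
      have e1 : c * ((R : ℝ) ^ 2 * x)⁻¹ = (b * x)⁻¹ := by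
        rw [hb]; field_simp
      have e2 : s0Q m c ((R : ℝ) ^ 2 * x)⁻¹ = gk m 0 (b * x)⁻¹ := by
        unfold gk s0Q
        simp only [Function.iterate_zero, id]
        rw [ck_zero, TP_eval, e1]
      have e3 : ((R : ℝ) * x) ^ (2 * m) = (c / R) ^ (2 * m) * (b * x) ^ (2 * m) := by
        rw [← mul_pow]
        congr 1
        rw [hb]
        field_simp
      rw [e2, e3, ha, mul_assoc]
  rw [hf]
  have hb' : ∀ i ≤ m, ∀ x ∈ Set.Ioo (0:ℝ) 2, |H i x| ≤ 2 ^ m * (A * D) * c ^ m := by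
    intro i hi x hx
    refine (bH i hi x hx).trans ?_
    have : (2:ℝ) ^ i ≤ 2 ^ m := pow_le_pow_right₀ (by norm_num) hi
    calc (2:ℝ) ^ i * (A * (D * c ^ m)) ≤ 2 ^ m * (A * (D * c ^ m)) := by gcongr
      _ = _ := by ring
  have hR4 : (4:ℝ) ≤ (R : ℝ) ^ 2 := by nlinarith
  have hlim : ∀ i < m, Odd i → Tendsto (H i) (𝓝[>] 0) (𝓝 0) ∧ Tendsto (H i) (𝓝[<] 2) (𝓝 0) := by
    intro i hi ho
    constructor
    · have hδ : (0:ℝ) < 2 / (3 * (R : ℝ) ^ 2) := by positivity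
      have hδ2 : 2 / (3 * (R : ℝ) ^ 2) ≤ 2 := by
        rw [div_le_iff₀ (by positivity)]
        nlinarith
      have h1 : ∀ x ∈ Set.Ioo (0:ℝ) (2 / (3 * (R : ℝ) ^ 2)), H i x = a * b ^ i * Psi m i (b * x) := by
        apply DSeq.eqOn isOpen_Ioo (Set.Ioo_subset_Ioo le_rfl hδ2) (Set.Ioo_subset_Ioo le_rfl hδ2) dH hS _ i hi.le
        intro x hx
        rw [zH, iteratedDeriv_zero]
        have : chi2 ((R : ℝ) ^ 2 * x) = 1 := by
          apply Real.smoothTransition.one_of_one_le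
          have h2 := hx.2
          rw [lt_div_iff₀ (by positivity)] at h2
          linarith
        simp only [this, one_mul]
      have h2 : Tendsto (fun x => a * b ^ i * Psi m i (b * x)) (𝓝[>] 0) (𝓝 0) := by
        have h3 : Tendsto (fun x : ℝ => b * x) (𝓝[>] 0) (𝓝[>] 0) := by
          apply tendsto_nhdsWithin_iff.2
          constructor
          · have h4 : Continuous fun x : ℝ => b * x := by fun_prop
            have h5 := h4.tendsto 0
            rw [mul_zero] at h5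
            exact h5.mono_left nhdsWithin_le_nhds
          · filter_upwards [self_mem_nhdsWithin] with x hx
            exact mul_pos hb0 hx
        have h4 := ((Psi_lim m i hi ho).comp h3).const_mul (a * b ^ i)
        rw [mul_zero] at h4
        exact h4
      refine h2.congr' ?_
      filter_upwards [Ioo_mem_nhdsGT hδ] with x hx
      exact (h1 x hx).symm
    · have h1 : ∀ x ∈ Set.Ioo (1 : ℝ) 2, H i x = 0 := by
        apply DSeq.eqOn isOpen_Ioo (Set.Ioo_subset_Ioo (by norm_num) le_rfl) (Set.Ioo_subset_Ioo (by norm_num) le_rfl) dH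
          (zero_dseq m (Set.Ioo 0 2)) _ i hi.le
        intro x hx
        rw [zH, iteratedDeriv_zero]
        have : chi2 ((R : ℝ) ^ 2 * x) = 0 := by
          apply Real.smoothTransition.zero_of_nonpos
          nlinarith [hx.1]
        simp only [this, zero_mul]
      refine tendsto_const_nhds.congr' ?_
      filter_upwards [Ioo_mem_nhdsLT (show (1 : ℝ) < 2 by norm_num)] with x hx
      exact (h1 x hx).symm
  refine (weighted n H _ dH hb' hlim J).trans (le_of_eq ?_)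
  ring

/-- the weights -/
lemma WS_le (m : ℕ) (hm : 1 ≤ m) (c : ℝ) (hc : 0 < c) (hc1 : c ≤ 1) (j : ℕ) :
    WS m c j ≤ 16 ^ 4 * c * (c⁻¹) ^ (2 * m) * (1 + (j : ℝ)) ^ (2 * m) := by
  unfold WS WW
  set t : ℝ := (1 + j) / c with ht
  have hj : (0:ℝ) ≤ j := Nat.cast_nonneg j
  have ht1 : 1 ≤ t := by rw [ht, le_div_iff₀ hc]; linarith
  have ht0 : 0 < t := by linarith
  have e1 : (1 + (j : ℝ)) = c * t := by rw [ht]; field_simp
  have h1 : Real.log t ≤ 16 * t ^ (1 / 16 : ℝ) := by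
    have := Real.log_le_rpow_div ht0.le (show (0:ℝ) < 1 / 16 by norm_num)
    linarith
  have h0 : 0 ≤ Real.log t := Real.log_nonneg ht1
  have h2 : Real.log t ^ 4 ≤ 16 ^ 4 * t ^ (1 / 4 : ℝ) := by
    calc Real.log t ^ 4 ≤ (16 * t ^ (1 / 16 : ℝ)) ^ 4 := pow_le_pow_left₀ h0 h1 4
      _ = 16 ^ 4 * (t ^ (1 / 16 : ℝ)) ^ 4 := by ring
      _ = _ := by
        rw [← Real.rpow_natCast (t ^ (1 / 16 : ℝ)) 4, ← Real.rpow_mul ht0.le]
        norm_num
  rw [e1]
  calc c * t * Real.log t ^ 4 * t ^ (2 * (m : ℝ) - 5 / 4) ≤ c * t * (16 ^ 4 * t ^ (1 / 4 : ℝ)) * t ^ (2 * (m : ℝ) - 5 / 4) := by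
        gcongr
    _ = 16 ^ 4 * c * (t ^ (1 : ℝ) * t ^ (1 / 4 : ℝ) * t ^ (2 * (m : ℝ) - 5 / 4)) := by rw [Real.rpow_one]; ring
    _ = 16 ^ 4 * c * t ^ (2 * m) := by
      rw [← Real.rpow_add ht0, ← Real.rpow_add ht0]
      rw [show (1 : ℝ) + 1 / 4 + (2 * (m : ℝ) - 5 / 4) = ((2 * m : ℕ) : ℝ) by push_cast; ring, Real.rpow_natCast]
    _ = _ := by
      rw [mul_pow]
      have : (c⁻¹) ^ (2 * m) * c ^ (2 * m) = 1 := by rw [← mul_pow, inv_mul_cancel₀ hc.ne', one_pow]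
      calc 16 ^ 4 * c * t ^ (2 * m) = 16 ^ 4 * c * ((c⁻¹) ^ (2 * m) * c ^ (2 * m)) * t ^ (2 * m) := by rw [this, mul_one]
        _ = _ := by ring

theorem main : TaskNQ := by
  intro m hm hev R hR ρ hρ
  obtain ⟨n, rfl⟩ := hev
  rw [← two_mul] at *
  obtain ⟨C1, hC1, h1⟩ := part_one n (by omega)
  obtain ⟨C2, hC2, h2⟩ := part_two n (by omega) R hR
  set K : ℝ := 16 ^ 4 * (2 * C1 + 2 * C2) with hK
  have hK0 : 0 < K := by positivity
  refine ⟨min 1 (ρ / K), by positivity, fun c hc hc0 J => ?_⟩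
  have hc1 : c ≤ 1 := hc0.trans (min_le_left _ _)
  have hc2 : c ≤ ρ / K := hc0.trans (min_le_right _ _)
  have h3 := h1 c hc hc1 (range J)
  have h4 := h2 c hc hc1 (range J)
  have e1 : (c⁻¹) ^ (2 * (2 * n)) * c ^ (2 * (2 * n)) = 1 := by rw [← mul_pow, inv_mul_cancel₀ hc.ne', one_pow]
  calc ∑ j ∈ range J, WS (2 * n) c j * (ssQ (2 * n) R c j) ^ 2
      ≤ ∑ j ∈ range J, 16 ^ 4 * c * (c⁻¹) ^ (2 * (2 * n)) *
        (2 * ((1 + (j : ℝ)) ^ (2 * (2 * n)) * PP (fun x => win x * s0Q (2 * n) c x) j ^ 2) +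
         2 * ((1 + (j : ℝ)) ^ (2 * (2 * n)) * PP (DR (2 * n) R (s0Q (2 * n) c)) j ^ 2)) := by
        apply sum_le_sum
        intro j _
        have h5 := WS_le (2 * n) (by omega) c hc hc1 j
        have h6 : (ssQ (2 * n) R c j) ^ 2 ≤ 2 * PP (fun x => win x * s0Q (2 * n) c x) j ^ 2 +
            2 * PP (DR (2 * n) R (s0Q (2 * n) c)) j ^ 2 := by
          unfold ssQ
          nlinarith [sq_nonneg (PP (fun x => win x * s0Q (2 * n) c x) j + PP (DR (2 * n) R (s0Q (2 * n) c)) j)]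
        calc WS (2 * n) c j * (ssQ (2 * n) R c j) ^ 2 ≤
            (16 ^ 4 * c * (c⁻¹) ^ (2 * (2 * n)) * (1 + (j : ℝ)) ^ (2 * (2 * n))) *
            (2 * PP (fun x => win x * s0Q (2 * n) c x) j ^ 2 + 2 * PP (DR (2 * n) R (s0Q (2 * n) c)) j ^ 2) :=
              mul_le_mul h5 h6 (sq_nonneg _) (by positivity)
          _ = _ := by ring
    _ = 16 ^ 4 * c * (c⁻¹) ^ (2 * (2 * n)) *
        (2 * ∑ j ∈ range J, (1 + (j : ℝ)) ^ (2 * (2 * n)) * PP (fun x => win x * s0Q (2 * n) c x) j ^ 2 +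
         2 * ∑ j ∈ range J, (1 + (j : ℝ)) ^ (2 * (2 * n)) * PP (DR (2 * n) R (s0Q (2 * n) c)) j ^ 2) := by
        rw [← mul_sum, sum_add_distrib, ← mul_sum, ← mul_sum]
    _ ≤ 16 ^ 4 * c * (c⁻¹) ^ (2 * (2 * n)) * (2 * (C1 * c ^ (2 * (2 * n))) + 2 * (C2 * c ^ (2 * (2 * n)))) := by
        gcongr
    _ = K * c * ((c⁻¹) ^ (2 * (2 * n)) * c ^ (2 * (2 * n))) := by rw [hK]; ring
    _ = K * c := by rw [e1, mul_one]
    _ ≤ ρ := by rw [le_div_iff₀ hK0] at hc2; linarith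

end Pool.Agent.H472.Q2.NQ

namespace Pool.Agent.H472.Q2

theorem pf_TaskNQ : TaskNQ := NQ.main

end Pool.Agent.H472.Q2
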