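import Mathlib
import Pool.Agent.H472.Q2.Tasks

set_option autoImplicit false

open Finset MeasureTheory

namespace Pool.Agent.H472.Q2

open Pool.Agent.H469R10.HO Pool.Agent.H13R3.EM

theorem pf_TaskPQ : TaskPQ := by
  intro m hm η hη
  set lam : ℝ := lamQ m with hlam_def
  have hm1 : (1:ℝ) ≤ m := by exact_mod_cast hm
  have hlam : lam = 2 * m + 2 := by rw [hlam_def, lamQ]
  have hlam0 : 0 < lam := by linarith
  have hkap : kapQ m = 1 - 1 / lam := by
    rw [kapQ, hlam]; field_simp; ring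
  refine ⟨min (1 / 3) ((η / (2 * lam * 2 ^ m)) ^ 2), by positivity, ?_⟩
  intro c hc hc0 B hB1 hB2 b hb p hp
  have hc3 : c ≤ 1 / 3 := hc0.trans (min_le_left _ _)
  have hcη : c ≤ (η / (2 * lam * 2 ^ m)) ^ 2 := hc0.trans (min_le_right _ _)
  have hp0 : (0:ℝ) < p := by exact_mod_cast hp.pos
  have hp1 : (1:ℝ) ≤ p := by exact_mod_cast hp.one_le
  have hRHS : 0 ≤ (p : ℝ) ^ (-kapQ m) := by positivity
  rw [bet]
  split_ifs with hmem
  swap
  · rw [abs_zero]; exact hRHS
  set j := jj c lam p with hj_def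
  obtain ⟨hj1, -, hux⟩ := hB1 j p hmem
  obtain ⟨-, hBall⟩ := hB2 j hj1
  have hcard := hBall p hmem
  have hcard0 : 0 < (B j).card := card_pos.2 ⟨p, hmem⟩
  have hcard0' : (0:ℝ) < (B j).card := by exact_mod_cast hcard0
  have hj1' : (1:ℝ) ≤ j := by exact_mod_cast hj1
  set t : ℝ := (1 + j) / c with ht
  have ht0 : 0 < t := by positivity
  have htc : c * t = 1 + j := by rw [ht]; field_simp
  -- weight
  have hlog : 1 ≤ Real.log t := by
    rw [Real.le_log_iff_exp_le ht0]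
    have := Real.exp_one_lt_d9
    rw [ht, le_div_iff₀ hc]
    nlinarith
  have hW : (1 + (j:ℝ)) * t ^ (2 * (m:ℝ) - 5 / 4) * b j ^ 2 ≤ 1 := by
    refine le_trans ?_ (hb j)
    rw [WS, WW, ← ht]
    have h4 : 1 ≤ Real.log t ^ 4 := one_le_pow₀ hlog
    have h5 : 0 ≤ (1 + (j:ℝ)) * t ^ (2 * (m:ℝ) - 5 / 4) * b j ^ 2 := by positivity
    calc (1 + (j:ℝ)) * t ^ (2 * (m:ℝ) - 5 / 4) * b j ^ 2
        ≤ ((1 + (j:ℝ)) * t ^ (2 * (m:ℝ) - 5 / 4) * b j ^ 2) * Real.log t ^ 4 :=
          le_mul_of_one_le_right h5 h4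
      _ = _ := by ring
  set r : ℝ := Real.sqrt c * t ^ ((m:ℝ) - 1 / 8) with hr
  have hr0 : 0 < r := by positivity
  have hr2 : r ^ 2 = (1 + (j:ℝ)) * t ^ (2 * (m:ℝ) - 5 / 4) := by
    rw [hr, mul_pow, Real.sq_sqrt hc.le, ← htc, ← Real.rpow_natCast, ← Real.rpow_mul ht0.le,
      mul_assoc]
    congr 1
    rw [← Real.rpow_one_add' ht0.le (by linarith)]
    congr 1
    push_cast
    ring
  have hbr : |b j| * r ≤ 1 := by
    have : (|b j| * r) ^ 2 ≤ 1 ^ 2 := by
      rw [mul_pow, sq_abs, hr2]; linarith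
    exact le_of_sq_le_sq this (by norm_num)
  -- position
  set u : ℝ := uu c lam p with hu_def
  set v : ℝ := (p:ℝ) ^ (1 / lam) with hv
  have huv : u = c * v := rfl
  have hv1 : 1 ≤ v := Real.one_le_rpow hp1 (by positivity)
  have hv0 : 0 < v := by linarith
  have hπ := Real.pi_gt_three
  have hπ4 := Real.pi_lt_d2
  have hxx : xx j = Real.pi / 2 * j := rfl
  have hux' := abs_le.1 hux
  have hu1 : 1 ≤ u := by
    have : Real.pi / 2 * 1 ≤ xx j := by rw [hxx]; exact mul_le_mul_of_nonneg_left hj1' (by positivity)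
    linarith [hux'.1]
  have h2u : 1 + (j:ℝ) ≤ 2 * u := by
    have h1 : Real.pi / 2 * j ≤ 3 / 2 * u := by rw [← hxx]; linarith [hux'.1]
    have h2 : 3 / 2 * (j:ℝ) ≤ 3 / 2 * u := by
      have : 3 / 2 * (j:ℝ) ≤ Real.pi / 2 * j := mul_le_mul_of_nonneg_right (by linarith) (by positivity)
      linarith
    linarith
  have hu2 : u ≤ 2 * (1 + (j:ℝ)) := by
    have h1 : u ≤ Real.pi / 2 * j + 1 / 2 := by rw [← hxx]; linarith [hux'.2]
    nlinarith
  have ht2v : t ≤ 2 * v := by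
    rw [ht, div_le_iff₀ hc]; rw [huv] at h2u; linarith
  have hvt : v / 2 ≤ t := by
    rw [ht, le_div_iff₀ hc]; rw [huv] at hu2; linarith
  -- powers
  have hts : t ^ (9 / 8 - (m:ℝ)) ≤ 2 ^ m * v ^ (1 / 8 : ℝ) := by
    rcases le_total 0 (9 / 8 - (m:ℝ)) with h | h
    · calc t ^ (9 / 8 - (m:ℝ)) ≤ (2 * v) ^ (9 / 8 - (m:ℝ)) := Real.rpow_le_rpow ht0.le ht2v h
        _ = 2 ^ (9 / 8 - (m:ℝ)) * v ^ (9 / 8 - (m:ℝ)) := Real.mul_rpow (by norm_num) hv0.le
        _ ≤ 2 ^ (m:ℝ) * v ^ (1 / 8 : ℝ) := by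
            refine mul_le_mul (Real.rpow_le_rpow_of_exponent_le (by norm_num) (by linarith))
              (Real.rpow_le_rpow_of_exponent_le hv1 (by linarith)) (by positivity) (by positivity)
        _ = _ := by rw [Real.rpow_natCast]
    · calc t ^ (9 / 8 - (m:ℝ)) ≤ (v / 2) ^ (9 / 8 - (m:ℝ)) :=
            Real.rpow_le_rpow_of_nonpos (by positivity) hvt h
        _ = 2 ^ ((m:ℝ) - 9 / 8) * v ^ (9 / 8 - (m:ℝ)) := by
            rw [Real.div_rpow hv0.le (by norm_num), div_eq_mul_inv, ← Real.rpow_neg (by norm_num),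
              mul_comm]
            congr 2
            ring
        _ ≤ 2 ^ (m:ℝ) * v ^ (1 / 8 : ℝ) := by
            refine mul_le_mul (Real.rpow_le_rpow_of_exponent_le (by norm_num) (by linarith))
              (Real.rpow_le_rpow_of_exponent_le hv1 (by linarith)) (by positivity) (by positivity)
        _ = _ := by rw [Real.rpow_natCast]
  have hbj : |b j| * (1 + (j:ℝ)) ≤ Real.sqrt c * (2 ^ m * v ^ (1 / 8 : ℝ)) := by
    have e : (1 + (j:ℝ)) = r * (Real.sqrt c * t ^ (9 / 8 - (m:ℝ))) := by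
      have e1 : t ^ ((m:ℝ) - 1 / 8) * t ^ (9 / 8 - (m:ℝ)) = t := by
        rw [← Real.rpow_add ht0]
        have : (m:ℝ) - 1 / 8 + (9 / 8 - m) = 1 := by ring
        rw [this, Real.rpow_one]
      calc (1 + (j:ℝ)) = c * t := htc.symm
        _ = (Real.sqrt c * Real.sqrt c) * (t ^ ((m:ℝ) - 1 / 8) * t ^ (9 / 8 - (m:ℝ))) := by
            rw [Real.mul_self_sqrt hc.le, e1]
        _ = _ := by rw [hr]; ring
    calc |b j| * (1 + (j:ℝ)) = (|b j| * r) * (Real.sqrt c * t ^ (9 / 8 - (m:ℝ))) := by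
          rw [mul_assoc, ← e]
      _ ≤ 1 * (Real.sqrt c * t ^ (9 / 8 - (m:ℝ))) :=
          mul_le_mul_of_nonneg_right hbr (by positivity)
      _ ≤ _ := by
          rw [one_mul]
          exact mul_le_mul_of_nonneg_left hts (Real.sqrt_nonneg _)
  have hsc : Real.sqrt c ≤ η / (2 * lam * 2 ^ m) := by
    rw [Real.sqrt_le_left (by positivity)]
    exact hcη
  -- logarithm
  have hlp : Real.log p ≤ 8 / 7 * lam * v ^ (7 / 8 : ℝ) := by
    have h := Real.log_le_rpow_div hv0.le (ε := 7 / 8) (by norm_num)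
    have h2 : Real.log v = 1 / lam * Real.log p := by rw [hv, Real.log_rpow hp0]
    rw [h2] at h
    have h3 : Real.log p = lam * (1 / lam * Real.log p) := by field_simp
    rw [h3]
    calc lam * (1 / lam * Real.log p) ≤ lam * (v ^ (7 / 8 : ℝ) / (7 / 8)) :=
          mul_le_mul_of_nonneg_left h hlam0.le
      _ = _ := by ring
  have hlp0 : 0 ≤ Real.log p := Real.log_natCast_nonneg p
  have hvv : v ^ (1 / 8 : ℝ) * v ^ (7 / 8 : ℝ) = v := by
    rw [← Real.rpow_add hv0]; norm_num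
  -- the main chain
  have h1 : |b j / (B j).card| * (η * p) ≤ η * v := by
    rw [abs_div, abs_of_pos hcard0', div_mul_eq_mul_div, div_le_iff₀ hcard0']
    have hxr : |b j| * xx j ≤ Real.pi / 2 * (Real.sqrt c * (2 ^ m * v ^ (1 / 8 : ℝ))) := by
      calc |b j| * xx j ≤ |b j| * (Real.pi / 2 * (1 + j)) := by
            rw [hxx]
            exact mul_le_mul_of_nonneg_left (mul_le_mul_of_nonneg_left (by linarith) (by positivity)) (abs_nonneg _)
        _ = Real.pi / 2 * (|b j| * (1 + j)) := by ring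
        _ ≤ _ := mul_le_mul_of_nonneg_left hbj (by positivity)
    have hxr0 : 0 ≤ Real.pi / 2 * (Real.sqrt c * (2 ^ m * v ^ (1 / 8 : ℝ))) := by positivity
    calc |b j| * (η * p) ≤ |b j| * ((B j).card * xx j * Real.log p) :=
          mul_le_mul_of_nonneg_left hcard (abs_nonneg _)
      _ = (|b j| * xx j) * Real.log p * (B j).card := by ring
      _ ≤ (η * v) * (B j).card := by
          refine mul_le_mul_of_nonneg_right ?_ hcard0'.le
          calc (|b j| * xx j) * Real.log p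
              ≤ (Real.pi / 2 * (Real.sqrt c * (2 ^ m * v ^ (1 / 8 : ℝ)))) * (8 / 7 * lam * v ^ (7 / 8 : ℝ)) :=
                mul_le_mul hxr hlp hlp0 hxr0
            _ = (Real.pi * (4 / 7)) * (Real.sqrt c * (lam * 2 ^ m)) * (v ^ (1 / 8 : ℝ) * v ^ (7 / 8 : ℝ)) := by ring
            _ = (Real.pi * (4 / 7)) * (Real.sqrt c * (lam * 2 ^ m)) * v := by rw [hvv]
            _ ≤ η * v := by
                refine mul_le_mul_of_nonneg_right ?_ hv0.le
                have h6 : Real.sqrt c * (lam * 2 ^ m) ≤ η / 2 := by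
                  calc Real.sqrt c * (lam * 2 ^ m) ≤ η / (2 * lam * 2 ^ m) * (lam * 2 ^ m) :=
                        mul_le_mul_of_nonneg_right hsc (by positivity)
                    _ = η / 2 := by field_simp
                have h7 : 0 ≤ Real.sqrt c * (lam * 2 ^ m) := by positivity
                calc (Real.pi * (4 / 7)) * (Real.sqrt c * (lam * 2 ^ m))
                    ≤ 2 * (η / 2) := mul_le_mul (by linarith) h6 h7 (by norm_num)
                  _ = η := by ring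
  have h2 : |b j / (B j).card| * p ≤ v := by
    have : η * (|b j / (B j).card| * p) ≤ η * v := by linarith
    exact le_of_mul_le_mul_left this hη
  rw [hkap]
  have h3 : (p:ℝ) ^ (-(1 - 1 / lam)) = v / p := by
    rw [neg_sub, Real.rpow_sub hp0, Real.rpow_one]
  rw [h3, le_div_iff₀ hp0]
  exact h2

end Pool.Agent.H472.Q2
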