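import Mathlib
import Pool.Agent.H472.Q2.Tasks
import Pool.Graph.R_seed8.H54R3.Task469O

set_option autoImplicit false

open Finset MeasureTheory

namespace Pool.Agent.H472.Q2

open Pool.Agent.H469R10.HO Pool.Agent.H13R3.EM Pool.Agent.H54R3.T469O

namespace RelQ

lemma win_cont : Continuous win := by
  unfold win
  exact Real.smoothTransition.continuous.comp (by fun_prop)

lemma win_abs (x : ℝ) : |win x| ≤ 1 := by
  unfold win
  rw [abs_of_nonneg (Real.smoothTransition.nonneg _)]
  exact Real.smoothTransition.le_one _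

lemma win_one {x : ℝ} (hx : x ≤ 3 / 2) : win x = 1 := by
  unfold win
  exact Real.smoothTransition.one_of_one_le (by linarith)

lemma chi2_nonneg (x : ℝ) : 0 ≤ chi2 x := Real.smoothTransition.nonneg _
lemma chi2_le_one (x : ℝ) : chi2 x ≤ 1 := Real.smoothTransition.le_one _
lemma chi2_cont : Continuous chi2 := by
  unfold chi2
  exact Real.smoothTransition.continuous.comp (by fun_prop)
lemma chi2_zero {x : ℝ} (hx : 3 / 4 ≤ x) : chi2 x = 0 := Real.smoothTransition.zero_of_nonpos (by linarith)
lemma chi2_one {x : ℝ} (hx : x ≤ 2 / 3) : chi2 x = 1 := Real.smoothTransition.one_of_one_le (by linarith)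

lemma DR_abs {m R : ℕ} (hR : 1 ≤ R) (k : ℕ) (hk : m = k + 1) {f : ℝ → ℝ} {C : ℝ}
    (hC : ∀ x, |f x| ≤ C * (1 + x ^ (2 * k))) (x : ℝ) :
    |DR m R f x| ≤ C * (((R : ℝ) * x) ^ (2 * m) + ((R : ℝ) * x) ^ 2) := by
  have hC0 : 0 ≤ C := by
    have h1 := (abs_nonneg _).trans (hC 0)
    have h2 : (0 : ℝ) < 1 + 0 ^ (2 * k) := by
      have : (0 : ℝ) ≤ 0 ^ (2 * k) := by rw [pow_mul]; positivity
      linarith
    exact nonneg_of_mul_nonneg_left h1 h2
  have hRR : (1 : ℝ) ≤ R := by exact_mod_cast hR
  have hx : 0 ≤ ((R : ℝ) * x) ^ (2 * m) := by rw [pow_mul]; positivity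
  have hy : 0 ≤ (((R : ℝ) ^ 2 * x)⁻¹) ^ (2 * k) := by rw [pow_mul]; positivity
  unfold DR
  rw [abs_mul, abs_mul, abs_of_nonneg (chi2_nonneg _), abs_of_nonneg hx]
  have h1 : chi2 ((R : ℝ) ^ 2 * x) * ((R : ℝ) * x) ^ (2 * m) * |f ((R : ℝ) ^ 2 * x)⁻¹| ≤
      1 * ((R : ℝ) * x) ^ (2 * m) * (C * (1 + (((R : ℝ) ^ 2 * x)⁻¹) ^ (2 * k))) := by
    gcongr
    · exact chi2_le_one _
    · exact hC _
  refine h1.trans ?_
  have h2 : ((R : ℝ) * x) ^ (2 * m) * (((R : ℝ) ^ 2 * x)⁻¹) ^ (2 * k) ≤ ((R : ℝ) * x) ^ 2 := by
    by_cases hx0 : x = 0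
    · subst hx0
      rw [mul_zero, zero_pow (by omega), zero_mul, zero_pow (by norm_num)]
    · have h3 : ((R : ℝ) * x) ^ (2 * m) * (((R : ℝ) ^ 2 * x)⁻¹) ^ (2 * k) =
          ((R : ℝ) * x) ^ 2 * ((R : ℝ)⁻¹) ^ (2 * k) := by
        have e1 : ((R : ℝ) * x) * ((R : ℝ) ^ 2 * x)⁻¹ = (R : ℝ)⁻¹ := by
          have hR0 : (R : ℝ) ≠ 0 := by linarith
          field_simp
        rw [← e1, mul_pow ((R : ℝ) * x), ← mul_assoc, ← pow_add]
        congr 2
        omega
      rw [h3]
      have h4 : ((R : ℝ)⁻¹) ^ (2 * k) ≤ 1 := pow_le_one₀ (by positivity) (inv_le_one_of_one_le₀ hRR)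
      exact mul_le_of_le_one_right (by positivity) h4
  have h5 : C * (((R : ℝ) * x) ^ (2 * m) * (((R : ℝ) ^ 2 * x)⁻¹) ^ (2 * k)) ≤ C * ((R : ℝ) * x) ^ 2 :=
    mul_le_mul_of_nonneg_left h2 hC0
  linarith

lemma DR_cont {m R : ℕ} (hR : 1 ≤ R) (k : ℕ) (hk : m = k + 1) {f : ℝ → ℝ} (hf : Continuous f) {C : ℝ}
    (hC : ∀ x, |f x| ≤ C * (1 + x ^ (2 * k))) : Continuous (DR m R f) := by
  rw [continuous_iff_continuousAt]
  intro x
  by_cases hx : x = 0
  · subst hx
    have h0 : DR m R f 0 = 0 := by
      unfold DR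
      rw [mul_zero, mul_zero, zero_pow (by omega)]; ring
    rw [ContinuousAt, h0]
    refine squeeze_zero_norm (a := fun y => C * (((R : ℝ) * y) ^ (2 * m) + ((R : ℝ) * y) ^ 2))
      (fun y => DR_abs hR k hk hC y) ?_
    have : Continuous fun y : ℝ => C * (((R : ℝ) * y) ^ (2 * m) + ((R : ℝ) * y) ^ 2) := by fun_prop
    have h1 := this.tendsto 0
    rwa [mul_zero, zero_pow (by omega), zero_pow (by norm_num), add_zero, mul_zero] at h1
  · have hR0 : (R : ℝ) ≠ 0 := by
      have : (1 : ℝ) ≤ R := by exact_mod_cast hR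
      linarith
    have h1 : ContinuousAt (fun x : ℝ => chi2 ((R : ℝ) ^ 2 * x)) x :=
      (chi2_cont.comp (by fun_prop : Continuous fun x : ℝ => (R : ℝ) ^ 2 * x)).continuousAt
    have h2 : ContinuousAt (fun x : ℝ => ((R : ℝ) * x) ^ (2 * m)) x := by fun_prop
    have h3 : ContinuousAt (fun x : ℝ => ((R : ℝ) ^ 2 * x)⁻¹) x :=
      ContinuousAt.inv₀ (by fun_prop) (mul_ne_zero (pow_ne_zero _ hR0) hx)
    exact (h1.mul h2).mul (ContinuousAt.comp (g := f) hf.continuousAt h3)

lemma DR_bdd {m R : ℕ} {f : ℝ → ℝ} (hC : ∀ x, |f x| ≤ 1) (x : ℝ) :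
    |DR m R f x| ≤ ((R : ℝ) * x) ^ (2 * m) := by
  have hx : 0 ≤ ((R : ℝ) * x) ^ (2 * m) := by rw [pow_mul]; positivity
  unfold DR
  rw [abs_mul, abs_mul, abs_of_nonneg (chi2_nonneg _), abs_of_nonneg hx]
  calc chi2 ((R : ℝ) ^ 2 * x) * ((R : ℝ) * x) ^ (2 * m) * |f ((R : ℝ) ^ 2 * x)⁻¹| ≤
      1 * ((R : ℝ) * x) ^ (2 * m) * 1 := by
        gcongr
        · exact chi2_le_one _
        · exact hC _
    _ = _ := by ring

lemma pow_bd (y : ℝ) (i k : ℕ) (hi : i ≤ k) : |y ^ (2 * i)| ≤ 1 + y ^ (2 * k) := by
  rw [pow_mul, pow_mul]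
  have h0 : 0 ≤ y ^ 2 := sq_nonneg y
  rw [abs_of_nonneg (pow_nonneg h0 _)]
  rcases le_total (y ^ 2) 1 with h | h
  · have h1 := pow_le_one₀ h0 h (n := i)
    have h2 := pow_nonneg h0 k
    linarith
  · have h1 := pow_le_pow_right₀ h hi
    linarith

lemma tay_bd (k : ℕ) (y : ℝ) : |tay (k + 1) y| ≤ (k + 1) * (1 + y ^ (2 * k)) := by
  unfold tay
  calc |∑ i ∈ range (k + 1), (-1) ^ i * y ^ (2 * i) / ((2 * i).factorial : ℝ)|
      ≤ ∑ i ∈ range (k + 1), |(-1) ^ i * y ^ (2 * i) / ((2 * i).factorial : ℝ)| := abs_sum_le_sum_abs _ _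
    _ ≤ ∑ i ∈ range (k + 1), (1 + y ^ (2 * k)) := by
        refine sum_le_sum fun i hi => ?_
        rw [abs_div, abs_mul, abs_pow, abs_neg, abs_one, one_pow, one_mul, Nat.abs_cast]
        have h1 := pow_bd y i k (Nat.lt_succ_iff.mp (mem_range.mp hi))
        have h2 : (1 : ℝ) ≤ (2 * i).factorial := by
          exact_mod_cast Nat.one_le_iff_ne_zero.mpr (Nat.factorial_ne_zero _)
        exact (div_le_self (abs_nonneg _) h2).trans h1
    _ = _ := by rw [sum_const, card_range, nsmul_eq_mul]; push_cast; ring

lemma s0Q_bd (k : ℕ) (c x : ℝ) :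
    |s0Q (k + 1) c x| ≤ (1 + (k + 1) * (1 + c ^ (2 * k))) * (1 + x ^ (2 * k)) := by
  have hc : 0 ≤ c ^ (2 * k) := by rw [pow_mul]; positivity
  have hx : 0 ≤ x ^ (2 * k) := by rw [pow_mul]; positivity
  unfold s0Q
  have h1 := Real.abs_cos_le_one (c * x)
  have h2 := tay_bd k (c * x)
  rw [mul_pow] at h2
  have h3 := abs_sub (Real.cos (c * x)) (tay (k + 1) (c * x))
  have hk : (0 : ℝ) ≤ k := Nat.cast_nonneg k
  have h4 : (0 : ℝ) ≤ (k + 1) * (x ^ (2 * k) + c ^ (2 * k)) := by positivity
  nlinarith

lemma tay_cont (m : ℕ) : Continuous (tay m) := by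
  unfold tay
  fun_prop

end RelQ

open RelQ in
theorem pf_TaskRelQ : TaskRelQ := by
  classical
  intro c lam m R B b r hc hlam hm hR hrc hr0 hr1 hrs hB hne hsum hfix
  obtain ⟨k, rfl⟩ : ∃ k, m = k + 1 := ⟨m - 1, by omega⟩
  set m := k + 1 with hmk
  have hR1 : 1 ≤ R := by omega
  have hRR : (2 : ℝ) ≤ R := by exact_mod_cast hR
  have hR0 : (0 : ℝ) < R := by linarith
  -- coefficients without `n = 1`
  let a : ℕ → ℝ := fun n => if n = 1 then 0 else alp c lam B b n
  have ha : Summable (fun n => |a n|) := by
    refine Summable.of_nonneg_of_le (fun _ => abs_nonneg _) (fun n => ?_) hsum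
    simp only [a]
    split_ifs
    · rw [abs_zero]; exact abs_nonneg _
    · exact le_rfl
  -- coefficients at `0` and the primes
  let e : ℕ → ℝ := fun n => if n = 0 ∨ n.Prime then alp c lam B b n else 0
  have he : Summable (fun n => |e n|) := by
    refine Summable.of_nonneg_of_le (fun _ => abs_nonneg _) (fun n => ?_) hsum
    simp only [e]
    split_ifs
    · exact le_rfl
    · rw [abs_zero]; exact abs_nonneg _
  let G : ℝ → ℝ := fun x => ∑' n, a n * Real.cos (uu c lam n * x)
  have hGb : ∀ n x, ‖a n * Real.cos (uu c lam n * x)‖ ≤ |a n| := by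
    intro n x
    rw [Real.norm_eq_abs, abs_mul]
    calc |a n| * |Real.cos (uu c lam n * x)| ≤ |a n| * 1 := by
          gcongr
          exact Real.abs_cos_le_one _
      _ = |a n| := mul_one _
  have hGs : ∀ x, HasSum (fun n => a n * Real.cos (uu c lam n * x)) (G x) := fun x =>
    (Summable.of_norm_bounded ha (fun n => hGb n x)).hasSum
  have hGc : Continuous G := continuous_tsum (fun n => by fun_prop) ha hGb
  have hGB : ∀ x, |G x| ≤ ∑' n, |a n| := fun x => tsum_of_norm_bounded ha.hasSum (fun n => hGb n x)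
  let β : ℝ → ℝ := fun x => ∑' n, e n * Real.cos (xx (jj c lam n) * x)
  have hβb : ∀ n x, ‖e n * Real.cos (xx (jj c lam n) * x)‖ ≤ |e n| := by
    intro n x
    rw [Real.norm_eq_abs, abs_mul]
    calc |e n| * |Real.cos (xx (jj c lam n) * x)| ≤ |e n| * 1 := by
          gcongr
          exact Real.abs_cos_le_one _
      _ = |e n| := mul_one _
  have hβs : ∀ x, HasSum (fun n => e n * Real.cos (xx (jj c lam n) * x)) (β x) := fun x =>
    (Summable.of_norm_bounded he (fun n => hβb n x)).hasSum
  have hβc : Continuous β := continuous_tsum (fun n => by fun_prop) he hβb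
  have hs0c : Continuous (s0Q m c) := by
    unfold s0Q
    exact (by fun_prop : Continuous fun x => Real.cos (c * x)).sub
      ((tay_cont m).comp (by fun_prop : Continuous fun x : ℝ => c * x))
  let h : ℝ → ℝ := fun x => s0Q m c x + G x
  have hhc : Continuous h := hs0c.add hGc
  -- growth
  have hs0g : ∀ x, |s0Q m c x| ≤ (1 + (k + 1) * (1 + c ^ (2 * k))) * (1 + x ^ (2 * k)) := fun x => s0Q_bd k c x
  have hpw : ∀ x : ℝ, 0 ≤ x ^ (2 * k) := fun x => by rw [pow_mul]; positivity
  have hGg : ∀ x, |G x| ≤ (∑' n, |a n|) * (1 + x ^ (2 * k)) := fun x => by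
    have h1 := hGB x
    have h2 : 0 ≤ ∑' n, |a n| := tsum_nonneg fun _ => abs_nonneg _
    have h3 := mul_nonneg h2 (hpw x)
    linarith
  have hhg : ∀ x, |h x| ≤ ((1 + (k + 1) * (1 + c ^ (2 * k))) + ∑' n, |a n|) * (1 + x ^ (2 * k)) := fun x => by
    have h1 := abs_add_le (s0Q m c x) (G x)
    have h2 := hs0g x
    have h3 := hGg x
    simp only [h]
    linarith
  have hcosg : ∀ n x, |Real.cos (uu c lam n * x)| ≤ 1 * (1 + x ^ (2 * k)) := fun n x => by
    have h1 := Real.abs_cos_le_one (uu c lam n * x)
    have h2 := hpw x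
    linarith
  -- the sum over `n = 0` and primes
  have hE : ∀ j, HasSum (fun n => if n = 0 ∨ n.Prime then (if jj c lam n = j then alp c lam B b n else 0) else 0)
      (b j) := by
    intro j
    rcases Nat.eq_zero_or_pos j with rfl | hj
    · have h1 := hasSum_sum_of_ne_finset_zero (L := SummationFilter.unconditional ℕ) (f := fun n => if n = 0 ∨ n.Prime then
          (if jj c lam n = 0 then alp c lam B b n else 0) else 0) (s := {0}) (fun n hn => by
        have hn0 : n ≠ 0 := by simpa using hn
        by_cases hp : n.Prime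
        · simp only [hn0, hp, false_or, if_true]
          split_ifs with hj
          · rw [alp_prime hp]
            unfold bet
            rw [hj]
            rw [if_neg]
            intro hmem
            have := (hB 0 n hmem).1
            omega
          · rfl
        · simp [hn0, hp])
      simp only [sum_singleton, true_or, if_true, jj_zero hlam] at h1
      have h2 : alp c lam B b 0 = b 0 := by unfold alp; rw [if_pos rfl]
      rwa [h2] at h1
    · have h1 := hasSum_sum_of_ne_finset_zero (L := SummationFilter.unconditional ℕ) (f := fun n => if n = 0 ∨ n.Prime then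
          (if jj c lam n = j then alp c lam B b n else 0) else 0) (s := B j) (fun n hn => by
        by_cases hn0 : n = 0
        · subst hn0
          simp only [true_or, if_true, jj_zero hlam]
          rw [if_neg (by omega)]
        by_cases hp : n.Prime
        · simp only [hn0, hp, false_or, if_true]
          split_ifs with hj
          · rw [alp_prime hp]
            unfold bet
            rw [hj, if_neg hn]
          · rfl
        · simp [hn0, hp])
      have h2 : ∑ n ∈ B j, (if n = 0 ∨ n.Prime then
          (if jj c lam n = j then alp c lam B b n else 0) else 0) = b j := by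
        have h3 : ∀ n ∈ B j, (if n = 0 ∨ n.Prime then
          (if jj c lam n = j then alp c lam B b n else 0) else 0) = b j / (B j).card := by
          intro n hn
          obtain ⟨-, hp, hnear⟩ := hB j n hn
          have hjn := jj_of_near hnear
          rw [if_pos (Or.inr hp), if_pos hjn, alp_prime hp]
          unfold bet
          rw [hjn, if_pos hn]
        rw [sum_congr rfl h3, sum_const, nsmul_eq_mul]
        have h4 : ((B j).card : ℝ) ≠ 0 := by
          have := (hne j hj).card_pos
          positivity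
        field_simp
      rwa [h2] at h1
  have hPβ : ∀ j, PP β j = b j := by
    intro j
    have h1 := PP_hasSum (F := fun n x => e n * Real.cos (xx (jj c lam n) * x)) (a := fun n => |e n|)
        (fun n => by fun_prop) (fun n x _ => hβb n x) he j (f := β) (fun x _ => hβs x)
    simp only [PP_const_mul, PP_cos] at h1
    refine h1.unique ?_
    convert hE j using 2 with n
    simp only [e]
    split_ifs <;> simp
  -- the projections
  have hPs : ∀ j, PP β j = - PP (fun x => win x * h x) j + PP (DR m R h) j + PP r j + PP (fun x => win x * β x) j := by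
    intro j
    have H1 : HasSum (fun n => a n * PP (fun t => win t * Real.cos (uu c lam n * t)) j) (PP (fun x => win x * G x) j) := by
      have h1 := PP_hasSum (F := fun n x => a n * (win x * Real.cos (uu c lam n * x))) (a := fun n => |a n|)
        (fun n => continuous_const.mul (win_cont.mul (by fun_prop))) (fun n x _ => by
          rw [abs_mul, abs_mul]
          have h2 := win_abs x
          have h3 := Real.abs_cos_le_one (uu c lam n * x)
          have h4 : |win x| * |Real.cos (uu c lam n * x)| ≤ 1 := mul_le_one₀ h2 (abs_nonneg _) h3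
          exact mul_le_of_le_one_right (abs_nonneg _) h4) ha j (f := fun x => win x * G x) (fun x _ => by
          have h2 := (hGs x).mul_left (win x)
          have h3 : (fun n => a n * (win x * Real.cos (uu c lam n * x))) =
              fun n => win x * (a n * Real.cos (uu c lam n * x)) := by
            funext n; ring
          rw [h3]
          exact h2)
      simpa only [PP_const_mul] using h1
    have hcosB : ∀ n x, |Real.cos (uu c lam n * x)| ≤ 1 := fun n x => Real.abs_cos_le_one _
    have hDc : ∀ n, Continuous (DR m R (fun y => Real.cos (uu c lam n * y))) := fun n =>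
      DR_cont hR1 k hmk (by fun_prop) (hcosg n)
    have H2 : HasSum (fun n => a n * PP (DR m R (fun y => Real.cos (uu c lam n * y))) j) (PP (DR m R G) j) := by
      have h1 := PP_hasSum (F := fun n x => a n * DR m R (fun y => Real.cos (uu c lam n * y)) x)
        (a := fun n => |a n| * ((R : ℝ) * 2) ^ (2 * m))
        (fun n => continuous_const.mul (hDc n)) (fun n x hx => by
          rw [abs_mul]
          have h2 := DR_bdd (m := m) (R := R) (hcosB n) x
          have h3 : ((R : ℝ) * x) ^ (2 * m) ≤ ((R : ℝ) * 2) ^ (2 * m) :=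
            pow_le_pow_left₀ (mul_nonneg hR0.le hx.1) (mul_le_mul_of_nonneg_left hx.2 hR0.le) _
          exact mul_le_mul_of_nonneg_left (h2.trans h3) (abs_nonneg _)) (ha.mul_right _) j (f := DR m R G) (fun x _ => by
          have h2 := (hGs ((R : ℝ) ^ 2 * x)⁻¹).mul_left (chi2 ((R : ℝ) ^ 2 * x) * ((R : ℝ) * x) ^ (2 * m))
          have h3 : (fun n => a n * DR m R (fun y => Real.cos (uu c lam n * y)) x) =
              fun n => chi2 ((R : ℝ) ^ 2 * x) * ((R : ℝ) * x) ^ (2 * m) *
                (a n * Real.cos (uu c lam n * ((R : ℝ) ^ 2 * x)⁻¹)) := by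
            funext n
            unfold DR
            ring
          rw [h3]
          exact h2)
      simpa only [PP_const_mul] using h1
    have H3 : HasSum (fun n => e n * PP (fun t => win t * Real.cos (xx (jj c lam n) * t)) j) (PP (fun x => win x * β x) j) := by
      have h1 := PP_hasSum (F := fun n x => e n * (win x * Real.cos (xx (jj c lam n) * x))) (a := fun n => |e n|)
        (fun n => continuous_const.mul (win_cont.mul (by fun_prop))) (fun n x _ => by
          rw [abs_mul, abs_mul]
          have h2 := win_abs x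
          have h3 := Real.abs_cos_le_one (xx (jj c lam n) * x)
          have h4 : |win x| * |Real.cos (xx (jj c lam n) * x)| ≤ 1 := mul_le_one₀ h2 (abs_nonneg _) h3
          exact mul_le_of_le_one_right (abs_nonneg _) h4) he j (f := fun x => win x * β x) (fun x _ => by
          have h2 := (hβs x).mul_left (win x)
          have h3 : (fun n => e n * (win x * Real.cos (xx (jj c lam n) * x))) =
              fun n => win x * (e n * Real.cos (xx (jj c lam n) * x)) := by
            funext n; ring
          rw [h3]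
          exact h2)
      simpa only [PP_const_mul] using h1
    have H4 : HasSum (fun n => alp c lam B b n * TQ c lam m R n j)
        (- PP (fun x => win x * G x) j + PP (DR m R G) j + PP (fun x => win x * β x) j) := by
      have h1 := ((H1.neg).add H2).add H3
      have h2 : (fun n => alp c lam B b n * TQ c lam m R n j) = fun n =>
          -(a n * PP (fun t => win t * Real.cos (uu c lam n * t)) j) +
            a n * PP (DR m R (fun y => Real.cos (uu c lam n * y))) j +
            e n * PP (fun t => win t * Real.cos (xx (jj c lam n) * t)) j := by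
        funext n
        by_cases h0 : n = 0 ∨ n.Prime
        · have hn1 : n ≠ 1 := by
            rintro rfl
            rcases h0 with h0 | h0
            · omega
            · exact Nat.not_prime_one h0
          have han : a n = alp c lam B b n := if_neg hn1
          have hen : e n = alp c lam B b n := if_pos h0
          unfold TQ
          rw [if_pos h0, han, hen]
          have h3 : (fun t => win t * (Real.cos (uu c lam n * t) - Real.cos (xx (jj c lam n) * t))) =
              fun t => win t * Real.cos (uu c lam n * t) - win t * Real.cos (xx (jj c lam n) * t) := by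
            funext t; ring
          have hc1 : Continuous fun t => win t * Real.cos (uu c lam n * t) := win_cont.mul (by fun_prop)
          have hc2 : Continuous fun t => win t * Real.cos (xx (jj c lam n) * t) := win_cont.mul (by fun_prop)
          rw [h3, PP_sub hc1 hc2]
          ring
        · have hen : e n = 0 := if_neg h0
          by_cases h3 : Squarefree n ∧ 2 ≤ n.primeFactors.card
          · have hn1 : n ≠ 1 := by
              rintro rfl
              simp at h3
            have han : a n = alp c lam B b n := if_neg hn1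
            unfold TQ
            rw [if_neg h0, if_pos h3, han, hen]
            ring
          · by_cases hn1 : n = 1
            · have han : a n = 0 := if_pos hn1
              unfold TQ
              rw [if_neg h0, if_neg h3, han, hen]
              ring
            · have h4 := alp_eq_zero (c := c) (lam := lam) (B := B) (b := b) h0 h3 hn1
              have han : a n = 0 := (if_neg hn1).trans h4
              rw [h4, han, hen]
              ring
      rw [h2]
      exact h1
    have h5 := hfix j
    rw [H4.tsum_eq] at h5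
    unfold ssQ at h5
    have h6 : PP (fun x => win x * h x) j = PP (fun x => win x * s0Q m c x) j + PP (fun x => win x * G x) j := by
      have hc1 : Continuous fun x => win x * s0Q m c x := win_cont.mul hs0c
      have hc2 : Continuous fun x => win x * G x := win_cont.mul hGc
      rw [← PP_add hc1 hc2]
      congr 1
      funext x
      simp only [h]
      ring
    have h7 : PP (DR m R h) j = PP (DR m R (s0Q m c)) j + PP (DR m R G) j := by
      rw [← PP_add (DR_cont hR1 k hmk hs0c hs0g) (DR_cont hR1 k hmk hGc hGg)]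
      congr 1
      funext x
      simp only [DR, h]
      ring
    rw [hPβ j]
    linarith
  have hDhc : Continuous (DR m R h) := DR_cont hR1 k hmk hhc hhg
  have hwh : Continuous fun x => win x * h x := win_cont.mul hhc
  have hwβ : Continuous fun x => win x * β x := win_cont.mul hβc
  have hL := Pool.Agent.H82R3.T469L.taskL
    (fun x => (((β x - win x * β x) + win x * h x) - DR m R h x) - r x)
    ((((hβc.sub hwβ).add hwh).sub hDhc).sub hrc) (fun j => by
    have h1 : PP (fun x => (((β x - win x * β x) + win x * h x) - DR m R h x) - r x) j = 0 := by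
      have e1 := PP_sub (f := fun x => ((β x - win x * β x) + win x * h x) - DR m R h x) (g := r)
        (((hβc.sub hwβ).add hwh).sub hDhc) hrc j
      have e2 := PP_sub (f := fun x => (β x - win x * β x) + win x * h x) (g := DR m R h)
        ((hβc.sub hwβ).add hwh) hDhc j
      have e3 := PP_add (f := fun x => β x - win x * β x) (g := fun x => win x * h x) (hβc.sub hwβ) hwh j
      have e4 := PP_sub hβc hwβ j
      rw [e1, e2, e3, e4, hPs j]
      ring
    unfold PP at h1
    have h2 : ww j ≠ 0 := by have := ww_ge j; positivity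
    exact (div_eq_zero_iff.mp h1).resolve_right h2)
  have hL' : ∀ x, 0 ≤ x → x ≤ 3 / 2 → h x = chi2 ((R : ℝ) ^ 2 * x) * ((R : ℝ) * x) ^ (2 * m) * h ((R : ℝ) ^ 2 * x)⁻¹ + r x := by
    intro x hx0 hx1
    have := hL x ⟨hx0, by linarith⟩
    simp only [DR, win_one hx1] at this
    linarith
  have hRsq : (0 : ℝ) < (R : ℝ) ^ 2 := by positivity
  have hR4 : (4 : ℝ) ≤ (R : ℝ) ^ 2 := by nlinarith
  have hz1 : ∀ x, 3 / (4 * (R : ℝ) ^ 2) ≤ x → x ≤ 3 / 2 → h x = r x := by
    intro x hx0 hx1
    have h1 : 3 / 4 ≤ (R : ℝ) ^ 2 * x := by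
      rw [div_le_iff₀ (by positivity)] at hx0
      linarith
    have h2 : 0 ≤ x := by
      refine le_trans ?_ hx0
      positivity
    rw [hL' x h2 hx1, chi2_zero h1]
    ring
  have hlow : ∀ x : ℝ, 0 < x → x ≤ 4 / 3 → h x = ((R : ℝ) * x) ^ (2 * m) * h ((R : ℝ) ^ 2 * x)⁻¹ := by
    intro x hx0 hx1
    rcases le_total ((R : ℝ) ^ 2 * x) (2 / 3) with h1 | h1
    · rw [hL' x hx0.le (by linarith), chi2_one h1, one_mul, hr0 x hx0.le (by
        rw [le_div_iff₀ (by positivity)]; linarith), add_zero]
    have hinv1 : ((R : ℝ) ^ 2 * x)⁻¹ ≤ 3 / 2 := by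
      rw [inv_le_comm₀ (by positivity) (by norm_num)]
      linarith
    rcases le_total ((R : ℝ) ^ 2 * x) (3 / 4) with h2 | h2
    · have hinv2 : 4 / 3 ≤ ((R : ℝ) ^ 2 * x)⁻¹ := by
        rw [le_inv_comm₀ (by norm_num) (by positivity)]
        linarith
      have h34 : 3 / (4 * (R : ℝ) ^ 2) ≤ 4 / 3 := by
        rw [div_le_iff₀ (by positivity)]
        linarith
      have hi : h ((R : ℝ) ^ 2 * x)⁻¹ = 0 := by
        rw [hz1 _ (h34.trans hinv2) hinv1, hr1 _ hinv2]
      rw [hL' x hx0.le (by linarith), hi, hr0 x hx0.le (by rw [le_div_iff₀ (by positivity)]; linarith)]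
      ring
    · have hxl : 3 / (4 * (R : ℝ) ^ 2) ≤ x := by
        rw [div_le_iff₀ (by positivity)]; linarith
      have hinv2 : 3 / (4 * (R : ℝ) ^ 2) ≤ ((R : ℝ) ^ 2 * x)⁻¹ := by
        rw [div_le_iff₀ (by positivity), inv_mul_eq_div, le_div_iff₀ (by positivity)]
        nlinarith
      have hi : h ((R : ℝ) ^ 2 * x)⁻¹ = r ((R : ℝ) ^ 2 * x)⁻¹ := hz1 _ hinv2 hinv1
      rw [hz1 x hxl (by linarith), hi]
      exact hrs x hx0
  have hfinal : ∀ x : ℝ, 0 < x → h x = ((R : ℝ) * x) ^ (2 * m) * h ((R : ℝ) ^ 2 * x)⁻¹ := by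
    intro x hx
    rcases le_total x (4 / 3) with h1 | h1
    · exact hlow x hx h1
    · have hy0 : 0 < ((R : ℝ) ^ 2 * x)⁻¹ := by positivity
      have h3 := hlow ((R : ℝ) ^ 2 * x)⁻¹ hy0 (by
        rw [inv_le_comm₀ (by positivity) (by norm_num)]
        nlinarith)
      have e1 : ((R : ℝ) ^ 2 * ((R : ℝ) ^ 2 * x)⁻¹)⁻¹ = x := by
        field_simp
      have e2 : (R : ℝ) * x * ((R : ℝ) * ((R : ℝ) ^ 2 * x)⁻¹) = 1 := by
        field_simp
      rw [e1] at h3
      rw [h3, ← mul_assoc, ← mul_pow, e2, one_pow, one_mul]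
  have hser : ∀ x, (∑' n, alp c lam B b n * Real.cos (uu c lam n * x)) - tay m (c * x) = h x := by
    intro x
    have h1 : HasSum (fun n => a n * Real.cos (uu c lam n * x) + (if n = 1 then Real.cos (c * x) else 0))
        (G x + Real.cos (c * x)) := (hGs x).add (hasSum_ite_eq 1 (Real.cos (c * x)))
    have h2 : (fun n => alp c lam B b n * Real.cos (uu c lam n * x)) = fun n => a n * Real.cos (uu c lam n * x) +
        (if n = 1 then Real.cos (c * x) else 0) := by
      funext n
      by_cases hn1 : n = 1
      · subst hn1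
        have h3 : a 1 = 0 := if_pos rfl
        have h4 : alp c lam B b 1 = 1 := by
          unfold alp
          rw [if_neg (by norm_num), if_pos squarefree_one, Nat.primeFactors_one, prod_empty]
        rw [if_pos rfl, h3, h4, uu_one]
        ring
      · have h3 : a n = alp c lam B b n := if_neg hn1
        rw [if_neg hn1, h3, add_zero]
    rw [h2, h1.tsum_eq]
    simp only [h, s0Q]
    ring
  intro x hx
  rw [hser x, hser ((R : ℝ) ^ 2 * x)⁻¹]
  exact hfinal x hx

end Pool.Agent.H472.Q2
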