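import Mathlib
import Pool.Agent.H472.Q2.Tasks

set_option autoImplicit false

open Finset MeasureTheory

namespace Pool.Agent.H472.Q2

open Pool.Agent.H469R10.HO Pool.Agent.H13R3.EM

namespace Win

open scoped SchwartzMap ContDiff FourierTransform

/-- cosine transform of a smooth compactly supported function: decay and Lipschitz decay -/
lemma cos_decay (g : ℝ → ℝ) (hg : ContDiff ℝ ∞ g) (hs : HasCompactSupport g) (K : ℕ) : ∃ C : ℝ, 0 < C ∧
    (∀ a : ℝ, |∫ x, g x * Real.cos (a * x)| * (1 + |a|) ^ K ≤ C) ∧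
    (∀ a a' : ℝ, |a - a'| ≤ 1 →
      |(∫ x, g x * Real.cos (a * x)) - ∫ x, g x * Real.cos (a' * x)| * (1 + |a|) ^ K ≤ C * |a - a'|) := by
  have hs' : HasCompactSupport (fun x => (g x : ℂ)) := hs.comp_left (g := fun r : ℝ => (r : ℂ)) (by simp)
  have hg' : ContDiff ℝ ∞ (fun x => (g x : ℂ)) := Complex.ofRealCLM.contDiff.comp hg
  set f : 𝓢(ℝ, ℂ) := hs'.toSchwartzMap hg' with hf
  set H : 𝓢(ℝ, ℂ) := 𝓕 f with hH
  have key : ∀ a : ℝ, (H (a / (2 * Real.pi))).re = ∫ x, g x * Real.cos (a * x) := by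
    intro a
    have h1 : H (a / (2 * Real.pi)) = ∫ v, Complex.exp (↑(-2 * Real.pi * v * (a / (2 * Real.pi))) * Complex.I) • f v := by
      rw [hH, SchwartzMap.fourier_coe]
      exact Real.fourier_real_eq_integral_exp_smul _ _
    have hint : Integrable (fun v : ℝ => Complex.exp (↑(-2 * Real.pi * v * (a / (2 * Real.pi))) * Complex.I) • f v) := by
      refine f.integrable.bdd_mul (c := 1) ?_ ?_
      · exact Continuous.aestronglyMeasurable (by fun_prop)
      · filter_upwards with v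
        rw [Complex.norm_exp_ofReal_mul_I]
    rw [h1]
    have h2 := Complex.reCLM.integral_comp_comm hint
    simp only [Complex.reCLM_apply] at h2
    rw [← h2]
    congr 1
    ext v
    have h3 : f v = (g v : ℂ) := rfl
    rw [h3, smul_eq_mul, mul_comm, Complex.re_ofReal_mul, Complex.exp_ofReal_mul_I_re]
    congr 1
    rw [show -2 * Real.pi * v * (a / (2 * Real.pi)) = -(a * v) by field_simp, Real.cos_neg]
  obtain ⟨C0, hC0, hb0⟩ : ∃ C, 0 < C ∧ ∀ x : ℝ, (1 + |x|) ^ K * ‖H x‖ ≤ C := by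
    refine ⟨2 ^ K * ((Finset.Iic (K, 1)).sup (fun m => SchwartzMap.seminorm ℝ m.1 m.2)) H + 1, by positivity, fun x => ?_⟩
    have h := SchwartzMap.one_add_le_sup_seminorm_apply (𝕜 := ℝ) (m := (K, 1)) (k := K) (n := 0) le_rfl (by norm_num) H x
    rw [norm_iteratedFDeriv_zero, Real.norm_eq_abs] at h
    linarith
  obtain ⟨C1, hC1, hb1⟩ : ∃ C, 0 < C ∧ ∀ x : ℝ, (1 + |x|) ^ K * ‖deriv H x‖ ≤ C := by
    refine ⟨2 ^ K * ((Finset.Iic (K, 1)).sup (fun m => SchwartzMap.seminorm ℝ m.1 m.2)) H + 1, by positivity, fun x => ?_⟩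
    have h := SchwartzMap.one_add_le_sup_seminorm_apply (𝕜 := ℝ) (m := (K, 1)) (k := K) (n := 1) le_rfl (by norm_num) H x
    rw [norm_iteratedFDeriv_eq_norm_iteratedDeriv, iteratedDeriv_one, Real.norm_eq_abs] at h
    linarith
  have hpi : (1:ℝ) ≤ 2 * Real.pi := by linarith [Real.pi_gt_three]
  have hpi0 : (0:ℝ) < 2 * Real.pi := by linarith
  -- `1 + |a| ≤ 2π (1 + |a/(2π)|)`
  have hab : ∀ a : ℝ, 1 + |a| ≤ 2 * Real.pi * (1 + |a / (2 * Real.pi)|) := by
    intro a
    rw [abs_div, abs_of_pos hpi0]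
    have : 2 * Real.pi * (1 + |a| / (2 * Real.pi)) = 2 * Real.pi + |a| := by field_simp
    rw [this]; linarith
  refine ⟨(2 * Real.pi) ^ K * C0 + (4 * Real.pi) ^ K * C1, by positivity, fun a => ?_, fun a a' haa => ?_⟩
  · rw [← key]
    have h1 : |(H (a / (2 * Real.pi))).re| ≤ ‖H (a / (2 * Real.pi))‖ := Complex.abs_re_le_norm _
    calc |(H (a / (2 * Real.pi))).re| * (1 + |a|) ^ K ≤ ‖H (a / (2 * Real.pi))‖ * (2 * Real.pi * (1 + |a / (2 * Real.pi)|)) ^ K := by
          gcongr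
          exact hab a
      _ = (2 * Real.pi) ^ K * ((1 + |a / (2 * Real.pi)|) ^ K * ‖H (a / (2 * Real.pi))‖) := by rw [mul_pow]; ring
      _ ≤ (2 * Real.pi) ^ K * C0 := by gcongr; exact hb0 _
      _ ≤ _ := by have : 0 ≤ (4 * Real.pi) ^ K * C1 := by positivity
                  linarith
  · rw [← key, ← key, ← Complex.sub_re]
    set s : Set ℝ := Set.uIcc (a / (2 * Real.pi)) (a' / (2 * Real.pi)) with hsdef
    have hconv : Convex ℝ s := convex_uIcc _ _
    have hbd : ∀ x ∈ s, ‖deriv H x‖ ≤ (4 * Real.pi) ^ K * C1 / (1 + |a|) ^ K := by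
      intro x hx
      have hx1 : |x - a / (2 * Real.pi)| ≤ |a' / (2 * Real.pi) - a / (2 * Real.pi)| := Set.abs_sub_left_of_mem_uIcc hx
      have hx2 : |a' / (2 * Real.pi) - a / (2 * Real.pi)| ≤ 1 / (2 * Real.pi) := by
        rw [← sub_div, abs_div, abs_of_pos hpi0, abs_sub_comm]
        gcongr
      have hx3 : |a / (2 * Real.pi)| ≤ |x| + 1 / (2 * Real.pi) := by
        have := abs_sub_abs_le_abs_sub (a / (2 * Real.pi)) x
        rw [abs_sub_comm] at this
        linarith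
      have hx4 : 1 + |a| ≤ 4 * Real.pi * (1 + |x|) := by
        rw [abs_div, abs_of_pos hpi0] at hx3
        have : |a| ≤ (|x| + 1 / (2 * Real.pi)) * (2 * Real.pi) := by
          rwa [div_le_iff₀ hpi0] at hx3
        have h5 : (|x| + 1 / (2 * Real.pi)) * (2 * Real.pi) = 2 * Real.pi * |x| + 1 := by field_simp
        rw [h5] at this
        have h6 := abs_nonneg x
        nlinarith [Real.pi_gt_three]
      rw [le_div_iff₀ (by positivity)]
      calc ‖deriv H x‖ * (1 + |a|) ^ K ≤ ‖deriv H x‖ * (4 * Real.pi * (1 + |x|)) ^ K := by gcongr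
        _ = (4 * Real.pi) ^ K * ((1 + |x|) ^ K * ‖deriv H x‖) := by rw [mul_pow]; ring
        _ ≤ _ := by gcongr; exact hb1 x
    have hmv := hconv.norm_image_sub_le_of_norm_deriv_le (f := H) (fun x _ => H.differentiableAt) hbd
      (Set.right_mem_uIcc) (Set.left_mem_uIcc)
    have h1 : |(H (a / (2 * Real.pi)) - H (a' / (2 * Real.pi))).re| ≤ (4 * Real.pi) ^ K * C1 / (1 + |a|) ^ K * |a - a'| := by
      refine (Complex.abs_re_le_norm _).trans (hmv.trans ?_)
      gcongr
      rw [← sub_div, Real.norm_eq_abs, abs_div, abs_of_pos hpi0]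
      exact div_le_self (abs_nonneg _) hpi
    calc |(H (a / (2 * Real.pi)) - H (a' / (2 * Real.pi))).re| * (1 + |a|) ^ K ≤
        ((4 * Real.pi) ^ K * C1 / (1 + |a|) ^ K * |a - a'|) * (1 + |a|) ^ K := by gcongr
      _ = (4 * Real.pi) ^ K * C1 * |a - a'| := by field_simp
      _ ≤ _ := by
        gcongr
        have : 0 ≤ (2 * Real.pi) ^ K * C0 := by positivity
        linarith

/-- even smooth extension of the window -/
noncomputable def wt (x : ℝ) : ℝ := Real.smoothTransition (7 - 4 * x) * Real.smoothTransition (7 + 4 * x)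

lemma wt_smooth : ContDiff ℝ ∞ wt := by
  unfold wt
  have h : ContDiff ℝ ∞ Real.smoothTransition := Real.smoothTransition.contDiff
  refine ContDiff.mul ?_ ?_
  · exact h.comp (by fun_prop)
  · exact h.comp (by fun_prop)

lemma win_two {x : ℝ} (h : 2 ≤ x) : win x = 0 := by
  unfold win
  exact Real.smoothTransition.zero_of_nonpos (by linarith)

lemma wt_abs (x : ℝ) : wt x = win |x| := by
  unfold wt win
  rcases le_total 0 x with h | h
  · rw [abs_of_nonneg h, Real.smoothTransition.one_of_one_le (by linarith : 1 ≤ 7 + 4 * x), mul_one]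
  · rw [abs_of_nonpos h, Real.smoothTransition.one_of_one_le (by linarith : 1 ≤ 7 - 4 * x), one_mul]
    congr 1; ring

lemma wt_supp : HasCompactSupport wt := by
  refine HasCompactSupport.intro (isCompact_Icc (a := (-2:ℝ)) (b := 2)) fun x hx => ?_
  rw [wt_abs]
  apply win_two
  rw [Set.mem_Icc, ← abs_le, not_le] at hx
  exact hx.le

lemma win_cont : Continuous win := by
  unfold win
  exact Real.smoothTransition.continuous.comp (by fun_prop)

/-- the kernel -/
noncomputable def kk (a : ℝ) : ℝ := ∫ x in (0:ℝ)..2, win x * Real.cos (a * x)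

lemma kk_eq (a : ℝ) : ∫ x, wt x * Real.cos (a * x) = 2 * kk a := by
  have h1 : ∀ x, wt x * Real.cos (a * x) = (fun y => win y * Real.cos (a * y)) |x| := by
    intro x
    simp only
    rw [wt_abs]
    congr 1
    rcases le_total 0 x with h | h
    · rw [abs_of_nonneg h]
    · rw [abs_of_nonpos h, ← Real.cos_neg]; congr 1; ring
  simp_rw [h1]
  rw [integral_comp_abs (f := fun y => win y * Real.cos (a * y))]
  congr 1
  unfold kk
  rw [intervalIntegral.integral_of_le (by norm_num)]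
  refine setIntegral_eq_of_subset_of_forall_sdiff_eq_zero measurableSet_Ioi Set.Ioc_subset_Ioi_self ?_
  intro x hx
  have hx2 : 2 ≤ x := by
    by_contra h
    push Not at h
    exact hx.2 ⟨hx.1, h.le⟩
  rw [win_two hx2, zero_mul]

lemma PP_win (u : ℝ) (j : ℕ) : PP (fun t => win t * Real.cos (u * t)) j = (kk (u - xx j) + kk (u + xx j)) / (2 * ww j) := by
  unfold PP kk
  have hc := win_cont
  rw [← intervalIntegral.integral_add (Continuous.intervalIntegrable (by fun_prop) _ _)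
    (Continuous.intervalIntegrable (by fun_prop) _ _)]
  have h1 : ∀ x, win x * Real.cos (u * x) * Real.cos (xx j * x) =
      (1 / 2) * (win x * Real.cos ((u - xx j) * x) + win x * Real.cos ((u + xx j) * x)) := by
    intro x
    rw [sub_mul, add_mul, Real.cos_sub, Real.cos_add]; ring
  simp_rw [h1]
  rw [intervalIntegral.integral_const_mul]
  have := ww_ge j
  generalize (∫ x in (0:ℝ)..2, (win x * Real.cos ((u - xx j) * x) + win x * Real.cos ((u + xx j) * x))) = I
  field_simp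

lemma sum_inv_sq_range (N : ℕ) : ∑ n ∈ range N, ((1 + (n : ℝ)) ^ 2)⁻¹ ≤ 2 := by
  have h : ∀ N : ℕ, ∑ n ∈ range (N + 1), ((1 + (n : ℝ)) ^ 2)⁻¹ ≤ 2 - 1 / ((N : ℝ) + 1) := by
    intro N
    induction N with
    | zero => norm_num
    | succ k ih =>
      rw [sum_range_succ]
      refine (add_le_add_left ih _).trans ?_
      push_cast
      have hk : (0:ℝ) ≤ k := Nat.cast_nonneg k
      have : ((1 + ((k:ℝ) + 1)) ^ 2)⁻¹ ≤ 1 / ((k:ℝ) + 1) - 1 / (k + 1 + 1) := by
        rw [div_sub_div _ _ (by positivity) (by positivity), inv_eq_one_div, div_le_div_iff₀ (by positivity) (by positivity)]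
        nlinarith
      linarith
  cases N with
  | zero => simp
  | succ k =>
    refine (h k).trans ?_
    have : (0:ℝ) ≤ 1 / ((k:ℝ) + 1) := by positivity
    linarith

lemma sum_inv_sq (j : ℕ) (F : Finset ℕ) : ∑ y ∈ F, ((1 + |(y : ℝ) - j|) ^ 2)⁻¹ ≤ 4 := by
  classical
  rw [← sum_filter_add_sum_filter_not F (fun y => y < j)]
  have h1 : ∑ y ∈ F.filter (fun y => y < j), ((1 + |(y : ℝ) - j|) ^ 2)⁻¹ ≤ 2 := by
    have e : ∀ y ∈ F.filter (fun y => y < j), ((1 + |(y : ℝ) - j|) ^ 2)⁻¹ = (fun n : ℕ => ((1 + (n : ℝ)) ^ 2)⁻¹) (j - y) := by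
      intro y hy
      have hy' := (mem_filter.1 hy).2
      simp only
      rw [Nat.cast_sub hy'.le, abs_sub_comm, abs_of_nonneg]
      exact sub_nonneg.2 (by exact_mod_cast hy'.le)
    rw [sum_congr rfl e]
    have hinj : Set.InjOn (fun y => j - y) (F.filter (fun y => y < j) : Finset ℕ) := by
      intro a ha b hb hab
      have h1 := (mem_filter.1 (mem_coe.1 ha)).2
      have h2 := (mem_filter.1 (mem_coe.1 hb)).2
      simp only at hab
      omega
    rw [← sum_image (f := fun n : ℕ => ((1 + (n : ℝ)) ^ 2)⁻¹) hinj]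
    refine (sum_le_sum_of_subset_of_nonneg (t := range (j + 1)) ?_ fun _ _ _ => by positivity).trans (sum_inv_sq_range _)
    intro n hn
    obtain ⟨y, _, rfl⟩ := mem_image.1 hn
    rw [mem_range]; omega
  have h2 : ∑ y ∈ F.filter (fun y => ¬ y < j), ((1 + |(y : ℝ) - j|) ^ 2)⁻¹ ≤ 2 := by
    have e : ∀ y ∈ F.filter (fun y => ¬ y < j), ((1 + |(y : ℝ) - j|) ^ 2)⁻¹ = (fun n : ℕ => ((1 + (n : ℝ)) ^ 2)⁻¹) (y - j) := by
      intro y hy
      have hy' := not_lt.1 (mem_filter.1 hy).2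
      simp only
      rw [Nat.cast_sub hy', abs_of_nonneg]
      exact sub_nonneg.2 (by exact_mod_cast hy')
    rw [sum_congr rfl e]
    have hinj : Set.InjOn (fun y => y - j) (F.filter (fun y => ¬ y < j) : Finset ℕ) := by
      intro a ha b hb hab
      have h1 := (mem_filter.1 (mem_coe.1 ha)).2
      have h2 := (mem_filter.1 (mem_coe.1 hb)).2
      simp only at hab
      omega
    rw [← sum_image (f := fun n : ℕ => ((1 + (n : ℝ)) ^ 2)⁻¹) hinj]
    refine (sum_le_sum_of_subset_of_nonneg (t := range (F.sup id + 1)) ?_ fun _ _ _ => by positivity).trans (sum_inv_sq_range _)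
    intro n hn
    obtain ⟨y, hy, rfl⟩ := mem_image.1 hn
    have : y ≤ F.sup id := le_sup (f := id) (mem_filter.1 hy).1
    rw [mem_range]; omega
  linarith

/-- Schur test -/
lemma schur {m : ℕ} {W : ℕ → ℝ} {A M : ℝ} (hA : 0 < A) (hW : ∀ j, 0 < W j)
    (hWA : ∀ i j : ℕ, W i ≤ A * (1 + |(i : ℝ) - j|) ^ (2 * m + 1) * W j)
    (S : Finset ℕ) (cl : ℕ → ℕ) (β : ℕ → ℝ) (T : ℕ → ℕ → ℝ)
    (hT : ∀ i ∈ S, ∀ j : ℕ, |T i j| * (1 + |(cl i : ℝ) - j|) ^ (m + 3) ≤ M) (J : ℕ) :
    ∑ j ∈ range J, W j * (∑ i ∈ S, β i * T i j) ^ 2 ≤ 16 * M ^ 2 * A * QQ W S cl β := by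
  classical
  set B : ℕ → ℝ := fun y => ∑ i ∈ S.filter (fun i => cl i = y), |β i| with hB
  have hB0 : ∀ y, 0 ≤ B y := fun y => sum_nonneg fun i _ => abs_nonneg _
  set v : ℕ → ℕ → ℝ := fun y j => (1 + |(y : ℝ) - j|)⁻¹ with hv
  have hv0 : ∀ y j, 0 < v y j := fun y j => by rw [hv]; positivity
  have hv1 : ∀ y j, v y j ≤ 1 := fun y j => by
    rw [hv]; exact inv_le_one_of_one_le₀ (by linarith [abs_nonneg ((y:ℝ) - j)])
  have hpt : ∀ j, |∑ i ∈ S, β i * T i j| ≤ M * ∑ y ∈ S.image cl, B y * v y j ^ (m + 3) := by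
    intro j
    refine (abs_sum_le_sum_abs _ _).trans ?_
    rw [← sum_fiberwise_of_maps_to (g := cl) (t := S.image cl) (fun i hi => mem_image_of_mem _ hi), mul_sum]
    refine sum_le_sum fun y _ => ?_
    rw [hB]
    simp only
    rw [sum_mul, mul_sum]
    refine sum_le_sum fun i hi => ?_
    obtain ⟨hiS, hiy⟩ := mem_filter.1 hi
    have h := hT i hiS j
    rw [hiy] at h
    have h2 : |T i j| ≤ M * v y j ^ (m + 3) := by
      rw [hv]
      simp only
      rw [inv_pow, ← div_eq_mul_inv, le_div_iff₀ (by positivity)]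
      exact h
    rw [abs_mul]
    calc |β i| * |T i j| ≤ |β i| * (M * v y j ^ (m + 3)) := by gcongr
      _ = _ := by ring
  have hsq : ∀ j, (∑ i ∈ S, β i * T i j) ^ 2 ≤ 4 * M ^ 2 * ∑ y ∈ S.image cl, B y ^ 2 * v y j ^ (2 * m + 4) := by
    intro j
    have h1 : (∑ i ∈ S, β i * T i j) ^ 2 ≤ (M * ∑ y ∈ S.image cl, B y * v y j ^ (m + 3)) ^ 2 := by
      rw [← sq_abs]
      exact pow_le_pow_left₀ (abs_nonneg _) (hpt j) 2
    refine h1.trans ?_
    have h2 : (∑ y ∈ S.image cl, B y * v y j ^ (m + 3)) ^ 2 ≤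
        (∑ y ∈ S.image cl, v y j ^ 2) * ∑ y ∈ S.image cl, B y ^ 2 * v y j ^ (2 * m + 4) := by
      have h := sum_mul_sq_le_sq_mul_sq (S.image cl) (fun y => v y j) (fun y => B y * v y j ^ (m + 2))
      have e1 : ∀ y ∈ S.image cl, v y j * (B y * v y j ^ (m + 2)) = B y * v y j ^ (m + 3) := fun y _ => by ring
      have e2 : ∀ y ∈ S.image cl, (B y * v y j ^ (m + 2)) ^ 2 = B y ^ 2 * v y j ^ (2 * m + 4) := fun y _ => by ring
      rwa [sum_congr rfl e1, sum_congr rfl e2] at h
    have h3 : ∑ y ∈ S.image cl, v y j ^ 2 ≤ 4 := by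
      have := sum_inv_sq j (S.image cl)
      rw [hv]
      simpa only [inv_pow] using this
    have h4 : 0 ≤ ∑ y ∈ S.image cl, B y ^ 2 * v y j ^ (2 * m + 4) :=
      sum_nonneg fun y _ => mul_nonneg (sq_nonneg _) (pow_nonneg (hv0 y j).le _)
    rw [mul_pow]
    calc M ^ 2 * (∑ y ∈ S.image cl, B y * v y j ^ (m + 3)) ^ 2 ≤
        M ^ 2 * (4 * ∑ y ∈ S.image cl, B y ^ 2 * v y j ^ (2 * m + 4)) := by
          gcongr
          exact h2.trans (mul_le_mul_of_nonneg_right h3 h4)
      _ = _ := by ring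
  calc ∑ j ∈ range J, W j * (∑ i ∈ S, β i * T i j) ^ 2
      ≤ ∑ j ∈ range J, W j * (4 * M ^ 2 * ∑ y ∈ S.image cl, B y ^ 2 * v y j ^ (2 * m + 4)) := by
        refine sum_le_sum fun j _ => mul_le_mul_of_nonneg_left (hsq j) (hW j).le
    _ = 4 * M ^ 2 * ∑ y ∈ S.image cl, B y ^ 2 * ∑ j ∈ range J, W j * v y j ^ (2 * m + 4) := by
        simp_rw [mul_sum]
        rw [sum_comm]
        refine sum_congr rfl fun y _ => sum_congr rfl fun j _ => by ring
    _ ≤ 4 * M ^ 2 * ∑ y ∈ S.image cl, B y ^ 2 * (A * W y * 4) := by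
        refine mul_le_mul_of_nonneg_left ?_ (by positivity)
        refine sum_le_sum fun y _ => mul_le_mul_of_nonneg_left ?_ (sq_nonneg _)
        have h1 : ∀ j ∈ range J, W j * v y j ^ (2 * m + 4) ≤ A * W y * ((1 + |(j : ℝ) - y|) ^ 2)⁻¹ := by
          intro j _
          have h2 := hWA j y
          have hvy : v y j = (1 + |(j : ℝ) - y|)⁻¹ := by rw [hv]; simp only; rw [abs_sub_comm]
          set d := 1 + |(j : ℝ) - y| with hd
          have hd1 : 1 ≤ d := by rw [hd]; linarith [abs_nonneg ((j:ℝ) - y)]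
          have hd0 : 0 < d := by linarith
          rw [hvy]
          calc W j * d⁻¹ ^ (2 * m + 4) ≤ (A * d ^ (2 * m + 1) * W y) * d⁻¹ ^ (2 * m + 4) := by gcongr
            _ = A * W y * (d ^ 3)⁻¹ := by
              rw [inv_pow, show 2 * m + 4 = (2 * m + 1) + 3 by ring, pow_add d (2 * m + 1) 3]
              field_simp
            _ ≤ A * W y * (d ^ 2)⁻¹ := by
              have := hW y
              refine mul_le_mul_of_nonneg_left ?_ (by positivity)
              exact inv_anti₀ (by positivity) (pow_le_pow_right₀ hd1 (by norm_num))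
        refine (sum_le_sum h1).trans ?_
        rw [← mul_sum]
        have := hW y
        refine mul_le_mul_of_nonneg_left ?_ (by positivity)
        exact sum_inv_sq y (range J)
    _ = 16 * M ^ 2 * A * QQ W S cl β := by
        unfold QQ
        rw [mul_sum, mul_sum]
        refine sum_congr rfl fun y _ => ?_
        rw [hB]; ring

end Win

open Win in
theorem pf_TaskWin : TaskWin := by
  intro m
  obtain ⟨C, hC, hd, hl⟩ := cos_decay wt wt_smooth wt_supp (m + 3)
  refine ⟨16 * (2 ^ (m + 3) * C) ^ 2, by positivity, ?_⟩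
  intro W A hA hW hWA S cl ω β e he0 he1 hω J
  -- distance
  have hdist : ∀ i ∈ S, ∀ j : ℕ, 1 + |(cl i : ℝ) - j| ≤ 2 * (1 + |ω i - xx j|) ∧ 1 + |(cl i : ℝ) - j| ≤ 2 * (1 + |ω i + xx j|) := by
    intro i hi j
    have h1 : |ω i - xx (cl i)| ≤ 1 := (hω i hi).trans he1
    have hp : (3:ℝ) < Real.pi := Real.pi_gt_three
    unfold xx at h1 ⊢
    have hcl : (0:ℝ) ≤ cl i := Nat.cast_nonneg _
    have hj : (0:ℝ) ≤ j := Nat.cast_nonneg _
    obtain ⟨h2, h3⟩ := abs_le.1 h1
    have key : ∀ x : ℝ, Real.pi / 2 * |(cl i : ℝ) - j| - 1 ≤ |x| → 1 + |(cl i : ℝ) - j| ≤ 2 * (1 + |x|) := by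
      intro x hx
      by_cases hij : cl i = j
      · rw [hij]; simp only [sub_self, abs_zero]
        linarith [abs_nonneg x]
      · have h4 : (1:ℝ) ≤ |(cl i : ℝ) - j| := by
          have : (1:ℤ) ≤ |(cl i : ℤ) - j| := by
            apply Int.one_le_abs; omega
          exact_mod_cast this
        nlinarith
    constructor
    · apply key
      rcases abs_cases ((cl i : ℝ) - j) with ⟨h5, _⟩ | ⟨h5, _⟩ <;> rw [h5]
      · refine le_trans ?_ (le_abs_self _)
        nlinarith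
      · refine le_trans ?_ (neg_le_abs _)
        nlinarith
    · apply key
      refine le_trans ?_ (le_abs_self _)
      have h5 : |(cl i : ℝ) - j| ≤ cl i + j := by
        rw [abs_le]; constructor <;> linarith
      nlinarith
  have hww : ∀ j, 1 ≤ ww j := ww_ge
  constructor
  · refine (schur (M := 2 ^ (m + 3) * C) hA hW hWA S cl β _ ?_ J).trans (le_of_eq (by ring))
    intro i hi j
    rw [PP_win]
    obtain ⟨h1, h2⟩ := hdist i hi j
    have h3 := hd (ω i - xx j)
    have h4 := hd (ω i + xx j)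
    rw [kk_eq, abs_mul, abs_two] at h3 h4
    rw [abs_div, abs_of_pos (by have := hww j; linarith : 0 < 2 * ww j), div_mul_eq_mul_div, div_le_iff₀ (by have := hww j; linarith)]
    have h5 : |kk (ω i - xx j)| * (1 + |(cl i : ℝ) - j|) ^ (m + 3) ≤ 2 ^ (m + 3) * C / 2 := by
      calc |kk (ω i - xx j)| * (1 + |(cl i : ℝ) - j|) ^ (m + 3) ≤
          |kk (ω i - xx j)| * (2 * (1 + |ω i - xx j|)) ^ (m + 3) := by gcongr
        _ = 2 ^ (m + 3) * (2 * |kk (ω i - xx j)| * (1 + |ω i - xx j|) ^ (m + 3)) / 2 := by rw [mul_pow]; ring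
        _ ≤ _ := by gcongr
    have h6 : |kk (ω i + xx j)| * (1 + |(cl i : ℝ) - j|) ^ (m + 3) ≤ 2 ^ (m + 3) * C / 2 := by
      calc |kk (ω i + xx j)| * (1 + |(cl i : ℝ) - j|) ^ (m + 3) ≤
          |kk (ω i + xx j)| * (2 * (1 + |ω i + xx j|)) ^ (m + 3) := by gcongr
        _ = 2 ^ (m + 3) * (2 * |kk (ω i + xx j)| * (1 + |ω i + xx j|) ^ (m + 3)) / 2 := by rw [mul_pow]; ring
        _ ≤ _ := by gcongr
    have h7 := abs_add_le (kk (ω i - xx j)) (kk (ω i + xx j))
    have h8 : 0 ≤ (1 + |(cl i : ℝ) - j|) ^ (m + 3) := by positivity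
    have h9 : 0 ≤ 2 ^ (m + 3) * C := by positivity
    nlinarith [hww j]
  · refine (schur (M := 2 ^ (m + 3) * C * e) hA hW hWA S cl β _ ?_ J).trans (le_of_eq (by ring))
    intro i hi j
    have hc := win_cont
    have hsub : PP (fun t => win t * (Real.cos (ω i * t) - Real.cos (xx (cl i) * t))) j =
        PP (fun t => win t * Real.cos (ω i * t)) j - PP (fun t => win t * Real.cos (xx (cl i) * t)) j := by
      unfold PP
      rw [← sub_div, ← intervalIntegral.integral_sub (Continuous.intervalIntegrable (by fun_prop) _ _)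
        (Continuous.intervalIntegrable (by fun_prop) _ _)]
      congr 1
      congr 1
      ext x; ring
    rw [hsub, PP_win, PP_win]
    obtain ⟨h1, h2⟩ := hdist i hi j
    have hωi := hω i hi
    have hd1 : |(ω i - xx j) - (xx (cl i) - xx j)| ≤ e := by
      rw [show (ω i - xx j) - (xx (cl i) - xx j) = ω i - xx (cl i) by ring]; exact hωi
    have hd2 : |(ω i + xx j) - (xx (cl i) + xx j)| ≤ e := by
      rw [show (ω i + xx j) - (xx (cl i) + xx j) = ω i - xx (cl i) by ring]; exact hωi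
    have h3 := hl _ _ (hd1.trans he1)
    have h4 := hl _ _ (hd2.trans he1)
    rw [kk_eq, kk_eq, ← mul_sub, abs_mul, abs_two] at h3 h4
    have h3' : 2 * |kk (ω i - xx j) - kk (xx (cl i) - xx j)| * (1 + |ω i - xx j|) ^ (m + 3) ≤ C * e :=
      h3.trans (by gcongr)
    have h4' : 2 * |kk (ω i + xx j) - kk (xx (cl i) + xx j)| * (1 + |ω i + xx j|) ^ (m + 3) ≤ C * e :=
      h4.trans (by gcongr)
    have e1 : (kk (ω i - xx j) + kk (ω i + xx j)) / (2 * ww j) - (kk (xx (cl i) - xx j) + kk (xx (cl i) + xx j)) / (2 * ww j) =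
      ((kk (ω i - xx j) - kk (xx (cl i) - xx j)) + (kk (ω i + xx j) - kk (xx (cl i) + xx j))) / (2 * ww j) := by ring
    rw [e1, abs_div, abs_of_pos (by have := hww j; linarith : 0 < 2 * ww j), div_mul_eq_mul_div, div_le_iff₀ (by have := hww j; linarith)]
    set D1 := kk (ω i - xx j) - kk (xx (cl i) - xx j) with hD1
    set D2 := kk (ω i + xx j) - kk (xx (cl i) + xx j) with hD2
    have h5 : |D1| * (1 + |(cl i : ℝ) - j|) ^ (m + 3) ≤ 2 ^ (m + 3) * (C * e) / 2 := by
      calc |D1| * (1 + |(cl i : ℝ) - j|) ^ (m + 3) ≤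
          |D1| * (2 * (1 + |ω i - xx j|)) ^ (m + 3) := by gcongr
        _ = 2 ^ (m + 3) * (2 * |D1| * (1 + |ω i - xx j|) ^ (m + 3)) / 2 := by rw [mul_pow]; ring
        _ ≤ _ := by gcongr
    have h6 : |D2| * (1 + |(cl i : ℝ) - j|) ^ (m + 3) ≤ 2 ^ (m + 3) * (C * e) / 2 := by
      calc |D2| * (1 + |(cl i : ℝ) - j|) ^ (m + 3) ≤
          |D2| * (2 * (1 + |ω i + xx j|)) ^ (m + 3) := by gcongr
        _ = 2 ^ (m + 3) * (2 * |D2| * (1 + |ω i + xx j|) ^ (m + 3)) / 2 := by rw [mul_pow]; ring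
        _ ≤ _ := by gcongr
    have h7 := abs_add_le D1 D2
    have h8 : 0 ≤ (1 + |(cl i : ℝ) - j|) ^ (m + 3) := by positivity
    have h9 : 0 ≤ 2 ^ (m + 3) * C * e := by positivity
    nlinarith [hww j]

end Pool.Agent.H472.Q2
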