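import Mathlib
import Pool.Agent.H472.Q2.Tasks
import Pool.Graph.R_seed8.H13R3.EM.Core

set_option autoImplicit false

/-!
TASK WRAPQ: from the theta relation to an element of the Selberg class (adapted from the library's
`H13R3/EM/Wrap.lean`; here `lam = 2 m + 2`).
-/

namespace Pool.Agent.H472.Q2.WrapQ

open Finset Pool.Agent.H469R10.HO Pool.Agent.H13R3.EM

theorem lam_ge (m : ℕ) : (2 : ℝ) ≤ lamQ m := by
  unfold lamQ
  have : (0 : ℝ) ≤ m := Nat.cast_nonneg m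
  linarith

theorem lam_pos (m : ℕ) : 0 < lamQ m := by linarith [lam_ge m]

theorem lam_kap (m : ℕ) : lamQ m * kapQ m = 2 * m + 1 := by
  have h := (lam_pos m).ne'
  unfold lamQ at h
  unfold kapQ lamQ
  field_simp

/-- prime coefficients -/
noncomputable def gam (m : ℕ) (β : ℕ → ℝ) (p : ℕ) : ℝ := β p * (p : ℝ) ^ kapQ m

/-- coefficients -/
noncomputable def fr (m : ℕ) (β : ℕ → ℝ) (n : ℕ) : ℝ :=
  if Squarefree n then ∏ p ∈ n.primeFactors, gam m β p else 0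

/-- complex coefficients -/
noncomputable def ff (m : ℕ) (β : ℕ → ℝ) (n : ℕ) : ℂ := ((fr m β n : ℝ) : ℂ)

section coeff

variable {m : ℕ} {β : ℕ → ℝ}

theorem fr_zero : fr m β 0 = 0 := by
  unfold fr
  rw [if_neg not_squarefree_zero]

theorem fr_one : fr m β 1 = 1 := by
  unfold fr
  rw [if_pos squarefree_one]
  simp

theorem fr_prime {p : ℕ} (hp : p.Prime) : fr m β p = gam m β p := by
  unfold fr
  rw [if_pos hp.squarefree, hp.primeFactors, Finset.prod_singleton]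

theorem fr_prime_pow {p e : ℕ} (hp : p.Prime) (he : 2 ≤ e) : fr m β (p ^ e) = 0 := by
  unfold fr
  rw [if_neg]
  intro h
  have h1 : p * p ∣ p ^ e := by
    rw [← sq]; exact pow_dvd_pow p he
  exact hp.one_lt.ne' (Nat.isUnit_iff.1 (h p h1))

theorem fr_mul {a b : ℕ} (hab : Nat.Coprime a b) : fr m β (a * b) = fr m β a * fr m β b := by
  unfold fr
  by_cases ha : Squarefree a
  · by_cases hb : Squarefree b
    · rw [if_pos ((Nat.squarefree_mul hab).2 ⟨ha, hb⟩), if_pos ha, if_pos hb,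
        Nat.Coprime.primeFactors_mul hab, Finset.prod_union hab.disjoint_primeFactors]
    · rw [if_neg (fun h => hb ((Nat.squarefree_mul hab).1 h).2), if_neg hb, mul_zero]
  · rw [if_neg (fun h => ha ((Nat.squarefree_mul hab).1 h).1), if_neg ha, zero_mul]

theorem abs_gam_le (hβ : ∀ p : ℕ, p.Prime → |β p| ≤ (p : ℝ) ^ (-kapQ m))
    {p : ℕ} (hp : p.Prime) : |gam m β p| ≤ 1 := by
  have hp0 : (0 : ℝ) < p := by exact_mod_cast hp.pos
  unfold gam
  rw [abs_mul, abs_of_pos (Real.rpow_pos_of_pos hp0 _)]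
  calc |β p| * (p : ℝ) ^ kapQ m ≤ (p : ℝ) ^ (-kapQ m) * (p : ℝ) ^ kapQ m := by
        gcongr
        exact hβ p hp
    _ = 1 := by rw [← Real.rpow_add hp0]; simp

theorem abs_fr_le (hβ : ∀ p : ℕ, p.Prime → |β p| ≤ (p : ℝ) ^ (-kapQ m))
    (n : ℕ) : |fr m β n| ≤ 1 := by
  unfold fr
  split_ifs with h
  · rw [Finset.abs_prod]
    exact Finset.prod_le_one (fun _ _ => abs_nonneg _)
      fun p hp => abs_gam_le hβ (Nat.prime_of_mem_primeFactors hp)
  · simp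

theorem fr_eq {α : ℕ → ℝ}
    (hα : ∀ n : ℕ, 1 ≤ n → α n = if Squarefree n then ∏ p ∈ n.primeFactors, β p else 0)
    {n : ℕ} (hn : 1 ≤ n) : fr m β n = α n * (n : ℝ) ^ kapQ m := by
  rw [hα n hn]
  unfold fr
  split_ifs with h
  · unfold gam
    rw [Finset.prod_mul_distrib]
    congr 1
    conv_rhs => rw [← Nat.prod_primeFactors_of_squarefree h]
    push_cast
    rw [Real.finsetProd_rpow]
    intro i _
    positivity
  · simp

end coeff

/-- logarithm coefficients -/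
noncomputable def bb (m : ℕ) (β : ℕ → ℝ) (n : ℕ) : ℂ :=
  (-1) ^ (n.factorization n.minFac + 1) * ((gam m β n.minFac : ℝ) : ℂ) ^ (n.factorization n.minFac) /
    (n.factorization n.minFac : ℂ)

theorem bb_pow {m : ℕ} {β : ℕ → ℝ} {p k : ℕ} (hp : p.Prime) (hk : k ≠ 0) :
    bb m β (p ^ k) = (-1) ^ (k + 1) * ((gam m β p : ℝ) : ℂ) ^ k / (k : ℂ) := by
  unfold bb
  rw [hp.pow_minFac hk, hp.factorization_pow, Finsupp.single_eq_same]

theorem norm_bb_le {m : ℕ} {β : ℕ → ℝ}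
    (hβ : ∀ p : ℕ, p.Prime → |β p| ≤ (p : ℝ) ^ (-kapQ m))
    {p k : ℕ} (hp : p.Prime) (hk : 1 ≤ k) : ‖bb m β (p ^ k)‖ ≤ 1 := by
  rw [bb_pow hp (by omega), norm_div, norm_mul, norm_pow, norm_pow, norm_neg, norm_one, one_pow,
    one_mul, Complex.norm_real, Real.norm_eq_abs, Complex.norm_natCast]
  have h1 : |gam m β p| ^ k ≤ 1 := pow_le_one₀ (abs_nonneg _) (abs_gam_le hβ hp)
  have h2 : (1 : ℝ) ≤ k := by exact_mod_cast hk
  rw [div_le_one (by linarith)]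
  linarith

theorem summable_term {m : ℕ} {β : ℕ → ℝ}
    (hβ : ∀ p : ℕ, p.Prime → |β p| ≤ (p : ℝ) ^ (-kapQ m))
    {s : ℂ} (hs : 1 < s.re) : LSeriesSummable (ff m β) s := by
  apply LSeriesSummable_of_bounded_of_one_lt_re (m := 1) _ hs
  intro n _
  unfold ff
  rw [Complex.norm_real, Real.norm_eq_abs]
  exact abs_fr_le hβ n

theorem euler {m : ℕ} {β : ℕ → ℝ}
    (hβ : ∀ p : ℕ, p.Prime → |β p| ≤ (p : ℝ) ^ (-kapQ m))
    {s : ℂ} (hs : 1 < s.re) :
    HasProd (fun p : Nat.Primes =>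
        Complex.exp (∑' k : ℕ, bb m β ((p : ℕ) ^ (k + 1)) *
          ((p : ℕ) : ℂ) ^ (-(((k + 1 : ℕ) : ℂ) * s))))
        (LSeries (ff m β) s) := by
  have hsum := summable_term (m := m) hβ hs
  set g : ℕ → ℂ := LSeries.term (ff m β) s with hg
  have hg0 : g 0 = 0 := by rw [hg]; exact LSeries.term_zero _ _
  have hg1 : g 1 = 1 := by
    rw [hg, LSeries.term_of_ne_zero one_ne_zero]
    simp [ff, fr_one]
  have hgm : ∀ {a b : ℕ}, Nat.Coprime a b → g (a * b) = g a * g b := by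
    intro a b hab
    rcases Nat.eq_zero_or_pos a with ha | ha
    · subst ha; rw [zero_mul, hg0, zero_mul]
    rcases Nat.eq_zero_or_pos b with hb | hb
    · subst hb; rw [mul_zero, hg0, mul_zero]
    rw [hg, LSeries.term_of_ne_zero (Nat.mul_pos ha hb).ne', LSeries.term_of_ne_zero ha.ne',
      LSeries.term_of_ne_zero hb.ne']
    unfold ff
    rw [fr_mul hab]
    push_cast
    rw [Complex.natCast_mul_natCast_cpow]
    ring
  have hE := EulerProduct.eulerProduct_hasProd hg1 hgm (by exact hsum.norm) hg0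
  have hL : (∑' n, g n) = LSeries (ff m β) s := rfl
  rw [hL] at hE
  convert hE using 1
  funext p
  have hp := p.2
  have hpos : (0 : ℝ) < (p : ℕ) := by exact_mod_cast hp.pos
  have hpc : ((p : ℕ) : ℂ) ≠ 0 := by exact_mod_cast hp.ne_zero
  -- the local factor
  have hloc : (∑' e : ℕ, g ((p : ℕ) ^ e)) = 1 + ((gam m β p : ℝ) : ℂ) * ((p : ℕ) : ℂ) ^ (-s) := by
    rw [tsum_eq_sum (s := Finset.range 2)]
    · rw [Finset.sum_range_succ, Finset.sum_range_one, pow_zero, pow_one, hg1, hg,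
        LSeries.term_of_ne_zero hp.ne_zero]
      unfold ff
      rw [fr_prime hp, Complex.cpow_neg]
      rfl
    · intro e he
      rw [Finset.mem_range, not_lt] at he
      rw [hg, LSeries.term_of_ne_zero (pow_ne_zero _ hp.ne_zero)]
      unfold ff
      rw [fr_prime_pow hp he]
      simp
  rw [hloc]
  set z : ℂ := ((gam m β p : ℝ) : ℂ) * ((p : ℕ) : ℂ) ^ (-s) with hz
  have hzn : ‖z‖ < 1 := by
    rw [hz, norm_mul, Complex.norm_real, Real.norm_eq_abs]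
    have h1 := abs_gam_le hβ hp
    have h2 : ‖((p : ℕ) : ℂ) ^ (-s)‖ = ((p : ℕ) : ℝ) ^ (-s.re) := by
      rw [show ((p : ℕ) : ℂ) = (((p : ℕ) : ℝ) : ℂ) by push_cast; rfl,
        Complex.norm_cpow_eq_rpow_re_of_pos hpos, Complex.neg_re]
    have h3 : ((p : ℕ) : ℝ) ^ (-s.re) < 1 :=
      Real.rpow_lt_one_of_one_lt_of_neg (by exact_mod_cast hp.one_lt) (by linarith)
    rw [h2]
    have h4 : 0 ≤ ((p : ℕ) : ℝ) ^ (-s.re) := by positivity
    calc |gam m β p| * ((p : ℕ) : ℝ) ^ (-s.re) ≤ 1 * ((p : ℕ) : ℝ) ^ (-s.re) := by gcongr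
      _ < 1 := by rw [one_mul]; exact h3
  have hlog := Complex.hasSum_taylorSeries_log hzn
  have hterm : ∀ k : ℕ, bb m β ((p : ℕ) ^ (k + 1)) * ((p : ℕ) : ℂ) ^ (-(((k + 1 : ℕ) : ℂ) * s)) =
      (-1) ^ (k + 1 + 1) * z ^ (k + 1) / ((k + 1 : ℕ) : ℂ) := by
    intro k
    rw [bb_pow hp (show k + 1 ≠ 0 by omega), hz, mul_pow]
    have : (((p : ℕ) : ℂ) ^ (-s)) ^ (k + 1) = ((p : ℕ) : ℂ) ^ (-(((k + 1 : ℕ) : ℂ) * s)) := by
      rw [← Complex.cpow_nat_mul]
      congr 1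
      ring
    rw [this]
    ring
  have hsumk : HasSum (fun k : ℕ => bb m β ((p : ℕ) ^ (k + 1)) *
      ((p : ℕ) : ℂ) ^ (-(((k + 1 : ℕ) : ℂ) * s))) (Complex.log (1 + z)) := by
    simp_rw [hterm]
    rw [hasSum_nat_add_iff (f := fun n : ℕ => (-1) ^ (n + 1) * z ^ n / (n : ℂ)) 1]
    simpa using hlog
  rw [hsumk.tsum_eq, Complex.exp_log]
  intro h0
  have : z = -1 := by linear_combination h0
  rw [this, norm_neg, norm_one] at hzn
  exact lt_irrefl _ hzn

/-- The entire function. -/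
noncomputable def FF (m : ℕ) (c : ℝ) (Λ : ℂ → ℂ) (s : ℂ) : ℂ :=
  Complex.exp ((Real.log c : ℂ) * ((lamQ m : ℂ) * s - 2 * m - 1)) *
    (Λ ((lamQ m : ℂ) * s) * (Complex.Gamma ((lamQ m : ℂ) * s))⁻¹)

theorem FF_diff {m : ℕ} {c : ℝ} {Λ : ℂ → ℂ} (hΛ : Differentiable ℂ Λ) :
    Differentiable ℂ (FF m c Λ) := by
  unfold FF
  have h1 : Differentiable ℂ (fun s : ℂ => (lamQ m : ℂ) * s) := by fun_prop
  have h2 : Differentiable ℂ (fun z : ℂ => (Complex.Gamma z)⁻¹) :=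
    Complex.differentiable_one_div_Gamma
  have h3 := hΛ.comp h1
  have h4 := h2.comp h1
  have h5 : Differentiable ℂ (fun s : ℂ => Complex.exp ((Real.log c : ℂ) *
    ((lamQ m : ℂ) * s - 2 * m - 1))) := by fun_prop
  exact h5.mul (h3.mul h4)

theorem uu_pos {c lam : ℝ} (hc : 0 < c) {n : ℕ} (hn : 1 ≤ n) : 0 < uu c lam n := by
  unfold uu
  have : (0 : ℝ) < n := by exact_mod_cast hn
  positivity

theorem uu_log {c lam : ℝ} (hc : 0 < c) {n : ℕ} (hn : 1 ≤ n) :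
    Real.log (uu c lam n) = Real.log c + 1 / lam * Real.log n := by
  unfold uu
  have h : (0 : ℝ) < n := by exact_mod_cast hn
  rw [Real.log_mul hc.ne' (Real.rpow_pos_of_pos h _).ne', Real.log_rpow h]

theorem uu_zero {c lam : ℝ} (hl : 0 < lam) : uu c lam 0 = 0 := by
  unfold uu
  rw [Nat.cast_zero, Real.zero_rpow (by positivity), mul_zero]

theorem pow_eq_exp {x : ℝ} (hx : 0 < x) (z : ℂ) :
    ((x : ℝ) : ℂ) ^ z = Complex.exp ((Real.log x : ℂ) * z) := by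
  rw [Complex.cpow_def_of_ne_zero (by exact_mod_cast hx.ne'), Complex.ofReal_log hx.le]

theorem FF_series {m : ℕ} {c : ℝ} {β α : ℕ → ℝ} {Λ : ℂ → ℂ} (hc : 0 < c)
    (hα : ∀ n : ℕ, 1 ≤ n → α n = if Squarefree n then ∏ p ∈ n.primeFactors, β p else 0)
    {s : ℂ}
    (h : HasSum (fun n : ℕ => if n = 0 then 0 else
      ((α n * uu c (lamQ m) n ^ (2 * m + 1) : ℝ) : ℂ) *
        ((uu c (lamQ m) n : ℝ) : ℂ) ^ (-((lamQ m : ℂ) * s)))
      (Λ ((lamQ m : ℂ) * s) * (Complex.Gamma ((lamQ m : ℂ) * s))⁻¹)) :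
    FF m c Λ s = LSeries (ff m β) s := by
  have h2 := h.mul_left (Complex.exp ((Real.log c : ℂ) *
    ((lamQ m : ℂ) * s - 2 * m - 1)))
  change HasSum _ (FF m c Λ s) at h2
  rw [← h2.tsum_eq]
  unfold LSeries
  congr 1
  funext n
  rcases Nat.eq_zero_or_pos n with h0 | h0
  · subst h0
    simp [LSeries.term_zero]
  · rw [if_neg h0.ne', LSeries.term_of_ne_zero h0.ne']
    have hn : (0 : ℝ) < n := by exact_mod_cast h0
    have hu := uu_pos (lam := lamQ m) hc h0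
    have hl := lam_pos m
    have hlc : ((lamQ m : ℝ) : ℂ) ≠ 0 := by exact_mod_cast hl.ne'
    unfold ff
    rw [fr_eq hα h0]
    have e1 : (uu c (lamQ m) n) ^ (2 * m + 1) =
        Real.exp ((2 * m + 1) * (Real.log c + 1 / lamQ m * Real.log n)) := by
      rw [← uu_log hc h0]
      conv_lhs => rw [← Real.exp_log hu]
      rw [← Real.exp_nat_mul]
      push_cast
      rfl
    have e2 : (n : ℝ) ^ kapQ m = Real.exp (Real.log n * kapQ m) := Real.rpow_def_of_pos hn _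
    have e3 : ((n : ℕ) : ℂ) ^ s = Complex.exp ((Real.log n : ℂ) * s) := by
      rw [show ((n : ℕ) : ℂ) = ((n : ℝ) : ℂ) by push_cast; rfl]
      exact pow_eq_exp hn s
    have e5 : ∀ a y : ℂ, a / Complex.exp y = a * Complex.exp (-y) := by
      intro a y; rw [Complex.exp_neg, div_eq_mul_inv]
    rw [pow_eq_exp hu, uu_log hc h0, e1, e2, e3, e5]
    push_cast
    have e4 : ∀ a b c' d e : ℂ, Complex.exp a * (b * Complex.exp c' * Complex.exp d) =
        b * Complex.exp (a + c' + d) := by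
      intro a b c' d _
      rw [Complex.exp_add, Complex.exp_add]
      ring
    rw [e4 _ _ _ _ 0, mul_assoc, ← Complex.exp_add]
    congr 2
    have hk : ((lamQ m : ℝ) : ℂ) * ((kapQ m : ℝ) : ℂ) = 2 * m + 1 := by
      have := congrArg (fun x : ℝ => (x : ℂ)) (lam_kap m)
      push_cast at this
      exact this
    have hk2 : ((kapQ m : ℝ) : ℂ) = (2 * m + 1) / (lamQ m : ℂ) := by
      rw [← hk]; field_simp
    rw [hk2]
    field_simp
    ring

theorem growth_aux (a : ℝ) : ∃ K : ℝ, ∀ x : ℝ, 0 ≤ x → a * (1 + x) ^ 2 ≤ x ^ 3 + K := by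
  refine ⟨|a| * (1 + (4 * |a| + 1)) ^ 2, fun x hx => ?_⟩
  have ha : a ≤ |a| := le_abs_self a
  have ha0 : 0 ≤ |a| := abs_nonneg a
  have h1 : a * (1 + x) ^ 2 ≤ |a| * (1 + x) ^ 2 := by gcongr
  refine h1.trans ?_
  by_cases h : x ≤ 4 * |a| + 1
  · have h2 : |a| * (1 + x) ^ 2 ≤ |a| * (1 + (4 * |a| + 1)) ^ 2 := by gcongr
    have h3 : 0 ≤ x ^ 3 := by positivity
    linarith
  · push Not at h
    have hx1 : 1 ≤ x := by linarith
    have h2 : |a| * (1 + x) ^ 2 ≤ x ^ 3 := by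
      calc |a| * (1 + x) ^ 2 ≤ |a| * (2 * x) ^ 2 := by
            gcongr
            linarith
        _ = (4 * |a|) * x ^ 2 := by ring
        _ ≤ x * x ^ 2 := by
            gcongr
            linarith
        _ = x ^ 3 := by ring
    have h3 : 0 ≤ |a| * (1 + (4 * |a| + 1)) ^ 2 := by positivity
    linarith

theorem FF_growth {m : ℕ} {c : ℝ} {Λ : ℂ → ℂ} {C : ℝ}
    (h : ∀ z : ℂ, ‖Λ z * (Complex.Gamma z)⁻¹‖ ≤ Real.exp (C * (1 + ‖z‖) ^ 2)) :
    ∃ ρ C' : ℝ, ∀ s : ℂ, ‖FF m c Λ s‖ ≤ C' * Real.exp (‖s‖ ^ ρ) := by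
  have hl := lam_pos m
  have hl1 := lam_ge m
  obtain ⟨K, hK⟩ := growth_aux (|Real.log c| * (2 * lamQ m + 2 * m + 2) +
    |C| * (2 * lamQ m + 2) ^ 2)
  refine ⟨3, Real.exp K, fun s => ?_⟩
  have hx : 0 ≤ ‖s‖ := norm_nonneg s
  have hK' := hK ‖s‖ hx
  unfold FF
  rw [norm_mul, Complex.norm_exp]
  have h1 : (((Real.log c : ℂ) * ((lamQ m : ℂ) * s - 2 * m - 1))).re ≤
      |Real.log c| * (2 * lamQ m + 2 * m + 2) * (1 + ‖s‖) ^ 2 := by
    refine (Complex.re_le_norm _).trans ?_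
    rw [norm_mul, Complex.norm_real, Real.norm_eq_abs, mul_assoc]
    gcongr
    have h2 : ‖(lamQ m : ℂ) * s - 2 * m - 1‖ ≤ lamQ m * ‖s‖ + 2 * m + 1 := by
      refine (norm_sub_le _ _).trans ?_
      refine (add_le_add_left (norm_sub_le _ _) _).trans ?_
      rw [norm_mul, Complex.norm_real, Real.norm_of_nonneg hl.le, norm_mul, Complex.norm_natCast,
        norm_one]
      norm_num
    refine h2.trans ?_
    have hm : (0 : ℝ) ≤ m := Nat.cast_nonneg m
    nlinarith [mul_nonneg hl.le hx, mul_nonneg hm hx, mul_nonneg hl.le (mul_nonneg hx hx),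
      mul_nonneg hm (mul_nonneg hx hx)]
  have h2 : ‖Λ ((lamQ m : ℂ) * s) * (Complex.Gamma ((lamQ m : ℂ) * s))⁻¹‖ ≤
      Real.exp (|C| * (2 * lamQ m + 2) ^ 2 * (1 + ‖s‖) ^ 2) := by
    refine (h _).trans ?_
    apply Real.exp_le_exp.2
    have h3 : ‖(lamQ m : ℂ) * s‖ ≤ lamQ m * ‖s‖ := by
      rw [norm_mul, Complex.norm_real, Real.norm_of_nonneg hl.le]
    have h4 : 1 + ‖(lamQ m : ℂ) * s‖ ≤ (2 * lamQ m + 2) * (1 + ‖s‖) := by
      nlinarith [mul_nonneg hl.le hx]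
    calc C * (1 + ‖(lamQ m : ℂ) * s‖) ^ 2
        ≤ |C| * (1 + ‖(lamQ m : ℂ) * s‖) ^ 2 := by
          gcongr
          exact le_abs_self C
      _ ≤ |C| * ((2 * lamQ m + 2) * (1 + ‖s‖)) ^ 2 := by
          gcongr
      _ = _ := by ring
  calc Real.exp _ * ‖Λ ((lamQ m : ℂ) * s) * (Complex.Gamma ((lamQ m : ℂ) * s))⁻¹‖
      ≤ Real.exp (|Real.log c| * (2 * lamQ m + 2 * m + 2) * (1 + ‖s‖) ^ 2) *
        Real.exp (|C| * (2 * lamQ m + 2) ^ 2 * (1 + ‖s‖) ^ 2) := by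
        gcongr
    _ = Real.exp ((|Real.log c| * (2 * lamQ m + 2 * m + 2) +
        |C| * (2 * lamQ m + 2) ^ 2) * (1 + ‖s‖) ^ 2) := by
        rw [← Real.exp_add]; ring_nf
    _ ≤ Real.exp (‖s‖ ^ 3 + K) := Real.exp_le_exp.2 hK'
    _ = Real.exp K * Real.exp (‖s‖ ^ (3 : ℝ)) := by
        rw [Real.exp_add, mul_comm]
        congr 2
        rw [← Real.rpow_natCast]
        norm_num

/-- identity theorem -/
theorem FF_eq {m : ℕ} {c : ℝ} {β : ℕ → ℝ} {Λ : ℂ → ℂ} (hΛ : Differentiable ℂ Λ)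
    (hβ : ∀ p : ℕ, p.Prime → |β p| ≤ (p : ℝ) ^ (-kapQ m))
    (h : ∀ s : ℂ, 2 < s.re → FF m c Λ s = LSeries (ff m β) s) {s : ℂ} (hs : 1 < s.re) :
    FF m c Λ s = LSeries (ff m β) s := by
  have hU : IsPreconnected {z : ℂ | 1 < z.re} := (convex_halfSpace_re_gt 1).isPreconnected
  have hab : LSeries.abscissaOfAbsConv (ff m β) ≤ 1 := by
    apply LSeries.abscissaOfAbsConv_le_of_le_const
    refine ⟨1, fun n _ => ?_⟩
    unfold ff
    rw [Complex.norm_real, Real.norm_eq_abs]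
    exact abs_fr_le hβ n
  have h1 : AnalyticOnNhd ℂ (FF m c Λ) {z : ℂ | 1 < z.re} := fun z _ =>
    (FF_diff hΛ).analyticAt z
  have h2 : AnalyticOnNhd ℂ (LSeries (ff m β)) {z : ℂ | 1 < z.re} := by
    apply (LSeries_analyticOnNhd (ff m β)).mono
    intro z hz
    refine lt_of_le_of_lt hab ?_
    exact_mod_cast hz
  have h3 : FF m c Λ =ᶠ[nhds (3 : ℂ)] LSeries (ff m β) := by
    have ho : IsOpen {z : ℂ | 2 < z.re} := isOpen_lt continuous_const Complex.continuous_re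
    have hm : (3 : ℂ) ∈ {z : ℂ | 2 < z.re} := by
      change (2 : ℝ) < (3 : ℂ).re
      norm_num
    filter_upwards [ho.mem_nhds hm] with z hz
    exact h z hz
  have h4 := h1.eqOn_of_preconnected_of_eventuallyEq h2 hU (z₀ := (3 : ℂ)) (by
    change (1 : ℝ) < (3 : ℂ).re
    norm_num) h3
  exact h4 hs

/-- completed function -/
theorem FF_completed {m : ℕ} {c : ℝ} {Λ : ℂ → ℂ} {s : ℂ}
    (hs : ∀ n : ℕ, ((lamQ m : ℝ) : ℂ) * s ≠ -(n : ℂ)) :
    FF m c Λ s * ((Real.exp (-(lamQ m * Real.log c)) : ℝ) : ℂ) ^ s *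
      Complex.Gamma (((lamQ m : ℝ) : ℂ) * s) =
      ((Real.exp (Real.log c * (-(2 * m) - 1)) : ℝ) : ℂ) *
        Λ (((lamQ m : ℝ) : ℂ) * s) := by
  have hG := Complex.Gamma_ne_zero hs
  rw [pow_eq_exp (Real.exp_pos _), Real.log_exp]
  unfold FF
  have h1 : ((Real.exp (Real.log c * (-(2 * m) - 1)) : ℝ) : ℂ) =
      Complex.exp ((Real.log c : ℂ) * (((lamQ m : ℝ) : ℂ) * s - 2 * m - 1)) *
      Complex.exp ((((-(lamQ m * Real.log c) : ℝ)) : ℂ) * s) := by
    rw [← Complex.exp_add]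
    push_cast
    congr 1
    ring
  rw [h1]
  have h2 := inv_mul_cancel₀ hG
  linear_combination (Complex.exp ((Real.log c : ℂ) *
    (((lamQ m : ℝ) : ℂ) * s - 2 * m - 1)) *
    Complex.exp ((((-(lamQ m * Real.log c) : ℝ)) : ℂ) * s) *
    Λ (((lamQ m : ℝ) : ℂ) * s)) * h2

/-- logarithm coefficients, supported on the prime powers -/
noncomputable def bt (m : ℕ) (β : ℕ → ℝ) (n : ℕ) : ℂ := by
  classical exact if IsPrimePow n then bb m β n else 0

theorem bt_pow {m : ℕ} {β : ℕ → ℝ} {p k : ℕ} (hp : p.Prime) : bt m β (p ^ (k + 1)) = bb m β (p ^ (k + 1)) := by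
  unfold bt
  rw [if_pos]
  exact hp.isPrimePow.pow (by omega)

theorem bt_zero {m : ℕ} {β : ℕ → ℝ} {n : ℕ} (hn : ¬ IsPrimePow n) : bt m β n = 0 := by
  unfold bt
  rw [if_neg hn]

theorem norm_bt_le {m : ℕ} {β : ℕ → ℝ}
    (hβ : ∀ p : ℕ, p.Prime → |β p| ≤ (p : ℝ) ^ (-kapQ m)) (n : ℕ) : ‖bt m β n‖ ≤ 1 := by
  by_cases h : IsPrimePow n
  · unfold bt
    rw [if_pos h]
    obtain ⟨p, k, hp, hk, rfl⟩ := h
    exact norm_bb_le hβ (Nat.prime_iff.2 hp) (by omega)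
  · rw [bt_zero h, norm_zero]
    exact zero_le_one

theorem exp_bt {m : ℕ} {β : ℕ → ℝ}
    (hβ : ∀ p : ℕ, p.Prime → |β p| ≤ (p : ℝ) ^ (-kapQ m))
    {s : ℂ} (hs : 1 < s.re) : LSeries (ff m β) s = Complex.exp (LSeries (bt m β) s) := by
  have hE := euler (m := m) hβ hs
  have hsum : LSeriesSummable (bt m β) s :=
    LSeriesSummable_of_bounded_of_one_lt_re (m := 1) (fun n _ => norm_bt_le hβ n) hs
  have h1 : HasSum (LSeries.term (bt m β) s) (LSeries (bt m β) s) := hsum.hasSum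
  have hsupp : Function.support (LSeries.term (bt m β) s) ⊆ {n | IsPrimePow n} := by
    intro n hn
    by_contra hcon
    apply hn
    rcases eq_or_ne n 0 with rfl | h0
    · exact LSeries.term_zero _ _
    · rw [LSeries.term_of_ne_zero h0, bt_zero hcon, zero_div]
  have h2 := (hasSum_subtype_iff_of_support_subset hsupp).2 h1
  have h3 : HasSum ((LSeries.term (bt m β) s ∘ Subtype.val) ∘ Nat.Primes.prodNatEquiv)
      (LSeries (bt m β) s) := (Equiv.hasSum_iff Nat.Primes.prodNatEquiv).2 h2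
  have hterm : ∀ (p : Nat.Primes) (k : ℕ),
      ((LSeries.term (bt m β) s ∘ Subtype.val) ∘ Nat.Primes.prodNatEquiv) (p, k) =
      bb m β ((p : ℕ) ^ (k + 1)) * ((p : ℕ) : ℂ) ^ (-(((k + 1 : ℕ) : ℂ) * s)) := by
    intro p k
    simp only [Function.comp_apply, Nat.Primes.coe_prodNatEquiv_apply]
    rw [LSeries.term_of_ne_zero (pow_ne_zero _ p.2.ne_zero), bt_pow p.2, Complex.cpow_neg,
      Complex.natCast_cpow_natCast_mul, div_eq_mul_inv]
    push_cast
    rfl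
  have h4 : HasSum (fun p : Nat.Primes => ∑' k : ℕ, bb m β ((p : ℕ) ^ (k + 1)) *
      ((p : ℕ) : ℂ) ^ (-(((k + 1 : ℕ) : ℂ) * s))) (LSeries (bt m β) s) := by
    apply h3.prod_fiberwise
    intro p
    have h5 : Summable (fun k : ℕ =>
        ((LSeries.term (bt m β) s ∘ Subtype.val) ∘ Nat.Primes.prodNatEquiv) (p, k)) :=
      h3.summable.prod_factor p
    have h6 := h5.hasSum
    simp only [hterm] at h6 ⊢
    exact h6
  exact hE.unique h4.cexp


theorem toSel {m : ℕ} {c : ℝ} {β α : ℕ → ℝ} (hc : 0 < c)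
    (hβ : ∀ p : ℕ, p.Prime → |β p| ≤ (p : ℝ) ^ (-kapQ m))
    (hα : ∀ n : ℕ, 1 ≤ n → α n = if Squarefree n then ∏ p ∈ n.primeFactors, β p else 0)
    (hsum : Summable (fun n => |α n|))
    (hrel2 : ∀ t : ℝ, 0 < t → ∑' n, α n * uu c (lamQ m) n ^ (2 * m + 1) * Real.exp (-(uu c (lamQ m) n / t)) =
      (-1) ^ (m + 1) * t ^ (2 * m + 2) * ∑' n, α n * uu c (lamQ m) n ^ (2 * m + 1) * Real.exp (-(uu c (lamQ m) n * t))) :
    ∃ F : Sel, F.m0 = 0 ∧ F.deg = 4 * m + 4 ∧ ∀ n, F.a n = ((fr m β n : ℝ) : ℂ) := by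
  have hF : Pool.Agent.H469R10.HO.TaskF := Pool.Agent.H144R3.T469F.taskF
  have hl := lam_pos m
  have hl1 := lam_ge m
  obtain ⟨ε, hε⟩ : ∃ ε : ℝ, ε = (-1) ^ (m + 1) := ⟨_, rfl⟩
  have hε1 : ε = 1 ∨ ε = -1 := by
    rw [hε]
    exact neg_one_pow_eq_or ℝ (m + 1)
  have hεε : ε * ε = 1 := by
    rcases hε1 with h | h <;> rw [h] <;> norm_num
  obtain ⟨Λ, hΛd, hΛfe, hΛc, hΛs, C, hΛg⟩ := hF c (lamQ m) (2 * m + 2) hc (by linarith)
    (by have : (0 : ℝ) ≤ m := Nat.cast_nonneg m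
        linarith)
    (fun n => α n * uu c (lamQ m) n ^ (2 * m + 1))
    (by rw [uu_zero hl]; simp)
    (by
      refine Summable.of_nonneg_of_le (fun n => by
        apply mul_nonneg (abs_nonneg _)
        apply Real.rpow_nonneg
        rcases Nat.eq_zero_or_pos n with h | h
        · rw [h, uu_zero hl]
        · exact (uu_pos hc h).le) (fun n => ?_) hsum
      rcases Nat.eq_zero_or_pos n with h | h
      · subst h
        rw [uu_zero hl]
        simp
      · have hu := uu_pos (lam := lamQ m) hc h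
        rw [abs_mul, abs_of_pos (pow_pos hu _), mul_assoc, ← Real.rpow_natCast,
          ← Real.rpow_add hu]
        have : ((2 * m + 1 : ℕ) : ℝ) + -((2 * (m : ℝ) + 2) - 1) = 0 := by push_cast; ring
        rw [this, Real.rpow_zero, mul_one])
    ε hε1
    (by
      intro t ht
      have h1 := hrel2 t ht
      rw [hε]
      have h2 : t ^ (2 * (m : ℝ) + 2) = t ^ (2 * m + 2) := by
        rw [← Real.rpow_natCast]
        push_cast
        rfl
      rw [h2]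
      exact h1)
  have hFser : ∀ s : ℂ, 2 < s.re → FF m c Λ s = LSeries (ff m β) s := by
    intro s hs
    apply FF_series hc hα
    apply hΛs
    have hm0 : (0 : ℝ) ≤ m := Nat.cast_nonneg m
    have h1 : (((lamQ m : ℝ) : ℂ) * s).re = lamQ m * s.re := by
      simp
    rw [h1]
    have h2 : lamQ m * 2 ≤ lamQ m * s.re := by
      apply mul_le_mul_of_nonneg_left hs.le hl.le
    have h3 : lamQ m = 2 * m + 2 := rfl
    nlinarith
  obtain ⟨ρ, C', hgr⟩ := FF_growth (m := m) (c := c) hΛg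
  refine ⟨Sel.mk (ff m β) 0 (FF m c Λ) 1 (Real.exp (-(lamQ m * Real.log c))) (fun _ => lamQ m)
    (fun _ => 0) (ε : ℂ) (bt m β) ?_ ?_ (FF_diff hΛd) ⟨ρ, C', hgr⟩ ?_ (Real.exp_pos _) (fun _ => hl)
    (fun _ => by norm_num) ?_ ?_ (fun n hn => bt_zero hn) ⟨0, by norm_num, 1, ?_⟩ ?_, rfl, ?_, fun n => rfl⟩
  · unfold ff
    rw [fr_one]
    simp
  · intro e he
    refine ⟨1, fun n hn => ?_⟩
    have h1 : ‖ff m β n‖ ≤ 1 := by
      unfold ff
      rw [Complex.norm_real, Real.norm_eq_abs]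
      exact abs_fr_le hβ n
    have h2 : (1 : ℝ) ≤ (n : ℝ) ^ e := Real.one_le_rpow (by exact_mod_cast hn) he.le
    linarith
  · intro s hs
    rw [pow_zero, one_mul]
    exact FF_eq hΛd hβ hFser hs
  · rcases hε1 with h | h <;> rw [h] <;> simp
  · intro s _ _ hs1 hs2
    have hs1' := hs1 0
    have hs2' := hs2 0
    simp only [add_zero] at hs1' hs2'
    have g1 := FF_completed (m := m) (c := c) (Λ := Λ) (s := s) hs1'
    have g2 := FF_completed (m := m) (c := c) (Λ := Λ) (s := 1 - starRingEnd ℂ s) hs2'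
    simp only [pow_zero, div_one, Finset.univ_unique, Finset.prod_singleton, add_zero]
    have g1' : ((Real.exp (-(lamQ m * Real.log c)) : ℝ) : ℂ) ^ s *
        Complex.Gamma (((lamQ m : ℝ) : ℂ) * s) * FF m c Λ s =
        ((Real.exp (Real.log c * (-(2 * m) - 1)) : ℝ) : ℂ) *
        Λ (((lamQ m : ℝ) : ℂ) * s) := by
      rw [← g1]; ring
    have g2' : ((Real.exp (-(lamQ m * Real.log c)) : ℝ) : ℂ) ^ (1 - starRingEnd ℂ s) *
        Complex.Gamma (((lamQ m : ℝ) : ℂ) * (1 - starRingEnd ℂ s)) *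
        FF m c Λ (1 - starRingEnd ℂ s) =
        ((Real.exp (Real.log c * (-(2 * m) - 1)) : ℝ) : ℂ) *
        Λ (((lamQ m : ℝ) : ℂ) * (1 - starRingEnd ℂ s)) := by
      rw [← g2]; ring
    rw [g1', g2', map_mul, Complex.conj_ofReal, ← hΛc]
    have h3 : starRingEnd ℂ (((lamQ m : ℝ) : ℂ) * (1 - starRingEnd ℂ s)) =
        (((2 * (m : ℝ) + 2 : ℝ)) : ℂ) - (((lamQ m : ℝ) : ℂ) * s) := by
      rw [map_mul, map_sub, map_one, Complex.conj_conj, Complex.conj_ofReal]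
      unfold lamQ
      push_cast
      ring
    rw [h3, hΛfe]
    have h5 : (ε : ℂ) * ε = 1 := by exact_mod_cast hεε
    linear_combination (-((Real.exp (Real.log c * (-(2 * m) - 1)) : ℝ) : ℂ) *
      Λ (((lamQ m : ℝ) : ℂ) * s)) * h5
  · intro n _
    rw [Real.rpow_zero, mul_one]
    exact norm_bt_le hβ n
  · intro s hs
    exact ⟨LSeriesSummable_of_bounded_of_one_lt_re (m := 1) (fun n _ => norm_bt_le hβ n) hs, exp_bt hβ hs⟩
  · unfold Sel.deg
    simp only [Finset.univ_unique, Finset.sum_const, Finset.card_singleton, one_smul]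
    unfold lamQ
    push_cast
    ring

end Pool.Agent.H472.Q2.WrapQ

namespace Pool.Agent.H472.Q2

open Pool.Agent.H469R10.HO Pool.Agent.H13R3.EM

theorem pf_TaskWrapQ : TaskWrapQ := by
  intro m c β α _ hc hβ hα hsum hrel
  obtain ⟨F, h0, h1, h2⟩ := WrapQ.toSel hc hβ hα hsum hrel
  refine ⟨F, h0, h1, fun n hn => ?_⟩
  rw [h2 n, WrapQ.fr_eq hα hn]

end Pool.Agent.H472.Q2
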