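import Mathlib
import Pool.Agent.H472.Q2.Out
import Pool.Agent.H472.Q2.Concl
import Pool.Agent.H472.Q2.Pf_TaskBol
import Pool.Agent.H472.Q2.Pf_TaskJQ
import Pool.Agent.H472.Q2.Pf_TaskHQ
import Pool.Agent.H472.Q2.Pf_TaskMQ
import Pool.Agent.H472.Q2.Pf_TaskWin
import Pool.Agent.H472.Q2.Pf_TaskNQ
import Pool.Agent.H472.Q2.Pf_TaskRelQ
import Pool.Agent.H472.Q2.Pf_TaskWrapQ
import Pool.Agent.H472.Q2.Pf_TaskPQ
import Pool.Agent.H472.Q2.Pf_TaskSrcQ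
import Pool.Agent.H472.Q2.Pf_TaskFin
import Pool.Agent.H295.SM2.Fin

set_option autoImplicit false

/-!
# Assembly: the counterexamples to Q2 of MP_dafbe7_nt and MP_2a1a00_nt
-/

open Finset MeasureTheory

namespace Pool.Agent.H472.Q2

open Pool.Agent.H469R10.HO Pool.Agent.H13R3.EM

theorem taskOut : TaskOut :=
  taskOut_of pf_TaskJQ pf_TaskHQ pf_TaskMQ pf_TaskWin pf_TaskNQ pf_TaskRelQ pf_TaskWrapQ pf_TaskPQ pf_TaskSrcQ pf_TaskBol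

theorem spikes (w : ℝ → ℝ) (P : Polynomial ℝ) (η : ℝ) (hη : 0 < η) (hw : ∀ x, 0 ≤ w x)
    (hi : ∀ T : ℝ, 1 ≤ T → IntervalIntegrable w volume 1 T) (hP : P ≠ 0)
    (hm : ∃ C : ℝ, ∀ T : ℝ, 1 ≤ T → |(∫ x in (1:ℝ)..T, w x) - T * P.eval (Real.log T)| ≤ C * T ^ (1 - η)) : Spikes w :=
  pf_TaskFin taskOut Pool.Agent.H295.SM2.taskSM w P η hη hw hi hP hm

end Pool.Agent.H472.Q2
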