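import Mathlib
import Pool.Agent.H472.Q2.Tasks

set_option autoImplicit false

open Finset MeasureTheory

namespace Pool.Agent.H472.Q2

open Pool.Agent.H469R10.HO Pool.Agent.H13R3.EM

open scoped ContDiff

namespace SrcQ

lemma nat_le (k : ℕ) : (k : WithTop ℕ∞) ≤ ∞ := by exact_mod_cast le_top

lemma iter_cos_le (i : ℕ) (y : ℝ) : ‖iteratedFDeriv ℝ i Real.cos y‖ ≤ 1 := by
  rw [norm_iteratedFDeriv_eq_norm_iteratedDeriv, Real.norm_eq_abs]
  exact Real.abs_iteratedDeriv_cos_le_one i y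

/-- bounds for the derivatives of `a(x) cos(w θ(x))` -/
lemma iter_bound (a θ : ℝ → ℝ) (ha : ContDiff ℝ ∞ a) (hθ : ContDiff ℝ ∞ θ)
    (h0 : ∀ x, x ∉ Set.Icc (0:ℝ) 2 → a x = 0) (m : ℕ) :
    ∃ C : ℝ, 0 < C ∧ ∀ w : ℝ, 0 ≤ w → ∀ x,
      |iteratedDeriv m (fun x => a x * Real.cos (w * θ x)) x| ≤ C * (1 + w) ^ m := by
  -- bounds on the compact set
  have hbd : ∀ f : ℝ → ℝ, ContDiff ℝ ∞ f → ∃ B : ℝ, 1 ≤ B ∧ ∀ i, i ≤ m → ∀ x ∈ Set.Icc (0:ℝ) 2,
      ‖iteratedFDeriv ℝ i f x‖ ≤ B := by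
    intro f hf
    have h1 : ∀ i : ℕ, ∃ B : ℝ, ∀ x ∈ Set.Icc (0:ℝ) 2, ‖iteratedFDeriv ℝ i f x‖ ≤ B := fun i =>
      (isCompact_Icc (a := (0:ℝ)) (b := 2)).exists_bound_of_continuousOn
        (hf.continuous_iteratedFDeriv (by exact_mod_cast le_top)).continuousOn
    choose B hB using h1
    refine ⟨1 + ∑ i ∈ range (m + 1), |B i|, ?_, ?_⟩
    · have : 0 ≤ ∑ i ∈ range (m + 1), |B i| := sum_nonneg fun i _ => abs_nonneg _
      linarith
    · intro i hi x hx
      have h2 : |B i| ≤ ∑ i ∈ range (m + 1), |B i| :=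
        single_le_sum (f := fun i => |B i|) (fun i _ => abs_nonneg _) (mem_range.2 (by omega))
      have h3 := hB i x hx
      have h4 := le_abs_self (B i)
      linarith
  obtain ⟨A, hA1, hA⟩ := hbd a ha
  obtain ⟨B, hB1, hB⟩ := hbd θ hθ
  refine ⟨∑ i ∈ range (m + 1), (m.choose i : ℝ) * A * ((m - i).factorial * B ^ m) + 1,
    by positivity, ?_⟩
  intro w hw x
  have hD : 0 ≤ ∑ i ∈ range (m + 1), (m.choose i : ℝ) * A * ((m - i).factorial * B ^ m) := by
    positivity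
  by_cases hx : x ∈ Set.Icc (0:ℝ) 2
  · have hcos : ContDiff ℝ ∞ (fun x => Real.cos (w * θ x)) :=
      Real.contDiff_cos.comp (contDiff_const.mul hθ)
    rw [← Real.norm_eq_abs, ← norm_iteratedFDeriv_eq_norm_iteratedDeriv]
    refine (norm_iteratedFDeriv_mul_le ha hcos x (n := m) (by exact_mod_cast le_top)).trans ?_
    have h1 : ∀ i ∈ range (m + 1), (m.choose i : ℝ) * ‖iteratedFDeriv ℝ i a x‖ *
        ‖iteratedFDeriv ℝ (m - i) (fun x => Real.cos (w * θ x)) x‖ ≤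
        ((m.choose i : ℝ) * A * ((m - i).factorial * B ^ m)) * (1 + w) ^ m := by
      intro i hi
      have hi' : i ≤ m := by have := mem_range.1 hi; omega
      have h2 : ‖iteratedFDeriv ℝ (m - i) (Real.cos ∘ fun x => w * θ x) x‖ ≤
          (m - i).factorial * 1 * ((1 + w) * B) ^ (m - i) := by
        refine norm_iteratedFDeriv_comp_le (N := ∞) Real.contDiff_cos (contDiff_const.mul hθ)
          (nat_le _) x (fun k _ => iter_cos_le k _) ?_
        intro k hk1 hk2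
        have h3 : ‖iteratedFDeriv ℝ k (fun x => w * θ x) x‖ = w * ‖iteratedFDeriv ℝ k θ x‖ := by
          rw [norm_iteratedFDeriv_eq_norm_iteratedDeriv, norm_iteratedFDeriv_eq_norm_iteratedDeriv,
            iteratedDeriv_const_mul_field, norm_mul, Real.norm_of_nonneg hw]
        rw [h3]
        have h4 := hB k (by omega) x hx
        have h5 : (1 + w) * B ≤ ((1 + w) * B) ^ k :=
          le_self_pow₀ (by nlinarith) (by omega)
        have h6 : 0 ≤ ‖iteratedFDeriv ℝ k θ x‖ := norm_nonneg _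
        nlinarith
      have h7 : ((1 + w) * B) ^ (m - i) ≤ (1 + w) ^ m * B ^ m := by
        rw [← mul_pow]
        exact pow_le_pow_right₀ (by nlinarith) (by omega)
      have h8 := hA i hi' x hx
      calc (m.choose i : ℝ) * ‖iteratedFDeriv ℝ i a x‖ *
            ‖iteratedFDeriv ℝ (m - i) (fun x => Real.cos (w * θ x)) x‖
          ≤ (m.choose i : ℝ) * A * ((m - i).factorial * 1 * ((1 + w) ^ m * B ^ m)) := by
            refine mul_le_mul (mul_le_mul_of_nonneg_left h8 (by positivity)) ?_ (norm_nonneg _)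
              (by positivity)
            refine le_trans h2 ?_
            gcongr
        _ = _ := by ring
    refine (sum_le_sum h1).trans ?_
    rw [← sum_mul]
    have : 0 ≤ (1 + w) ^ m := by positivity
    nlinarith
  · have h1 : (fun x => a x * Real.cos (w * θ x)) =ᶠ[nhds x] fun _ => 0 := by
      have : (Set.Icc (0:ℝ) 2)ᶜ ∈ nhds x := isClosed_Icc.isOpen_compl.mem_nhds hx
      filter_upwards [this] with y hy
      rw [h0 y hy, zero_mul]
    rw [h1.iteratedDeriv_eq]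
    have h2 : iteratedDeriv m (fun _ : ℝ => (0:ℝ)) x = 0 := by
      rw [iteratedDeriv_const]; split_ifs <;> rfl
    rw [h2, abs_zero]
    positivity

/-- the `m`-th derivative of a smooth function which vanishes near `x` -/
lemma iter_zero {f : ℝ → ℝ} {s : Set ℝ} (hs : IsOpen s) (h : ∀ y ∈ s, f y = 0) {x : ℝ} (hx : x ∈ s)
    (k : ℕ) : iteratedDeriv k f x = 0 := by
  have h1 : f =ᶠ[nhds x] fun _ => 0 := by
    filter_upwards [hs.mem_nhds hx] with y hy
    exact h y hy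
  rw [h1.iteratedDeriv_eq, iteratedDeriv_const]
  split_ifs <;> rfl

/-- double integration by parts -/
lemma PP_two {f f' f'' : ℝ → ℝ} (hd : ∀ x, HasDerivAt f (f' x) x) (hd' : ∀ x, HasDerivAt f' (f'' x) x)
    (hf'' : Continuous f'') (h0 : f' 0 = 0) (h2 : f' 2 = 0) (j : ℕ) :
    PP f'' j = - (xx j ^ 2 * PP f j) := by
  have hf' : Continuous f' := continuous_iff_continuousAt.2 fun x => (hd' x).continuousAt
  have e1 := PP_deriv hd hf' j
  have e2 := intervalIntegral.integral_deriv_mul_eq_sub (a := (0:ℝ)) (b := 2)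
    (u := f') (v := fun x => Real.cos (xx j * x)) (u' := f'')
    (v' := fun x => - (xx j * Real.sin (xx j * x)))
    (fun x _ => hd' x) (fun x _ => by
      have := ((hasDerivAt_id x).const_mul (xx j)).cos
      simp only [id, mul_one] at this
      have e : - (xx j * Real.sin (xx j * x)) = - Real.sin (xx j * x) * xx j := by ring
      rw [e]
      exact this) (hf''.intervalIntegrable _ _) (Continuous.intervalIntegrable (by fun_prop) _ _)
  rw [intervalIntegral.integral_add (Continuous.intervalIntegrable (by fun_prop) _ _)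
    (Continuous.intervalIntegrable (by fun_prop) _ _), h0, h2] at e2
  have e3 : ∫ x in (0:ℝ)..2, f' x * (- (xx j * Real.sin (xx j * x))) =
      - (xx j * ∫ x in (0:ℝ)..2, f' x * Real.sin (xx j * x)) := by
    rw [← intervalIntegral.integral_const_mul, ← intervalIntegral.integral_neg]
    congr 1; ext x; ring
  rw [e3, e1] at e2
  unfold PP
  have e4 : ∫ x in (0:ℝ)..2, f'' x * Real.cos (xx j * x) =
      -(xx j ^ 2 * ∫ x in (0:ℝ)..2, f x * Real.cos (xx j * x)) := by linarith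
  rw [e4]
  ring

lemma PP_iter {f : ℝ → ℝ} (hf : ContDiff ℝ ∞ f)
    (h : ∀ k, iteratedDeriv (2 * k + 1) f 0 = 0 ∧ iteratedDeriv (2 * k + 1) f 2 = 0) (k j : ℕ) :
    PP (iteratedDeriv (2 * k) f) j = (-1) ^ k * (xx j ^ (2 * k) * PP f j) := by
  have hd : ∀ (i : ℕ) (x : ℝ), HasDerivAt (iteratedDeriv i f) (iteratedDeriv (i + 1) f x) x := by
    intro i x
    rw [iteratedDeriv_succ]
    exact ((hf.differentiable_iteratedDeriv i (by exact_mod_cast WithTop.coe_lt_top i)) x).hasDerivAt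
  induction k with
  | zero => simp
  | succ k ih =>
    have h1 := PP_two (hd (2 * k)) (hd (2 * k + 1))
      (hf.continuous_iteratedDeriv (2 * k + 2) (nat_le _)) (h k).1 (h k).2 j
    rw [show 2 * (k + 1) = 2 * k + 1 + 1 by ring, h1, ih]
    ring

/-- weighted Bessel inequality -/
lemma bessel_iter {f : ℝ → ℝ} (hf : ContDiff ℝ ∞ f) {m : ℕ} (hm : Even m)
    (h : ∀ k, iteratedDeriv (2 * k + 1) f 0 = 0 ∧ iteratedDeriv (2 * k + 1) f 2 = 0)
    {A B : ℝ} (hA : ∀ x ∈ Set.Icc (0:ℝ) 2, |f x| ≤ A)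
    (hB : ∀ x ∈ Set.Icc (0:ℝ) 2, |iteratedDeriv m f x| ≤ B) (S : Finset ℕ) :
    ∑ j ∈ S, PP f j ^ 2 ≤ 2 * A ^ 2 ∧
    ∑ j ∈ S, (1 + (j:ℝ)) ^ (2 * m) * PP f j ^ 2 ≤ 4 ^ m * (2 * A ^ 2 + 2 * B ^ 2) := by
  have hint : ∀ (g : ℝ → ℝ) (K : ℝ), Continuous g → (∀ x ∈ Set.Icc (0:ℝ) 2, |g x| ≤ K) →
      ∫ t in (0:ℝ)..2, g t ^ 2 ≤ 2 * K ^ 2 := by
    intro g K hg hK
    have h1 : ∫ t in (0:ℝ)..2, g t ^ 2 ≤ ∫ t in (0:ℝ)..2, K ^ 2 := by
      refine intervalIntegral.integral_mono_on (by norm_num)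
        (Continuous.intervalIntegrable (by fun_prop) _ _) (Continuous.intervalIntegrable (by fun_prop) _ _) ?_
      intro x hx
      have := hK x hx
      rw [← sq_abs]
      exact pow_le_pow_left₀ (abs_nonneg _) this 2
    rw [intervalIntegral.integral_const] at h1
    simpa using h1
  obtain ⟨k, hk⟩ := hm
  have h1 := (bessel hf.continuous S).trans (hint f A hf.continuous hA)
  have hc : Continuous (iteratedDeriv m f) := hf.continuous_iteratedDeriv m (nat_le _)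
  have h2 := (bessel hc S).trans (hint _ B hc hB)
  refine ⟨h1, ?_⟩
  have h3 : ∀ j, PP (iteratedDeriv m f) j ^ 2 = xx j ^ (2 * m) * PP f j ^ 2 := by
    intro j
    have := PP_iter hf h k j
    rw [show 2 * k = m by omega] at this
    rw [this, mul_pow, mul_pow, ← pow_mul, ← pow_mul, mul_comm k 2, pow_mul (-1 : ℝ) 2 k]
    rw [mul_comm m 2]
    norm_num
  simp_rw [h3] at h2
  calc ∑ j ∈ S, (1 + (j:ℝ)) ^ (2 * m) * PP f j ^ 2
      ≤ ∑ j ∈ S, (4 ^ m * (PP f j ^ 2) + 4 ^ m * (xx j ^ (2 * m) * PP f j ^ 2)) := by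
        refine sum_le_sum fun j _ => ?_
        have h4 : (1 + (j:ℝ)) ^ (2 * m) ≤ 4 ^ m * (1 + xx j ^ (2 * m)) := by
          have hj : (j:ℝ) ≤ xx j := by
            unfold xx
            have := Real.pi_gt_three
            have : (0:ℝ) ≤ j := by positivity
            nlinarith
          have h5 : (1 + (j:ℝ)) ≤ 2 * max 1 (j:ℝ) := by
            have := le_max_left (1:ℝ) j
            have := le_max_right (1:ℝ) j
            linarith
          have h6 : (1 + (j:ℝ)) ^ (2 * m) ≤ (2 * max 1 (j:ℝ)) ^ (2 * m) :=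
            pow_le_pow_left₀ (by positivity) h5 _
          have h7 : (2 * max 1 (j:ℝ)) ^ (2 * m) = 4 ^ m * (max 1 (j:ℝ)) ^ (2 * m) := by
            rw [mul_pow, pow_mul 2 2 m]; norm_num
          have h8 : (max 1 (j:ℝ)) ^ (2 * m) ≤ 1 + xx j ^ (2 * m) := by
            have hx0 : (0:ℝ) ≤ xx j := le_trans (by positivity) hj
            rcases le_total (1:ℝ) j with hc | hc
            · rw [max_eq_right hc]
              have := pow_le_pow_left₀ (by positivity) hj (2 * m)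
              linarith
            · rw [max_eq_left hc, one_pow]
              have : 0 ≤ xx j ^ (2 * m) := by positivity
              linarith
          rw [h7] at h6
          refine h6.trans (mul_le_mul_of_nonneg_left h8 (by positivity))
        have h9 : 0 ≤ PP f j ^ 2 := sq_nonneg _
        nlinarith
    _ = 4 ^ m * (∑ j ∈ S, PP f j ^ 2) + 4 ^ m * ∑ j ∈ S, xx j ^ (2 * m) * PP f j ^ 2 := by
        rw [sum_add_distrib, mul_sum, mul_sum]
    _ ≤ 4 ^ m * (2 * A ^ 2 + 2 * B ^ 2) := by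
        have : (0:ℝ) < 4 ^ m := by positivity
        nlinarith

/-! ### weights -/

lemma log_ge {c : ℝ} (hc : 0 < c) (hc1 : c ≤ Real.exp (-16)) (j : ℕ) :
    16 ≤ Real.log ((1 + (j:ℝ)) / c) := by
  rw [Real.le_log_iff_exp_le (by positivity), le_div_iff₀ hc]
  have h1 : Real.exp 16 * c ≤ Real.exp 16 * Real.exp (-16) :=
    mul_le_mul_of_nonneg_left hc1 (Real.exp_pos _).le
  rw [← Real.exp_add] at h1
  norm_num at h1
  have : (0:ℝ) ≤ j := by positivity
  linarith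

lemma WS_nonneg {m : ℕ} {c : ℝ} (hc : 0 < c) (j : ℕ) : 0 ≤ WS m c j := by
  unfold WS WW
  have : (0:ℝ) ≤ Real.log ((1 + (j:ℝ)) / c) ^ 4 := by
    rw [show (4:ℕ) = 2 * 2 by norm_num, pow_mul]; positivity
  positivity

lemma WS_mono {m : ℕ} (hm : 1 ≤ m) {c : ℝ} (hc : 0 < c) (hc1 : c ≤ Real.exp (-16)) {i j : ℕ} (hij : i ≤ j) :
    WS m c i ≤ WS m c j := by
  have h1 : (1 + (i:ℝ)) ≤ 1 + j := by
    have : (i:ℝ) ≤ j := by exact_mod_cast hij
    linarith
  have h2 : (1 + (i:ℝ)) / c ≤ (1 + j) / c := by gcongr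
  have h3 : Real.log ((1 + (i:ℝ)) / c) ≤ Real.log ((1 + j) / c) :=
    Real.log_le_log (by positivity) h2
  have h4 := log_ge hc hc1 i
  have hm1 : (1:ℝ) ≤ m := by exact_mod_cast hm
  unfold WS WW
  have h5 : Real.log ((1 + (i:ℝ)) / c) ^ 4 ≤ Real.log ((1 + j) / c) ^ 4 :=
    pow_le_pow_left₀ (by linarith) h3 4
  have h6 : ((1 + (i:ℝ)) / c) ^ (2 * (m : ℝ) - 5 / 4) ≤ ((1 + (j:ℝ)) / c) ^ (2 * (m : ℝ) - 5 / 4) :=
    Real.rpow_le_rpow (by positivity) h2 (by linarith)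
  have h7 : (0:ℝ) ≤ Real.log ((1 + (i:ℝ)) / c) ^ 4 := by positivity
  gcongr

lemma WS_ratio {m : ℕ} (hm : 1 ≤ m) {c : ℝ} (hc : 0 < c) (hc1 : c ≤ Real.exp (-16)) {i j : ℕ} (hij : i ≤ j) :
    WS m c j * (1 + (i:ℝ)) ^ (2 * m) ≤ WS m c i * (1 + (j:ℝ)) ^ (2 * m) := by
  have hi0 : (0:ℝ) < 1 + i := by positivity
  have hj0 : (0:ℝ) < 1 + j := by positivity
  set s : ℝ := (1 + (j:ℝ)) / (1 + i) with hs
  have hs1 : 1 ≤ s := by
    rw [hs, one_le_div hi0]
    have : (i:ℝ) ≤ j := by exact_mod_cast hij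
    linarith
  have hs0 : 0 < s := by linarith
  have hl : 0 ≤ Real.log s := Real.log_nonneg hs1
  have e1 : (1 + (j:ℝ)) = (1 + i) * s := by rw [hs]; field_simp
  have e2 : (1 + (j:ℝ)) / c = (1 + i) / c * s := by rw [e1]; ring
  have hti : 0 < (1 + (i:ℝ)) / c := by positivity
  have e3 : Real.log ((1 + (j:ℝ)) / c) = Real.log ((1 + i) / c) + Real.log s := by
    rw [e2, Real.log_mul hti.ne' hs0.ne']
  have hL := log_ge hc hc1 i
  set L : ℝ := Real.log ((1 + (i:ℝ)) / c) with hLdef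
  have h1 : L + Real.log s ≤ L * Real.exp (Real.log s / 16) := by
    have := Real.add_one_le_exp (Real.log s / 16)
    nlinarith
  have h2 : (L + Real.log s) ^ 4 ≤ L ^ 4 * Real.exp (Real.log s / 4) := by
    have h3 := pow_le_pow_left₀ (by linarith) h1 4
    rw [mul_pow, ← Real.exp_nat_mul] at h3
    refine h3.trans (le_of_eq ?_)
    congr 2
    push_cast; ring
  have e4 : ((1 + (j:ℝ)) / c) ^ (2 * (m : ℝ) - 5 / 4) =
      ((1 + (i:ℝ)) / c) ^ (2 * (m : ℝ) - 5 / 4) * Real.exp ((2 * (m:ℝ) - 5 / 4) * Real.log s) := by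
    rw [e2, Real.mul_rpow hti.le hs0.le, Real.rpow_def_of_pos hs0, mul_comm (Real.log s)]
  have e5 : s = Real.exp (Real.log s) := (Real.exp_log hs0).symm
  have e6 : s ^ (2 * m) = Real.exp (2 * m * Real.log s) := by
    conv_lhs => rw [e5]
    rw [← Real.exp_nat_mul]; push_cast; ring_nf
  unfold WS WW
  rw [e3, e4]
  have hP : (0:ℝ) ≤ ((1 + (i:ℝ)) / c) ^ (2 * (m : ℝ) - 5 / 4) := by positivity
  calc (1 + (j:ℝ)) * (L + Real.log s) ^ 4 * (((1 + (i:ℝ)) / c) ^ (2 * (m : ℝ) - 5 / 4) *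
        Real.exp ((2 * (m:ℝ) - 5 / 4) * Real.log s)) * (1 + (i:ℝ)) ^ (2 * m)
      ≤ (1 + (j:ℝ)) * (L ^ 4 * Real.exp (Real.log s / 4)) * (((1 + (i:ℝ)) / c) ^ (2 * (m : ℝ) - 5 / 4) *
        Real.exp ((2 * (m:ℝ) - 5 / 4) * Real.log s)) * (1 + (i:ℝ)) ^ (2 * m) := by gcongr
    _ = (1 + (i:ℝ)) * L ^ 4 * ((1 + (i:ℝ)) / c) ^ (2 * (m : ℝ) - 5 / 4) *
        ((s * Real.exp (Real.log s / 4) * Real.exp ((2 * (m:ℝ) - 5 / 4) * Real.log s)) *
          (1 + (i:ℝ)) ^ (2 * m)) := by rw [e1]; ring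
    _ = (1 + (i:ℝ)) * L ^ 4 * ((1 + (i:ℝ)) / c) ^ (2 * (m : ℝ) - 5 / 4) * (1 + (j:ℝ)) ^ (2 * m) := by
        congr 1
        rw [e1, mul_pow, e6]
        have : s * Real.exp (Real.log s / 4) * Real.exp ((2 * (m:ℝ) - 5 / 4) * Real.log s) =
            Real.exp (2 * m * Real.log s) := by
          conv_lhs => rw [e5]
          rw [Real.log_exp, ← Real.exp_add, ← Real.exp_add]
          congr 1; ring
        rw [this]; ring

lemma weight_sum {m : ℕ} (hm : 1 ≤ m) {c : ℝ} (hc : 0 < c) (hc1 : c ≤ Real.exp (-16)) (a : ℕ → ℝ) (A : ℝ)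
    (J : ℕ) (S : Finset ℕ) (h1 : ∑ j ∈ S, a j ^ 2 ≤ A)
    (h2 : ∑ j ∈ S, (1 + (j:ℝ)) ^ (2 * m) * a j ^ 2 ≤ A * (1 + (J:ℝ)) ^ (2 * m)) :
    ∑ j ∈ S, WS m c j * a j ^ 2 ≤ 2 * A * WS m c J := by
  have hJ : 0 ≤ WS m c J := WS_nonneg hc J
  have hP : (0:ℝ) < (1 + (J:ℝ)) ^ (2 * m) := by positivity
  calc ∑ j ∈ S, WS m c j * a j ^ 2
      ≤ ∑ j ∈ S, (WS m c J * a j ^ 2 +
          WS m c J / (1 + (J:ℝ)) ^ (2 * m) * ((1 + (j:ℝ)) ^ (2 * m) * a j ^ 2)) := by
        refine sum_le_sum fun j _ => ?_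
        have hj : WS m c j ≤ WS m c J + WS m c J / (1 + (J:ℝ)) ^ (2 * m) * (1 + (j:ℝ)) ^ (2 * m) := by
          have hj0 : 0 ≤ WS m c J / (1 + (J:ℝ)) ^ (2 * m) * (1 + (j:ℝ)) ^ (2 * m) := by positivity
          rcases le_total j J with h | h
          · have := WS_mono hm hc hc1 h
            linarith
          · have h3 := WS_ratio hm hc hc1 h
            have h4 : WS m c j ≤ WS m c J / (1 + (J:ℝ)) ^ (2 * m) * (1 + (j:ℝ)) ^ (2 * m) := by
              rw [div_mul_eq_mul_div, le_div_iff₀ hP]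
              exact h3
            linarith
        have h5 : 0 ≤ a j ^ 2 := sq_nonneg _
        nlinarith
    _ = WS m c J * ∑ j ∈ S, a j ^ 2 +
          WS m c J / (1 + (J:ℝ)) ^ (2 * m) * ∑ j ∈ S, (1 + (j:ℝ)) ^ (2 * m) * a j ^ 2 := by
        rw [sum_add_distrib, mul_sum, mul_sum]
    _ ≤ WS m c J * A + WS m c J / (1 + (J:ℝ)) ^ (2 * m) * (A * (1 + (J:ℝ)) ^ (2 * m)) := by gcongr
    _ = 2 * A * WS m c J := by field_simp; ring

/-! ### packets -/

lemma phi_zero {x : ℝ} (h : x ≤ 1 / 2 ∨ 1 ≤ x) : phi x = 0 := by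
  unfold phi
  rcases h with h | h
  · rw [Real.smoothTransition.zero_of_nonpos (by linarith), zero_mul]
  · rw [Real.smoothTransition.zero_of_nonpos (x := 8 - 8 * x) (by linarith), mul_zero]

lemma phi_one {x : ℝ} (h : 5 / 8 ≤ x) (h' : x ≤ 7 / 8) : phi x = 1 := by
  unfold phi
  rw [Real.smoothTransition.one_of_one_le (by linarith),
    Real.smoothTransition.one_of_one_le (by linarith), mul_one]

lemma phi_nonneg (x : ℝ) : 0 ≤ phi x :=
  mul_nonneg (Real.smoothTransition.nonneg _) (Real.smoothTransition.nonneg _)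

lemma phi_le_one (x : ℝ) : phi x ≤ 1 :=
  mul_le_one₀ (Real.smoothTransition.le_one _) (Real.smoothTransition.nonneg _)
    (Real.smoothTransition.le_one _)

lemma phi_contDiff : ContDiff ℝ ∞ phi := by
  unfold phi
  exact (Real.smoothTransition.contDiff.comp (by fun_prop)).mul
    (Real.smoothTransition.contDiff.comp (by fun_prop))

lemma patch {f : ℝ → ℝ} {d : ℝ} (hd : 0 < d) (h0 : ∀ y < d, f y = 0)
    (h : ∀ y, y ≠ 0 → ContDiffAt ℝ ∞ f y) : ContDiff ℝ ∞ f := by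
  rw [contDiff_iff_contDiffAt]
  intro y
  by_cases hy : y = 0
  · have h1 : f =ᶠ[nhds y] fun _ => 0 := by
      filter_upwards [Iio_mem_nhds (show y < d by rw [hy]; exact hd)] with z hz
      exact h0 z hz
    exact contDiffAt_const.congr_of_eventuallyEq h1
  · exact h y hy

/-- amplitude of the mirror packet -/
noncomputable def am (m : ℕ) (y : ℝ) : ℝ := y ^ (2 * m) * phi y⁻¹

/-- phase of the mirror packet -/
noncomputable def th (y : ℝ) : ℝ := Real.smoothTransition (4 * y - 2) * y⁻¹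

lemma phi_inv_zero {y : ℝ} (h : y ≤ 1 ∨ 2 ≤ y) : phi y⁻¹ = 0 := by
  apply phi_zero
  rcases h with h | h
  · by_cases hy : 0 < y
    · right; exact (one_le_inv₀ hy).2 h
    · left
      have : y⁻¹ ≤ 0 := inv_nonpos.2 (not_lt.1 hy)
      linarith
  · left
    rw [one_div]
    exact inv_anti₀ (by norm_num) h

lemma am_contDiff (m : ℕ) : ContDiff ℝ ∞ (am m) := by
  refine patch one_pos (fun y hy => ?_) fun y hy => ?_
  · unfold am; rw [phi_inv_zero (Or.inl hy.le), mul_zero]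
  · exact (contDiff_id.pow (2 * m)).contDiffAt.mul
      (phi_contDiff.contDiffAt.comp y (contDiffAt_inv ℝ hy))

lemma th_contDiff : ContDiff ℝ ∞ th := by
  refine patch (d := 1 / 2) (by norm_num) (fun y hy => ?_) fun y hy => ?_
  · unfold th; rw [Real.smoothTransition.zero_of_nonpos (by linarith), zero_mul]
  · have h1 : ContDiff ℝ ∞ fun y : ℝ => Real.smoothTransition (4 * y - 2) :=
      Real.smoothTransition.contDiff.comp (by fun_prop)
    exact h1.contDiffAt.mul (contDiffAt_inv ℝ hy)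

/-- the mirror packet, unscaled -/
noncomputable def GG2 (m : ℕ) (w y : ℝ) : ℝ := am m y * Real.cos (w * th y)

lemma GG2_eq (m : ℕ) (w y : ℝ) : GG2 m w y = y ^ (2 * m) * (phi y⁻¹ * Real.cos (w * y⁻¹)) := by
  unfold GG2 am
  by_cases h : y ≤ 1
  · rw [phi_inv_zero (Or.inl h)]; ring
  · have : th y = y⁻¹ := by
      unfold th
      rw [Real.smoothTransition.one_of_one_le (by linarith), one_mul]
    rw [this]; ring

lemma GG2_zero (m : ℕ) (w : ℝ) {y : ℝ} (h : y ≤ 1 ∨ 2 ≤ y) : GG2 m w y = 0 := by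
  rw [GG2_eq, phi_inv_zero h]; ring

lemma GG2_le (m : ℕ) (w y : ℝ) : |GG2 m w y| ≤ 2 ^ (2 * m) := by
  by_cases h : y ≤ 1 ∨ 2 ≤ y
  · rw [GG2_zero m w h, abs_zero]; positivity
  · push Not at h
    rw [GG2_eq, abs_mul, abs_mul, abs_of_nonneg (phi_nonneg _), abs_of_nonneg (by
      have : 0 < y := by linarith
      positivity)]
    have h1 : y ^ (2 * m) ≤ 2 ^ (2 * m) := pow_le_pow_left₀ (by linarith) h.2.le _
    have h2 : phi y⁻¹ * |Real.cos (w * y⁻¹)| ≤ 1 :=
      mul_le_one₀ (phi_le_one _) (abs_nonneg _) (Real.abs_cos_le_one _)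
    have h3 : 0 ≤ phi y⁻¹ * |Real.cos (w * y⁻¹)| := mul_nonneg (phi_nonneg _) (abs_nonneg _)
    have h4 : (0:ℝ) ≤ 2 ^ (2 * m) := by positivity
    calc _ ≤ (2:ℝ) ^ (2 * m) * 1 := mul_le_mul h1 h2 h3 h4
      _ = _ := mul_one _

lemma rQ_eq (m R J : ℕ) (hR : 1 ≤ R) (x : ℝ) :
    rQ m R J x = phi x * Real.cos (xx J * x) + ((R:ℝ) ^ (2 * m))⁻¹ * GG2 m (xx J) ((R:ℝ) ^ 2 * x) := by
  unfold rQ
  rw [GG2_eq]
  have hR0 : (0:ℝ) < R := by exact_mod_cast hR
  have h1 : ((R:ℝ) * x) ^ (2 * m) = ((R:ℝ) ^ (2 * m))⁻¹ * ((R:ℝ) ^ 2 * x) ^ (2 * m) := by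
    rw [mul_pow, mul_pow, ← pow_mul]
    field_simp
    ring
  rw [h1]; ring

lemma xx_le (J : ℕ) : 1 + xx J ≤ 2 * (1 + (J:ℝ)) := by
  unfold xx
  have h1 := Real.pi_lt_four
  have h2 : (0:ℝ) ≤ J := by positivity
  nlinarith

lemma xx_ge (J : ℕ) : (J:ℝ) ≤ xx J := by
  unfold xx
  have := Real.pi_gt_three
  have : (0:ℝ) ≤ J := by positivity
  nlinarith

lemma xx_nonneg (J : ℕ) : 0 ≤ xx J := le_trans (by positivity) (xx_ge J)

lemma PP_add {f g : ℝ → ℝ} (hf : Continuous f) (hg : Continuous g) (j : ℕ) :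
    PP (fun x => f x + g x) j = PP f j + PP g j := by
  unfold PP
  rw [← add_div]
  congr 1
  rw [← intervalIntegral.integral_add (Continuous.intervalIntegrable (by fun_prop) _ _)
    (Continuous.intervalIntegrable (by fun_prop) _ _)]
  congr 1; ext x; ring

/-- part 1 of the task -/
lemma part1 (m : ℕ) (hm : 2 ≤ m) (hme : Even m) : ∃ C : ℝ, 0 < C ∧ ∀ R : ℕ, 4 ≤ R → ∀ c : ℝ, 0 < c →
    c ≤ Real.exp (-16) → ∀ J I : ℕ, ∑ j ∈ range I, WS m c j * (PP (rQ m R J) j) ^ 2 ≤ C * WS m c J := by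
  obtain ⟨A₁, hA₁0, hA₁⟩ := iter_bound phi (fun x => x) phi_contDiff contDiff_id
    (fun x hx => phi_zero (by
      rw [Set.mem_Icc, not_and_or, not_le, not_le] at hx
      rcases hx with h | h
      · left; linarith
      · right; linarith)) 0
  obtain ⟨B₁, hB₁0, hB₁⟩ := iter_bound phi (fun x => x) phi_contDiff contDiff_id
    (fun x hx => phi_zero (by
      rw [Set.mem_Icc, not_and_or, not_le, not_le] at hx
      rcases hx with h | h
      · left; linarith
      · right; linarith)) m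
  have ham : ∀ x : ℝ, x ∉ Set.Icc (0:ℝ) 2 → am m x = 0 := fun x hx => by
    unfold am
    rw [phi_inv_zero, mul_zero]
    rw [Set.mem_Icc, not_and_or, not_le, not_le] at hx
    rcases hx with h | h
    · left; linarith
    · right; linarith
  obtain ⟨A₂, hA₂0, hA₂⟩ := iter_bound (am m) th (am_contDiff m) th_contDiff ham 0
  obtain ⟨B₂, hB₂0, hB₂⟩ := iter_bound (am m) th (am_contDiff m) th_contDiff ham m
  set D₁ : ℝ := 2 * A₁ ^ 2 + 4 ^ m * (2 * A₁ ^ 2 + 2 * (B₁ * 2 ^ m) ^ 2) with hD₁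
  set D₂ : ℝ := 2 * A₂ ^ 2 + 4 ^ m * (2 * A₂ ^ 2 + 2 * (B₂ * 2 ^ m) ^ 2) with hD₂
  refine ⟨4 * D₁ + 4 * D₂, by positivity, ?_⟩
  intro R hR c hc hc1 J I
  have hR0 : (0:ℝ) < R := by
    have : 0 < R := by omega
    exact_mod_cast this
  have hR4 : (4:ℝ) ≤ R := by exact_mod_cast hR
  have hR2 : (0:ℝ) < (R:ℝ) ^ 2 := by positivity
  set f : ℝ → ℝ := fun x => phi x * Real.cos (xx J * x) with hf
  set g : ℝ → ℝ := fun x => ((R:ℝ) ^ (2 * m))⁻¹ * GG2 m (xx J) ((R:ℝ) ^ 2 * x) with hg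
  have hfc : ContDiff ℝ ∞ f := phi_contDiff.mul (Real.contDiff_cos.comp (contDiff_const.mul contDiff_id))
  have hG : ContDiff ℝ ∞ (GG2 m (xx J)) :=
    (am_contDiff m).mul (Real.contDiff_cos.comp (contDiff_const.mul th_contDiff))
  have hgc : ContDiff ℝ ∞ g := contDiff_const.mul (hG.comp (contDiff_const.mul contDiff_id))
  have hrQ : rQ m R J = fun x => f x + g x := by
    funext x; exact rQ_eq m R J (by omega) x
  -- a general bound
  have gen : ∀ (u : ℝ → ℝ) (A B : ℝ), 0 ≤ A → 0 ≤ B → ContDiff ℝ ∞ u →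
      (∀ k, iteratedDeriv (2 * k + 1) u 0 = 0 ∧ iteratedDeriv (2 * k + 1) u 2 = 0) →
      (∀ x, |u x| ≤ A) → (∀ x, |iteratedDeriv m u x| ≤ B * (1 + xx J) ^ m) →
      ∑ j ∈ range I, WS m c j * (PP u j) ^ 2 ≤
        2 * (2 * A ^ 2 + 4 ^ m * (2 * A ^ 2 + 2 * (B * 2 ^ m) ^ 2)) * WS m c J := by
    intro u A B hA hB hu h0 h1 h2
    obtain ⟨q1, q2⟩ := bessel_iter hu hme h0 (A := A) (B := B * (1 + xx J) ^ m) (fun x _ => h1 x)
      (fun x _ => h2 x) (range I)
    have hP : (1:ℝ) ≤ (1 + (J:ℝ)) ^ (2 * m) := one_le_pow₀ (by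
      have : (0:ℝ) ≤ J := by positivity
      linarith)
    refine weight_sum (by omega) hc hc1 _ _ J _ ?_ ?_
    · have : (0:ℝ) ≤ 4 ^ m * (2 * A ^ 2 + 2 * (B * 2 ^ m) ^ 2) := by positivity
      linarith
    · refine q2.trans ?_
      have e1 : (B * (1 + xx J) ^ m) ^ 2 ≤ (B * 2 ^ m) ^ 2 * (1 + (J:ℝ)) ^ (2 * m) := by
        have h3 : (1 + xx J) ^ m ≤ (2 * (1 + (J:ℝ))) ^ m :=
          pow_le_pow_left₀ (by have := xx_nonneg J; linarith) (xx_le J) m
        have h4 : 0 ≤ (1 + xx J) ^ m := by have := xx_nonneg J; positivity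
        calc (B * (1 + xx J) ^ m) ^ 2 ≤ (B * (2 * (1 + (J:ℝ))) ^ m) ^ 2 := by gcongr
          _ = _ := by rw [mul_pow 2 (1 + (J:ℝ)) m]; ring
      have h5 : (0:ℝ) ≤ A ^ 2 := sq_nonneg _
      calc (4:ℝ) ^ m * (2 * A ^ 2 + 2 * (B * (1 + xx J) ^ m) ^ 2)
          ≤ 4 ^ m * (2 * A ^ 2 * (1 + (J:ℝ)) ^ (2 * m) + 2 * ((B * 2 ^ m) ^ 2 * (1 + (J:ℝ)) ^ (2 * m))) := by
            refine mul_le_mul_of_nonneg_left ?_ (by positivity)
            nlinarith
        _ ≤ 2 * A ^ 2 * (1 + (J:ℝ)) ^ (2 * m) +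
            4 ^ m * (2 * A ^ 2 * (1 + (J:ℝ)) ^ (2 * m) + 2 * ((B * 2 ^ m) ^ 2 * (1 + (J:ℝ)) ^ (2 * m))) := by
            have : 0 ≤ 2 * A ^ 2 * (1 + (J:ℝ)) ^ (2 * m) := by positivity
            linarith
        _ = _ := by ring
  have h1 := gen f A₁ B₁ hA₁0.le hB₁0.le hfc (fun k => ⟨
      iter_zero (s := Set.Iio (1 / 2)) isOpen_Iio (fun y hy => by
        simp only [hf]; rw [phi_zero (Or.inl (le_of_lt hy)), zero_mul]) (by norm_num) _,
      iter_zero (s := Set.Ioi 1) isOpen_Ioi (fun y hy => by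
        simp only [hf]; rw [phi_zero (Or.inr (le_of_lt hy)), zero_mul]) (by norm_num) _⟩)
    (fun x => by
      have := hA₁ (xx J) (xx_nonneg J) x
      simp only [iteratedDeriv_zero, pow_zero, mul_one] at this
      exact this)
    (fun x => hB₁ (xx J) (xx_nonneg J) x)
  have hRm : (1:ℝ) ≤ (R:ℝ) ^ (2 * m) := one_le_pow₀ (by linarith)
  have hgm : ∀ x, iteratedDeriv m g x = iteratedDeriv m (GG2 m (xx J)) ((R:ℝ) ^ 2 * x) := by
    intro x
    have e1 : iteratedDeriv m (fun x => GG2 m (xx J) ((R:ℝ) ^ 2 * x)) x =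
        ((R:ℝ) ^ 2) ^ m * iteratedDeriv m (GG2 m (xx J)) ((R:ℝ) ^ 2 * x) := by
      rw [iteratedDeriv_comp_const_mul (hG.of_le (nat_le m)) ((R:ℝ) ^ 2)]
    have e2 : iteratedDeriv m g x =
        ((R:ℝ) ^ (2 * m))⁻¹ * iteratedDeriv m (fun x => GG2 m (xx J) ((R:ℝ) ^ 2 * x)) x := by
      rw [hg, iteratedDeriv_const_mul_field]
    rw [e2, e1, ← pow_mul, ← mul_assoc, inv_mul_cancel₀ (by positivity), one_mul]
  have h2 := gen g A₂ B₂ hA₂0.le hB₂0.le hgc (fun k => ⟨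
      iter_zero (s := Set.Iio (1 / (R:ℝ) ^ 2)) isOpen_Iio (fun y hy => by
        simp only [hg]
        have h3 : y < 1 / (R:ℝ) ^ 2 := hy
        rw [lt_div_iff₀ hR2] at h3
        rw [GG2_zero m _ (Or.inl (by linarith)), mul_zero])
        (by rw [Set.mem_Iio]; positivity) _,
      iter_zero (s := Set.Ioi 1) isOpen_Ioi (fun y hy => by
        simp only [hg]
        have h3 : (1:ℝ) < y := hy
        rw [GG2_zero m _ (Or.inr (by nlinarith)), mul_zero]) (by norm_num) _⟩)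
    (fun x => by
      have h3 := hA₂ (xx J) (xx_nonneg J) ((R:ℝ) ^ 2 * x)
      simp only [iteratedDeriv_zero, pow_zero, mul_one] at h3
      simp only [hg]
      rw [abs_mul, abs_inv, abs_of_pos (by positivity : (0:ℝ) < (R:ℝ) ^ (2 * m))]
      have h4 : ((R:ℝ) ^ (2 * m))⁻¹ ≤ 1 := inv_le_one_of_one_le₀ hRm
      have h5 : 0 ≤ |GG2 m (xx J) ((R:ℝ) ^ 2 * x)| := abs_nonneg _
      have h6 : |GG2 m (xx J) ((R:ℝ) ^ 2 * x)| ≤ A₂ := h3
      have h7 : (0:ℝ) ≤ ((R:ℝ) ^ (2 * m))⁻¹ := by positivity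
      nlinarith)
    (fun x => by
      rw [hgm]
      exact hB₂ (xx J) (xx_nonneg J) _)
  have h3 : ∀ j, WS m c j * (PP (rQ m R J) j) ^ 2 ≤
      2 * (WS m c j * (PP f j) ^ 2) + 2 * (WS m c j * (PP g j) ^ 2) := by
    intro j
    rw [hrQ, PP_add hfc.continuous hgc.continuous]
    have h4 := WS_nonneg (m := m) hc j
    have h5 : (PP f j + PP g j) ^ 2 ≤ 2 * PP f j ^ 2 + 2 * PP g j ^ 2 := by
      nlinarith [sq_nonneg (PP f j - PP g j)]
    nlinarith
  calc ∑ j ∈ range I, WS m c j * (PP (rQ m R J) j) ^ 2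
      ≤ ∑ j ∈ range I, (2 * (WS m c j * (PP f j) ^ 2) + 2 * (WS m c j * (PP g j) ^ 2)) :=
        sum_le_sum fun j _ => h3 j
    _ = 2 * ∑ j ∈ range I, WS m c j * (PP f j) ^ 2 + 2 * ∑ j ∈ range I, WS m c j * (PP g j) ^ 2 := by
        rw [sum_add_distrib, mul_sum, mul_sum]
    _ ≤ (4 * D₁ + 4 * D₂) * WS m c J := by
        rw [← hD₁] at h1
        rw [← hD₂] at h2
        linarith

/-- part 2 of the task -/
lemma part2 (m : ℕ) (hm : 2 ≤ m) (R : ℕ) (hR : 4 ≤ R) (J : ℕ) (hJ : 20 ≤ J) :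
    1 / 20 ≤ PP (rQ m R J) J := by
  have hR0 : (0:ℝ) < R := by
    have : 0 < R := by omega
    exact_mod_cast this
  have hR4 : (4:ℝ) ≤ R := by exact_mod_cast hR
  have hR2 : (0:ℝ) < (R:ℝ) ^ 2 := by positivity
  have hR16 : (16:ℝ) ≤ (R:ℝ) ^ 2 := by nlinarith
  have hJ20 : (20:ℝ) ≤ J := by exact_mod_cast hJ
  have hx20 : 20 ≤ xx J := hJ20.trans (xx_ge J)
  set f : ℝ → ℝ := fun x => phi x * Real.cos (xx J * x) with hf
  set g : ℝ → ℝ := fun x => ((R:ℝ) ^ (2 * m))⁻¹ * GG2 m (xx J) ((R:ℝ) ^ 2 * x) with hg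
  have hfc : Continuous f := phi_contDiff.continuous.mul (by fun_prop)
  have hG : Continuous (GG2 m (xx J)) :=
    (am_contDiff m).continuous.mul (Real.continuous_cos.comp (continuous_const.mul th_contDiff.continuous))
  have hgc : Continuous g := continuous_const.mul (hG.comp (continuous_const.mul continuous_id))
  have hrQ : rQ m R J = fun x => f x + g x := by
    funext x; exact rQ_eq m R J (by omega) x
  have hw : ww J = 1 := by
    unfold ww; rw [if_neg (by omega)]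
  rw [hrQ, PP_add hfc hgc]
  -- the main packet
  have h1 : 1 / 8 - 1 / 40 ≤ PP f J := by
    unfold PP
    rw [hw, div_one]
    have e1 : ∫ x in (5/8:ℝ)..(7/8), Real.cos (xx J * x) * Real.cos (xx J * x) ≤
        ∫ x in (0:ℝ)..2, f x * Real.cos (xx J * x) := by
      have hc : Continuous fun x => f x * Real.cos (xx J * x) := by fun_prop
      have i1 : ∀ a b, IntervalIntegrable (fun x => f x * Real.cos (xx J * x)) volume a b :=
        fun a b => hc.intervalIntegrable _ _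
      rw [← intervalIntegral.integral_add_adjacent_intervals (i1 0 (5/8)) (i1 (5/8) 2),
        ← intervalIntegral.integral_add_adjacent_intervals (i1 (5/8) (7/8)) (i1 (7/8) 2)]
      have hn : ∀ x, 0 ≤ f x * Real.cos (xx J * x) := fun x => by
        simp only [hf]
        rw [mul_assoc]
        exact mul_nonneg (phi_nonneg x) (mul_self_nonneg _)
      have n1 : 0 ≤ ∫ x in (0:ℝ)..(5/8), f x * Real.cos (xx J * x) :=
        intervalIntegral.integral_nonneg (by norm_num) fun x _ => hn x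
      have n2 : 0 ≤ ∫ x in (7/8:ℝ)..2, f x * Real.cos (xx J * x) :=
        intervalIntegral.integral_nonneg (by norm_num) fun x _ => hn x
      have e2 : ∫ x in (5/8:ℝ)..(7/8), f x * Real.cos (xx J * x) =
          ∫ x in (5/8:ℝ)..(7/8), Real.cos (xx J * x) * Real.cos (xx J * x) := by
        apply intervalIntegral.integral_congr
        intro x hx
        rw [Set.uIcc_of_le (by norm_num)] at hx
        simp only [hf]
        rw [phi_one hx.1 hx.2, one_mul]
      rw [e2]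
      linarith
    refine le_trans ?_ e1
    have e3 : ∀ x : ℝ, Real.cos (xx J * x) * Real.cos (xx J * x) = 1 / 2 + 1 / 2 * Real.cos ((2 * xx J) * x) := by
      intro x
      rw [show 2 * xx J * x = 2 * (xx J * x) by ring, Real.cos_two_mul]; ring
    simp_rw [e3]
    rw [intervalIntegral.integral_add (Continuous.intervalIntegrable (by fun_prop) _ _)
      (Continuous.intervalIntegrable (by fun_prop) _ _), intervalIntegral.integral_const,
      intervalIntegral.integral_const_mul,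
      intervalIntegral.integral_comp_mul_left (fun t => Real.cos t) (by linarith), integral_cos]
    have h2 : |Real.sin (2 * xx J * (7 / 8)) - Real.sin (2 * xx J * (5 / 8))| ≤ 2 := by
      have a1 := Real.abs_sin_le_one (2 * xx J * (7 / 8))
      have a2 := Real.abs_sin_le_one (2 * xx J * (5 / 8))
      have := abs_sub (Real.sin (2 * xx J * (7 / 8))) (Real.sin (2 * xx J * (5 / 8)))
      linarith
    have h3 := (abs_le.1 h2).1
    have h4 : (2 * xx J)⁻¹ ≤ 1 / 40 := by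
      rw [one_div]; exact inv_anti₀ (by norm_num) (by linarith)
    have h5 : (0:ℝ) < (2 * xx J)⁻¹ := by positivity
    simp only [smul_eq_mul]
    have h6 : -(1 / 20 : ℝ) ≤ (2 * xx J)⁻¹ *
        (Real.sin (2 * xx J * (7 / 8)) - Real.sin (2 * xx J * (5 / 8))) := by nlinarith
    linarith
  -- the mirror packet
  have h2 : |PP g J| ≤ 1 / 64 := by
    unfold PP
    rw [hw, div_one]
    have hz : ∀ x, 2 / (R:ℝ) ^ 2 ≤ x → g x = 0 := fun x hx => by
      simp only [hg]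
      rw [div_le_iff₀ hR2] at hx
      rw [GG2_zero m _ (Or.inr (by linarith)), mul_zero]
    have hb : ∀ x, |g x| ≤ 1 / 16 := fun x => by
      simp only [hg]
      rw [abs_mul, abs_inv, abs_of_pos (by positivity : (0:ℝ) < (R:ℝ) ^ (2 * m))]
      have h3 := GG2_le m (xx J) ((R:ℝ) ^ 2 * x)
      have h4 : ((R:ℝ) ^ (2 * m))⁻¹ * |GG2 m (xx J) ((R:ℝ) ^ 2 * x)| ≤
          ((R:ℝ) ^ (2 * m))⁻¹ * 2 ^ (2 * m) := mul_le_mul_of_nonneg_left h3 (by positivity)
      refine h4.trans ?_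
      have h5 : ((R:ℝ) ^ (2 * m))⁻¹ * 2 ^ (2 * m) = (2 / R) ^ (2 * m) := by
        rw [div_pow]; field_simp
      rw [h5]
      have h6 : (2 / (R:ℝ)) ≤ 1 / 2 := by
        rw [div_le_div_iff₀ hR0 (by norm_num)]; linarith
      have h7 : (2 / (R:ℝ)) ^ (2 * m) ≤ (1 / 2) ^ (2 * m) := pow_le_pow_left₀ (by positivity) h6 _
      have h8 : ((1:ℝ) / 2) ^ (2 * m) ≤ (1 / 2) ^ 4 :=
        pow_le_pow_of_le_one (by norm_num) (by norm_num) (by omega)
      norm_num at h8 ⊢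
      norm_num at h7
      linarith
    have hc : Continuous fun x => g x * Real.cos (xx J * x) := by fun_prop
    have i1 : ∀ a b, IntervalIntegrable (fun x => g x * Real.cos (xx J * x)) volume a b :=
      fun a b => hc.intervalIntegrable _ _
    have hq : 2 / (R:ℝ) ^ 2 ≤ 1 / 8 := by
      rw [div_le_div_iff₀ hR2 (by norm_num)]; linarith
    have hq0 : 0 < 2 / (R:ℝ) ^ 2 := by positivity
    rw [← intervalIntegral.integral_add_adjacent_intervals (i1 0 (2 / (R:ℝ) ^ 2)) (i1 (2 / (R:ℝ) ^ 2) 2)]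
    have e1 : ∫ x in (2 / (R:ℝ) ^ 2)..2, g x * Real.cos (xx J * x) = 0 := by
      have : ∫ x in (2 / (R:ℝ) ^ 2)..2, g x * Real.cos (xx J * x) = ∫ x in (2 / (R:ℝ) ^ 2)..2, (0:ℝ) := by
        apply intervalIntegral.integral_congr
        intro x hx
        rw [Set.uIcc_of_le (by linarith)] at hx
        simp only
        rw [hz x hx.1, zero_mul]
      rw [this, intervalIntegral.integral_zero]
    rw [e1, add_zero]
    have e2 := intervalIntegral.norm_integral_le_of_norm_le_const (a := (0:ℝ)) (b := 2 / (R:ℝ) ^ 2)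
      (f := fun x => g x * Real.cos (xx J * x)) (C := 1 / 16) (fun x _ => by
        rw [norm_mul, Real.norm_eq_abs, Real.norm_eq_abs]
        have := Real.abs_cos_le_one (xx J * x)
        have h3 := hb x
        have h4 := abs_nonneg (g x)
        have h5 := abs_nonneg (Real.cos (xx J * x))
        nlinarith)
    rw [Real.norm_eq_abs, sub_zero, abs_of_pos hq0] at e2
    linarith
  have h3 := (abs_le.1 h2).1
  linarith

end SrcQ

theorem pf_TaskSrcQ : TaskSrcQ := by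
  intro m hm hme
  obtain ⟨C, hC, h⟩ := SrcQ.part1 m hm hme
  exact ⟨C, Real.exp (-16), 20, hC, Real.exp_pos _, fun R hR =>
    ⟨fun c hc hc1 J I => h R hR c hc hc1 J I, fun J hJ => SrcQ.part2 m hm R hR J hJ⟩⟩

end Pool.Agent.H472.Q2
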